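import Pool.Agent.Helper26.DD.KxA

/-!
# DD module II-7: semicontinuity of `x ↦ Kx x`.

`ball_subset`: the closed sets `{z' | z' ∉ O ∧ Nr4 (z'.at m F) (z.at m F)}` are antitone in
`(m,F)` (directed index set); a common point `z'` would satisfy `RR z' z` (by `R_of_nr4` for each
`F`), so `z' ∈ O`; hence one of them is empty.
`Kx_lsc`: take `(m,F)` from `ball_subset` for a point `z ∈ Kx x0 ∩ O`. `z.at m F ∈ Up m F x0` is
adjacent to some `a ∈ Lo m F x0` (`Up_N1`). For `x` near `x0`, `a ∈ Up m F x` (`Lo_lsc`), so it is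
adjacent to some `b ∈ Lo m F x` and by `Kx_through` there is `z' ∈ Kx x` with `z'.at m F = b`.
`Kx_usc`: `Kx x0` is the directed intersection of the closed sets `{z | z.at m F ∈ Up m F x0}`
so one of them is contained in `O`; use `Up_usc`.
-/

set_option autoImplicit false

namespace Pool.Agent.H26DD

open Topology

variable {X : Type} [TopologicalSpace X] {ι : Type} [DecidableEq ι] {L : Letters X ι}

private lemma nr4_le {T : Tow L} {m m' : ℕ} {F F' : Finset ι} (hm : m ≤ m') (hF : F ⊆ F')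
    {z z' : Thread T} (h : Nr4 (T.adj m' F') (z'.at m' F') (z.at m' F')) :
    Nr4 (T.adj m F) (z'.at m F) (z.at m F) := by
  have h1 := Nr4_dn T m m' hm F' _ _ h
  rw [Thread.dn_at, Thread.dn_at] at h1
  obtain ⟨c, h2, h3⟩ := h1
  refine ⟨T.res m F' F hF c, ?_, ?_⟩
  · have := Nr2_res T m F' F hF _ _ h2
    rwa [Thread.res_at] at this
  · have := Nr2_res T m F' F hF _ _ h3
    rwa [Thread.res_at] at this

private lemma up_le {T : Tow L} {m m' : ℕ} {F F' : Finset ι} (hm : m ≤ m') (hF : F ⊆ F')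
    {z : Thread T} {x : X} (h : z.at m' F' ∈ T.Up m' F' x) : z.at m F ∈ T.Up m F x := by
  have h1 : z.at m F' ∈ T.Up m F' x := by
    have := Up_dn_iter T m m' hm F' x ⟨_, h, rfl⟩
    rwa [Thread.dn_at] at this
  have h2 : T.res m F' F hF (z.at m F') ∈ T.Up m F x := by
    rw [← T.Up_res m F' F hF x]
    exact ⟨_, h1, rfl⟩
  rwa [Thread.res_at] at h2

private lemma meet {T : Tow L} (C : ℕ → Finset ι → Set (Thread T))
    (hC : ∀ m F, IsClosed (C m F)) (hne : ∀ m F, (C m F).Nonempty)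
    (hanti : ∀ m m' F F', m ≤ m' → F ⊆ F' → C m' F' ⊆ C m F) :
    ∃ z, ∀ m F, z ∈ C m F := by
  have key := IsCompact.nonempty_iInter_of_directed_nonempty_isCompact_isClosed
    (fun p : ℕ × Finset ι => C p.1 p.2) (fun p q => ⟨(max p.1 q.1, p.2 ∪ q.2),
      hanti _ _ _ _ (le_max_left _ _) Finset.subset_union_left,
      hanti _ _ _ _ (le_max_right _ _) Finset.subset_union_right⟩)
    (fun p => hne p.1 p.2) (fun p => (hC p.1 p.2).isCompact) (fun p => hC p.1 p.2)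
  obtain ⟨z, hz⟩ := key
  rw [Set.mem_iInter] at hz
  exact ⟨z, fun m F => hz (m, F)⟩

theorem ball_subset {T : Tow L} {O : Set (Thread T)} (hO : IsOpen O)
    (hsat : ∀ z z', z ∈ O → RR T z z' → z' ∈ O) {z : Thread T} (hz : z ∈ O) :
    ∃ m F, ∀ z' : Thread T, Nr4 (T.adj m F) (z'.at m F) (z.at m F) → z' ∈ O := by
  by_contra hcon
  push Not at hcon
  obtain ⟨z', hz'⟩ := meet
    (fun m F => {z' : Thread T | z' ∉ O ∧ Nr4 (T.adj m F) (z'.at m F) (z.at m F)})
    (fun m F => hO.isClosed_compl.inter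
      (isClopen_at T m F {v | Nr4 (T.adj m F) v (z.at m F)}).isClosed)
    (fun m F => by
      obtain ⟨z', h1, h2⟩ := hcon m F
      exact ⟨z', h2, h1⟩)
    (fun m m' F F' hm hF z' h => ⟨h.1, nr4_le hm hF h.2⟩)
  refine (hz' 0 ∅).1 (hsat z z' hz fun F => R_symm (R_of_nr4 fun m => (hz' m F).2))

theorem Kx_lsc {T : Tow L} {O : Set (Thread T)} (hO : IsOpen O)
    (hsat : ∀ z z', z ∈ O → RR T z z' → z' ∈ O) (x0 : X) (h : (Kx T x0 ∩ O).Nonempty) :
    ∀ᶠ x in 𝓝 x0, (Kx T x ∩ O).Nonempty := by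
  obtain ⟨z, hz, hzO⟩ := h
  obtain ⟨m, F, hb⟩ := ball_subset hO hsat hzO
  obtain ⟨a, ha, haz⟩ := T.Up_N1 m F x0 (hz m F)
  filter_upwards [T.Lo_lsc m F x0] with x hx
  obtain ⟨b, hb1, hba⟩ := T.Up_N1 m F x (hx ha)
  obtain ⟨z', hz', e⟩ := Kx_through T x m F b hb1
  refine ⟨z', hz', hb z' ?_⟩
  rw [e]
  exact Nr4_of_Nr2 T m F _ _ ⟨a, hba, haz⟩

theorem Kx_usc {T : Tow L} {O : Set (Thread T)} (hO : IsOpen O) (x0 : X) (h : Kx T x0 ⊆ O) :
    ∀ᶠ x in 𝓝 x0, Kx T x ⊆ O := by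
  have key : ∃ m F, ∀ z : Thread T, z.at m F ∈ T.Up m F x0 → z ∈ O := by
    by_contra hcon
    push Not at hcon
    obtain ⟨z, hz⟩ := meet
      (fun m F => {z : Thread T | z ∉ O ∧ z.at m F ∈ T.Up m F x0})
      (fun m F => hO.isClosed_compl.inter (isClopen_at T m F (T.Up m F x0)).isClosed)
      (fun m F => by
        obtain ⟨z, h1, h2⟩ := hcon m F
        exact ⟨z, h2, h1⟩)
      (fun m m' F F' hm hF z' h => ⟨h.1, up_le hm hF h.2⟩)
    exact (hz 0 ∅).1 (h fun m F => (hz m F).2)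
  obtain ⟨m, F, hk⟩ := key
  filter_upwards [T.Up_usc m F x0] with x hx z hz
  exact hk z (hx (hz m F))

end Pool.Agent.H26DD
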