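import Pool.Agent.Helper26.DD.QuoA
import Pool.Agent.Helper26.DD.KxC

/-!
# DD module II-24: the embedding `x ↦ KK x = YY.mk '' Kx x`.

Closed: compact image in a Hausdorff space. Connected: `conn_of_levels`, `Kx_conn`.
Injective: let `x ≠ x'`, by `Sep` (up to exchanging) `r j x = 0`, `r j x' = 1`. `¬ bz 0 j x'` (`bz_one`),
so `nbz` gives `v ∈ Lo 1 {j} x'` not adjacent to `o 1 j`. To get more distance apply `nbz` in the form:
take `z' ∈ Kx x'` with `z'.at 1 {j} = v` (`Kx_through`). If `KK x = KK x'` there is `z ∈ Kx x` with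
`RR z z'`. `Kx_zero`: `z.at m {j}` is adjacent to `o m j` for all `m`; at stage `2`:
`z'.at 2 {j} ~ z.at 2 {j} ~ o 2 j`, so by `sd` `v = z'.at 1 {j}` is adjacent to `dn (o 2 j) = o 1 j`:
contradiction.
Continuity: for `U` open in `YY T` let `O` be its preimage (open, `RR`-saturated): `Kx_usc`, `Kx_lsc`.
-/

set_option autoImplicit false

namespace Pool.Agent.H26DD

open Topology

variable {X : Type} [TopologicalSpace X] {ι : Type} [DecidableEq ι] {L : Letters X ι}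

/-- the embedding -/
def KK (T : Tow L) (x : X) : Set (YY T) := YY.mk '' Kx T x

theorem KK_closed (T : Tow L) (x : X) : IsClosed (KK T x) := by
  exact ((Kx_closed T x).isCompact.image (YY.continuous_mk T)).isClosed

theorem KK_conn (T : Tow L) (x : X) : IsConnected (KK T x) :=
  conn_of_levels (Kx T x) (Kx_closed T x) (Kx_ne T x) (fun m F => Kx_conn T x m F)

theorem KK_inj_aux (T : Tow L) (j : ι) (x x' : X) (h0 : L.r j x = 0) (h1 : L.r j x' = 1)
    (h : KK T x = KK T x') : False := by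
  obtain ⟨v, hv, hnv⟩ := T.nbz 0 j x' (T.bz_one 0 j x' h1)
  obtain ⟨z', hz', hz'v⟩ := Kx_through T x' (0 + 1) {j} v hv
  have hm : YY.mk z' ∈ KK T x := by
    rw [h]
    exact ⟨z', hz', rfl⟩
  obtain ⟨z, hz, hzz⟩ := hm
  have hR : RR T z z' := YY.mk_eq.mp hzz
  have h2 := Kx_zero T j x h0 z hz (0 + 1 + 1)
  have h3 := T.asymm _ _ _ _ (hR {j} (0 + 1 + 1))
  have h4 := T.sd (0 + 1) {j} _ _ _ h3 h2
  rw [T.o_dn] at h4
  have h5 : T.dn (0 + 1) (0 + 1 + 1) (Nat.le_succ (0 + 1)) {j} (z'.at (0 + 1 + 1) {j})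
      = z'.at (0 + 1) {j} := z'.2.2.1 (0 + 1) {j}
  rw [h5, hz'v] at h4
  exact hnv h4

theorem KK_inj (T : Tow L) (hsep : L.Sep) : Function.Injective (KK T) := by
  intro x x' h
  by_contra hne
  obtain ⟨i, hi | hi⟩ := hsep x x' hne
  · exact KK_inj_aux T i x x' hi.1 hi.2 h
  · exact KK_inj_aux T i x' x hi.2 hi.1 h.symm

theorem KK_cont (T : Tow L) (U : Set (YY T)) (hU : IsOpen U) :
    IsOpen {x : X | KK T x ⊆ U} ∧ IsOpen {x : X | (KK T x ∩ U).Nonempty} := by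
  have hO : IsOpen (YY.mk ⁻¹' U : Set (Thread T)) := (YY.isOpen_iff U).mp hU
  have e1 : {x : X | KK T x ⊆ U} = {x : X | Kx T x ⊆ YY.mk ⁻¹' U} := by
    ext x
    simp only [Set.mem_setOf_eq, KK]
    exact Set.image_subset_iff
  have e2 : {x : X | (KK T x ∩ U).Nonempty} = {x : X | (Kx T x ∩ YY.mk ⁻¹' U).Nonempty} := by
    ext x
    simp only [Set.mem_setOf_eq, KK]
    constructor
    · rintro ⟨y, ⟨z, hz, rfl⟩, hy⟩
      exact ⟨z, hz, hy⟩
    · rintro ⟨z, hz, hy⟩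
      exact ⟨YY.mk z, ⟨z, hz, rfl⟩, hy⟩
  rw [e1, e2]
  constructor
  · rw [isOpen_iff_mem_nhds]
    intro x0 hx0
    exact Kx_usc hO x0 hx0
  · rw [isOpen_iff_mem_nhds]
    intro x0 hx0
    refine Kx_lsc hO ?_ x0 hx0
    intro z z' hz hR
    have : YY.mk z = YY.mk z' := YY.mk_eq.mpr hR
    change YY.mk z' ∈ U
    rw [← this]
    exact hz

end Pool.Agent.H26DD
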