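import Pool.Agent.Helper26.DD.QuoB
import Pool.Agent.Helper26.DD.Emb

/-!
# DD: end of part II.
-/

set_option autoImplicit false

namespace Pool.Agent.H26DD

open Topology

variable {X : Type} [TopologicalSpace X] {ι : Type} [DecidableEq ι] {L : Letters X ι}

theorem partII [CompactSpace X] (T : Tow L) (hsep : L.Sep) :
    ∃ (Y : Type) (_ : TopologicalSpace Y), CompactSpace Y ∧ ConnectedSpace Y ∧ T2Space Y ∧
      (∀ A B : Set Y, IsClosed A → IsConnected A → IsClosed B → IsConnected B →
        (A ∩ B).Nonempty → A ⊆ B ∨ B ⊆ A) ∧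
      ∃ f : X → Set Y,
        (∀ x, IsClosed (f x) ∧ IsConnected (f x)) ∧
        Function.Injective f ∧
        (∀ U : Set Y, IsOpen U →
          IsOpen {x : X | f x ⊆ U} ∧ IsOpen {x : X | (f x ∩ U).Nonempty}) :=
  ⟨YY T, inferInstance, inferInstance, inferInstance, inferInstance,
    fun A B hA hAc hB hBc hne => YY_HI T A B hA hAc hB hBc hne,
    KK T, fun x => ⟨KK_closed T x, KK_conn T x⟩, KK_inj T hsep, fun U hU => KK_cont T U hU⟩

end Pool.Agent.H26DD
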