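import Mathlib

/-!
# Weak separation implies strong separation in a continuum

If in a Hausdorff continuum any two distinct points lie in different components of the complement of
a third point, then the continuum is locally connected; hence the components are open and the third
point separates in the strong sense (two disjoint open sets).
-/

set_option autoImplicit false

open Set Filter Topology

namespace Pool.Agent.H26DW

variable {X : Type*} [TopologicalSpace X] [CompactSpace X] [ConnectedSpace X] [T2Space X]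

/-- Boundary bumping. -/
theorem bump {G : Set X} (hG : IsOpen G) (hne : G ≠ univ) {q : X} (hq : q ∈ G) :
    ∃ b ∈ connectedComponentIn (closure G) q, b ∉ G := by
  by_contra h
  push Not at h
  have hqc : q ∈ closure G := subset_closure hq
  have : CompactSpace (closure G) := isCompact_iff_compactSpace.1 isClosed_closure.isCompact
  set q' : closure G := ⟨q, hqc⟩ with hq'
  have hcc : connectedComponent q' = ⋂ s : { s : Set (closure G) // IsClopen s ∧ q' ∈ s }, s.1 :=
    connectedComponent_eq_iInter_isClopen q'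
  have hsub : ∀ y ∈ connectedComponent q', (y : X) ∈ G := by
    intro y hy
    apply h
    rw [connectedComponentIn_eq_image hqc]
    exact ⟨y, hy, rfl⟩
  have hU : IsOpen {y : closure G | (y : X) ∈ G} := hG.preimage continuous_subtype_val
  have hdir : Directed (· ⊇ ·)
      (fun s : { s : Set (closure G) // IsClopen s ∧ q' ∈ s } => s.1) := by
    intro s t
    exact ⟨⟨s.1 ∩ t.1, s.2.1.inter t.2.1, s.2.2, t.2.2⟩, inter_subset_left, inter_subset_right⟩
  have : Nonempty { s : Set (closure G) // IsClopen s ∧ q' ∈ s } :=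
    ⟨⟨univ, isClopen_univ, mem_univ _⟩⟩
  obtain ⟨s, hs⟩ := exists_subset_nhds_of_compactSpace hdir (fun s => s.2.1.isClosed)
    (U := {y : closure G | (y : X) ∈ G}) (fun y hy => hU.mem_nhds (hsub y (by rw [hcc]; exact hy)))
  obtain ⟨O, hO, hOs⟩ := isOpen_induced_iff.1 s.2.1.isOpen
  have himg : ((↑) '' s.1 : Set X) = G ∩ O := by
    ext y
    constructor
    · rintro ⟨y', hy', rfl⟩
      refine ⟨hs hy', ?_⟩
      rw [← hOs] at hy'
      exact hy'
    · rintro ⟨h1, h2⟩
      refine ⟨⟨y, subset_closure h1⟩, ?_, rfl⟩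
      rw [← hOs]
      exact h2
  have hcl : IsClosed ((↑) '' s.1 : Set X) :=
    isClosed_closure.isClosedEmbedding_subtypeVal.isClosedMap _ s.2.1.isClosed
  have hop : IsOpen ((↑) '' s.1 : Set X) := by rw [himg]; exact hG.inter hO
  have huniv : ((↑) '' s.1 : Set X) = univ :=
    IsClopen.eq_univ ⟨hcl, hop⟩ ⟨q, q', s.2.2, rfl⟩
  apply hne
  rw [himg] at huniv
  exact eq_univ_of_univ_subset (by rw [← huniv]; exact inter_subset_left)

omit [CompactSpace X] [ConnectedSpace X] [T2Space X] in
/-- Adding limit points to a component of the complement of a point. -/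
theorem clos_sub {z w a : X} (ha : a ∈ closure (connectedComponentIn ({z}ᶜ) w)) (haz : a ≠ z)
    (hw : w ≠ z) : a ∈ connectedComponentIn ({z}ᶜ) w := by
  have h1 : IsPreconnected (insert a (connectedComponentIn ({z}ᶜ) w)) :=
    isPreconnected_connectedComponentIn.subset_closure (subset_insert _ _)
      (insert_subset ha subset_closure)
  have h2 : insert a (connectedComponentIn ({z}ᶜ) w) ⊆ {z}ᶜ :=
    insert_subset (by simpa using haz) (connectedComponentIn_subset _ _)
  have h3 : w ∈ insert a (connectedComponentIn ({z}ᶜ) w) :=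
    mem_insert_of_mem _ (mem_connectedComponentIn (by simpa using hw))
  exact h1.subset_connectedComponentIn h3 h2 (mem_insert _ _)

/-- The point z is in the closure of each component of its complement. -/
theorem pt_clos {z q : X} (hq : q ≠ z) : z ∈ closure (connectedComponentIn ({z}ᶜ) q) := by
  by_contra hz
  obtain ⟨W, hW, hzW, hWc⟩ := normal_exists_closure_subset (isClosed_singleton (x := z))
    (isClosed_closure (s := connectedComponentIn ({z}ᶜ) q)).isOpen_compl
    (singleton_subset_iff.2 hz)
  have hqK : q ∈ connectedComponentIn ({z}ᶜ) q := mem_connectedComponentIn (by simpa using hq)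
  have hqG : q ∈ (closure W)ᶜ := fun h => hWc h (subset_closure hqK)
  have hclG : closure ((closure W)ᶜ) ⊆ Wᶜ :=
    closure_minimal (compl_subset_compl.2 subset_closure) hW.isClosed_compl
  have hGne : (closure W)ᶜ ≠ univ := by
    intro h
    have : z ∈ (closure W)ᶜ := by rw [h]; trivial
    exact this (subset_closure (hzW rfl))
  obtain ⟨b, hb1, hb2⟩ := bump (isClosed_closure (s := W)).isOpen_compl hGne hqG
  have hsub : connectedComponentIn (closure ((closure W)ᶜ)) q ⊆ connectedComponentIn ({z}ᶜ) q := by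
    apply isPreconnected_connectedComponentIn.subset_connectedComponentIn
    · exact mem_connectedComponentIn (subset_closure hqG)
    · refine (connectedComponentIn_subset _ _).trans (hclG.trans ?_)
      intro y hy hyz
      rw [mem_singleton_iff] at hyz
      subst hyz
      exact hy (hzW rfl)
  have hb3 : b ∈ closure W := by
    by_contra hb3
    exact hb2 hb3
  exact hWc hb3 (subset_closure (hsub hb1))

/-- The hypothesis: any two distinct points are in different components of the complement of a
third point. -/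
def Weak (X : Type*) [TopologicalSpace X] : Prop :=
  ∀ x y : X, x ≠ y → ∃ z : X, x ≠ z ∧ y ≠ z ∧
    connectedComponentIn ({z}ᶜ) x ≠ connectedComponentIn ({z}ᶜ) y

theorem locConn (hW : Weak X) : LocallyConnectedSpace X := by
  classical
  rw [locallyConnectedSpace_iff_connectedComponentIn_open]
  intro F hF x hx
  rw [isOpen_iff_mem_nhds]
  intro p hp
  by_contra hp'
  set K := connectedComponentIn F x with hK
  have hpF : p ∈ F := connectedComponentIn_subset _ _ hp
  have hKp : K = connectedComponentIn F p := connectedComponentIn_eq hp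
  have hFne : F ≠ univ := by
    intro h
    apply hp'
    have : K = univ := by
      rw [hK, h, connectedComponentIn_univ]
      exact PreconnectedSpace.connectedComponent_eq_univ x
    rw [this]
    exact univ_mem
  obtain ⟨G, hG, hpG, hGF⟩ := normal_exists_closure_subset (isClosed_singleton (x := p)) hF
    (singleton_subset_iff.2 hpF)
  have hpG' : p ∈ G := hpG rfl
  have hGne : G ≠ univ := by
    intro h
    apply hFne
    apply eq_univ_of_univ_subset
    rw [← h]
    exact subset_closure.trans hGF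
  -- the ultrafilter
  have hnb : (𝓝[Kᶜ] p).NeBot := by
    rw [← mem_closure_iff_nhdsWithin_neBot, closure_compl]
    intro h
    exact hp' (mem_interior_iff_mem_nhds.1 h)
  set 𝒰 : Ultrafilter X := Ultrafilter.of (𝓝[Kᶜ] p) with h𝒰
  have hU1 : (𝒰 : Filter X) ≤ 𝓝[Kᶜ] p := Ultrafilter.of_le _
  have hU2 : (𝒰 : Filter X) ≤ 𝓝 p := hU1.trans nhdsWithin_le_nhds
  have hev1 : ∀ᶠ q in (𝒰 : Filter X), q ∉ K := hU1 self_mem_nhdsWithin
  have hev2 : ∀ᶠ q in (𝒰 : Filter X), q ∈ G := hU2 (hG.mem_nhds hpG')
  set C : X → Set X := fun q => connectedComponentIn (closure G) q with hC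
  have hCq : ∀ q ∈ G, q ∈ C q := fun q hq => mem_connectedComponentIn (subset_closure hq)
  have hCpre : ∀ q, IsPreconnected (C q) := fun q => isPreconnected_connectedComponentIn
  have hCcl : ∀ q, C q ⊆ closure G := fun q => connectedComponentIn_subset _ _
  have hCK : ∀ q ∈ G, q ∉ K → Disjoint (C q) K := by
    intro q hq hqK
    rw [Set.disjoint_left]
    intro y hy1 hy2
    apply hqK
    have h1 : K = connectedComponentIn F y := connectedComponentIn_eq hy2
    rw [h1]
    exact (hCpre q).subset_connectedComponentIn hy1 ((hCcl q).trans hGF) (hCq q hq)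
  -- the limit set
  set A : Set X := {a | ∀ O : Set X, IsOpen O → a ∈ O → ∀ᶠ q in (𝒰 : Filter X), (C q ∩ O).Nonempty}
    with hA
  have hAcl : IsClosed A := by
    rw [← isOpen_compl_iff, isOpen_iff_mem_nhds]
    intro a ha
    have ha' : ∃ O : Set X, IsOpen O ∧ a ∈ O ∧ ¬ ∀ᶠ q in (𝒰 : Filter X), (C q ∩ O).Nonempty := by
      by_contra hcon
      push Not at hcon
      exact ha (fun O hO haO => hcon O hO haO)
    obtain ⟨O, hO, haO, hn⟩ := ha'
    exact mem_of_superset (hO.mem_nhds haO) (fun y hy hyA => hn (hyA O hO hy))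
  have hpA : p ∈ A := by
    intro O hO hpO
    filter_upwards [hU2 (hO.mem_nhds hpO), hev2] with q h1 h2
    exact ⟨q, hCq q h2, h1⟩
  have hbump : ∀ q, q ∈ G → ∃ b, b ∈ C q ∧ b ∉ G := by
    intro q hq
    obtain ⟨b, h1, h2⟩ := bump hG hGne hq
    exact ⟨b, h1, h2⟩
  choose! β hβ1 hβ2 using hbump
  obtain ⟨b, -, hb⟩ := isCompact_univ.ultrafilter_le_nhds (𝒰.map β) (by simp)
  have hbG : b ∉ G := by
    have h1 : ∀ᶠ y in (𝒰.map β : Filter X), y ∈ Gᶜ := by
      rw [Ultrafilter.coe_map, eventually_map]
      filter_upwards [hev2] with q hq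
      exact hβ2 q hq
    have : b ∈ closure Gᶜ := by
      rw [mem_closure_iff_ultrafilter]
      exact ⟨𝒰.map β, h1, hb⟩
    rw [hG.isClosed_compl.closure_eq] at this
    exact this
  have hbA : b ∈ A := by
    intro O hO hbO
    have h1 : ∀ᶠ y in (𝒰.map β : Filter X), y ∈ O := hb (hO.mem_nhds hbO)
    rw [Ultrafilter.coe_map, eventually_map] at h1
    filter_upwards [h1, hev2] with q hq1 hq2
    exact ⟨β q, hβ1 q hq2, hq1⟩
  have hAG : A ⊆ closure G := by
    intro a ha
    by_contra hcon
    obtain ⟨q, hq⟩ := (ha (closure G)ᶜ isClosed_closure.isOpen_compl hcon).exists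
    obtain ⟨y, hy1, hy2⟩ := hq
    exact hy2 (hCcl q hy1)
  have hApre : IsPreconnected A := by
    rw [isPreconnected_iff_subset_of_fully_disjoint_closed hAcl]
    intro u v hu hv huv hdis
    by_contra hcon
    push Not at hcon
    obtain ⟨hnu, hnv⟩ := hcon
    obtain ⟨a1, ha1, ha1u⟩ := not_subset.1 hnu
    obtain ⟨a2, ha2, ha2v⟩ := not_subset.1 hnv
    have ha1v : a1 ∈ v := (huv ha1).resolve_left ha1u
    have ha2u : a2 ∈ u := (huv ha2).resolve_right ha2v
    obtain ⟨O1, O2, hO1, hO2, huO, hvO, hOd⟩ := normal_separation hu hv hdis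
    have hT : IsCompact (O1 ∪ O2)ᶜ := (hO1.union hO2).isClosed_compl.isCompact
    have hTev : ∀ᶠ q in (𝒰 : Filter X), ¬ (C q ∩ (O1 ∪ O2)ᶜ).Nonempty := by
      refine hT.induction_on (p := fun S => ∀ᶠ q in (𝒰 : Filter X), ¬ (C q ∩ S).Nonempty)
        ?_ ?_ ?_ ?_
      · simp
      · intro s t hst ht
        filter_upwards [ht] with q hq h
        exact hq (h.mono (inter_subset_inter_right _ hst))
      · intro s t hs ht
        filter_upwards [hs, ht] with q h1 h2 h
        obtain ⟨y, hy1, hy2 | hy2⟩ := h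
        · exact h1 ⟨y, hy1, hy2⟩
        · exact h2 ⟨y, hy1, hy2⟩
      · intro t ht
        have htA : t ∉ A := by
          intro h
          rcases huv h with h1 | h1
          · exact ht (Or.inl (huO h1))
          · exact ht (Or.inr (hvO h1))
        have ht' : ∃ O : Set X, IsOpen O ∧ t ∈ O ∧
            ¬ ∀ᶠ q in (𝒰 : Filter X), (C q ∩ O).Nonempty := by
          by_contra hcon
          push Not at hcon
          exact htA (fun O hO haO => hcon O hO haO)
        obtain ⟨O, hO, htO, hn⟩ := ht'
        refine ⟨O, mem_nhdsWithin_of_mem_nhds (hO.mem_nhds htO), ?_⟩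
        exact Ultrafilter.eventually_not.2 hn
    obtain ⟨q, hq1, hq2, hq3⟩ := (hTev.and ((ha2 O1 hO1 (huO ha2u)).and
      (ha1 O2 hO2 (hvO ha1v)))).exists
    have hsub : C q ⊆ O1 ∪ O2 := by
      intro y hy
      by_contra hy'
      exact hq1 ⟨y, hy, hy'⟩
    obtain ⟨y, -, hy1, hy2⟩ := hCpre q O1 O2 hO1 hO2 hsub hq2 hq3
    exact Set.disjoint_left.1 hOd hy1 hy2
  have hAK : A ⊆ K := by
    rw [hKp]
    exact hApre.subset_connectedComponentIn hpA (hAG.trans hGF)
  -- points separated inside A
  have hin : ∀ u v z : X, u ∈ A → v ∈ A → u ≠ z → v ≠ z →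
      connectedComponentIn ({z}ᶜ) u ≠ connectedComponentIn ({z}ᶜ) v → z ∈ A := by
    intro u v z hu hv huz hvz hne
    by_contra hz
    apply hne
    apply connectedComponentIn_eq
    have hsub : A ⊆ {z}ᶜ := by
      intro y hy hyz
      rw [mem_singleton_iff] at hyz
      exact hz (hyz ▸ hy)
    exact hApre.subset_connectedComponentIn hu hsub hv
  have hL : ∀ ζ ∈ A, ∀ u ∈ A, ∀ v ∈ A, u ≠ ζ → v ≠ ζ →
      connectedComponentIn ({ζ}ᶜ) u ≠ connectedComponentIn ({ζ}ᶜ) v →
      ∀ w ∈ A, w ≠ ζ → ∀ᶠ q in (𝒰 : Filter X),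
        Disjoint (C q) (connectedComponentIn ({ζ}ᶜ) w) := by
    intro ζ hζ u hu v hv huz hvz hne w hw hwz
    by_contra hcon
    have hcon' := Ultrafilter.eventually_not.2 hcon
    have hsub : ∀ᶠ q in (𝒰 : Filter X), C q ⊆ connectedComponentIn ({ζ}ᶜ) w := by
      filter_upwards [hcon', hev1, hev2] with q h1 h2 h3
      rw [Set.not_disjoint_iff] at h1
      obtain ⟨y, hy1, hy2⟩ := h1
      rw [connectedComponentIn_eq hy2]
      apply (hCpre q).subset_connectedComponentIn hy1
      intro t ht htz
      rw [mem_singleton_iff] at htz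
      exact Set.disjoint_left.1 (hCK q h3 h2) ht (by rw [htz]; exact hAK hζ)
    have hAsub : ∀ a ∈ A, a ∈ closure (connectedComponentIn ({ζ}ᶜ) w) := by
      intro a ha
      rw [mem_closure_iff]
      intro O hO haO
      obtain ⟨q, ⟨y, hy1, hy2⟩, hq2⟩ := ((ha O hO haO).and hsub).exists
      exact ⟨y, hy2, hq2 hy1⟩
    have hu' := clos_sub (hAsub u hu) huz hwz
    have hv' := clos_sub (hAsub v hv) hvz hwz
    exact hne ((connectedComponentIn_eq hu').symm.trans (connectedComponentIn_eq hv'))
  have hpb : p ≠ b := fun h => hbG (h ▸ hpG')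
  obtain ⟨z, hpz, hbz, hz⟩ := hW p b hpb
  have hzA : z ∈ A := hin p b z hpA hbA hpz hbz hz
  obtain ⟨z', hpz', hzz', hz'⟩ := hW p z hpz
  have hz'A : z' ∈ A := hin p z z' hpA hzA hpz' hzz' hz'
  have e1 := hL z hzA p hpA b hbA hpz hbz hz z' hz'A (Ne.symm hzz')
  have e2 := hL z' hz'A p hpA z hzA hpz' hzz' hz' z hzA hzz'
  obtain ⟨q, ⟨hqK, hqG⟩, hq1, hq2⟩ := ((hev1.and hev2).and (e1.and e2)).exists
  have hqz : q ≠ z := fun h => hqK (h ▸ hAK hzA)
  have hqz' : q ≠ z' := fun h => hqK (h ▸ hAK hz'A)
  have hqq : q ∈ connectedComponentIn ({z}ᶜ) q := mem_connectedComponentIn (by simpa using hqz)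
  have hz'q : z' ∉ connectedComponentIn ({z}ᶜ) q := by
    intro h
    have h1 := connectedComponentIn_eq h
    rw [h1] at hqq
    exact Set.disjoint_left.1 hq1 (hCq q hqG) hqq
  have hpre : IsPreconnected (insert z (connectedComponentIn ({z}ᶜ) q)) :=
    isPreconnected_connectedComponentIn.subset_closure (subset_insert _ _)
      (insert_subset (pt_clos hqz) subset_closure)
  have hins : insert z (connectedComponentIn ({z}ᶜ) q) ⊆ {z'}ᶜ := by
    apply insert_subset
    · simpa using hzz'
    · intro y hy hyz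
      rw [mem_singleton_iff] at hyz
      exact hz'q (hyz ▸ hy)
  have hzq : z ∈ connectedComponentIn ({z'}ᶜ) q :=
    hpre.subset_connectedComponentIn (mem_insert_of_mem _ hqq) hins (mem_insert _ _)
  have h2 := connectedComponentIn_eq hzq
  have hqq' : q ∈ connectedComponentIn ({z'}ᶜ) q :=
    mem_connectedComponentIn (by simpa using hqz')
  rw [h2] at hqq'
  exact Set.disjoint_left.1 hq2 (hCq q hqG) hqq'

/-- Weak separation implies strong separation. -/
theorem strong (hW : Weak X) : ∀ x y : X, x ≠ y → ∃ z : X, z ≠ x ∧ z ≠ y ∧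
    ∃ U V : Set X, IsOpen U ∧ IsOpen V ∧ Disjoint U V ∧ U ∪ V = {z}ᶜ ∧ x ∈ U ∧ y ∈ V := by
  have := locConn hW
  intro x y hxy
  obtain ⟨z, hxz, hyz, hne⟩ := hW x y hxy
  refine ⟨z, hxz.symm, hyz.symm, connectedComponentIn ({z}ᶜ) x,
    {z}ᶜ ∩ (closure (connectedComponentIn ({z}ᶜ) x))ᶜ, ?_, ?_, ?_, ?_, ?_, ?_⟩
  · exact isOpen_compl_singleton.connectedComponentIn
  · exact isOpen_compl_singleton.inter isClosed_closure.isOpen_compl
  · rw [Set.disjoint_left]
    rintro a ha ⟨-, ha2⟩
    exact ha2 (subset_closure ha)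
  · ext a
    constructor
    · rintro (ha | ha)
      · exact connectedComponentIn_subset _ _ ha
      · exact ha.1
    · intro ha
      by_cases hcl : a ∈ closure (connectedComponentIn ({z}ᶜ) x)
      · exact Or.inl (clos_sub hcl (by simpa using ha) hxz)
      · exact Or.inr ⟨ha, hcl⟩
  · exact mem_connectedComponentIn (by simpa using hxz)
  · refine ⟨by simpa using hyz, fun hcl => hne ?_⟩
    exact connectedComponentIn_eq (clos_sub hcl hyz hxz)

end Pool.Agent.H26DW
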