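import Pool.Agent.Helper26.DD.TowA
import Pool.Agent.Helper26.DD.FinII
import Pool.Agent.Helper26.DD.Weak
import Pool.Agent.Helper85.DT.Letters

/-!
# All dendrons, in the words of the problem file
-/

set_option autoImplicit false

open Set Topology TopologicalSpace

namespace Pool.Agent.H26DE

/-- The statement with two disjoint open sets as separation. -/
theorem strongForm (X : Type) [TopologicalSpace X] [CompactSpace X] [ConnectedSpace X] [T2Space X]
    (hX : ∀ x y : X, x ≠ y → ∃ z : X, z ≠ x ∧ z ≠ y ∧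
        ∃ U V : Set X, IsOpen U ∧ IsOpen V ∧ Disjoint U V ∧ U ∪ V = {z}ᶜ ∧ x ∈ U ∧ y ∈ V) :
      ∃ (Y : Type) (_ : TopologicalSpace Y), CompactSpace Y ∧ ConnectedSpace Y ∧ T2Space Y ∧
        (∀ A B : Set Y, IsClosed A → IsConnected A → IsClosed B → IsConnected B →
          (A ∩ B).Nonempty → A ⊆ B ∨ B ⊆ A) ∧
        ∃ f : X → Set Y,
          (∀ x, IsClosed (f x) ∧ IsConnected (f x)) ∧
          Function.Injective f ∧
          (∀ U : Set Y, IsOpen U →
            IsOpen {x : X | f x ⊆ U} ∧ IsOpen {x : X | (f x ∩ U).Nonempty}) := by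
  obtain ⟨I, r, h1, h2, h3, h4, h5, h6⟩ := Pool.Agent.Helper85.DT.letters X hX
  classical
  let L : Pool.Agent.H26DD.Letters X I :=
    { r := r
      cont := h1
      nonneg := fun i x => (h2 i x).1
      le_one := fun i x => (h2 i x).2
      lam := h3
      top := h5
      bot := h6 }
  exact Pool.Agent.H26DD.partII (Pool.Agent.H26DI.towOf L) h4

/-- The statement with components, the union definition of indecomposability and the Vietoris
topology of Mathlib, unfolded. -/
theorem allDendrons (X : Type) [TopologicalSpace X] [CompactSpace X] [ConnectedSpace X]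
    [T2Space X] (hX : ∀ x y : X, x ≠ y → ∃ z : X, x ≠ z ∧ y ≠ z ∧
      connectedComponentIn ({z}ᶜ) x ≠ connectedComponentIn ({z}ᶜ) y) :
    ∃ (Y : Type) (_ : TopologicalSpace Y), CompactSpace Y ∧ ConnectedSpace Y ∧ T2Space Y ∧
      (∀ Z : Set Y, IsClosed Z ∧ IsConnected Z →
        ¬ ∃ A B : Set Y, (IsClosed A ∧ IsConnected A) ∧ (IsClosed B ∧ IsConnected B) ∧
          A ⊂ Z ∧ B ⊂ Z ∧ A ∪ B = Z) ∧
      ∃ f : X → {K : NonemptyCompacts Y // IsConnected (K : Set Y)}, IsEmbedding f := by
  obtain ⟨Y, tY, hc, hconn, ht2, hHI, f, hf, hinj, hcont⟩ :=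
    strongForm X (Pool.Agent.H26DW.strong hX)
  refine ⟨Y, tY, hc, hconn, ht2, ?_, ?_⟩
  · rintro Z hZ ⟨A, B, hA, hB, hAZ, hBZ, hAB⟩
    have hne : (A ∩ B).Nonempty := by
      have hpre := hZ.2.isPreconnected
      rw [isPreconnected_closed_iff] at hpre
      obtain ⟨a, ha⟩ := hA.2.nonempty
      obtain ⟨b, hb⟩ := hB.2.nonempty
      obtain ⟨c, -, hc⟩ := hpre A B hA.1 hB.1 (by rw [hAB]) ⟨a, hAZ.subset ha, ha⟩
        ⟨b, hBZ.subset hb, hb⟩
      exact ⟨c, hc⟩
    rcases hHI A B hA.1 hA.2 hB.1 hB.2 hne with h | h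
    · rw [union_eq_self_of_subset_left h] at hAB
      exact hBZ.ne hAB
    · rw [union_eq_self_of_subset_right h] at hAB
      exact hAZ.ne hAB
  · have hcomp : ∀ x, IsCompact (f x) := fun x => (hf x).1.isCompact
    let g : X → NonemptyCompacts Y := fun x => ⟨⟨f x, hcomp x⟩, (hf x).2.nonempty⟩
    have hg : ∀ x, (g x : Set Y) = f x := fun x => rfl
    refine ⟨fun x => ⟨g x, by rw [hg]; exact (hf x).2⟩, ?_⟩
    have hgc : Continuous g := by
      rw [continuous_induced_rng]
      refine continuous_generateFrom_iff.2 ?_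
      rintro _ (⟨U, hU, rfl⟩ | ⟨U, hU, rfl⟩)
      · exact (hcont U hU).1
      · exact (hcont U hU).2
    have : Continuous (fun x => (⟨g x, by rw [hg]; exact (hf x).2⟩ : {K : NonemptyCompacts Y // IsConnected (K : Set Y)})) :=
      hgc.subtype_mk _
    have hgi : Function.Injective
        (fun x => (⟨g x, by rw [hg]; exact (hf x).2⟩ : {K : NonemptyCompacts Y // IsConnected (K : Set Y)})) := by
      intro x y hxy
      apply hinj
      have h1 : g x = g y := congrArg Subtype.val hxy
      rw [← hg x, ← hg y, h1]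
    exact (this.isClosedEmbedding hgi).isEmbedding

end Pool.Agent.H26DE
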