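import Pool.Agent.Helper26.DD.SysA

/-!
# DD module I-9: the base system (section 3).

`V F = F → Bool`, complete graph, `K F y = {v | v i = false if y i = false}` over `basePS`
(`P = Bool`, `bot = false`, `top = true`, `s = fun _ => true`), `Sec F i x = {extension by false}`.
No position is a limit (`s false = true`): `lim` is trivial (`w = y` on `F`, `K_congr`).
-/

set_option autoImplicit false

namespace Pool.Agent.H26DI

open Topology Pool.Agent.Helper85.DT

variable {X I : Type} [DecidableEq I] [TopologicalSpace X] {r : I → X → ℝ}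

/-- the base system -/
noncomputable def basePre (X I : Type) [DecidableEq I] : Pre X I basePS where
  V := fun F => ({i // i ∈ F} → Bool)
  fin := fun F => inferInstance
  adj := fun _ _ _ => True
  arefl := fun _ _ => trivial
  asymm := fun _ _ _ _ => trivial
  res := fun F G h v i => v ⟨i.1, h i.2⟩
  res_adj := fun _ _ _ _ _ _ => trivial
  res_self := fun _ _ _ => rfl
  res_res := fun _ _ _ _ _ _ => rfl
  K := fun F y => {v | ∀ i : {i // i ∈ F}, y i.1 = basePS.bot → v i = false}
  K_congr := by
    intro F y y' h
    ext v
    constructor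
    · intro hv i hi
      exact hv i (by rw [h i.1 i.2]; exact hi)
    · intro hv i hi
      exact hv i (by rw [← h i.1 i.2]; exact hi)
  Sec := fun F i _ => {τ | ∀ a k, τ a k = if h : k.1 ∈ F.erase i then a ⟨k.1, h⟩ else false}

theorem base_not_lim (p : basePS.P) : ¬ basePS.IsLim p := by
  intro h
  have h0 : p ≠ (false : Bool) := h.1
  have h1 : p = (true : Bool) := by
    cases p
    · exact absurd rfl h0
    · rfl
  have h2 : (false : Bool) < (true : Bool) := by decide
  have h3 := h.2 (false : Bool) (by rw [h1]; exact h2)
  have h4 : (true : Bool) < p := h3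
  rw [h1] at h4
  exact absurd h4 (by decide)

/-- extension by `false` -/
def bext (G : Finset I) (i : I) (a : {k // k ∈ G.erase i} → Bool) (k : {k // k ∈ G}) : Bool :=
  if h : k.1 ∈ G.erase i then a ⟨k.1, h⟩ else false

theorem bext_pos (G : Finset I) (i : I) (a : {k // k ∈ G.erase i} → Bool) (k : {k // k ∈ G})
    (h : k.1 ∈ G.erase i) : bext G i a k = a ⟨k.1, h⟩ := dif_pos h

theorem bext_neg (G : Finset I) (i : I) (a : {k // k ∈ G.erase i} → Bool) (k : {k // k ∈ G})
    (h : k.1 ∉ G.erase i) : bext G i a k = false := dif_neg h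

theorem base_isSys (hr : Let r) : IsSys r (basePre X I) := by
  refine ⟨?_, ?_⟩
  · refine ⟨?_, ?_, ?_, ?_, ?_, ?_, ?_, ?_, ?_, ?_, ?_, ?_, ?_, ?_⟩
    -- conn
    · intro F y _
      refine ⟨⟨fun _ => false, fun _ _ => rfl⟩, ?_⟩
      intro a _ b hb
      exact Relation.ReflTransGen.single ⟨trivial, hb⟩
    -- mono
    · intro F x y _ y' _ h v hv i hi
      apply hv i
      have h1 := h i.1 i.2
      rw [hi] at h1
      exact le_antisymm h1 (basePS.bot_le _)
    -- nat
    · intro F G h y _
      ext w
      constructor
      · rintro ⟨v, hv, rfl⟩ i hi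
        exact hv ⟨i.1, h i.2⟩ hi
      · intro hw
        refine ⟨fun i => if hi : i.1 ∈ G then w ⟨i.1, hi⟩ else false, ?_, ?_⟩
        · intro i hi
          show (if hi : i.1 ∈ G then w ⟨i.1, hi⟩ else false) = false
          by_cases hG : i.1 ∈ G
          · rw [dif_pos hG]
            exact hw ⟨i.1, hG⟩ hi
          · rw [dif_neg hG]
        · funext i
          exact dif_pos i.2
    -- lim
    · intro F y _
      refine ⟨fun _ => basePS.top, fun i _ h => absurd h (base_not_lim _), ?_⟩
      intro w _ _ h2 _
      exact (basePre X I).K_congr F w y (fun i hi => h2 i hi (base_not_lim _))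
    -- empt
    · intro v w
      funext i
      exact absurd i.2 (Finset.notMem_empty _)
    -- sec_ne
    · intro F i x _
      exact ⟨fun a k => if h : k.1 ∈ F.erase i then a ⟨k.1, h⟩ else false, fun _ _ => rfl⟩
    -- sec_hom
    · intro F i x _ σ _ a _ b _ _
      trivial
    -- sec_res
    · intro F i x _ σ hσ a _
      funext k
      have h1 := hσ a ⟨k.1, F.erase_subset i k.2⟩
      rw [dif_pos k.2] at h1
      exact h1
    -- sec_K
    · intro F i x _ σ hσ c _ a ha k hk
      rw [hσ a k]
      by_cases h : k.1 ∈ F.erase i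
      · rw [dif_pos h]
        exact ha ⟨k.1, h⟩ hk
      · rw [dif_neg h]
    -- sec_restr
    · intro F G i x h _ σ hσ
      refine ⟨bext G i, fun _ _ => rfl, ?_⟩
      intro a _
      funext k
      have h1 := hσ a ⟨k.1, h k.2⟩
      have h2 : (basePre X I).res F G h (σ a) k = σ a ⟨k.1, h k.2⟩ := rfl
      rw [h2, h1]
      by_cases hk : k.1 ∈ G.erase i
      · have hk' : k.1 ∈ F.erase i := Finset.erase_subset_erase i h hk
        rw [dif_pos hk']
        exact (bext_pos G i ((basePre X I).res (F.erase i) (G.erase i)
          (Finset.erase_subset_erase i h) a) k hk).symm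
      · have hk' : k.1 ∉ F.erase i := by
          intro h3
          exact hk (Finset.mem_erase.2 ⟨(Finset.mem_erase.1 h3).1, k.2⟩)
        rw [dif_neg hk']
        exact (bext_neg G i _ k hk).symm
    -- dich
    · intro F i x x' _ σ hσ τ hτ
      left
      intro a _ b _
      refine ⟨fun _ => trivial, ?_⟩
      intro hab
      subst hab
      funext k
      rw [hσ a k, hτ a k]
    -- bot_adj
    · intro F i _ y _ _ v _ w _ _
      trivial
    -- bot_inj
    · intro F i _ y _ hyi v hv w hw h
      funext k
      by_cases hk : k.1 = i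
      · rw [hv k (by rw [hk]; exact hyi), hw k (by rw [hk]; exact hyi)]
      · have hk' : k.1 ∈ F.erase i := Finset.mem_erase.2 ⟨hk, k.2⟩
        exact congrFun h ⟨k.1, hk'⟩
    -- two
    · intro j
      refine ⟨fun _ => true, ?_, ?_⟩
      · intro i hi
        exact absurd hi (by
          show (true : Bool) ≠ false
          decide)
      · intro h
        have h1 : (true : Bool) = false := h ⟨j, Finset.mem_singleton_self j⟩ rfl
        exact absurd h1 (by decide)
  · intro F x v _
    exact ⟨fun _ => false, fun _ _ => rfl, trivial⟩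

end Pool.Agent.H26DI
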