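import Pool.Agent.Helper26.DD.Defs
import Pool.Agent.Helper85.DT.Chain

/-!
# DD module I-1: chains, joins and lower parts (from Helper85/DT/Chain).
-/

set_option autoImplicit false

namespace Pool.Agent.H26DD

open Topology

variable {X : Type} [TopologicalSpace X] {ι : Type} (L : Letters X ι)

theorem leF_refl (F : Finset ι) (x : X) : leF L F x x := fun _ _ => le_rfl

theorem leF_trans {F : Finset ι} {x y z : X} (h : leF L F x y) (h' : leF L F y z) :
    leF L F x z := fun i hi => (h i hi).trans (h' i hi)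

theorem leF_chain {F : Finset ι} {x y z : X} (h : leF L F x y) (h' : leF L F x z) :
    leF L F y z ∨ leF L F z y :=
  Pool.Agent.Helper85.DT.F1 (r := L.r) L.lam h h'

theorem join [ConnectedSpace X] (F : Finset ι) (x x' : X) :
    ∃ z, ∀ i ∈ F, L.r i z = max (L.r i x) (L.r i x') :=
  Pool.Agent.Helper85.DT.F2 L.cont L.lam x x'

theorem exists_low (F : Finset ι) (hF : F.Nonempty) (x : X) :
    ∃ j ∈ F, ∀ z, L.r j z ≤ L.r j x → leF L F z x :=
  Pool.Agent.Helper85.DT.F3 L.lam hF x

end Pool.Agent.H26DD
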