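import Mathlib

/-!
# Project DD (MP_542c23, frozen S13177): definitions, part II interface.
Paper proof: /team-store/helper26_S13177.md (sections 0-9).

* `Letters X ι`  : a letter system on `X` (section 0): continuous functions `r i : X → [0,1]`
  whose open sublevel sets are laminar.
* `Tow L`        : the tower of finite graphs (section 8), everything that part II needs.
* `Thread T`     : the inverse limit.
* `R F`          : threads which are adjacent at all stages on the letters `F`.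
* `FC F A`       : `A` is an `F`-continuum.
* `HI F`         : intersecting `F`-continua are comparable.
-/

set_option autoImplicit false

namespace Pool.Agent.H26DD

open Topology

/-- vertices within one step of `A` -/
def N1 {V : Type} (adj : V → V → Prop) (A : Set V) : Set V := {v | ∃ a ∈ A, adj a v}

/-- `A` is a connected (nonempty) set of vertices -/
def Conn {V : Type} (adj : V → V → Prop) (A : Set V) : Prop :=
  A.Nonempty ∧ ∀ a ∈ A, ∀ b ∈ A,
    Relation.ReflTransGen (fun u v => u ∈ A ∧ v ∈ A ∧ adj u v) a b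

/-- distance at most two -/
def Nr2 {V : Type} (adj : V → V → Prop) (a b : V) : Prop := ∃ c, adj a c ∧ adj c b

/-- the folding map of the path 0..8 onto the path 0..4: 0,1,2,3,2,1,2,3,4 -/
def nu (n : ℕ) : ℕ := if n ≤ 3 then n else if n ≤ 5 then 6 - n else n - 4

/-- a letter system on `X` -/
structure Letters (X : Type) [TopologicalSpace X] (ι : Type) where
  r : ι → X → ℝ
  cont : ∀ i, Continuous (r i)
  nonneg : ∀ i x, 0 ≤ r i x
  le_one : ∀ i x, r i x ≤ 1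
  lam : ∀ (i j : ι) (s t : ℝ),
    {x | r i x < s} ⊆ {x | r j x < t} ∨ {x | r j x < t} ⊆ {x | r i x < s} ∨
      Disjoint {x | r i x < s} {x | r j x < t}
  top : ∃ w, ∀ i, r i w = 1
  bot : ∀ i, ∃ x, r i x = 0

/-- the letters separate the points of `X` -/
def Letters.Sep {X : Type} [TopologicalSpace X] {ι : Type} (L : Letters X ι) : Prop :=
  ∀ x x' : X, x ≠ x' → ∃ i, (L.r i x = 0 ∧ L.r i x' = 1) ∨ (L.r i x = 1 ∧ L.r i x' = 0)

/-- the preorder given by the letters in `F` -/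
def leF {X : Type} [TopologicalSpace X] {ι : Type} (L : Letters X ι) (F : Finset ι)
    (x x' : X) : Prop := ∀ i ∈ F, L.r i x ≤ L.r i x'

/-- The tower (interface between part I and part II). `dn k m h F : V m F → V k F` is the
iterated bonding map, `Lo m F x` is K_m(F, f x), `Up m F x` is K_m(F, s f x), `W m F` is
K_m(F, top), `bz m i x` says that the stage-`m` position of `r i x` is the bottom one,
`o m j` is the base vertex of letter `j`. -/
structure Tow {X : Type} [TopologicalSpace X] {ι : Type} [DecidableEq ι]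
    (L : Letters X ι) where
  V : ℕ → Finset ι → Type
  fin : ∀ m F, Finite (V m F)
  adj : ∀ m F, V m F → V m F → Prop
  arefl : ∀ m F v, adj m F v v
  asymm : ∀ m F v w, adj m F v w → adj m F w v
  res : ∀ (m : ℕ) (F G : Finset ι), G ⊆ F → V m F → V m G
  res_adj : ∀ m F G h v w, adj m F v w → adj m G (res m F G h v) (res m F G h w)
  res_self : ∀ m F h v, res m F F h v = v
  res_res : ∀ m F G H (h : G ⊆ F) (h' : H ⊆ G) v,
    res m G H h' (res m F G h v) = res m F H (h'.trans h) v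
  dn : ∀ (k m : ℕ), k ≤ m → ∀ F : Finset ι, V m F → V k F
  dn_adj : ∀ k m h F v w, adj m F v w → adj k F (dn k m h F v) (dn k m h F w)
  dn_self : ∀ m h F v, dn m m h F v = v
  dn_dn : ∀ j k m (h : j ≤ k) (h' : k ≤ m) F v,
    dn j k h F (dn k m h' F v) = dn j m (h.trans h') F v
  dn_res : ∀ k m h F G (hG : G ⊆ F) v,
    dn k m h G (res m F G hG v) = res k F G hG (dn k m h F v)
  sd : ∀ m F a b c, adj (m + 1) F a b → adj (m + 1) F b c →
    adj m F (dn m (m + 1) (Nat.le_succ m) F a) (dn m (m + 1) (Nat.le_succ m) F c)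
  empt : ∀ m (v w : V m ∅), v = w
  Lo : ∀ m F, X → Set (V m F)
  Up : ∀ m F, X → Set (V m F)
  W : ∀ m F, Set (V m F)
  Lo_Up : ∀ m F x, Lo m F x ⊆ Up m F x
  Up_W : ∀ m F x, Up m F x ⊆ W m F
  W_top : ∀ m F w, (∀ i ∈ F, L.r i w = 1) → Lo m F w = W m F
  Lo_res : ∀ m F G (h : G ⊆ F) x, res m F G h '' Lo m F x = Lo m G x
  Up_res : ∀ m F G (h : G ⊆ F) x, res m F G h '' Up m F x = Up m G x
  Up_conn : ∀ m F x, Conn (adj m F) (Up m F x)
  Lo_dn : ∀ m F x, Lo m F x ⊆ dn m (m + 1) (Nat.le_succ m) F '' Lo (m + 1) F x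
  Up_dn : ∀ m F x, dn m (m + 1) (Nat.le_succ m) F '' Up (m + 1) F x ⊆ Up m F x
  Up_N1 : ∀ m F x, Up m F x ⊆ N1 (adj m F) (Lo m F x)
  Up_mono : ∀ m F x x', leF L F x x' → Up m F x ⊆ Up m F x'
  Up_usc : ∀ m F x0, ∀ᶠ x in 𝓝 x0, Up m F x ⊆ Up m F x0
  Lo_lsc : ∀ m F x0, ∀ᶠ x in 𝓝 x0, Lo m F x0 ⊆ Up m F x
  Sec : ∀ (m : ℕ) (F : Finset ι) (i : ι), X → Set (V m (F.erase i) → V m F)
  Sec_ne : ∀ m F i x, i ∈ F → (Sec m F i x).Nonempty
  Sec_hom : ∀ m F i x, i ∈ F → ∀ σ ∈ Sec m F i x, ∀ a ∈ Up m (F.erase i) x,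
    ∀ b ∈ Up m (F.erase i) x, adj m (F.erase i) a b → adj m F (σ a) (σ b)
  Sec_res : ∀ m F i x, i ∈ F → ∀ σ ∈ Sec m F i x, ∀ a ∈ Up m (F.erase i) x,
    res m F (F.erase i) (F.erase_subset i) (σ a) = a
  Sec_Up : ∀ m F i x, i ∈ F → ∀ σ ∈ Sec m F i x, ∀ a ∈ Up m (F.erase i) x, σ a ∈ Up m F x
  Sec_restr : ∀ m F G i x (h : G ⊆ F), i ∈ G → ∀ σ ∈ Sec m F i x, ∃ τ ∈ Sec m G i x,
    ∀ a ∈ Up m (F.erase i) x, res m F G h (σ a) =
      τ (res m (F.erase i) (G.erase i) (Finset.erase_subset_erase i h) a)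
  Sec_lift : ∀ m F i x, i ∈ F → ∀ σ ∈ Sec (m + 1) F i x, ∃ τ ∈ Sec m F i x,
    ∀ a ∈ Up (m + 1) (F.erase i) x, dn m (m + 1) (Nat.le_succ m) F (σ a) =
      τ (dn m (m + 1) (Nat.le_succ m) (F.erase i) a)
  dich : ∀ m F i x x', i ∈ F → ∀ σ ∈ Sec m F i x, ∀ τ ∈ Sec m F i x',
    (∀ a ∈ Up m (F.erase i) x, ∀ b ∈ Up m (F.erase i) x', adj m (F.erase i) a b →
      adj m F (σ a) (τ b)) ∨
    (∀ a ∈ Up m (F.erase i) x, ∀ b ∈ Up m (F.erase i) x', ¬ adj m F (σ a) (τ b))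
  bz : ℕ → ι → X → Prop
  bz_zero : ∀ m i x, L.r i x = 0 → bz m i x
  bz_one : ∀ m i x, L.r i x = 1 → ¬ bz m i x
  bz_succ : ∀ m i x, bz (m + 1) i x → bz m i x
  o : ∀ (m : ℕ) (j : ι), V m {j}
  o_dn : ∀ m j, dn m (m + 1) (Nat.le_succ m) {j} (o (m + 1) j) = o m j
  o_Lo : ∀ m j x, o m j ∈ Lo m {j} x
  bz_Lo : ∀ m j x, bz m j x → Lo m {j} x ⊆ {o m j}
  bz_Sec : ∀ m F i x, i ∈ F → bz m i x → ∀ σ ∈ Sec m F i x, ∀ v ∈ Lo m F x,
    σ (res m F (F.erase i) (F.erase_subset i) v) = v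
  nbz : ∀ m j x, ¬ bz m j x → ∃ v ∈ Lo (m + 1) {j} x, ¬ adj (m + 1) {j} v (o (m + 1) j)
  fold : ∀ (m : ℕ) (E : Finset ι) (φ : V m E → ℕ), (∀ v, φ v ≤ 4) →
    (∀ v w, adj m E v w → φ v ≤ φ w + 1) →
    (∃ v ∈ W m E, φ v ≤ 1) → (∃ v ∈ W m E, 3 ≤ φ v) →
    (∀ x, (∃ v ∈ Up m E x, φ v ≤ 1) → (∃ v ∈ Up m E x, 3 ≤ φ v) →
      ∃ v ∈ Lo m E x, φ v ≤ 1 ∨ 3 ≤ φ v) →
    (∀ x i, i ∈ E → ∀ σ ∈ Sec m E i x,
      ¬ ((∃ v ∈ Up m (E.erase i) x, φ (σ v) ≤ 1) ∧
         (∃ v ∈ Up m (E.erase i) x, 3 ≤ φ (σ v)))) →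
    ∃ u : V (m + 1) E → ℕ, (∀ a, u a ≤ 8) ∧
      (∀ a b, adj (m + 1) E a b → u a ≤ u b + 1) ∧
      ∀ a, nu (u a) = φ (dn m (m + 1) (Nat.le_succ m) E a)

section

variable {X : Type} [TopologicalSpace X] {ι : Type} [DecidableEq ι] {L : Letters X ι}

instance (T : Tow L) (m : ℕ) (F : Finset ι) : TopologicalSpace (T.V m F) := ⊥
instance (T : Tow L) (m : ℕ) (F : Finset ι) : DiscreteTopology (T.V m F) := ⟨rfl⟩
instance (T : Tow L) (m : ℕ) (F : Finset ι) : Finite (T.V m F) := T.fin m F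

/-- threads: points of the inverse limit of the sets `W m F` -/
def Thread (T : Tow L) : Type :=
  {z : ∀ (m : ℕ) (F : Finset ι), T.V m F //
    (∀ m F, z m F ∈ T.W m F) ∧
    (∀ m F, T.dn m (m + 1) (Nat.le_succ m) F (z (m + 1) F) = z m F) ∧
    (∀ m F G (h : G ⊆ F), T.res m F G h (z m F) = z m G)}

instance (T : Tow L) : TopologicalSpace (Thread T) :=
  inferInstanceAs (TopologicalSpace {z : ∀ (m : ℕ) (F : Finset ι), T.V m F //
    (∀ m F, z m F ∈ T.W m F) ∧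
    (∀ m F, T.dn m (m + 1) (Nat.le_succ m) F (z (m + 1) F) = z m F) ∧
    (∀ m F G (h : G ⊆ F), T.res m F G h (z m F) = z m G)})

/-- the vertex of the thread `z` at stage `m` and letters `F` -/
def Thread.at {T : Tow L} (z : Thread T) (m : ℕ) (F : Finset ι) : T.V m F := z.1 m F

/-- adjacent at all stages, on the letters `F` -/
def R (T : Tow L) (F : Finset ι) (z z' : Thread T) : Prop :=
  ∀ m, T.adj m F (z.at m F) (z'.at m F)

/-- adjacent at all stages, on all finite sets of letters -/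
def RR (T : Tow L) (z z' : Thread T) : Prop := ∀ F, R T F z z'

/-- saturation -/
def sat (T : Tow L) (F : Finset ι) (A : Set (Thread T)) : Set (Thread T) :=
  {z | ∃ a ∈ A, R T F a z}

/-- `A` is an `F`-continuum -/
structure FC (T : Tow L) (F : Finset ι) (A : Set (Thread T)) : Prop where
  closed : IsClosed A
  ne : A.Nonempty
  satd : ∀ z z', z ∈ A → R T F z z' → z' ∈ A
  conn : ∀ m, Conn (T.adj m F) ((fun z : Thread T => z.at m F) '' A)

/-- intersecting `F`-continua are comparable -/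
def HI (T : Tow L) (F : Finset ι) : Prop :=
  ∀ A B : Set (Thread T), FC T F A → FC T F B → (A ∩ B).Nonempty → A ⊆ B ∨ B ⊆ A

/-- the threads inside `Up _ _ x` -/
def Kx (T : Tow L) (x : X) : Set (Thread T) := {z | ∀ m F, z.at m F ∈ T.Up m F x}

/-- `Mc F c` is the set of the `x` such that `Kx x` contains `c` modulo `R F` -/
def Mc (T : Tow L) (F : Finset ι) (c : Thread T) : Set X := {x | ∃ z ∈ Kx T x, R T F z c}

/-- `a` and `b` lie (approximately, at all stages) in a common tooth of letter `i` -/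
def tl (T : Tow L) (F : Finset ι) (i : ι) (a b : Thread T) : Prop :=
  ∀ m, ∃ x, ∃ σ ∈ T.Sec m F i x,
    (∃ p ∈ T.Up m (F.erase i) x, Nr2 (T.adj m F) (σ p) (a.at m F)) ∧
    (∃ q ∈ T.Up m (F.erase i) x, Nr2 (T.adj m F) (σ q) (b.at m F))

/-- a tooth of letter `i` at level `F` -/
structure Tooth (T : Tow L) (F : Finset ι) (i : ι) where
  D : ∀ m, Set (T.V m (F.erase i))
  σ : ∀ m, T.V m (F.erase i) → T.V m F
  real : ∀ M, ∃ x, ∀ m ≤ M, D m = T.Up m (F.erase i) x ∧ σ m ∈ T.Sec m F i x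
  comp : ∀ m, ∀ v ∈ D (m + 1), T.dn m (m + 1) (Nat.le_succ m) F (σ (m + 1) v) =
    σ m (T.dn m (m + 1) (Nat.le_succ m) (F.erase i) v)

/-- the threads of a tooth -/
def Tooth.hat {T : Tow L} {F : Finset ι} {i : ι} (S : Tooth T F i) : Set (Thread T) :=
  {z | ∀ m, z.at m (F.erase i) ∈ S.D m ∧ z.at m F = S.σ m (z.at m (F.erase i))}

/-- the set of a tooth (saturated) -/
def Tooth.set {T : Tow L} {F : Finset ι} {i : ι} (S : Tooth T F i) : Set (Thread T) :=
  sat T F S.hat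

end

end Pool.Agent.H26DD
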