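import Pool.Agent.Helper26.DD.Fold

/-!
# DD module I-10: the status of a legal test (section 7, (ST)).

Everything at level `E`; `f z = low S r z`, `sf z = up S r z`.
`st_unique`: `y ∈ cube x`, `y' ∈ cube x'`, `y'' ∈ cube x''`, `y ≤ y', y''` on `E`. By `F2` and `P1` we may
assume `x ≤_E x'`, `x ≤_E x''` (join of `x, x'` etc.), by `F1` `x', x''` are comparable, say
`x' ≤_E x''` (the other case is symmetric, exchanging lo and hi). Chain induction
(`chain_induction`, Helper85/DT/Chain) from `x'` to `x''` with `Th z = ¬ thi (f z)`: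
start: `f x' ≤ y'`. Given `Th z`, `x' ≤ z ≤ x''`: `f z ≤ f x'' ≤ y''` so `¬ tlo (f z)`;
`l = max (f z) y' ∈ cube z` (as `y' ∈ cube x'`, `x' ≤ z`) and `l ≥ y'` so `tlo l`, `tlo (sf z)`; by
`lb` `¬ thi (sf z)`. Left limit `g`: `approach'` (Helper85/DT/Pos) with `l = f g` and `p` from
`hT.lim E (f g)` gives for `z` close to `g` below `g`: `w = min (f g) (sf z) ∈ cube z`,
`K (f g) = K w ⊆ K (sf z)`, which does not touch hi: `Th g`. Right: `f z' = f z` for `z' ≥ z` close to `z`
(`ps_near_leF`, `ps_mono`) and `K_congr`. At `x''`: `¬ thi (f x'')`, `¬ tlo (f x'')` (as `f x'' ≤ y''`),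
but `sf x'' ≥ y''` touches hi and `sf x'' ≥ max (f x'') y'` touches lo: contradiction to `lb`.

`st_exists`: suppose neither. Then every `y' ≥ y` in `BB` touches both or none. `y ∈ cube x`. Chain
induction from `x` to a point `w` with all `r i w = 1` (`Let.top`), `Th z`: `l z = max (f z) y` touches
neither lo nor hi. Start `l x = y` (on `E`). Left limit `g`: `m = min (l g) (sf z) ∈ cube z` (`approach'`
for `l g`; if `ps g ≠ l g i` then `y i = s (ps g)`, so `ps x = ps g = ps z`), `K (l g) = K m`, `m ≥ l z ≥ y`;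
`K m ⊆ K (sf z)` is not both by `lb` (`f z ≤ l z` touches nothing), `m ≥ y` so it is none. Right: as before.
End: `l w = top`, contradiction to `top_lo`.

`stat_full_iff` by definition. `stat_mono`, `stat_one`, `stat_three`: from `st_unique`, `st_exists` and
monotonicity of `tlo`, `thi` (`mono_BB`). `stat_lim`: `p` from `hT.lim E y`: `K w = K y`, so `tlo`, `thi`
agree; if not full, `stat y ∈ {stat w, full}` by `stat_mono` (`w ≤ y`), so they are equal.
-/

set_option autoImplicit false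

namespace Pool.Agent.H26DI

open Topology Pool.Agent.Helper85.DT

variable {X I : Type} [DecidableEq I] [TopologicalSpace X] {S : PS} {r : I → X → ℝ}

theorem tlo_mono [CompactSpace X] [ConnectedSpace X] (hr : Let r) {T : Pre X I S}
    (hT : Good r T) (E : Finset I) (φ : T.V E → Fin 5) (y y' : I → S.P) (hy : y ∈ BB S r E)
    (hy' : y' ∈ BB S r E) (h : ∀ i ∈ E, y i ≤ y' i) (hl : tlo T E φ y) : tlo T E φ y' := by
  obtain ⟨v, hv, h1⟩ := hl
  exact ⟨v, hT.mono_BB hr E y y' hy hy' h hv, h1⟩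

theorem thi_mono [CompactSpace X] [ConnectedSpace X] (hr : Let r) {T : Pre X I S}
    (hT : Good r T) (E : Finset I) (φ : T.V E → Fin 5) (y y' : I → S.P) (hy : y ∈ BB S r E)
    (hy' : y' ∈ BB S r E) (h : ∀ i ∈ E, y i ≤ y' i) (hl : thi T E φ y) : thi T E φ y' := by
  obtain ⟨v, hv, h1⟩ := hl
  exact ⟨v, hT.mono_BB hr E y y' hy hy' h hv, h1⟩

private theorem max_mem_cube (hr : Let r) {E : Finset I} {x z : X} {y : I → S.P}
    (hy : y ∈ cube S r E x) (hxz : leF r E x z) :
    (fun i => max (ps S r i z) (y i)) ∈ cube S r E z := by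
  intro i hi
  show max (ps S r i z) (y i) = ps S r i z ∨ max (ps S r i z) (y i) = S.s (ps S r i z)
  rcases (ps_mono (S := S) hr.bd (hxz i hi)).eq_or_lt with h | h
  · have : y i = ps S r i z ∨ y i = S.s (ps S r i z) := by rw [← h]; exact hy i hi
    rcases this with h1 | h1
    · left; rw [h1, max_self]
    · right; rw [h1]; exact max_eq_right (S.le_s _)
  · left
    apply max_eq_left
    exact (ps_le_cube hy hi).2.trans (S.s_le _ _ h)

/-- abstract form of (ST), uniqueness -/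
private theorem uniq_aux [CompactSpace X] [ConnectedSpace X] (hr : Let r) (E : Finset I)
    (A B : (I → S.P) → Prop)
    (hAm : ∀ y ∈ BB S r E, ∀ y' ∈ BB S r E, (∀ i ∈ E, y i ≤ y' i) → A y → A y')
    (hBm : ∀ y ∈ BB S r E, ∀ y' ∈ BB S r E, (∀ i ∈ E, y i ≤ y' i) → B y → B y')
    (hBl : ∀ y ∈ BB S r E, ∃ p : I → S.P, (∀ i ∈ E, S.IsLim (y i) → p i < y i) ∧
      ∀ w ∈ BB S r E, (∀ i ∈ E, w i ≤ y i) → (∀ i ∈ E, ¬ S.IsLim (y i) → w i = y i) →
        (∀ i ∈ E, S.IsLim (y i) → p i < w i) → (B y → B w))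
    (lb : ∀ x, A (up S r x) → B (up S r x) → A (low S r x) ∨ B (low S r x))
    (x' x'' : X) (hx : leF r E x' x'') (y' y'' : I → S.P) (hy' : y' ∈ cube S r E x')
    (hy'' : y'' ∈ cube S r E x'') (h1 : A y') (h2 : ¬ B y') (h3 : B y'') (h4 : ¬ A y'') :
    False := by
  have hlowBB : ∀ z, low S r z ∈ BB S r E := fun z => ⟨z, low_mem S r E z⟩
  have hupBB : ∀ z, up S r z ∈ BB S r E := fun z => ⟨z, up_mem S r E z⟩
  have hcubeBB : ∀ z (y : I → S.P), y ∈ cube S r E z → y ∈ BB S r E := fun z y h => ⟨z, h⟩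
  -- A (up z) for z above x'
  have hAup : ∀ z, leF r E x' z → A (up S r z) := by
    intro z hz
    have hl := max_mem_cube hr hy' hz
    have h5 : A (fun i => max (ps S r i z) (y' i)) :=
      hAm y' (hcubeBB _ _ hy') _ (hcubeBB _ _ hl) (fun i _ => le_max_right _ _) h1
    exact hAm _ (hcubeBB _ _ hl) _ (hupBB z) (fun i hi => (ps_le_cube hl hi).2) h5
  -- not A (low z) for z below x''
  have hAlow : ∀ z, leF r E z x'' → ¬ A (low S r z) := by
    intro z hz h5
    apply h4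
    refine hAm _ (hlowBB z) _ (hcubeBB _ _ hy'') (fun i hi => ?_) h5
    exact (ps_mono (S := S) hr.bd (hz i hi)).trans (ps_le_cube hy'' hi).1
  have hBup : ∀ z, leF r E x' z → leF r E z x'' → ¬ B (low S r z) → ¬ B (up S r z) := by
    intro z hz1 hz2 h5 h6
    rcases lb z (hAup z hz1) h6 with h7 | h7
    · exact hAlow z hz2 h7
    · exact h5 h7
  have key : ¬ B (low S r x'') := by
    refine chain_induction (F := E) hr.cont hr.lam hx (fun z => ¬ B (low S r z)) ?_ ?_ ?_ ?_
    · intro z z' h5 h6 h7 h8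
      apply h7
      refine hBm _ (hlowBB z') _ (hlowBB z) (fun i hi => ?_) h8
      exact ps_mono (S := S) hr.bd (h6 i hi)
    · intro h5
      apply h2
      exact hBm _ (hlowBB x') _ (hcubeBB _ _ hy') (fun i hi => (ps_le_cube hy' hi).1) h5
    · intro g hxg hgx hng
      obtain ⟨p, hp1, hp2⟩ := hBl (low S r g) (hlowBB g)
      obtain ⟨e, he, happ⟩ := approach hr.bd E g (low S r g) (low_mem S r E g) p hp1
      refine ⟨e, he, fun z hxz hzg hngz hclose hTh hBg => ?_⟩
      obtain ⟨h5, h6, h7⟩ := happ z hzg hclose (fun i _ => Or.inl rfl)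
      have h8 := hp2 _ ⟨z, h5⟩ (fun i hi => min_le_left _ _) h6 h7 hBg
      have h9 : B (up S r z) :=
        hBm _ ⟨z, h5⟩ _ (hupBB z) (fun i hi => (ps_le_cube h5 hi).2) h8
      exact hBup z hxz (leF_trans hzg hgx) hTh h9
    · intro g hxg hgx hTh
      obtain ⟨e, he, hnear⟩ := ps_near_leF (S := S) hr.bd E g
      refine ⟨e, he, fun z hgz hzx hclose h5 => hTh ?_⟩
      refine hBm _ (hlowBB z) _ (hlowBB g) (fun i hi => ?_) h5
      exact hnear z i hi (hclose i hi)
  have hBx : B (up S r x'') :=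
    hBm _ (hcubeBB _ _ hy'') _ (hupBB x'') (fun i hi => (ps_le_cube hy'' hi).2) h3
  exact hBup x'' hx (leF_refl x'') key hBx

theorem st_unique [CompactSpace X] [ConnectedSpace X] (hr : Let r) {T : Pre X I S}
    (hT : Good r T) (E : Finset I) (φ : T.V E → Fin 5) (hL : Legal r T E φ) (y y' y'' : I → S.P)
    (hy : y ∈ BB S r E) (hy' : y' ∈ BB S r E) (hy'' : y'' ∈ BB S r E)
    (h' : ∀ i ∈ E, y i ≤ y' i) (h'' : ∀ i ∈ E, y i ≤ y'' i)
    (h1 : tlo T E φ y') (h2 : ¬ thi T E φ y') (h3 : thi T E φ y'') (h4 : ¬ tlo T E φ y'') :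
    False := by
  obtain ⟨x, hy⟩ := hy
  obtain ⟨x', hy'⟩ := hy'
  obtain ⟨x'', hy''⟩ := hy''
  obtain ⟨z', hz'⟩ := F2 (F := E) hr.cont hr.lam x x'
  obtain ⟨z'', hz''⟩ := F2 (F := E) hr.cont hr.lam x x''
  have hc' : y' ∈ cube S r E z' := P1 hr.bd hy hy' h' hz'
  have hc'' : y'' ∈ cube S r E z'' := P1 hr.bd hy hy'' h'' hz''
  have hx' : leF r E x z' := fun i hi => by rw [hz' i hi]; exact le_max_left _ _
  have hx'' : leF r E x z'' := fun i hi => by rw [hz'' i hi]; exact le_max_left _ _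
  have hlo : ∀ y ∈ BB S r E, ∀ y' ∈ BB S r E, (∀ i ∈ E, y i ≤ y' i) → tlo T E φ y →
      tlo T E φ y' := fun y hy y' hy' h => tlo_mono hr hT E φ y y' hy hy' h
  have hhi : ∀ y ∈ BB S r E, ∀ y' ∈ BB S r E, (∀ i ∈ E, y i ≤ y' i) → thi T E φ y →
      thi T E φ y' := fun y hy y' hy' h => thi_mono hr hT E φ y y' hy hy' h
  rcases F1 hr.lam hx' hx'' with h5 | h5
  · refine uniq_aux hr E (tlo T E φ) (thi T E φ) hlo hhi ?_ hL.lb z' z'' h5 y' y'' hc' hc''
      h1 h2 h3 h4
    intro y hy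
    obtain ⟨p, hp1, hp2⟩ := hT.lim E y hy
    refine ⟨p, hp1, fun w hw h6 h7 h8 => ?_⟩
    rintro ⟨v, hv, h9⟩
    exact ⟨v, by rw [hp2 w hw h6 h7 h8]; exact hv, h9⟩
  · refine uniq_aux hr E (thi T E φ) (tlo T E φ) hhi hlo ?_ (fun x h6 h7 => (hL.lb x h7 h6).symm)
      z'' z' h5 y'' y' hc'' hc' h3 h4 h1 h2
    intro y hy
    obtain ⟨p, hp1, hp2⟩ := hT.lim E y hy
    refine ⟨p, hp1, fun w hw h6 h7 h8 => ?_⟩
    rintro ⟨v, hv, h9⟩
    exact ⟨v, by rw [hp2 w hw h6 h7 h8]; exact hv, h9⟩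

theorem st_exists [CompactSpace X] [ConnectedSpace X] (hr : Let r) {T : Pre X I S}
    (hT : Good r T) (E : Finset I) (φ : T.V E → Fin 5) (hL : Legal r T E φ) (y : I → S.P)
    (hy : y ∈ BB S r E) (hn : ¬ (tlo T E φ y ∧ thi T E φ y)) :
    (∃ y' ∈ BB S r E, (∀ i ∈ E, y i ≤ y' i) ∧ tlo T E φ y' ∧ ¬ thi T E φ y') ∨
    (∃ y' ∈ BB S r E, (∀ i ∈ E, y i ≤ y' i) ∧ thi T E φ y' ∧ ¬ tlo T E φ y') := by
  by_contra hcon
  have hiff : ∀ y' ∈ BB S r E, (∀ i ∈ E, y i ≤ y' i) → (tlo T E φ y' ↔ thi T E φ y') := by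
    intro y' hy' h
    constructor
    · intro h1
      by_contra h2
      exact hcon (Or.inl ⟨y', hy', h, h1, h2⟩)
    · intro h1
      by_contra h2
      exact hcon (Or.inr ⟨y', hy', h, h1, h2⟩)
  obtain ⟨x, hyx⟩ := hy
  have hy : y ∈ BB S r E := ⟨x, hyx⟩
  obtain ⟨w, hw⟩ := hr.top
  have hxw : leF r E x w := fun i _ => by rw [hw i]; exact (hr.bd i x).2
  have hlmem : ∀ z, leF r E x z → (fun i => max (ps S r i z) (y i)) ∈ cube S r E z :=
    fun z hz => max_mem_cube hr hyx hz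
  have hlo : ∀ (u u' : I → S.P), u ∈ BB S r E → u' ∈ BB S r E → (∀ i ∈ E, u i ≤ u' i) →
      tlo T E φ u → tlo T E φ u' := fun u u' h1 h2 h => tlo_mono hr hT E φ u u' h1 h2 h
  have hhi : ∀ (u u' : I → S.P), u ∈ BB S r E → u' ∈ BB S r E → (∀ i ∈ E, u i ≤ u' i) →
      thi T E φ u → thi T E φ u' := fun u u' h1 h2 h => thi_mono hr hT E φ u u' h1 h2 h
  have key : ¬ tlo T E φ (fun i => max (ps S r i w) (y i)) ∧
      ¬ thi T E φ (fun i => max (ps S r i w) (y i)) := by
    refine chain_induction (F := E) hr.cont hr.lam hxw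
      (fun z => ¬ tlo T E φ (fun i => max (ps S r i z) (y i)) ∧
        ¬ thi T E φ (fun i => max (ps S r i z) (y i))) ?_ ?_ ?_ ?_
    · intro z z' h1 h2 h3
      have h4 : T.K E (fun i => max (ps S r i z) (y i)) =
          T.K E (fun i => max (ps S r i z') (y i)) := by
        apply T.K_congr
        intro i hi
        have : r i z = r i z' := le_antisymm (h1 i hi) (h2 i hi)
        unfold ps; rw [this]
      unfold tlo thi at h3 ⊢
      rw [← h4]
      exact h3
    · have h4 : T.K E (fun i => max (ps S r i x) (y i)) = T.K E y := by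
        apply T.K_congr
        intro i hi
        exact max_eq_right (ps_le_cube hyx hi).1
      have h5 := hiff y hy (fun i _ => le_rfl)
      have h6 : ¬ tlo T E φ y := fun h => hn ⟨h, h5.1 h⟩
      have h7 : ¬ thi T E φ y := fun h => hn ⟨h5.2 h, h⟩
      unfold tlo at h6 ⊢
      unfold thi at h7 ⊢
      rw [h4]
      exact ⟨h6, h7⟩
    · intro g hxg hgx hngx
      have hlg := hlmem g hxg
      obtain ⟨p, hp1, hp2⟩ := hT.lim E _ ⟨g, hlg⟩
      obtain ⟨e, he, happ⟩ := approach hr.bd E g (fun i => max (ps S r i g) (y i)) hlg p hp1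
      refine ⟨e, he, fun z hxz hzg hngz hclose hTh => ?_⟩
      have hor : ∀ i ∈ E, max (ps S r i g) (y i) = ps S r i g ∨ ps S r i z = ps S r i g := by
        intro i hi
        rcases le_or_gt (y i) (ps S r i g) with h | h
        · left; exact max_eq_left h
        · right
          have h1 := (ps_le_cube hyx hi).2
          have h2 : ps S r i g ≤ ps S r i x := S.le_of_lt_s (h.trans_le h1)
          apply le_antisymm (ps_mono hr.bd (hzg i hi))
          exact h2.trans (ps_mono hr.bd (hxz i hi))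
      obtain ⟨h1, h2, h3⟩ := happ z hzg hclose hor
      have hK := hp2 _ ⟨z, h1⟩ (fun i hi => min_le_left _ _) h2 h3
      have hm : (fun i => min (max (ps S r i g) (y i)) (S.s (ps S r i z))) ∈ BB S r E :=
        ⟨z, h1⟩
      have hge : ∀ i ∈ E, y i ≤ min (max (ps S r i g) (y i)) (S.s (ps S r i z)) := by
        intro i hi
        apply le_min (le_max_right _ _)
        exact (le_max_right _ _).trans (ps_le_cube (hlmem z hxz) hi).2
      have hi' := hiff _ hm hge
      have hnot : ¬ (tlo T E φ (fun i => min (max (ps S r i g) (y i)) (S.s (ps S r i z))) ∧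
          thi T E φ (fun i => min (max (ps S r i g) (y i)) (S.s (ps S r i z)))) := by
        rintro ⟨h4, h5⟩
        have hup : up S r z ∈ BB S r E := ⟨z, up_mem S r E z⟩
        have hlw : low S r z ∈ BB S r E := ⟨z, low_mem S r E z⟩
        have hlz : (fun i => max (ps S r i z) (y i)) ∈ BB S r E := ⟨z, hlmem z hxz⟩
        have h6 := hlo _ _ hm hup (fun i hi => (ps_le_cube h1 hi).2) h4
        have h7 := hhi _ _ hm hup (fun i hi => (ps_le_cube h1 hi).2) h5
        rcases hL.lb z h6 h7 with h8 | h8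
        · exact hTh.1 (hlo _ _ hlw hlz (fun i hi => le_max_left _ _) h8)
        · exact hTh.2 (hhi _ _ hlw hlz (fun i hi => le_max_left _ _) h8)
      have h6 : ¬ tlo T E φ (fun i => min (max (ps S r i g) (y i)) (S.s (ps S r i z))) :=
        fun h => hnot ⟨h, hi'.1 h⟩
      have h7 : ¬ thi T E φ (fun i => min (max (ps S r i g) (y i)) (S.s (ps S r i z))) :=
        fun h => hnot ⟨hi'.2 h, h⟩
      unfold tlo at h6 ⊢
      unfold thi at h7 ⊢
      rw [← hK]
      exact ⟨h6, h7⟩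
    · intro g hxg hgx hTh
      obtain ⟨e, he, hnear⟩ := ps_near_leF (S := S) hr.bd E g
      refine ⟨e, he, fun z hgz hzx hclose => ?_⟩
      have h4 : T.K E (fun i => max (ps S r i g) (y i)) =
          T.K E (fun i => max (ps S r i z) (y i)) := by
        apply T.K_congr
        intro i hi
        have : ps S r i g = ps S r i z :=
          le_antisymm (ps_mono hr.bd (hgz i hi)) (hnear z i hi (hclose i hi))
        show max (ps S r i g) (y i) = max (ps S r i z) (y i)
        rw [this]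
      unfold tlo thi at hTh ⊢
      rw [← h4]
      exact hTh
  have h4 : T.K E (fun i => max (ps S r i w) (y i)) = T.K E (fun _ => S.top) := by
    apply T.K_congr
    intro i hi
    show max (ps S r i w) (y i) = S.top
    rw [ps_one (hw i)]
    exact max_eq_left (S.le_top _)
  apply key.1
  obtain ⟨v, hv, h5⟩ := hL.top_lo
  exact ⟨v, by rw [h4]; exact hv, h5⟩

theorem stat_full_iff (T : Pre X I S) (E : Finset I) (φ : T.V E → Fin 5) (y : I → S.P) :
    stat r T E φ y = Stat.full ↔ tlo T E φ y ∧ thi T E φ y := by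
  unfold stat
  split_ifs with h1 h2
  · exact ⟨fun _ => h1, fun _ => rfl⟩
  · exact ⟨fun h => (by cases h), fun h => absurd h h1⟩
  · exact ⟨fun h => (by cases h), fun h => absurd h h1⟩

private theorem stat_one_iff (T : Pre X I S) (E : Finset I) (φ : T.V E → Fin 5) (y : I → S.P) :
    stat r T E φ y = Stat.one ↔ ¬ (tlo T E φ y ∧ thi T E φ y) ∧
      ∃ y' ∈ BB S r E, (∀ i ∈ E, y i ≤ y' i) ∧ tlo T E φ y' ∧ ¬ thi T E φ y' := by
  unfold stat
  split_ifs with h1 h2
  · exact ⟨fun h => (by cases h), fun h => absurd h1 h.1⟩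
  · exact ⟨fun _ => ⟨h1, h2⟩, fun _ => rfl⟩
  · exact ⟨fun h => (by cases h), fun h => absurd h.2 h2⟩

private theorem stat_three_iff (T : Pre X I S) (E : Finset I) (φ : T.V E → Fin 5)
    (y : I → S.P) :
    stat r T E φ y = Stat.three ↔ ¬ (tlo T E φ y ∧ thi T E φ y) ∧
      ¬ ∃ y' ∈ BB S r E, (∀ i ∈ E, y i ≤ y' i) ∧ tlo T E φ y' ∧ ¬ thi T E φ y' := by
  unfold stat
  split_ifs with h1 h2
  · exact ⟨fun h => (by cases h), fun h => absurd h1 h.1⟩
  · exact ⟨fun h => (by cases h), fun h => absurd h2 h.2⟩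
  · exact ⟨fun _ => ⟨h1, h2⟩, fun _ => rfl⟩

theorem stat_mono [CompactSpace X] [ConnectedSpace X] (hr : Let r) {T : Pre X I S}
    (hT : Good r T) (E : Finset I) (φ : T.V E → Fin 5) (hL : Legal r T E φ) (y y' : I → S.P)
    (hy : y ∈ BB S r E) (hy' : y' ∈ BB S r E) (h : ∀ i ∈ E, y i ≤ y' i) :
    stat r T E φ y' = stat r T E φ y ∨ stat r T E φ y' = Stat.full := by
  by_cases hf : tlo T E φ y' ∧ thi T E φ y'
  · right
    exact (stat_full_iff T E φ y').2 hf
  · left
    have hf' : ¬ (tlo T E φ y ∧ thi T E φ y) := fun h1 =>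
      hf ⟨tlo_mono hr hT E φ y y' hy hy' h h1.1, thi_mono hr hT E φ y y' hy hy' h h1.2⟩
    by_cases h1 : ∃ u ∈ BB S r E, (∀ i ∈ E, y' i ≤ u i) ∧ tlo T E φ u ∧ ¬ thi T E φ u
    · have h2 : stat r T E φ y' = Stat.one := (stat_one_iff T E φ y').2 ⟨hf, h1⟩
      have h3 : stat r T E φ y = Stat.one := by
        rw [stat_one_iff]
        obtain ⟨u, hu, h4, h5⟩ := h1
        exact ⟨hf', u, hu, fun i hi => (h i hi).trans (h4 i hi), h5⟩
      rw [h2, h3]
    · have h2 : stat r T E φ y' = Stat.three := (stat_three_iff T E φ y').2 ⟨hf, h1⟩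
      have h3 : stat r T E φ y = Stat.three := by
        rw [stat_three_iff]
        refine ⟨hf', ?_⟩
        rintro ⟨u, hu, h4, h5, h6⟩
        rcases st_exists hr hT E φ hL y' hy' hf with h7 | ⟨v, hv, h7, h8, h9⟩
        · exact h1 h7
        · exact st_unique hr hT E φ hL y u v hy hu hv h4
            (fun i hi => (h i hi).trans (h7 i hi)) h5 h6 h8 h9
      rw [h2, h3]

theorem stat_one [CompactSpace X] [ConnectedSpace X] (hr : Let r) {T : Pre X I S}
    (hT : Good r T) (E : Finset I) (φ : T.V E → Fin 5) (hL : Legal r T E φ) (y : I → S.P)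
    (hy : y ∈ BB S r E) (h : stat r T E φ y = Stat.one) : ¬ thi T E φ y := by
  obtain ⟨_, u, hu, h4, _, h6⟩ := (stat_one_iff T E φ y).1 h
  exact fun h7 => h6 (thi_mono hr hT E φ y u hy hu h4 h7)

theorem stat_three [CompactSpace X] [ConnectedSpace X] (hr : Let r) {T : Pre X I S}
    (hT : Good r T) (E : Finset I) (φ : T.V E → Fin 5) (hL : Legal r T E φ) (y : I → S.P)
    (hy : y ∈ BB S r E) (h : stat r T E φ y = Stat.three) : ¬ tlo T E φ y := by
  obtain ⟨h1, h2⟩ := (stat_three_iff T E φ y).1 h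
  rcases st_exists hr hT E φ hL y hy h1 with h7 | ⟨v, hv, h7, h8, h9⟩
  · exact absurd h7 h2
  · exact fun h3 => h9 (tlo_mono hr hT E φ y v hy hv h7 h3)

theorem stat_lim [CompactSpace X] [ConnectedSpace X] (hr : Let r) {T : Pre X I S}
    (hT : Good r T) (E : Finset I) (φ : T.V E → Fin 5) (hL : Legal r T E φ) (y : I → S.P)
    (hy : y ∈ BB S r E) :
    ∃ p : I → S.P, (∀ i ∈ E, S.IsLim (y i) → p i < y i) ∧
    ∀ w ∈ BB S r E, (∀ i ∈ E, w i ≤ y i) → (∀ i ∈ E, ¬ S.IsLim (y i) → w i = y i) →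
      (∀ i ∈ E, S.IsLim (y i) → p i < w i) → stat r T E φ w = stat r T E φ y := by
  obtain ⟨p, hp1, hp2⟩ := hT.lim E y hy
  refine ⟨p, hp1, fun w hw h1 h2 h3 => ?_⟩
  have hK := hp2 w hw h1 h2 h3
  rcases stat_mono hr hT E φ hL w y hw hy h1 with h4 | h4
  · exact h4.symm
  · rw [h4, stat_full_iff]
    have h5 := (stat_full_iff T E φ y).1 h4
    unfold tlo thi at h5 ⊢
    rw [hK]
    exact h5

end Pool.Agent.H26DI
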