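import Pool.Agent.Helper26.DD.FoA

/-!
# DD module I-11: the sets `LM F y` (section 7).

`BB_sub`: `BB S r F ⊆ BB S r E` for `E ⊆ F` (same point `x`).
`ph_hom`: `Legal.hom`, `res_adj`.
`valid_st`: for `e = (E, φ)`: `T.K E y = res '' T.K F y` (`nat`). one: `¬ thi` gives `φ ≤ 2` on `K`;
three: `¬ tlo` gives `φ ≥ 2`; `pk`: `K` nonempty; full: `tlo` gives a point with `φ ≤ 1`.
`LM_ne`: `core`. `LM_cn`: `LAM_cn`. `LM_proj`: `LAM_proj`. `LM_sub`: `LAM_sub`.
`exists_V`: an element of `LM` satisfies the equations defining `(T.fold r).V F`.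
`fold_conn`: transport `LM_cn` to the subtype. `fold_pK`: `LM_proj`, `LM_sub`.
-/

set_option autoImplicit false

namespace Pool.Agent.H26DI

open Topology Pool.Agent.Helper85.DT

variable {X I : Type} [DecidableEq I] [TopologicalSpace X] {S : PS} {r : I → X → ℝ}

omit [TopologicalSpace X] in
theorem BB_sub {E F : Finset I} (h : E ⊆ F) {y : I → S.P} (hy : y ∈ BB S r F) :
    y ∈ BB S r E := by
  obtain ⟨x, hx⟩ := hy
  exact ⟨x, fun i hi => hx i (h hi)⟩

omit [TopologicalSpace X] in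
theorem ph_hom (T : Pre X I S) (F : Finset I) (e : TI r T F) (v w : T.V F)
    (h : T.adj F v w) : nr (ph r T F e v) (ph r T F e w) := by
  exact e.2.2.hom _ _ (T.res_adj F e.1.1 e.2.1 v w h)

theorem valid_st [CompactSpace X] [ConnectedSpace X] (hr : Let r) {T : Pre X I S}
    (hT : Good r T) (F : Finset I) (y : I → S.P) (hy : y ∈ BB S r F) :
    Valid (ph r T F) (T.K F y) (st r T F y) := by
  intro e
  have hE : y ∈ BB S r e.1.1 := BB_sub e.2.1 hy
  have hmem : ∀ z ∈ T.K F y, T.res F e.1.1 e.2.1 z ∈ T.K e.1.1 y := by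
    intro z hz
    rw [← hT.nat F e.1.1 e.2.1 y hy]
    exact ⟨z, hz, rfl⟩
  obtain ⟨z0, hz0⟩ := (hT.conn F y hy).1
  show (∀ z ∈ T.K F y, vk (stat r T e.1.1 e.1.2 y) (e.1.2 (T.res F e.1.1 e.2.1 z))) ∧
    ∃ z ∈ T.K F y, pk (stat r T e.1.1 e.1.2 y) (e.1.2 (T.res F e.1.1 e.2.1 z))
  cases hs : stat r T e.1.1 e.1.2 y with
  | one =>
    have h1 := stat_one hr hT e.1.1 e.1.2 e.2.2 y hE hs
    have h2 : ∀ z ∈ T.K F y, (e.1.2 (T.res F e.1.1 e.2.1 z)).val ≤ 3 := by
      intro z hz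
      by_contra h3
      exact h1 ⟨_, hmem z hz, by omega⟩
    exact ⟨h2, z0, hz0, h2 z0 hz0⟩
  | three =>
    have h1 := stat_three hr hT e.1.1 e.1.2 e.2.2 y hE hs
    have h2 : ∀ z ∈ T.K F y, 1 ≤ (e.1.2 (T.res F e.1.1 e.2.1 z)).val := by
      intro z hz
      by_contra h3
      exact h1 ⟨_, hmem z hz, by omega⟩
    exact ⟨h2, z0, hz0, h2 z0 hz0⟩
  | full =>
    refine ⟨fun _ _ => trivial, ?_⟩
    obtain ⟨⟨v, hv, h1⟩, _⟩ := (stat_full_iff T e.1.1 e.1.2 y).1 hs
    rw [← hT.nat F e.1.1 e.2.1 y hy] at hv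
    obtain ⟨z, hz, rfl⟩ := hv
    exact ⟨z, hz, Or.inl h1⟩

theorem LM_ne [CompactSpace X] [ConnectedSpace X] (hr : Let r) {T : Pre X I S}
    (hT : Good r T) (F : Finset I) (y : I → S.P) (hy : y ∈ BB S r F) :
    (LM r T F y).Nonempty := by
  exact core (T.adj F) (T.asymm F) (ph r T F) (fun e v w h => ph_hom T F e v w h) (T.K F y)
    (hT.conn F y hy) (st r T F y) (valid_st hr hT F y hy)

theorem LM_cn [CompactSpace X] [ConnectedSpace X] (hr : Let r) {T : Pre X I S}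
    (hT : Good r T) (F : Finset I) (y : I → S.P) (hy : y ∈ BB S r F) :
    Cn (adjP (T.adj F)) (LM r T F y) := by
  exact LAM_cn (T.asymm F) (hT.conn F y hy).1 (LM_ne hr hT F y hy)

theorem LM_proj [CompactSpace X] [ConnectedSpace X] (hr : Let r) {T : Pre X I S}
    (hT : Good r T) (F : Finset I) (y : I → S.P) (hy : y ∈ BB S r F) (z : T.V F)
    (hz : z ∈ T.K F y) : ∃ v, (z, v) ∈ LM r T F y := by
  exact LAM_proj (T.asymm F) (LM_ne hr hT F y hy) hz

omit [TopologicalSpace X] in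
theorem LM_sub (T : Pre X I S) (F : Finset I) (y : I → S.P)
    (a : T.V F × (TI r T F → Fin 9)) (ha : a ∈ LM r T F y) :
    a.1 ∈ T.K F y ∧ ∀ e, nu (a.2 e) = ph r T F e a.1 ∧ al (st r T F y e) (a.2 e) := by
  exact (LAM_sub (T.adj F) (ph r T F) (T.K F y) (st r T F y) ha)

theorem fold_conn [CompactSpace X] [ConnectedSpace X] (hr : Let r) {T : Pre X I S}
    (hT : Good r T) (F : Finset I) (y : I → S.P) (hy : y ∈ BB S r F) :
    Cn ((T.fold r).adj F) ((T.fold r).K F y) := by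
  obtain ⟨hne, hc⟩ := LM_cn hr hT F y hy
  refine ⟨?_, ?_⟩
  · obtain ⟨a, ha⟩ := hne
    exact ⟨⟨a, fun e => ((LM_sub T F y a ha).2 e).1⟩, ha⟩
  · intro a ha b hb
    have key : ∀ c, Relation.ReflTransGen (fun a b => adjP (T.adj F) a b ∧ b ∈ LM r T F y) a.1 c →
        ∀ hc : ∀ e, nu (c.2 e) = ph r T F e c.1,
        Relation.ReflTransGen (fun a b => (T.fold r).adj F a b ∧ b ∈ (T.fold r).K F y) a
          (⟨c, hc⟩ : (T.fold r).V F) := by
      intro c hcc
      induction hcc with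
      | refl => intro _; exact Relation.ReflTransGen.refl
      | tail hab hbc ih =>
        rename_i b' c'
        intro hc'
        have hb' : b' ∈ LM r T F y := by
          cases hab with
          | refl => exact ha
          | tail _ h => exact h.2
        exact (ih (fun e => ((LM_sub T F y b' hb').2 e).1)).tail ⟨hbc.1, hbc.2⟩
    exact key b.1 (hc a.1 ha b.1 hb) b.2

theorem fold_pK [CompactSpace X] [ConnectedSpace X] (hr : Let r) {T : Pre X I S}
    (hT : Good r T) (F : Finset I) (y : I → S.P) (hy : y ∈ BB S r F) :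
    (fun a : (T.fold r).V F => a.1.1) '' (T.fold r).K F y = T.K F y := by
  ext z
  constructor
  · rintro ⟨a, ha, rfl⟩
    exact (LM_sub T F y a.1 ha).1
  · intro hz
    obtain ⟨v, hv⟩ := LM_proj hr hT F y hy z hz
    exact ⟨⟨(z, v), fun e => ((LM_sub T F y (z, v) hv).2 e).1⟩, hv, rfl⟩

end Pool.Agent.H26DI
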