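import Pool.Agent.Helper26.DD.FoB

/-!
# DD module I-12: the fold extension, (A2), (A5), restriction into (section 7).

`LM_mono`: `y ≤ y'` in `cube x`. `grow` (Helper85/DT/Parity) with `D = K F y`, `D' = K F y'`: neighbours:
`v ∈ K F y' ⊆ K F (up x)`, `step` gives `u ∈ K F (low x) ⊆ K F y` adjacent to `v`; statuses: `stat_mono`,
`stat_one`, `stat_three`, `stat_full_iff` (at level `E`; `K E y = res '' K F y`); `valid_st`.
`LM_lim`: `p` is the maximum of the one given by `hT.lim F y` and those of `stat_lim` (level `e.1.1`)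
for the finitely many tests `e : TI r T F` (values at `i ∈ E`, `y i` limit; use `S.bot`
otherwise); then `K F w = K F y` and `st w = st y`.
`LM_res`: `transfer` with `H a = (res a.1, a.2 ∘ incl)`, `z ∈ K F y`, `z₂ = res z ∈ K G y`; the weighted
sum is `sum_forget` with `io = TI.incl h` (`ph_incl`; total weight one of the forgotten tests:
`om_total`, `valid_st`).
-/

set_option autoImplicit false

namespace Pool.Agent.H26DI

open Topology Pool.Agent.Helper85.DT

variable {X I : Type} [DecidableEq I] [TopologicalSpace X] {S : PS} {r : I → X → ℝ}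

theorem LM_mono [CompactSpace X] [ConnectedSpace X] (hr : Let r) {T : Pre X I S}
    (hT : IsSys r T) (F : Finset I) (x : X) (y y' : I → S.P) (hy : y ∈ cube S r F x)
    (hy' : y' ∈ cube S r F x) (h : ∀ i ∈ F, y i ≤ y' i) : LM r T F y ⊆ LM r T F y' := by
  have hG : Good r T := hT.toGood
  have hyB : y ∈ BB S r F := ⟨x, hy⟩
  have hyB' : y' ∈ BB S r F := ⟨x, hy'⟩
  have hDD : T.K F y ⊆ T.K F y' := hG.mono F x y hy y' hy' h
  have htr : ∀ e : TI r T F, ∀ u ∈ BB S r F, ∀ v ∈ T.K e.1.1 u, ∃ z ∈ T.K F u,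
      T.res F e.1.1 e.2.1 z = v := by
    intro e u hu v hv
    rw [← hG.nat F e.1.1 e.2.1 u hu] at hv
    obtain ⟨z, hz, h1⟩ := hv
    exact ⟨z, hz, h1⟩
  have hmem : ∀ e : TI r T F, ∀ u ∈ BB S r F, ∀ z ∈ T.K F u,
      T.res F e.1.1 e.2.1 z ∈ T.K e.1.1 u := by
    intro e u hu z hz
    rw [← hG.nat F e.1.1 e.2.1 u hu]
    exact ⟨z, hz, rfl⟩
  refine grow (T.asymm F) (fun e v w h1 => ph_hom T F e v w h1) (hG.conn F y hyB)
    (hG.conn F y' hyB') hDD ?_ (valid_st hr hG F y' hyB') ?_
  · intro v hv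
    have hv' : v ∈ T.K F (up S r x) :=
      hG.mono F x y' hy' _ (up_mem S r F x) (fun i hi => (ps_le_cube hy' hi).2) hv
    obtain ⟨u, hu, huv⟩ := hT.step F x v hv'
    exact ⟨u, hG.mono F x _ (low_mem S r F x) y hy (fun i hi => (ps_le_cube hy hi).1) hu, huv⟩
  · intro e
    have hE : y ∈ BB S r e.1.1 := BB_sub e.2.1 hyB
    have hE' : y' ∈ BB S r e.1.1 := BB_sub e.2.1 hyB'
    have hm : st r T F y' e = st r T F y e ∨ st r T F y' e = Stat.full :=
      stat_mono hr hG e.1.1 e.1.2 e.2.2 y y' hE hE' (fun i hi => h i (e.2.1 hi))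
    rcases hm with h1 | h1
    · exact Or.inl h1
    · have hf := (stat_full_iff T e.1.1 e.1.2 y').1 h1
      rcases hs : st r T F y e with _ | _ | _
      · refine Or.inr (Or.inl ⟨rfl, h1, ?_, ?_⟩)
        · intro z hz
          by_contra hcon
          push Not at hcon
          exact stat_one hr hG e.1.1 e.1.2 e.2.2 y hE hs ⟨_, hmem e y hyB z hz, hcon⟩
        · obtain ⟨⟨v, hv, h2⟩, _⟩ := hf
          obtain ⟨z, hz, h3⟩ := htr e y' hyB' v hv
          refine ⟨z, hz, ?_⟩
          show (e.1.2 (T.res F e.1.1 e.2.1 z)).val ≤ 1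
          rw [h3]; exact h2
      · refine Or.inr (Or.inr ⟨rfl, h1, ?_, ?_⟩)
        · intro z hz
          by_contra hcon
          push Not at hcon
          exact stat_three hr hG e.1.1 e.1.2 e.2.2 y hE hs
            ⟨_, hmem e y hyB z hz, Nat.le_of_lt_succ hcon⟩
        · obtain ⟨_, ⟨v, hv, h2⟩⟩ := hf
          obtain ⟨z, hz, h3⟩ := htr e y' hyB' v hv
          refine ⟨z, hz, ?_⟩
          show 3 ≤ (e.1.2 (T.res F e.1.1 e.2.1 z)).val
          rw [h3]; exact h2
      · exact Or.inl h1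

theorem LM_lim [CompactSpace X] [ConnectedSpace X] (hr : Let r) {T : Pre X I S}
    (hT : Good r T) (F : Finset I) (y : I → S.P) (hy : y ∈ BB S r F) :
    ∃ p : I → S.P, (∀ i ∈ F, S.IsLim (y i) → p i < y i) ∧
    ∀ w ∈ BB S r F, (∀ i ∈ F, w i ≤ y i) → (∀ i ∈ F, ¬ S.IsLim (y i) → w i = y i) →
      (∀ i ∈ F, S.IsLim (y i) → p i < w i) → LM r T F w = LM r T F y := by
  have key : ∀ A : Finset (TI r T F), ∃ p : I → S.P, (∀ i ∈ F, S.IsLim (y i) → p i < y i) ∧
      ∀ w ∈ BB S r F, (∀ i ∈ F, w i ≤ y i) → (∀ i ∈ F, ¬ S.IsLim (y i) → w i = y i) →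
        (∀ i ∈ F, S.IsLim (y i) → p i < w i) →
        T.K F w = T.K F y ∧ ∀ e ∈ A, st r T F w e = st r T F y e := by
    intro A
    induction A using Finset.induction_on with
    | empty =>
      obtain ⟨p, hp1, hp2⟩ := hT.lim F y hy
      refine ⟨p, hp1, fun w hw h1 h2 h3 => ⟨hp2 w hw h1 h2 h3, ?_⟩⟩
      intro e he
      exact absurd he (Finset.notMem_empty e)
    | insert e A _ ih =>
      obtain ⟨p, hp1, hp2⟩ := ih
      obtain ⟨q, hq1, hq2⟩ := stat_lim hr hT e.1.1 e.1.2 e.2.2 y (BB_sub e.2.1 hy)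
      refine ⟨fun i => if i ∈ e.1.1 then max (p i) (q i) else p i, ?_, ?_⟩
      · intro i hi hl
        show (if i ∈ e.1.1 then max (p i) (q i) else p i) < y i
        split_ifs with h1
        · exact max_lt (hp1 i hi hl) (hq1 i h1 hl)
        · exact hp1 i hi hl
      · intro w hw h1 h2 h3
        have h4 : ∀ i ∈ F, S.IsLim (y i) → p i < w i := by
          intro i hi hl
          have h5 := h3 i hi hl
          simp only at h5
          split_ifs at h5 with h6
          · exact lt_of_le_of_lt (le_max_left _ _) h5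
          · exact h5
        have h7 : ∀ i ∈ e.1.1, S.IsLim (y i) → q i < w i := by
          intro i hi hl
          have h5 := h3 i (e.2.1 hi) hl
          simp only at h5
          rw [if_pos hi] at h5
          exact lt_of_le_of_lt (le_max_right _ _) h5
        obtain ⟨h8, h9⟩ := hp2 w hw h1 h2 h4
        refine ⟨h8, fun e' he' => ?_⟩
        rcases Finset.mem_insert.1 he' with h10 | h10
        · subst h10
          exact hq2 w (BB_sub e'.2.1 hw) (fun i hi => h1 i (e'.2.1 hi))
            (fun i hi => h2 i (e'.2.1 hi)) h7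
        · exact h9 e' h10
  obtain ⟨p, hp1, hp2⟩ := key Finset.univ
  refine ⟨p, hp1, fun w hw h1 h2 h3 => ?_⟩
  obtain ⟨h4, h5⟩ := hp2 w hw h1 h2 h3
  have h6 : st r T F w = st r T F y := funext fun e => h5 e (Finset.mem_univ e)
  unfold LM
  rw [h4, h6]

theorem LM_res [CompactSpace X] [ConnectedSpace X] (hr : Let r) {T : Pre X I S}
    (hT : Good r T) (F G : Finset I) (h : G ⊆ F) (y : I → S.P) (hy : y ∈ BB S r F)
    (a : T.V F × (TI r T F → Fin 9)) (ha : a ∈ LM r T F y) :
    (T.res F G h a.1, fun e : TI r T G => a.2 (e.incl h)) ∈ LM r T G y := by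
  have hyG : y ∈ BB S r G := BB_sub h hy
  have hmem : ∀ z ∈ T.K F y, T.res F G h z ∈ T.K G y := by
    intro z hz
    rw [← hT.nat F G h y hy]
    exact ⟨z, hz, rfl⟩
  obtain ⟨z, hz⟩ := (hT.conn F y hy).1
  have hval := valid_st hr hT F y hy
  refine transfer (adj := T.adj F) (phi := ph r T F) (K := T.K F y) (st := st r T F y)
    (adj₂ := T.adj G) (phi₂ := ph r T G) (K₂ := T.K G y) (st₂ := st r T G y)
    (LM_ne hr hT G y hyG)
    (fun b => (T.res F G h b.1, fun e : TI r T G => b.2 (e.incl h))) ?_ ?_ hz (hmem z hz) ?_ a ha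
  · intro b hb
    refine ⟨hmem b.1 hb.1, fun e => ?_⟩
    have h1 := hb.2 (e.incl h)
    exact ⟨h1.1.trans (ph_incl r T h e b.1), h1.2⟩
  · intro b _ c _ hbc
    exact ⟨T.res_adj F G h _ _ hbc.1, fun e => hbc.2 _⟩
  · intro g
    exact sum_forget (TI.incl h)
      (by
        intro e e' hee
        have h1 : (e.incl h).1 = (e'.incl h).1 := congrArg Subtype.val hee
        exact Subtype.ext h1)
      (fun e => om (st r T F y e) (ph r T F e z))
      (fun e => om (st r T G y e) (ph r T G e (T.res F G h z)))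
      (fun e => by
        show om (st r T F y (e.incl h)) (ph r T F (e.incl h) z) = _
        rw [ph_incl r T h e z]
        rfl)
      (fun e _ => om_total _ _ ((hval e).1 z hz))
      (fun u => g (T.res F G h z, u))

end Pool.Agent.H26DI
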