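import Pool.Agent.Helper85.DT.Parity

/-!
# DD module I-13: growing a connected set inside a connected set of vertices.

`grw 0 = D0`, `grw (n+1)` = the vertices of `K` adjacent to `grw n`. It increases, stays connected,
and is `K` after finitely many steps (`V` finite, `K` connected: as long as `grw n ≠ K` a walk in `K`
from `grw n` to `K \ grw n` gives a new vertex).
-/

set_option autoImplicit false

namespace Pool.Agent.H26DI

open Pool.Agent.Helper85.DT

/-- the growing sets -/
def grw {V : Type} (adj : V → V → Prop) (K D0 : Set V) : ℕ → Set V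
  | 0 => D0
  | n + 1 => {v | v ∈ K ∧ ∃ u ∈ grw adj K D0 n, adj u v}

theorem grw_sub {V : Type} {adj : V → V → Prop} {K D0 : Set V} (hs : D0 ⊆ K) (n : ℕ) :
    grw adj K D0 n ⊆ K := by
  cases n with
  | zero => exact hs
  | succ n => exact fun v hv => hv.1

theorem grw_step {V : Type} {adj : V → V → Prop} (hrefl : ∀ v, adj v v) {K D0 : Set V}
    (hs : D0 ⊆ K) (n : ℕ) : grw adj K D0 n ⊆ grw adj K D0 (n + 1) := by
  intro v hv
  exact ⟨grw_sub hs n hv, v, hv, hrefl v⟩

theorem grw_mono {V : Type} {adj : V → V → Prop} (hrefl : ∀ v, adj v v) {K D0 : Set V}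
    (hs : D0 ⊆ K) {n m : ℕ} (h : n ≤ m) : grw adj K D0 n ⊆ grw adj K D0 m := by
  induction h with
  | refl => exact fun _ hx => hx
  | step _ ih => exact fun _ hx => grw_step hrefl hs _ (ih hx)

theorem grw_cn {V : Type} {adj : V → V → Prop} (hrefl : ∀ v, adj v v)
    (hsymm : ∀ v w, adj v w → adj w v) {K D0 : Set V} (hs : D0 ⊆ K) (hD : Cn adj D0) (n : ℕ) :
    Cn adj (grw adj K D0 n) := by
  induction n with
  | zero => exact hD
  | succ n ih =>
    refine ⟨?_, ?_⟩
    · obtain ⟨x, hx⟩ := ih.1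
      exact ⟨x, grw_step hrefl hs n hx⟩
    · intro x hx y hy
      obtain ⟨u, hu, hux⟩ := hx.2
      obtain ⟨w, hw, hwy⟩ := hy.2
      have h1 : Relation.ReflTransGen
          (fun a b => adj a b ∧ b ∈ grw adj K D0 (n + 1)) x u :=
        Relation.ReflTransGen.single ⟨hsymm u x hux, grw_step hrefl hs n hu⟩
      have h2 : Relation.ReflTransGen
          (fun a b => adj a b ∧ b ∈ grw adj K D0 (n + 1)) u w :=
        (ih.2 u hu w hw).lift id fun a b hab => ⟨hab.1, grw_step hrefl hs n hab.2⟩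
      exact (h1.trans h2).tail ⟨hwy, hy⟩

theorem grw_eq {V : Type} [Finite V] {adj : V → V → Prop} (hrefl : ∀ v, adj v v)
    (hsymm : ∀ v w, adj v w → adj w v) {K D0 : Set V} (hs : D0 ⊆ K) (hD : D0.Nonempty)
    (hK : Cn adj K) : ∃ N, grw adj K D0 N = K := by
  classical
  let f : ℕ →o Set V := ⟨grw adj K D0, fun _ _ h => grw_mono hrefl hs h⟩
  obtain ⟨N, hN⟩ := WellFoundedGT.monotone_chain_condition f
  have hst : grw adj K D0 N = grw adj K D0 (N + 1) := hN (N + 1) (Nat.le_succ N)
  refine ⟨N, Set.Subset.antisymm (grw_sub hs N) ?_⟩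
  obtain ⟨x0, hx0⟩ := hD
  have hx0N : x0 ∈ grw adj K D0 N := grw_mono hrefl hs (Nat.zero_le N) hx0
  intro y hy
  have key : ∀ z, Relation.ReflTransGen (fun a b => adj a b ∧ b ∈ K) x0 z →
      z ∈ grw adj K D0 N := by
    intro z hz
    induction hz with
    | refl => exact hx0N
    | tail _ hbc ih =>
      rw [hst]
      exact ⟨hbc.2, _, ih, hbc.1⟩
  exact key y (hK.2 x0 (hs hx0) y hy)

end Pool.Agent.H26DI
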