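import Pool.Agent.Helper26.DD.FoB
import Pool.Agent.Helper26.DD.Grw

/-!
# DD module I-14: the sheet choice of a section and the growth argument (section 7, (A6)).

Given `σ ∈ T.Sec F i x`. `F' = F.erase i`, `K = T.K F (low x)`, `D n = grw (T.adj F) K (σ '' T.K F' (low x)) n`.
`σ '' T.K F' (low x)` is connected (`sec_hom`; `T.K F' (low x) ⊆ T.K F' (up x)`) and contained in `K`
(`sec_K` for `c = low x`). For a set `D ⊆ V F` and `e : TI r T F` say that `D` touches lo / hi of `e` if
some `z ∈ D` has `ph e z ≤ 1` / `≥ 3`.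
(i) `e` with `¬ e.1.1 ⊆ F'` (so `i ∈ e.1.1`): `σ '' T.K F' (up x)` does not touch both lo and hi of `e`:
`sec_restr` to `E = e.1.1` and `Legal.lc` (`res a ∈ T.K (E.erase i) (up x)` by `nat`).
(ii) `e` with `e.1.1 ⊆ F'` and full at `low x`: already `D 0` touches both (`res (σ a) = a`, `nat` for `F' → E`).
Define `j e = true` iff (`st e = full` and for some `n` `D n` touches hi but not lo of `e`) or `st e = three`
(`st e = st r T F (low x) e`).
(iii) for `e` as in (i), full at `low x`, and `D n` not touching both: if `j e` then `2 ≤ ph e` on `D n`,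
otherwise `ph e ≤ 2` on `D n`.
Status at step `n`: `sn n e = st e` if `e.1.1 ⊆ F'` or `st e ≠ full`; otherwise full if `D n` touches both,
else three/one according to `j e`. `Valid (ph) (D n) (sn n)`. `grow` gives
`LAM (D n) (sn n) ⊆ LAM (D (n+1)) (sn (n+1))`. `D N = K` (`grw_eq`), `sn N = st`; and `sn 0` is the status
in the statement. Third clause: `v ∈ T.K F' (up x)` has a neighbour `u ∈ T.K F' (low x)` (`step`), `σ u ∈ D 0`
is adjacent to `σ v`; on `D 0` `ph e ≤ 2` (`j e = false`: by (iii) if full at `low x`, by `stat_one` if one) or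
`2 ≤ ph e` (`j e = true`), and `ph` changes by at most one (`ph_hom`).
-/

set_option autoImplicit false

namespace Pool.Agent.H26DI

open Topology Pool.Agent.Helper85.DT

variable {X I : Type} [DecidableEq I] [TopologicalSpace X] {S : PS} {r : I → X → ℝ}

open Classical in
/-- the status on the image of a section -/
noncomputable def st0 (r : I → X → ℝ) (T : Pre X I S) (F : Finset I) (i : I) (x : X)
    (j : TI r T F → Bool) (e : TI r T F) : Stat :=
  if e.1.1 ⊆ F.erase i then st r T F (low S r x) e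
  else if j e then Stat.three else Stat.one

private theorem cn_image {V W : Type} {adj : V → V → Prop} {adj' : W → W → Prop} (f : V → W)
    {A : Set V} (hA : Cn adj A)
    (hf : ∀ a ∈ A, ∀ b ∈ A, adj a b → adj' (f a) (f b)) : Cn adj' (f '' A) := by
  obtain ⟨⟨a0, ha0⟩, h⟩ := hA
  refine ⟨⟨f a0, a0, ha0, rfl⟩, ?_⟩
  rintro _ ⟨a, ha, rfl⟩ _ ⟨b, hb, rfl⟩
  have key : ∀ c, Relation.ReflTransGen (fun a b => adj a b ∧ b ∈ A) a c →
      c ∈ A ∧ Relation.ReflTransGen (fun a b => adj' a b ∧ b ∈ f '' A) (f a) (f c) := by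
    intro c hc
    induction hc with
    | refl => exact ⟨ha, Relation.ReflTransGen.refl⟩
    | tail _ hbc ih =>
      exact ⟨hbc.2, ih.2.tail ⟨hf _ ih.1 _ hbc.2 hbc.1, ⟨_, hbc.2, rfl⟩⟩⟩
  exact (key b (h a ha b hb)).2

theorem fold_grow [CompactSpace X] [ConnectedSpace X] (hr : Let r) {T : Pre X I S}
    (hT : IsSys r T) (F : Finset I) (i : I) (hi : i ∈ F) (x : X)
    (σ : T.V (F.erase i) → T.V F) (hσ : σ ∈ T.Sec F i x) :
    ∃ j : TI r T F → Bool,
      (∀ e : TI r T F, ¬ e.1.1 ⊆ F.erase i →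
        (st r T F (low S r x) e = Stat.one → j e = false) ∧
        (st r T F (low S r x) e = Stat.three → j e = true) ∧
        ∀ v ∈ T.K (F.erase i) (up S r x),
          (j e = false → (ph r T F e (σ v)).val ≤ 3) ∧
          (j e = true → 1 ≤ (ph r T F e (σ v)).val)) ∧
      LAM (T.adj F) (ph r T F) (σ '' T.K (F.erase i) (low S r x)) (st0 r T F i x j) ⊆
        LM r T F (low S r x) := by
  classical
  have hG : Good r T := hT.toGood
  haveI : Finite (T.V F) := T.fin F
  -- basic facts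
  have hlowF : low S r x ∈ BB S r F := ⟨x, low_mem S r F x⟩
  have hlowF' : low S r x ∈ BB S r (F.erase i) := ⟨x, low_mem S r _ x⟩
  have hupF' : up S r x ∈ BB S r (F.erase i) := ⟨x, up_mem S r _ x⟩
  have hlu : T.K (F.erase i) (low S r x) ⊆ T.K (F.erase i) (up S r x) :=
    hG.mono (F.erase i) x _ (low_mem S r _ x) _ (up_mem S r _ x) (fun k _ => S.le_s _)
  set K := T.K F (low S r x) with hKdef
  set D0 := σ '' T.K (F.erase i) (low S r x) with hD0def
  have hD0K : D0 ⊆ K := by
    rintro _ ⟨a, ha, rfl⟩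
    exact hG.sec_K F i x hi σ hσ _ (low_mem S r F x) a ha
  have hD0cn : Cn (T.adj F) D0 :=
    cn_image σ (hG.conn (F.erase i) _ hlowF') (fun a ha b hb hab =>
      hG.sec_hom F i x hi σ hσ a (hlu ha) b (hlu hb) hab)
  have hKcn : Cn (T.adj F) K := hG.conn F _ hlowF
  let D : ℕ → Set (T.V F) := grw (T.adj F) K D0
  have hDK : ∀ n, D n ⊆ K := fun n => grw_sub hD0K n
  have hDmono : ∀ {n m : ℕ}, n ≤ m → D n ⊆ D m := fun h => grw_mono (T.arefl F) hD0K h
  have hDcn : ∀ n, Cn (T.adj F) (D n) := fun n => grw_cn (T.arefl F) (T.asymm F) hD0K hD0cn n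
  obtain ⟨N, hN⟩ : ∃ N, D N = K := grw_eq (T.arefl F) (T.asymm F) hD0K hD0cn.1 hKcn
  -- touching
  let lo : Set (T.V F) → TI r T F → Prop := fun A e => ∃ z ∈ A, (ph r T F e z).val ≤ 1
  let hi' : Set (T.V F) → TI r T F → Prop := fun A e => ∃ z ∈ A, 3 ≤ (ph r T F e z).val
  have lo_mono : ∀ {A B : Set (T.V F)} (e : TI r T F), A ⊆ B → lo A e → lo B e :=
    fun e h ⟨z, hz, h1⟩ => ⟨z, h hz, h1⟩
  have hi_mono : ∀ {A B : Set (T.V F)} (e : TI r T F), A ⊆ B → hi' A e → hi' B e :=
    fun e h ⟨z, hz, h1⟩ => ⟨z, h hz, h1⟩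
  -- values on K
  have hresK : ∀ (e : TI r T F), ∀ z ∈ K, T.res F e.1.1 e.2.1 z ∈ T.K e.1.1 (low S r x) := by
    intro e z hz
    rw [← hG.nat F e.1.1 e.2.1 _ hlowF]
    exact ⟨z, hz, rfl⟩
  have hfullK : ∀ e : TI r T F, st r T F (low S r x) e = Stat.full → lo K e ∧ hi' K e := by
    intro e he
    obtain ⟨⟨v, hv, h1⟩, ⟨w, hw, h2⟩⟩ := (stat_full_iff T e.1.1 e.1.2 (low S r x)).1 he
    rw [← hG.nat F e.1.1 e.2.1 _ hlowF] at hv hw
    obtain ⟨v', hv', rfl⟩ := hv
    obtain ⟨w', hw', rfl⟩ := hw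
    exact ⟨⟨v', hv', h1⟩, ⟨w', hw', h2⟩⟩
  have honeK : ∀ e : TI r T F, st r T F (low S r x) e = Stat.one →
      ∀ z ∈ K, (ph r T F e z).val ≤ 2 := by
    intro e he z hz
    have h1 : ¬ thi T e.1.1 e.1.2 (low S r x) :=
      stat_one hr hG e.1.1 e.1.2 e.2.2 _ ⟨x, low_mem S r _ x⟩ he
    by_contra hcon
    push Not at hcon
    exact h1 ⟨_, hresK e z hz, hcon⟩
  have hthreeK : ∀ e : TI r T F, st r T F (low S r x) e = Stat.three →
      ∀ z ∈ K, 2 ≤ (ph r T F e z).val := by
    intro e he z hz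
    have h1 : ¬ tlo T e.1.1 e.1.2 (low S r x) :=
      stat_three hr hG e.1.1 e.1.2 e.2.2 _ ⟨x, low_mem S r _ x⟩ he
    by_contra hcon
    push Not at hcon
    exact h1 ⟨_, hresK e z hz, Nat.le_of_lt_succ hcon⟩
  -- (i)
  have hI : ∀ e : TI r T F, ¬ e.1.1 ⊆ F.erase i →
      ¬ (lo (σ '' T.K (F.erase i) (up S r x)) e ∧ hi' (σ '' T.K (F.erase i) (up S r x)) e) := by
    intro e he
    have hiE : i ∈ e.1.1 := by
      by_contra hcon
      exact he (fun k hk => Finset.mem_erase.2 ⟨fun h => hcon (h ▸ hk), e.2.1 hk⟩)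
    obtain ⟨τ, hτ, hτ'⟩ := hG.sec_restr F e.1.1 i x e.2.1 hiE σ hσ
    have hnat : ∀ a ∈ T.K (F.erase i) (up S r x),
        T.res (F.erase i) (e.1.1.erase i) (Finset.erase_subset_erase i e.2.1) a ∈
          T.K (e.1.1.erase i) (up S r x) := by
      intro a ha
      rw [← hG.nat (F.erase i) (e.1.1.erase i) (Finset.erase_subset_erase i e.2.1) _ hupF']
      exact ⟨a, ha, rfl⟩
    rintro ⟨⟨_, ⟨a, ha, rfl⟩, h1⟩, ⟨_, ⟨b, hb, rfl⟩, h2⟩⟩
    apply e.2.2.lc x i hiE τ hτ
    refine ⟨⟨_, hnat a ha, ?_⟩, ⟨_, hnat b hb, ?_⟩⟩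
    · rw [← hτ' a ha]
      exact h1
    · rw [← hτ' b hb]
      exact h2
  have hI0 : ∀ e : TI r T F, ¬ e.1.1 ⊆ F.erase i → ¬ (lo D0 e ∧ hi' D0 e) := by
    intro e he h
    exact hI e he ⟨lo_mono e (Set.image_mono hlu) h.1, hi_mono e (Set.image_mono hlu) h.2⟩
  -- (ii)
  have hII : ∀ e : TI r T F, e.1.1 ⊆ F.erase i → st r T F (low S r x) e = Stat.full →
      lo D0 e ∧ hi' D0 e := by
    intro e he hf
    obtain ⟨⟨v, hv, h1⟩, ⟨w, hw, h2⟩⟩ := (stat_full_iff T e.1.1 e.1.2 (low S r x)).1 hf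
    rw [← hG.nat (F.erase i) e.1.1 he _ hlowF'] at hv hw
    obtain ⟨v', hv', rfl⟩ := hv
    obtain ⟨w', hw', rfl⟩ := hw
    have key : ∀ a ∈ T.K (F.erase i) (low S r x),
        ph r T F e (σ a) = e.1.2 (T.res (F.erase i) e.1.1 he a) := by
      intro a ha
      show e.1.2 (T.res F e.1.1 e.2.1 (σ a)) = _
      rw [← T.res_res F (F.erase i) e.1.1 (F.erase_subset i) he (σ a),
        hG.sec_res F i x hi σ hσ a (hlu ha)]
    exact ⟨⟨_, ⟨v', hv', rfl⟩, by rw [key v' hv']; exact h1⟩,
      ⟨_, ⟨w', hw', rfl⟩, by rw [key w' hw']; exact h2⟩⟩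
  -- the choice
  let j : TI r T F → Bool := fun e =>
    decide ((st r T F (low S r x) e = Stat.full ∧ ∃ n, hi' (D n) e ∧ ¬ lo (D n) e) ∨
      st r T F (low S r x) e = Stat.three)
  have hj_one : ∀ e, st r T F (low S r x) e = Stat.one → j e = false := by
    intro e he
    apply decide_eq_false
    rw [he]
    rintro (⟨h, -⟩ | h)
    · exact absurd h (by decide)
    · exact absurd h (by decide)
  have hj_three : ∀ e, st r T F (low S r x) e = Stat.three → j e = true :=
    fun e he => decide_eq_true (Or.inr he)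
  -- (iii)
  have hIII1 : ∀ e n, st r T F (low S r x) e = Stat.full → ¬ (lo (D n) e ∧ hi' (D n) e) →
      j e = true → ∀ z ∈ D n, 2 ≤ (ph r T F e z).val := by
    intro e n hf hn hj z hz
    have h1 := of_decide_eq_true hj
    rcases h1 with ⟨-, m, hm1, hm2⟩ | h1
    · have h2 : ¬ lo (D n) e := by
        intro h3
        rcases le_total n m with h4 | h4
        · exact hm2 (lo_mono e (hDmono h4) h3)
        · exact hn ⟨h3, hi_mono e (hDmono h4) hm1⟩
      by_contra hcon
      push Not at hcon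
      exact h2 ⟨z, hz, Nat.le_of_lt_succ hcon⟩
    · rw [hf] at h1
      exact absurd h1 (by decide)
  have hIII2 : ∀ e n, st r T F (low S r x) e = Stat.full → ¬ (lo (D n) e ∧ hi' (D n) e) →
      j e = false → ∀ z ∈ D n, (ph r T F e z).val ≤ 2 := by
    intro e n hf hn hj z hz
    have h1 := of_decide_eq_false hj
    by_contra hcon
    push Not at hcon
    have h2 : hi' (D n) e := ⟨z, hz, hcon⟩
    exact h1 (Or.inl ⟨hf, n, h2, fun h3 => hn ⟨h3, h2⟩⟩)
  -- statuses
  let sn : ℕ → TI r T F → Stat := fun n e =>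
    if e.1.1 ⊆ F.erase i ∨ st r T F (low S r x) e ≠ Stat.full ∨ (lo (D n) e ∧ hi' (D n) e) then
      st r T F (low S r x) e
    else if j e then Stat.three else Stat.one
  have hsn1 : ∀ n e, (e.1.1 ⊆ F.erase i ∨ st r T F (low S r x) e ≠ Stat.full ∨
      (lo (D n) e ∧ hi' (D n) e)) → sn n e = st r T F (low S r x) e := fun n e h => if_pos h
  have hsn2 : ∀ n e, ¬ (e.1.1 ⊆ F.erase i ∨ st r T F (low S r x) e ≠ Stat.full ∨
      (lo (D n) e ∧ hi' (D n) e)) → sn n e = if j e then Stat.three else Stat.one :=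
    fun n e h => if_neg h
  have hvalst := valid_st hr hG F (low S r x) hlowF
  have hval : ∀ n, Valid (ph r T F) (D n) (sn n) := by
    intro n e
    by_cases hc : e.1.1 ⊆ F.erase i ∨ st r T F (low S r x) e ≠ Stat.full ∨
      (lo (D n) e ∧ hi' (D n) e)
    · rw [hsn1 n e hc]
      refine ⟨fun z hz => (hvalst e).1 z (hDK n hz), ?_⟩
      obtain ⟨z0, hz0⟩ := (hDcn n).1
      rcases hs : st r T F (low S r x) e with _ | _ | _
      · refine ⟨z0, hz0, ?_⟩
        have := (hvalst e).1 z0 (hDK n hz0)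
        rw [hs] at this
        exact this
      · refine ⟨z0, hz0, ?_⟩
        have := (hvalst e).1 z0 (hDK n hz0)
        rw [hs] at this
        exact this
      · have hlo : lo (D n) e := by
          rcases hc with h | h | h
          · exact lo_mono e (hDmono (Nat.zero_le n)) (hII e h hs).1
          · exact absurd hs h
          · exact h.1
        obtain ⟨z, hz, h1⟩ := hlo
        exact ⟨z, hz, Or.inl h1⟩
    · rw [hsn2 n e hc]
      push Not at hc
      obtain ⟨hc1, hc2, hc3⟩ := hc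
      have hc3' : ¬ (lo (D n) e ∧ hi' (D n) e) := fun h => hc3 h.1 h.2
      obtain ⟨z0, hz0⟩ := (hDcn n).1
      rcases hj : j e with _ | _
      · have h2 := hIII2 e n hc2 hc3' hj
        refine ⟨fun z hz => ?_, z0, hz0, ?_⟩
        · show (ph r T F e z).val ≤ 3
          exact (h2 z hz).trans (by norm_num)
        · show (ph r T F e z0).val ≤ 3
          exact (h2 z0 hz0).trans (by norm_num)
      · have h2 := hIII1 e n hc2 hc3' hj
        refine ⟨fun z hz => ?_, z0, hz0, ?_⟩
        · show 1 ≤ (ph r T F e z).val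
          exact le_trans (by norm_num) (h2 z hz)
        · show 1 ≤ (ph r T F e z0).val
          exact le_trans (by norm_num) (h2 z0 hz0)
  have hstep : ∀ n, LAM (T.adj F) (ph r T F) (D n) (sn n) ⊆
      LAM (T.adj F) (ph r T F) (D (n + 1)) (sn (n + 1)) := by
    intro n
    apply grow (T.asymm F) (fun e a b hab => ph_hom T F e a b hab) (hDcn n) (hDcn (n + 1))
      (hDmono (Nat.le_succ n)) ?_ (hval (n + 1)) ?_
    · intro y hy
      obtain ⟨-, u, hu, huy⟩ := hy
      exact ⟨u, hu, huy⟩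
    · intro e
      by_cases hc : e.1.1 ⊆ F.erase i ∨ st r T F (low S r x) e ≠ Stat.full ∨
        (lo (D n) e ∧ hi' (D n) e)
      · left
        rw [hsn1 n e hc, hsn1 (n + 1) e]
        rcases hc with h | h | h
        · exact Or.inl h
        · exact Or.inr (Or.inl h)
        · exact Or.inr (Or.inr ⟨lo_mono e (hDmono (Nat.le_succ n)) h.1,
            hi_mono e (hDmono (Nat.le_succ n)) h.2⟩)
      · have hc' := hc
        push Not at hc'
        obtain ⟨hc1, hc2, hc3⟩ := hc'
        have hc3' : ¬ (lo (D n) e ∧ hi' (D n) e) := fun h => hc3 h.1 h.2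
        by_cases hb : lo (D (n + 1)) e ∧ hi' (D (n + 1)) e
        · right
          have h1 : sn (n + 1) e = Stat.full := by
            rw [hsn1 (n + 1) e (Or.inr (Or.inr hb)), hc2]
          rcases hj : j e with _ | _
          · left
            refine ⟨?_, h1, hIII2 e n hc2 hc3' hj, hb.1⟩
            rw [hsn2 n e hc, hj]
            rfl
          · right
            refine ⟨?_, h1, hIII1 e n hc2 hc3' hj, hb.2⟩
            rw [hsn2 n e hc, hj]
            rfl
        · left
          rw [hsn2 n e hc, hsn2 (n + 1) e]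
          rintro (h | h | h)
          · exact hc1 h
          · exact h hc2
          · exact hb h
  have hall : ∀ n, LAM (T.adj F) (ph r T F) (D 0) (sn 0) ⊆
      LAM (T.adj F) (ph r T F) (D n) (sn n) := by
    intro n
    induction n with
    | zero => exact subset_rfl
    | succ n ih => exact ih.trans (hstep n)
  have hlast : sn N = st r T F (low S r x) := by
    funext e
    by_cases hf : st r T F (low S r x) e = Stat.full
    · apply hsn1
      right; right
      rw [hN]
      exact hfullK e hf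
    · exact hsn1 N e (Or.inr (Or.inl hf))
  have hfirst : sn 0 = st0 r T F i x j := by
    funext e
    by_cases he : e.1.1 ⊆ F.erase i
    · rw [hsn1 0 e (Or.inl he)]
      show _ = if e.1.1 ⊆ F.erase i then _ else _
      rw [if_pos he]
    · have h2 : st0 r T F i x j e = if j e then Stat.three else Stat.one := if_neg he
      rw [h2]
      rcases hs : st r T F (low S r x) e with _ | _ | _
      · rw [hsn1 0 e (Or.inr (Or.inl (by rw [hs]; decide))), hj_one e hs, hs]
        rfl
      · rw [hsn1 0 e (Or.inr (Or.inl (by rw [hs]; decide))), hj_three e hs, hs]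
        rfl
      · apply hsn2
        rintro (h | h | h)
        · exact he h
        · exact h hs
        · exact hI0 e he h
  refine ⟨j, fun e he => ⟨hj_one e, hj_three e, ?_⟩, ?_⟩
  · intro v hv
    obtain ⟨u, hu, huv⟩ := hT.step (F.erase i) x v hv
    have hadj : T.adj F (σ u) (σ v) := hG.sec_hom F i x hi σ hσ u (hlu hu) v hv huv
    have hnr := ph_hom T F e _ _ hadj
    have huD : σ u ∈ D 0 := ⟨u, hu, rfl⟩
    have huK : σ u ∈ K := hDK 0 huD
    constructor
    · intro hj
      have h2 : (ph r T F e (σ u)).val ≤ 2 := by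
        rcases hs : st r T F (low S r x) e with _ | _ | _
        · exact honeK e hs _ huK
        · rw [hj_three e hs] at hj
          exact absurd hj (by decide)
        · exact hIII2 e 0 hs (hI0 e he) hj _ huD
      have := hnr.2
      omega
    · intro hj
      have h2 : 2 ≤ (ph r T F e (σ u)).val := by
        rcases hs : st r T F (low S r x) e with _ | _ | _
        · rw [hj_one e hs] at hj
          exact absurd hj (by decide)
        · exact hthreeK e hs _ huK
        · exact hIII1 e 0 hs (hI0 e he) hj _ huD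
      have := hnr.1
      omega
  · have h1 := hall N
    rw [hlast, hfirst, hN] at h1
    exact h1

end Pool.Agent.H26DI
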