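import Pool.Agent.Helper26.DD.FoC
import Pool.Agent.Helper26.DD.FoD

/-!
# DD module I-15: lifting sections (section 7, (A6)), first part.

`lft_hom`: `σ a.1 ~ σ b.1` (`sec_hom`), coordinates `e.1.1 ⊆ F'` unchanged, the others by `l1_nr`, `l3_nr`,
`ph_hom`.
`lft_low`: `transfer` with `H = lft`, from `LM F' (low x) = LAM (K F' (low x)) (st F' (low x))` to
`LAM (σ '' K F' (low x)) (st0)`. Nonempty target: `core` (valid: for `e.1.1 ⊆ F'` as for `valid_st` at
level `F'` because `ph F e (σ a) = ph F' e a` (`ph_incl`, `sec_res`); for the others: `vk`, `pk` from the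
bounds of `hj`). Weighted sums: `sum_extend` with `io = TI.incl` (`TI r T F' → TI r T F`), constants
`c e = l3/l1 (ph e (σ z))` (`om_three`, `om_one` with the bounds of `hj`). `hS`: `l1_spec`, `l3_spec`.
-/

set_option autoImplicit false

namespace Pool.Agent.H26DI

open Topology Pool.Agent.Helper85.DT

variable {X I : Type} [DecidableEq I] [TopologicalSpace X] {S : PS} {r : I → X → ℝ}


/-- a test on a subset of `F.erase i` as a test at the level `F.erase i` -/
private def dn {T : Pre X I S} {F : Finset I} {i : I} (e : TI r T F) (he : e.1.1 ⊆ F.erase i) :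
    TI r T (F.erase i) := ⟨e.1, he, e.2.2⟩

private theorem ph_dn {T : Pre X I S} (hT : Good r T) (F : Finset I) (i : I) (hi : i ∈ F) (x : X)
    (σ : T.V (F.erase i) → T.V F) (hσ : σ ∈ T.Sec F i x) (e : TI r T F)
    (he : e.1.1 ⊆ F.erase i) (a : T.V (F.erase i)) (ha : a ∈ T.K (F.erase i) (up S r x)) :
    ph r T F e (σ a) = ph r T (F.erase i) (dn e he) a := by
  have h1 := ph_incl r T (F.erase_subset i) (dn e he) (σ a)
  rw [hT.sec_res F i x hi σ hσ a ha] at h1
  exact h1

private theorem lft_pos {T : Pre X I S} (F : Finset I) (i : I) (σ : T.V (F.erase i) → T.V F)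
    (j : TI r T F → Bool) (a : T.V (F.erase i) × (TI r T (F.erase i) → Fin 9)) (e : TI r T F)
    (he : e.1.1 ⊆ F.erase i) : (lft r T F i σ j a).2 e = a.2 (dn e he) := dif_pos he

private theorem lft_neg {T : Pre X I S} (F : Finset I) (i : I) (σ : T.V (F.erase i) → T.V F)
    (j : TI r T F → Bool) (a : T.V (F.erase i) × (TI r T (F.erase i) → Fin 9)) (e : TI r T F)
    (he : ¬ e.1.1 ⊆ F.erase i) : (lft r T F i σ j a).2 e =
      if j e then l3 (ph r T F e (σ a.1)) else l1 (ph r T F e (σ a.1)) := dif_neg he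

theorem lft_hom {T : Pre X I S} (hT : Good r T) (F : Finset I) (i : I) (hi : i ∈ F) (x x' : X)
    (σ τ : T.V (F.erase i) → T.V F) (j : TI r T F → Bool)
    (hc : ∀ a ∈ T.K (F.erase i) (up S r x), ∀ b ∈ T.K (F.erase i) (up S r x'),
      T.adj (F.erase i) a b → T.adj F (σ a) (τ b))
    (a b : T.V (F.erase i) × (TI r T (F.erase i) → Fin 9))
    (ha : a.1 ∈ T.K (F.erase i) (up S r x)) (hb : b.1 ∈ T.K (F.erase i) (up S r x'))
    (hab : adjP (T.adj (F.erase i)) a b) :
    adjP (T.adj F) (lft r T F i σ j a) (lft r T F i τ j b) := by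
  refine ⟨hc a.1 ha b.1 hb hab.1, fun e => ?_⟩
  by_cases he : e.1.1 ⊆ F.erase i
  · rw [lft_pos F i σ j a e he, lft_pos F i τ j b e he]
    exact hab.2 _
  · rw [lft_neg F i σ j a e he, lft_neg F i τ j b e he]
    have h1 := ph_hom T F e _ _ (hc a.1 ha b.1 hb hab.1)
    by_cases hj : j e = true
    · rw [if_pos hj, if_pos hj]
      exact l3_nr h1
    · rw [if_neg hj, if_neg hj]
      exact l1_nr h1

/-- the lifts are compatible with the values of the tests -/
theorem lft_nu {T : Pre X I S} (hT : Good r T) (F : Finset I) (i : I) (hi : i ∈ F) (x : X)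
    (σ : T.V (F.erase i) → T.V F) (hσ : σ ∈ T.Sec F i x) (j : TI r T F → Bool)
    (hj : ∀ e : TI r T F, ¬ e.1.1 ⊆ F.erase i → ∀ v ∈ T.K (F.erase i) (up S r x),
          (j e = false → (ph r T F e (σ v)).val ≤ 3) ∧
          (j e = true → 1 ≤ (ph r T F e (σ v)).val))
    (a : T.V (F.erase i) × (TI r T (F.erase i) → Fin 9))
    (ha : a.1 ∈ T.K (F.erase i) (up S r x))
    (hnu : ∀ e, nu (a.2 e) = ph r T (F.erase i) e a.1) (e : TI r T F) :
    nu ((lft r T F i σ j a).2 e) = ph r T F e (lft r T F i σ j a).1 := by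
  show nu ((lft r T F i σ j a).2 e) = ph r T F e (σ a.1)
  by_cases he : e.1.1 ⊆ F.erase i
  · rw [lft_pos F i σ j a e he, hnu, ph_dn hT F i hi x σ hσ e he a.1 ha]
  · rw [lft_neg F i σ j a e he]
    by_cases hje : j e = true
    · rw [if_pos hje]
      exact (l3_spec _ ((hj e he a.1 ha).2 hje)).1
    · rw [if_neg hje]
      exact (l1_spec _ ((hj e he a.1 ha).1 (by simpa using hje))).1

theorem lft_low [CompactSpace X] [ConnectedSpace X] (hr : Let r) {T : Pre X I S}
    (hT : IsSys r T) (F : Finset I) (i : I) (hi : i ∈ F) (x : X)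
    (σ : T.V (F.erase i) → T.V F) (hσ : σ ∈ T.Sec F i x) (j : TI r T F → Bool)
    (hj : ∀ e : TI r T F, ¬ e.1.1 ⊆ F.erase i → ∀ v ∈ T.K (F.erase i) (up S r x),
          (j e = false → (ph r T F e (σ v)).val ≤ 3) ∧
          (j e = true → 1 ≤ (ph r T F e (σ v)).val))
    (a : T.V (F.erase i) × (TI r T (F.erase i) → Fin 9))
    (ha : a ∈ LM r T (F.erase i) (low S r x)) :
    lft r T F i σ j a ∈
      LAM (T.adj F) (ph r T F) (σ '' T.K (F.erase i) (low S r x)) (st0 r T F i x j) := by
  classical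
  have hG := hT.toGood
  have hBB : low S r x ∈ BB S r (F.erase i) := ⟨x, low_mem S r _ x⟩
  have hKK : T.K (F.erase i) (low S r x) ⊆ T.K (F.erase i) (up S r x) :=
    hG.mono _ x _ (low_mem S r _ x) _ (up_mem S r _ x) (fun i _ => S.le_s _)
  have hcn := hG.conn (F.erase i) (low S r x) hBB
  have hval := valid_st hr hG (F.erase i) (low S r x) hBB
  have hcn2 : Cn (T.adj F) (σ '' T.K (F.erase i) (low S r x)) := by
    refine ⟨hcn.1.image σ, ?_⟩
    rintro _ ⟨u, hu, rfl⟩ _ ⟨v, hv, rfl⟩
    have h1 := hcn.2 u hu v hv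
    have h2 : ∀ w, Relation.ReflTransGen
        (fun a b => T.adj (F.erase i) a b ∧ b ∈ T.K (F.erase i) (low S r x)) u w →
        w ∈ T.K (F.erase i) (low S r x) ∧ Relation.ReflTransGen
        (fun a b => T.adj F a b ∧ b ∈ σ '' T.K (F.erase i) (low S r x)) (σ u) (σ w) := by
      intro w hw
      induction hw with
      | refl => exact ⟨hu, Relation.ReflTransGen.refl⟩
      | tail _ hbc ih =>
        refine ⟨hbc.2, ih.2.tail ⟨?_, ⟨_, hbc.2, rfl⟩⟩⟩
        exact hG.sec_hom F i x hi σ hσ _ (hKK ih.1) _ (hKK hbc.2) hbc.1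
    exact (h2 v h1).2
  have hst0p : ∀ (e : TI r T F) (he : e.1.1 ⊆ F.erase i),
      st0 r T F i x j e = st r T (F.erase i) (low S r x) (dn e he) := fun e he => if_pos he
  have hst0n : ∀ (e : TI r T F), ¬ e.1.1 ⊆ F.erase i →
      st0 r T F i x j e = if j e then Stat.three else Stat.one := fun e he => if_neg he
  have hval2 : Valid (ph r T F) (σ '' T.K (F.erase i) (low S r x)) (st0 r T F i x j) := by
    intro e
    by_cases he : e.1.1 ⊆ F.erase i
    · rw [hst0p e he]
      obtain ⟨h1, z, hz, h2⟩ := hval (dn e he)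
      refine ⟨?_, σ z, ⟨z, hz, rfl⟩, ?_⟩
      · rintro _ ⟨u, hu, rfl⟩
        rw [ph_dn hG F i hi x σ hσ e he u (hKK hu)]
        exact h1 u hu
      · rw [ph_dn hG F i hi x σ hσ e he z (hKK hz)]
        exact h2
    · rw [hst0n e he]
      obtain ⟨z, hz⟩ := hcn.1
      by_cases hje : j e = true
      · rw [if_pos hje]
        refine ⟨?_, σ z, ⟨z, hz, rfl⟩, (hj e he z (hKK hz)).2 hje⟩
        rintro _ ⟨u, hu, rfl⟩
        exact (hj e he u (hKK hu)).2 hje
      · rw [if_neg hje]
        have hje' : j e = false := by simpa using hje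
        refine ⟨?_, σ z, ⟨z, hz, rfl⟩, (hj e he z (hKK hz)).1 hje'⟩
        rintro _ ⟨u, hu, rfl⟩
        exact (hj e he u (hKK hu)).1 hje'
  have hne : (LAM (T.adj F) (ph r T F) (σ '' T.K (F.erase i) (low S r x))
      (st0 r T F i x j)).Nonempty :=
    core (T.adj F) (T.asymm F) (ph r T F) (fun e v w h => ph_hom T F e v w h) _ hcn2 _ hval2
  obtain ⟨z, hz⟩ := hcn.1
  have hz2 : σ z ∈ σ '' T.K (F.erase i) (low S r x) := ⟨z, hz, rfl⟩
  refine transfer hne (lft r T F i σ j) ?_ ?_ hz hz2 ?_ a ha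
  · intro p hp
    refine ⟨⟨p.1, hp.1, rfl⟩, fun e => ⟨?_, ?_⟩⟩
    · exact lft_nu hG F i hi x σ hσ j hj p (hKK hp.1) (fun e => (hp.2 e).1) e
    · by_cases he : e.1.1 ⊆ F.erase i
      · rw [lft_pos F i σ j p e he, hst0p e he]
        exact (hp.2 _).2
      · rw [lft_neg F i σ j p e he, hst0n e he]
        by_cases hje : j e = true
        · rw [if_pos hje, if_pos hje]
          exact (l3_spec _ ((hj e he p.1 (hKK hp.1)).2 hje)).2
        · rw [if_neg hje, if_neg hje]
          exact (l1_spec _ ((hj e he p.1 (hKK hp.1)).1 (by simpa using hje))).2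
  · intro p hp q hq hpq
    exact lft_hom hG F i hi x x σ σ j (fun a ha b hb hab => hG.sec_hom F i x hi σ hσ a ha b hb hab)
      p q (hKK hp.1) (hKK hq.1) hpq
  · intro g
    have hio : Function.Injective (TI.incl (F.erase_subset i) : TI r T (F.erase i) → TI r T F) := by
      intro e e' h
      apply Subtype.ext
      exact congrArg (fun e : TI r T F => e.1) h
    have hrng : ∀ e : TI r T F, e ∉ Set.range (TI.incl (F.erase_subset i) :
        TI r T (F.erase i) → TI r T F) → ¬ e.1.1 ⊆ F.erase i := by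
      intro e he he'
      exact he ⟨dn e he', rfl⟩
    have h := sum_extend (TI.incl (F.erase_subset i) : TI r T (F.erase i) → TI r T F) hio
      (fun e => om (st r T (F.erase i) (low S r x) e) (ph r T (F.erase i) e z))
      (fun e => om (st0 r T F i x j e) (ph r T F e (σ z))) ?_
      (fun e => if j e then l3 (ph r T F e (σ z)) else l1 (ph r T F e (σ z))) ?_
      (fun v => (lft r T F i σ j (z, v)).2) ?_ ?_ (fun u => g (σ z, u))
    · exact h
    · intro e
      have he : (TI.incl (F.erase_subset i) e : TI r T F).1.1 ⊆ F.erase i := e.2.1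
      show om (st0 r T F i x j (TI.incl (F.erase_subset i) e))
        (ph r T F (TI.incl (F.erase_subset i) e) (σ z)) = _
      rw [hst0p _ he, ph_dn hG F i hi x σ hσ _ he z (hKK hz)]
      rfl
    · intro e he b
      have he' := hrng e he
      show om (st0 r T F i x j e) (ph r T F e (σ z)) b = _
      rw [hst0n e he']
      by_cases hje : j e = true
      · rw [if_pos hje]
        show _ = if b = (if j e then l3 (ph r T F e (σ z)) else l1 (ph r T F e (σ z))) then 1 else 0
        rw [if_pos hje]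
        exact om_three _ ((hj e he' z (hKK hz)).2 hje) b
      · rw [if_neg hje]
        show _ = if b = (if j e then l3 (ph r T F e (σ z)) else l1 (ph r T F e (σ z))) then 1 else 0
        rw [if_neg hje]
        exact om_one _ ((hj e he' z (hKK hz)).1 (by simpa using hje)) b
    · intro v e
      have he : (TI.incl (F.erase_subset i) e : TI r T F).1.1 ⊆ F.erase i := e.2.1
      exact lft_pos F i σ j (z, v) (TI.incl (F.erase_subset i) e) he
    · intro v e he
      exact lft_neg F i σ j (z, v) e (hrng e he)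

end Pool.Agent.H26DI
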