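import Pool.Agent.Helper26.DD.FoE

/-!
# DD module I-16: lifting sections (section 7, (A6)), second part.

`lft_cube`: `c ∈ cube x`. Let `A = lft '' LM F' c` (`F' = F.erase i`; `cube S r F x ⊆ cube S r F' x`).
`A` is connected (`LM_cn`, `lft_hom` with `τ = σ`, `K F' c ⊆ K F' (up x)`); `A ⊆ SS (K F c) (st F c)`:
`sec_K`, `lft_nu`, allowed sheets: for `e.1.1 ⊆ F'` the status is the same; otherwise, if `st F c e` is
not full, it equals `st F (low x) e` (`stat_mono` for `low x ≤ c`), so `j e` matches (`hj1`, `hj2`)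
and `l1_spec`, `l3_spec` apply (bounds of `hj`; `K F c`). `A` meets `LM F c`: for `a0 ∈ LM F' (low x)`
(`⊆ LM F' c` by `LM_mono` at `F'`), `lft a0 ∈ LM F (low x) ⊆ LM F c` (`lft_low`, `hgrow`, `LM_mono`).
`LAM_absorb`.
`fold_sec_ne`: `σ` from `sec_ne`, `j` from `fold_grow`; `τ a` = the element of `(T.fold r).V F` with
`(τ a).1 = lft a.1` if the equations of `V` hold (`lft_nu` on the domain), and a fixed element
(from `LM_ne`, `LM_sub`) otherwise.
-/

set_option autoImplicit false

namespace Pool.Agent.H26DI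

open Topology Pool.Agent.Helper85.DT

variable {X I : Type} [DecidableEq I] [TopologicalSpace X] {S : PS} {r : I → X → ℝ}

private theorem K_cube_up {T : Pre X I S} (hT : Good r T) (F : Finset I) (i : I) (x : X)
    (c : I → S.P) (hc : c ∈ cube S r F x) :
    T.K (F.erase i) c ⊆ T.K (F.erase i) (up S r x) := by
  apply hT.mono (F.erase i) x c (fun k hk => hc k (Finset.mem_of_mem_erase hk))
    (up S r x) (up_mem S r _ x)
  intro k hk
  rcases hc k (Finset.mem_of_mem_erase hk) with h | h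
  · rw [h]; exact S.le_s _
  · rw [h]; exact le_rfl

theorem lft_cube [CompactSpace X] [ConnectedSpace X] (hr : Let r) {T : Pre X I S}
    (hT : IsSys r T) (F : Finset I) (i : I) (hi : i ∈ F) (x : X)
    (σ : T.V (F.erase i) → T.V F) (hσ : σ ∈ T.Sec F i x) (j : TI r T F → Bool)
    (hj : ∀ e : TI r T F, ¬ e.1.1 ⊆ F.erase i →
        (st r T F (low S r x) e = Stat.one → j e = false) ∧
        (st r T F (low S r x) e = Stat.three → j e = true) ∧
        ∀ v ∈ T.K (F.erase i) (up S r x),
          (j e = false → (ph r T F e (σ v)).val ≤ 3) ∧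
          (j e = true → 1 ≤ (ph r T F e (σ v)).val))
    (hgrow : LAM (T.adj F) (ph r T F) (σ '' T.K (F.erase i) (low S r x)) (st0 r T F i x j) ⊆
        LM r T F (low S r x))
    (c : I → S.P) (hc : c ∈ cube S r F x)
    (a : T.V (F.erase i) × (TI r T (F.erase i) → Fin 9))
    (ha : a ∈ LM r T (F.erase i) c) : lft r T F i σ j a ∈ LM r T F c := by
  have hG := hT.toGood
  have hc' : c ∈ cube S r (F.erase i) x := fun k hk => hc k (Finset.mem_of_mem_erase hk)
  have hlow : ∀ k ∈ F, low S r x k ≤ c k := by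
    intro k hk
    rcases hc k hk with h | h
    · rw [h]; exact le_rfl
    · rw [h]; exact S.le_s _
  have hup := K_cube_up hG F i x c hc
  have hj' : ∀ e : TI r T F, ¬ e.1.1 ⊆ F.erase i → ∀ v ∈ T.K (F.erase i) (up S r x),
          (j e = false → (ph r T F e (σ v)).val ≤ 3) ∧
          (j e = true → 1 ≤ (ph r T F e (σ v)).val) := fun e he => (hj e he).2.2
  have hK : ∀ b ∈ LM r T (F.erase i) c, b.1 ∈ T.K (F.erase i) (up S r x) :=
    fun b hb => hup (LM_sub T _ _ b hb).1
  have hhom : ∀ b ∈ LM r T (F.erase i) c, ∀ b' ∈ LM r T (F.erase i) c,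
      adjP (T.adj (F.erase i)) b b' →
      adjP (T.adj F) (lft r T F i σ j b) (lft r T F i σ j b') := by
    intro b hb b' hb' hbb
    exact lft_hom hG F i hi x x σ σ j (hG.sec_hom F i x hi σ hσ) b b' (hK b hb) (hK b' hb') hbb
  have hcn := LM_cn hr hG (F.erase i) c ⟨x, hc'⟩
  have hA : Cn (adjP (T.adj F)) (lft r T F i σ j '' LM r T (F.erase i) c) := by
    refine ⟨hcn.1.image _, ?_⟩
    rintro _ ⟨b, hb, rfl⟩ _ ⟨b', hb', rfl⟩
    have hp := hcn.2 b hb b' hb'
    have key : ∀ y, Relation.ReflTransGen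
        (fun p q => adjP (T.adj (F.erase i)) p q ∧ q ∈ LM r T (F.erase i) c) b y →
        y ∈ LM r T (F.erase i) c ∧ Relation.ReflTransGen
          (fun p q => adjP (T.adj F) p q ∧ q ∈ lft r T F i σ j '' LM r T (F.erase i) c)
          (lft r T F i σ j b) (lft r T F i σ j y) := by
      intro y hy
      induction hy with
      | refl => exact ⟨hb, Relation.ReflTransGen.refl⟩
      | tail _ h ih =>
        exact ⟨h.2, ih.2.tail ⟨hhom _ ih.1 _ h.2 h.1, ⟨_, h.2, rfl⟩⟩⟩
    exact (key b' hp).2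
  have hAS : lft r T F i σ j '' LM r T (F.erase i) c ⊆
      SS (ph r T F) (T.K F c) (st r T F c) := by
    rintro _ ⟨b, hb, rfl⟩
    have hs := LM_sub T _ _ b hb
    refine ⟨hG.sec_K F i x hi σ hσ c hc b.1 hs.1, fun e => ⟨?_, ?_⟩⟩
    · exact lft_nu hG F i hi x σ hσ j hj' b (hK b hb) (fun e => (hs.2 e).1) e
    · by_cases he : e.1.1 ⊆ F.erase i
      · have h1 : (lft r T F i σ j b).2 e = b.2 ⟨e.1, he, e.2.2⟩ := by
          show (if he : e.1.1 ⊆ F.erase i then b.2 ⟨e.1, he, e.2.2⟩
            else if j e then l3 (ph r T F e (σ b.1)) else l1 (ph r T F e (σ b.1))) = _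
          rw [dif_pos he]
        rw [h1]
        exact (hs.2 ⟨e.1, he, e.2.2⟩).2
      · have h1 : (lft r T F i σ j b).2 e =
            if j e then l3 (ph r T F e (σ b.1)) else l1 (ph r T F e (σ b.1)) := by
          show (if he : e.1.1 ⊆ F.erase i then b.2 ⟨e.1, he, e.2.2⟩
            else if j e then l3 (ph r T F e (σ b.1)) else l1 (ph r T F e (σ b.1))) = _
          rw [dif_neg he]
        rw [h1]
        have hm : st r T F c e = st r T F (low S r x) e ∨ st r T F c e = Stat.full := by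
          apply stat_mono hr hG e.1.1 e.1.2 e.2.2 (low S r x) c
            (BB_sub e.2.1 ⟨x, low_mem S r F x⟩) (BB_sub e.2.1 ⟨x, hc⟩)
          intro k hk
          exact hlow k (e.2.1 hk)
        obtain ⟨hj1, hj2, hj3⟩ := hj e he
        have hb3 := hj3 b.1 (hK b hb)
        rcases hst : st r T F c e with _ | _ | _
        · rw [hst] at hm
          have hl : st r T F (low S r x) e = Stat.one := by
            rcases hm with h | h
            · exact h.symm
            · cases h
          rw [hj1 hl]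
          exact (l1_spec _ (hb3.1 (hj1 hl))).2
        · rw [hst] at hm
          have hl : st r T F (low S r x) e = Stat.three := by
            rcases hm with h | h
            · exact h.symm
            · cases h
          rw [hj2 hl]
          exact (l3_spec _ (hb3.2 (hj2 hl))).2
        · exact trivial
  obtain ⟨a0, ha0⟩ := LM_ne hr hG (F.erase i) (low S r x) ⟨x, low_mem S r _ x⟩
  have ha0c : a0 ∈ LM r T (F.erase i) c :=
    LM_mono hr hT (F.erase i) x (low S r x) c (low_mem S r _ x) hc'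
      (fun k hk => hlow k (Finset.mem_of_mem_erase hk)) ha0
  have hl0 : lft r T F i σ j a0 ∈ LM r T F c :=
    LM_mono hr hT F x (low S r x) c (low_mem S r _ x) hc hlow
      (hgrow (lft_low hr hT F i hi x σ hσ j hj' a0 ha0))
  exact LAM_absorb hA hAS ⟨a0, ha0c, rfl⟩ hl0 ⟨a, ha, rfl⟩

theorem fold_sec_ne [CompactSpace X] [ConnectedSpace X] (hr : Let r) {T : Pre X I S}
    (hT : IsSys r T) (F : Finset I) (i : I) (hi : i ∈ F) (x : X) :
    ((T.fold r).Sec F i x).Nonempty := by
  classical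
  have hG := hT.toGood
  obtain ⟨σ, hσ⟩ := hG.sec_ne F i x hi
  obtain ⟨j, hj, hgrow⟩ := fold_grow hr hT F i hi x σ hσ
  have hj' : ∀ e : TI r T F, ¬ e.1.1 ⊆ F.erase i → ∀ v ∈ T.K (F.erase i) (up S r x),
          (j e = false → (ph r T F e (σ v)).val ≤ 3) ∧
          (j e = true → 1 ≤ (ph r T F e (σ v)).val) := fun e he => (hj e he).2.2
  obtain ⟨a0, ha0⟩ := LM_ne hr hG F (low S r x) ⟨x, low_mem S r _ x⟩
  have hs0 := LM_sub T _ _ a0 ha0
  let τ : (T.fold r).V (F.erase i) → (T.fold r).V F := fun a =>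
    if h : ∀ e, nu ((lft r T F i σ j a.1).2 e) = ph r T F e (lft r T F i σ j a.1).1 then
      ⟨lft r T F i σ j a.1, h⟩
    else ⟨a0, fun e => (hs0.2 e).1⟩
  have hτ : ∀ a : (T.fold r).V (F.erase i), a.1.1 ∈ T.K (F.erase i) (up S r x) →
      (τ a).1 = lft r T F i σ j a.1 := by
    intro a ha
    have h : ∀ e, nu ((lft r T F i σ j a.1).2 e) = ph r T F e (lft r T F i σ j a.1).1 :=
      lft_nu hG F i hi x σ hσ j hj' a.1 ha a.2
    show (if h : ∀ e, nu ((lft r T F i σ j a.1).2 e) = ph r T F e (lft r T F i σ j a.1).1 then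
      (⟨lft r T F i σ j a.1, h⟩ : (T.fold r).V F)
    else ⟨a0, fun e => (hs0.2 e).1⟩).1 = _
    rw [dif_pos h]
  refine ⟨τ, σ, hσ, j, ?_, ?_⟩
  · intro a ha
    exact hτ a (LM_sub T _ _ a.1 ha).1
  · intro c hc a ha
    rw [hτ a (K_cube_up hG F i x c hc (LM_sub T _ _ a.1 ha).1)]
    exact lft_cube hr hT F i hi x σ hσ j hj hgrow c hc a.1 ha

end Pool.Agent.H26DI
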