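import Pool.Agent.Helper26.DD.FoF

/-!
# DD module I-17: the fold extension: sections and (A3) (section 7).

`fold_sec_hom`: `lft_hom` (with `τ = σ`, `sec_hom`).  `fold_sec_res`: `res σ a.1 = a.1` (`sec_res`), and the
coordinates `e.1.1 ⊆ F.erase i` of `lft` are those of `a`.
`fold_nat`: into: `LM_res`. Onto: enough for `G = F.erase i` (induction on `F \ G`, `res_res`), there by
`fold_sec_ne`, the second clause of `Sec`, `fold_sec_res` (for `y ∈ cube x`,
`K (F.erase i) y ⊆ K (F.erase i) (up x)` by `LM_mono`).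
`fold_sec_restr`: given `τ` with `σ, j`; `σ'` from `T.sec_restr`, `j' e = j (e.incl h)`. For `b` in the
domain `LM (G.erase i) (up x)` choose `a` in `LM (F.erase i) (up x)` with `res a = b` (`fold_nat` for
`F.erase i → G.erase i`) and let `τ' b = res (τ a)`; `(τ' b).1 = lft σ' j' b.1` (so it does not depend on the
choice): first coordinate `res (σ a.1) = σ' (res a.1)`, the others by `ph_incl`. For `c ∈ cube S r G x`
let `c'` be `c` on `G` and `low x` elsewhere, `c' ∈ cube S r F x`, `K_congr`; for `b ∈ LM (G.erase i) c`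
choose `a' ∈ LM (F.erase i) c'` over `b`; `τ' b = res (τ a') ∈ LM G c`.
`fold_dich`: `σ, j` and `σ', j'`. If `σ, σ'` are in the second case of `dich`: second case (first
coordinates). Otherwise, if `j e = j' e` for all `e` with `¬ e.1.1 ⊆ F.erase i`: first case by `lft_hom`
(`lft` depends on those values of `j` only), equality: `a = b → lft σ j a = lft σ' j b`. If
`j e ≠ j' e` for some such `e`: second case: one of the values is `≤ 3`, the other `≥ 5`
(for points of the domain: `(τ a).1.2 e` is `l1 k` or `l3 k` with `nu = k`, so `k ≤ 3` resp. `k ≥ 1`).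
-/

set_option autoImplicit false

namespace Pool.Agent.H26DI

open Topology Pool.Agent.Helper85.DT

variable {X I : Type} [DecidableEq I] [TopologicalSpace X] {S : PS} {r : I → X → ℝ}

private theorem lftp {T : Pre X I S} (F : Finset I) (i : I) (σ : T.V (F.erase i) → T.V F)
    (j : TI r T F → Bool) (a : T.V (F.erase i) × (TI r T (F.erase i) → Fin 9)) (e : TI r T F)
    (he : e.1.1 ⊆ F.erase i) : (lft r T F i σ j a).2 e = a.2 ⟨e.1, he, e.2.2⟩ := dif_pos he

private theorem lftn {T : Pre X I S} (F : Finset I) (i : I) (σ : T.V (F.erase i) → T.V F)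
    (j : TI r T F → Bool) (a : T.V (F.erase i) × (TI r T (F.erase i) → Fin 9)) (e : TI r T F)
    (he : ¬ e.1.1 ⊆ F.erase i) : (lft r T F i σ j a).2 e =
      if j e then l3 (ph r T F e (σ a.1)) else l1 (ph r T F e (σ a.1)) := dif_neg he

private theorem lft_congr {T : Pre X I S} (F : Finset I) (i : I)
    (σ σ' : T.V (F.erase i) → T.V F) (j j' : TI r T F → Bool)
    (hj : ∀ e : TI r T F, ¬ e.1.1 ⊆ F.erase i → j e = j' e)
    (a : T.V (F.erase i) × (TI r T (F.erase i) → Fin 9)) (hσ : σ a.1 = σ' a.1) :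
    lft r T F i σ j a = lft r T F i σ' j' a := by
  apply Prod.ext
  · exact hσ
  · funext e
    by_cases he : e.1.1 ⊆ F.erase i
    · rw [lftp F i σ j a e he, lftp F i σ' j' a e he]
    · rw [lftn F i σ j a e he, lftn F i σ' j' a e he, hj e he, hσ]

private theorem l1_le : ∀ k : Fin 5, nu (l1 k) = k → (l1 k).val ≤ 3 := by decide

private theorem l3_ge : ∀ k : Fin 5, nu (l3 k) = k → 5 ≤ (l3 k).val := by decide

theorem fold_sec_hom [CompactSpace X] [ConnectedSpace X] (hr : Let r) {T : Pre X I S}
    (hT : IsSys r T) : ∀ F i x, i ∈ F → ∀ σ ∈ (T.fold r).Sec F i x,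
    ∀ a ∈ (T.fold r).K (F.erase i) (up S r x), ∀ b ∈ (T.fold r).K (F.erase i) (up S r x),
    (T.fold r).adj (F.erase i) a b → (T.fold r).adj F (σ a) (σ b) := by
  rintro F i x hi τ ⟨σ, hσ, j, h1, -⟩ a ha b hb hab
  show adjP (T.adj F) (τ a).1 (τ b).1
  rw [h1 a ha, h1 b hb]
  exact lft_hom hT.toGood F i hi x x σ σ j
    (fun u hu v hv huv => hT.sec_hom F i x hi σ hσ u hu v hv huv) a.1 b.1
    (LM_sub T _ _ _ ha).1 (LM_sub T _ _ _ hb).1 hab

theorem fold_sec_res [CompactSpace X] [ConnectedSpace X] (hr : Let r) {T : Pre X I S}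
    (hT : IsSys r T) : ∀ F i x, i ∈ F → ∀ σ ∈ (T.fold r).Sec F i x,
    ∀ a ∈ (T.fold r).K (F.erase i) (up S r x),
    (T.fold r).res F (F.erase i) (F.erase_subset i) (σ a) = a := by
  rintro F i x hi τ ⟨σ, hσ, j, h1, -⟩ a ha
  apply Subtype.ext
  have h2 := h1 a ha
  have h3 : (lft r T F i σ j a.1).1 = σ a.1.1 := rfl
  apply Prod.ext
  · show T.res F (F.erase i) (F.erase_subset i) (τ a).1.1 = a.1.1
    rw [h2, h3]
    exact hT.sec_res F i x hi σ hσ a.1.1 (LM_sub T _ _ _ ha).1
  · funext e
    show (τ a).1.2 (e.incl (F.erase_subset i)) = a.1.2 e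
    rw [h2, lftp F i σ j a.1 (e.incl (F.erase_subset i)) e.2.1]
    rfl

theorem fold_nat [CompactSpace X] [ConnectedSpace X] (hr : Let r) {T : Pre X I S}
    (hT : IsSys r T) : ∀ F G (h : G ⊆ F), ∀ y ∈ BB S r F,
    (T.fold r).res F G h '' (T.fold r).K F y = (T.fold r).K G y := by
  have key : ∀ n : ℕ, ∀ F G : Finset I, ∀ h : G ⊆ F, (F \ G).card = n → ∀ y ∈ BB S r F,
      (T.fold r).K G y ⊆ (T.fold r).res F G h '' (T.fold r).K F y := by
    intro n
    induction n with
    | zero =>
      intro F G h hn y hy b hb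
      have h1 : F = G := by
        apply Finset.Subset.antisymm _ h
        rw [← Finset.sdiff_eq_empty_iff_subset]
        exact Finset.card_eq_zero.1 hn
      subst h1
      exact ⟨b, hb, (T.fold r).res_self F h b⟩
    | succ n ih =>
      intro F G h hn y hy b hb
      obtain ⟨i, hi⟩ : (F \ G).Nonempty := by
        rw [← Finset.card_pos]
        omega
      obtain ⟨hiF, hiG⟩ := Finset.mem_sdiff.1 hi
      have hG : G ⊆ F.erase i := fun u hu => Finset.mem_erase.2 ⟨fun h' => hiG (h' ▸ hu), h hu⟩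
      have hcard : (F.erase i \ G).card = n := by
        have h2 : F.erase i \ G = (F \ G).erase i := by
          ext u
          simp only [Finset.mem_sdiff, Finset.mem_erase]
          tauto
        rw [h2, Finset.card_erase_of_mem hi, hn]
        omega
      have hy' : y ∈ BB S r (F.erase i) := BB_sub (F.erase_subset i) hy
      obtain ⟨a', ha', hab⟩ := ih (F.erase i) G hG hcard y hy' hb
      obtain ⟨x, hx⟩ := hy
      obtain ⟨τ, hτ⟩ := fold_sec_ne hr hT F i hiF x
      have hxe : y ∈ cube S r (F.erase i) x := fun u hu => hx u (Finset.mem_of_mem_erase hu)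
      have hup : a' ∈ (T.fold r).K (F.erase i) (up S r x) :=
        LM_mono hr hT (F.erase i) x y (up S r x) hxe (up_mem S r _ x)
          (fun u hu => (ps_le_cube hxe hu).2) ha'
      refine ⟨τ a', ?_, ?_⟩
      · obtain ⟨σ, hσ, j, -, h2⟩ := hτ
        exact h2 y hx a' ha'
      · rw [← (T.fold r).res_res F (F.erase i) G (F.erase_subset i) hG,
          fold_sec_res hr hT F i x hiF τ hτ a' hup]
        exact hab
  intro F G h y hy
  apply Set.Subset.antisymm
  · rintro _ ⟨a, ha, rfl⟩
    exact LM_res hr hT.toGood F G h y hy a.1 ha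
  · exact key _ F G h rfl y hy

theorem fold_sec_restr [CompactSpace X] [ConnectedSpace X] (hr : Let r) {T : Pre X I S}
    (hT : IsSys r T) : ∀ F G i x (h : G ⊆ F), i ∈ G → ∀ σ ∈ (T.fold r).Sec F i x,
    ∃ τ ∈ (T.fold r).Sec G i x, ∀ a ∈ (T.fold r).K (F.erase i) (up S r x),
      (T.fold r).res F G h (σ a) =
      τ ((T.fold r).res (F.erase i) (G.erase i) (Finset.erase_subset_erase i h) a) := by
  classical
  rintro F G i x h hiG τ ⟨σ, hσ, j, h1, h2⟩
  have hiF : i ∈ F := h hiG
  have hee : G.erase i ⊆ F.erase i := Finset.erase_subset_erase i h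
  obtain ⟨σ', hσ', hss⟩ := hT.sec_restr F G i x h hiG σ hσ
  let j' : TI r T G → Bool := fun e => j (e.incl h)
  have key : ∀ a : (T.fold r).V (F.erase i), a ∈ (T.fold r).K (F.erase i) (up S r x) →
      ((T.fold r).res F G h (τ a)).1 =
        lft r T G i σ' j' ((T.fold r).res (F.erase i) (G.erase i) hee a).1 := by
    intro a ha
    have h3 := h1 a ha
    have h4 : (lft r T F i σ j a.1).1 = σ a.1.1 := rfl
    have h5 := hss a.1.1 (LM_sub T _ _ _ ha).1
    apply Prod.ext
    · show T.res F G h (τ a).1.1 = σ' (T.res (F.erase i) (G.erase i) hee a.1.1)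
      rw [h3, h4]
      exact h5
    · funext e
      show (τ a).1.2 (e.incl h) = (lft r T G i σ' j' _).2 e
      rw [h3]
      by_cases he : e.1.1 ⊆ G.erase i
      · have he' : (e.incl h).1.1 ⊆ F.erase i := he.trans hee
        rw [lftp F i σ j a.1 (e.incl h) he', lftp G i σ' j' _ e he]
        rfl
      · have he' : ¬ (e.incl h).1.1 ⊆ F.erase i := by
          intro he'
          apply he
          intro u hu
          exact Finset.mem_erase.2 ⟨(Finset.mem_erase.1 (he' hu)).1, e.2.1 hu⟩
        rw [lftn F i σ j a.1 (e.incl h) he', lftn G i σ' j' _ e he]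
        have h6 : ph r T F (e.incl h) (σ a.1.1) =
            ph r T G e (σ' (T.res (F.erase i) (G.erase i) hee a.1.1)) := by
          rw [ph_incl, h5]
        rw [h6]
        rfl
  obtain ⟨τ0, hτ0⟩ := fold_sec_ne hr hT G i hiG x
  have hupF : up S r x ∈ BB S r (F.erase i) := ⟨x, up_mem S r _ x⟩
  have hch : ∀ b : (T.fold r).V (G.erase i), ∃ c : (T.fold r).V G,
      b ∈ (T.fold r).K (G.erase i) (up S r x) → c.1 = lft r T G i σ' j' b.1 := by
    intro b
    by_cases hb : b ∈ (T.fold r).K (G.erase i) (up S r x)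
    · rw [← fold_nat hr hT (F.erase i) (G.erase i) hee (up S r x) hupF] at hb
      obtain ⟨a, ha, rfl⟩ := hb
      exact ⟨(T.fold r).res F G h (τ a), fun _ => key a ha⟩
    · exact ⟨τ0 b, fun h' => absurd h' hb⟩
  choose τ' hτ' using hch
  refine ⟨τ', ⟨σ', hσ', j', fun b hb => hτ' b hb, fun c hc b hb => ?_⟩, fun a ha => ?_⟩
  · have hce : c ∈ cube S r (G.erase i) x := fun u hu => hc u (Finset.mem_of_mem_erase hu)
    have hbup : b ∈ (T.fold r).K (G.erase i) (up S r x) :=
      LM_mono hr hT (G.erase i) x c (up S r x) hce (up_mem S r _ x)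
        (fun u hu => (ps_le_cube hce hu).2) hb
    let c' : I → S.P := fun u => if u ∈ G then c u else low S r x u
    have hc' : c' ∈ cube S r F x := by
      intro u hu
      by_cases huG : u ∈ G
      · have h3 : c' u = c u := if_pos huG
        rw [h3]
        exact hc u huG
      · have h3 : c' u = low S r x u := if_neg huG
        rw [h3]
        exact Or.inl rfl
    have hce' : c' ∈ cube S r (F.erase i) x := fun u hu => hc' u (Finset.mem_of_mem_erase hu)
    have hKe : (T.fold r).K (G.erase i) c = (T.fold r).K (G.erase i) c' := by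
      apply (T.fold r).K_congr
      intro u hu
      exact (if_pos (Finset.mem_of_mem_erase hu)).symm
    have hKG : (T.fold r).K G c = (T.fold r).K G c' := by
      apply (T.fold r).K_congr
      intro u hu
      exact (if_pos hu).symm
    have hb2 : b ∈ (T.fold r).K (G.erase i) c' := by
      rw [← hKe]
      exact hb
    rw [← fold_nat hr hT (F.erase i) (G.erase i) hee c' ⟨x, hce'⟩] at hb2
    obtain ⟨a, ha, hab⟩ := hb2
    have haup : a ∈ (T.fold r).K (F.erase i) (up S r x) :=
      LM_mono hr hT (F.erase i) x c' (up S r x) hce' (up_mem S r _ x)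
        (fun u hu => (ps_le_cube hce' hu).2) ha
    have h3 : (τ a).1 ∈ LM r T F c' := h2 c' hc' a ha
    have h4 : (T.fold r).res F G h (τ a) ∈ (T.fold r).K G c' :=
      LM_res hr hT.toGood F G h c' ⟨x, hc'⟩ (τ a).1 h3
    rw [← hKG] at h4
    have h5 : (τ' b).1 = ((T.fold r).res F G h (τ a)).1 := by
      rw [key a haup, hτ' b hbup, hab]
    rw [h5]
    exact h4
  · apply Subtype.ext
    have hb : (T.fold r).res (F.erase i) (G.erase i) hee a ∈
        (T.fold r).K (G.erase i) (up S r x) := by
      rw [← fold_nat hr hT (F.erase i) (G.erase i) hee (up S r x) hupF]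
      exact ⟨a, ha, rfl⟩
    rw [key a ha]
    exact (hτ' _ hb).symm

theorem fold_dich [CompactSpace X] [ConnectedSpace X] (hr : Let r) {T : Pre X I S}
    (hT : IsSys r T) : ∀ F i x x', i ∈ F → ∀ σ ∈ (T.fold r).Sec F i x,
    ∀ τ ∈ (T.fold r).Sec F i x',
    (∀ a ∈ (T.fold r).K (F.erase i) (up S r x), ∀ b ∈ (T.fold r).K (F.erase i) (up S r x'),
      ((T.fold r).adj (F.erase i) a b → (T.fold r).adj F (σ a) (τ b)) ∧ (a = b → σ a = τ b)) ∨
    (∀ a ∈ (T.fold r).K (F.erase i) (up S r x), ∀ b ∈ (T.fold r).K (F.erase i) (up S r x'),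
      ¬ (T.fold r).adj F (σ a) (τ b)) := by
  classical
  rintro F i x x' hi τ ⟨σ, hσ, j, h1, -⟩ τ' ⟨σ', hσ', j', h1', -⟩
  rcases hT.dich F i x x' hi σ hσ σ' hσ' with hd | hd
  · by_cases hj : ∀ e : TI r T F, ¬ e.1.1 ⊆ F.erase i → j e = j' e
    · left
      intro a ha b hb
      have hb2 : lft r T F i σ' j' b.1 = lft r T F i σ' j b.1 :=
        (lft_congr F i σ' σ' j j' hj b.1 rfl).symm
      constructor
      · intro hab
        show adjP (T.adj F) (τ a).1 (τ' b).1
        rw [h1 a ha, h1' b hb, hb2]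
        exact lft_hom hT.toGood F i hi x x' σ σ' j
          (fun u hu v hv huv => (hd u hu v hv).1 huv) a.1 b.1
          (LM_sub T _ _ _ ha).1 (LM_sub T _ _ _ hb).1 hab
      · intro hab
        apply Subtype.ext
        rw [h1 a ha, h1' b hb, hb2]
        subst hab
        exact lft_congr F i σ σ' j j (fun _ _ => rfl) a.1
          ((hd a.1.1 (LM_sub T _ _ _ ha).1 a.1.1 (LM_sub T _ _ _ hb).1).2 rfl)
    · right
      push Not at hj
      obtain ⟨e, he, hje⟩ := hj
      intro a ha b hb hab
      have hab' : adjP (T.adj F) (τ a).1 (τ' b).1 := hab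
      have h2 := hab'.2 e
      have h3 := (τ a).2 e
      have h4 := (τ' b).2 e
      have e1 : (lft r T F i σ j a.1).1 = σ a.1.1 := rfl
      have e2 : (lft r T F i σ' j' b.1).1 = σ' b.1.1 := rfl
      rw [h1 a ha, lftn F i σ j a.1 e he, e1] at h3
      rw [h1' b hb, lftn F i σ' j' b.1 e he, e2] at h4
      rw [h1 a ha, h1' b hb, lftn F i σ j a.1 e he, lftn F i σ' j' b.1 e he] at h2
      unfold nr at h2
      rcases hcj : j e with _ | _
      · have hcj' : j' e = true := by
          rcases h5 : j' e with _ | _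
          · exact absurd (hcj.trans h5.symm) hje
          · rfl
        rw [hcj] at h2 h3
        rw [hcj'] at h2 h4
        simp only [Bool.false_eq_true, if_false, if_true] at h2 h3 h4
        have h5 := l1_le _ h3
        have h6 := l3_ge _ h4
        omega
      · have hcj' : j' e = false := by
          rcases h5 : j' e with _ | _
          · rfl
          · exact absurd (hcj.trans h5.symm) hje
        rw [hcj] at h2 h3
        rw [hcj'] at h2 h4
        simp only [Bool.false_eq_true, if_false, if_true] at h2 h3 h4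
        have h5 := l3_ge _ h3
        have h6 := l1_le _ h4
        omega
  · right
    intro a ha b hb hab
    have hab' : adjP (T.adj F) (τ a).1 (τ' b).1 := hab
    have h2 := hab'.1
    rw [h1 a ha, h1' b hb] at h2
    exact hd a.1.1 (LM_sub T _ _ _ ha).1 b.1.1 (LM_sub T _ _ _ hb).1 h2

end Pool.Agent.H26DI
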