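import Pool.Agent.Helper26.DD.FoB

/-!
# DD module I-18: the fold extension: (A8), (A9), one point for no letters (section 7).

`no_test_empty`: a legal test on `∅` touches lo and hi of the one point set `V ∅`: impossible; so
`TI r T ∅` is empty and `(T.fold r).V ∅` has at most one element (`T.empt`).
`bot_not_full`: `y ∈ cube S r E x`, `y i = bot`, `i ∈ E`: every `v ∈ T.K E y` is `σ (res v)` for
`σ ∈ T.Sec E i x` (`Good.bot_sec`) with `res v ∈ T.K (E.erase i) y ⊆ T.K (E.erase i) (up x)`; so by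
`Legal.lc` `K E y` does not touch both.
`fold_bot_adj`, `fold_bot_inj`: `a, b ∈ LM F y`, `y i = bot`. The first coordinates by `bot_adj`,
`bot_inj` of `T`; the coordinates with `e.1.1 ⊆ F.erase i` are coordinates of the restrictions; for
the others the status is one or three (`bot_not_full`) and
`a.2 e = l1 (ph e a.1)` resp. `l3 (ph e a.1)` (from `nu (a.2 e) = ph e a.1` and `al`), `l1_nr`, `l3_nr`.
`fold_two`: `v` from `T.two`, take `a` over `v` in `LM {j} (s bot)` (`fold_pK`, `pos_mem_one`);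
`a ∈ LM {j} bot` would give `v ∈ T.K {j} bot`.
-/

set_option autoImplicit false

namespace Pool.Agent.H26DI

open Topology Pool.Agent.Helper85.DT

variable {X I : Type} [DecidableEq I] [TopologicalSpace X] {S : PS} {r : I → X → ℝ}

private theorem TI_empty {T : Pre X I S} (hT : Good r T) : IsEmpty (TI r T (∅ : Finset I)) := by
  refine ⟨fun e => ?_⟩
  obtain ⟨⟨E, φ⟩, h1, h2⟩ := e
  have hE : E = ∅ := Finset.subset_empty.1 h1
  subst hE
  obtain ⟨v, -, hv⟩ := h2.top_lo
  obtain ⟨w, -, hw⟩ := h2.top_hi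
  have hvw := hT.empt v w
  subst hvw
  have h3 : (φ v).val ≤ 1 := hv
  have h4 : 3 ≤ (φ v).val := hw
  omega

theorem fold_empt {T : Pre X I S} (hT : Good r T) : ∀ v w : (T.fold r).V ∅, v = w := by
  intro v w
  have hE := TI_empty (r := r) hT
  apply Subtype.ext
  apply Prod.ext
  · exact hT.empt _ _
  · funext e
    exact hE.elim e

theorem bot_not_full {T : Pre X I S} (hT : Good r T) (E : Finset I) (φ : T.V E → Fin 5)
    (hL : Legal r T E φ) (i : I) (hi : i ∈ E) (y : I → S.P) (hy : y ∈ BB S r E)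
    (hyi : y i = S.bot) : stat r T E φ y ≠ Stat.full := by
  intro hst
  obtain ⟨⟨v, hv, hv1⟩, ⟨w, hw, hw1⟩⟩ := (stat_full_iff T E φ y).1 hst
  obtain ⟨x, hx⟩ := hy
  obtain ⟨σ, hσ⟩ := hT.sec_ne E i x hi
  have hxe : y ∈ cube S r (E.erase i) x := fun j hj => hx j (Finset.mem_of_mem_erase hj)
  have key : ∀ u ∈ T.K E y, T.res E (E.erase i) (E.erase_subset i) u ∈
      T.K (E.erase i) (up S r x) := by
    intro u hu
    have h1 : T.res E (E.erase i) (E.erase_subset i) u ∈ T.K (E.erase i) y := by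
      rw [← hT.nat E (E.erase i) (E.erase_subset i) y ⟨x, hx⟩]
      exact ⟨u, hu, rfl⟩
    exact hT.mono (E.erase i) x y hxe _ (up_mem S r _ x) (fun j hj => (ps_le_cube hxe hj).2) h1
  refine hL.lc x i hi σ hσ ⟨⟨_, key v hv, ?_⟩, ⟨_, key w hw, ?_⟩⟩
  · rw [hT.bot_sec E i hi x y hx hyi σ hσ v hv]
    exact hv1
  · rw [hT.bot_sec E i hi x y hx hyi σ hσ w hw]
    exact hw1

private theorem eq_l1 : ∀ (a : Fin 9) (k : Fin 5), nu a = k → al Stat.one a → a = l1 k := by
  decide

private theorem eq_l3 : ∀ (a : Fin 9) (k : Fin 5), nu a = k → al Stat.three a → a = l3 k := by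
  decide

private theorem bot_cases {T : Pre X I S} (hT : Good r T) (F : Finset I) (i : I)
    (y : I → S.P) (hy : y ∈ BB S r F) (hyi : y i = S.bot) (e : TI r T F)
    (he : ¬ e.1.1 ⊆ F.erase i) (a : T.V F × (TI r T F → Fin 9)) (ha : a ∈ LM r T F y) :
    (st r T F y e = Stat.one ∧ a.2 e = l1 (ph r T F e a.1)) ∨
    (st r T F y e = Stat.three ∧ a.2 e = l3 (ph r T F e a.1)) := by
  have hie : i ∈ e.1.1 := by
    by_contra h
    apply he
    intro j hj
    rw [Finset.mem_erase]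
    refine ⟨fun hji => h (hji ▸ hj), e.2.1 hj⟩
  have hnf : st r T F y e ≠ Stat.full :=
    bot_not_full hT e.1.1 e.1.2 e.2.2 i hie y (BB_sub e.2.1 hy) hyi
  obtain ⟨h1, h2⟩ := (LM_sub T F y a ha).2 e
  rcases hs : st r T F y e with _ | _ | _
  · left
    rw [hs] at h2
    exact ⟨rfl, eq_l1 _ _ h1 h2⟩
  · right
    rw [hs] at h2
    exact ⟨rfl, eq_l3 _ _ h1 h2⟩
  · exact absurd hs hnf

theorem fold_bot_adj {T : Pre X I S} (hT : Good r T) :
    ∀ F i, i ∈ F → ∀ y ∈ BB S r F, y i = S.bot → ∀ v ∈ (T.fold r).K F y,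
    ∀ w ∈ (T.fold r).K F y,
    (T.fold r).adj (F.erase i) ((T.fold r).res F (F.erase i) (F.erase_subset i) v)
      ((T.fold r).res F (F.erase i) (F.erase_subset i) w) → (T.fold r).adj F v w := by
  intro F i hi y hy hyi v hv w hw h
  have hv' : v.1 ∈ LM r T F y := hv
  have hw' : w.1 ∈ LM r T F y := hw
  have hadj : T.adj F v.1.1 w.1.1 :=
    hT.bot_adj F i hi y hy hyi _ (LM_sub T F y _ hv').1 _ (LM_sub T F y _ hw').1 h.1
  refine ⟨hadj, fun e => ?_⟩
  by_cases he : e.1.1 ⊆ F.erase i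
  · exact h.2 ⟨e.1, he, e.2.2⟩
  · have hn := ph_hom T F e _ _ hadj
    rcases bot_cases hT F i y hy hyi e he _ hv' with ⟨h1, h2⟩ | ⟨h1, h2⟩
    · rcases bot_cases hT F i y hy hyi e he _ hw' with ⟨h3, h4⟩ | ⟨h3, h4⟩
      · rw [h2, h4]
        exact l1_nr hn
      · rw [h1] at h3
        exact absurd h3 (by decide)
    · rcases bot_cases hT F i y hy hyi e he _ hw' with ⟨h3, h4⟩ | ⟨h3, h4⟩
      · rw [h1] at h3
        exact absurd h3 (by decide)
      · rw [h2, h4]
        exact l3_nr hn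

theorem fold_bot_inj {T : Pre X I S} (hT : Good r T) :
    ∀ F i, i ∈ F → ∀ y ∈ BB S r F, y i = S.bot → ∀ v ∈ (T.fold r).K F y,
    ∀ w ∈ (T.fold r).K F y,
    (T.fold r).res F (F.erase i) (F.erase_subset i) v =
      (T.fold r).res F (F.erase i) (F.erase_subset i) w → v = w := by
  intro F i hi y hy hyi v hv w hw h
  have hv' : v.1 ∈ LM r T F y := hv
  have hw' : w.1 ∈ LM r T F y := hw
  have h1 : T.res F (F.erase i) (F.erase_subset i) v.1.1 =
      T.res F (F.erase i) (F.erase_subset i) w.1.1 := congrArg (fun a => a.1.1) h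
  have h2 : (fun e : TI r T (F.erase i) => v.1.2 (e.incl (F.erase_subset i))) =
      (fun e : TI r T (F.erase i) => w.1.2 (e.incl (F.erase_subset i))) :=
    congrArg (fun a => a.1.2) h
  have heq : v.1.1 = w.1.1 :=
    hT.bot_inj F i hi y hy hyi _ (LM_sub T F y _ hv').1 _ (LM_sub T F y _ hw').1 h1
  apply Subtype.ext
  apply Prod.ext
  · exact heq
  · funext e
    by_cases he : e.1.1 ⊆ F.erase i
    · exact congrFun h2 ⟨e.1, he, e.2.2⟩
    · rcases bot_cases hT F i y hy hyi e he _ hv' with ⟨h3, h4⟩ | ⟨h3, h4⟩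
      · rcases bot_cases hT F i y hy hyi e he _ hw' with ⟨h5, h6⟩ | ⟨h5, h6⟩
        · rw [h4, h6, heq]
        · rw [h3] at h5
          exact absurd h5 (by decide)
      · rcases bot_cases hT F i y hy hyi e he _ hw' with ⟨h5, h6⟩ | ⟨h5, h6⟩
        · rw [h3] at h5
          exact absurd h5 (by decide)
        · rw [h4, h6, heq]

theorem fold_two [CompactSpace X] [ConnectedSpace X] (hr : Let r) {T : Pre X I S}
    (hT : Good r T) : ∀ j : I, ∃ v ∈ (T.fold r).K {j} (fun _ => S.s S.bot),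
      v ∉ (T.fold r).K {j} (fun _ => S.bot) := by
  intro j
  obtain ⟨v, hv, hv'⟩ := hT.two j
  rw [← fold_pK hr hT {j} (fun _ => S.s S.bot) (pos_mem_one hr j _)] at hv
  obtain ⟨a, ha, rfl⟩ := hv
  exact ⟨a, ha, fun hb => hv' (LM_sub T {j} _ a.1 hb).1⟩

end Pool.Agent.H26DI
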