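import Pool.Agent.Helper26.DD.FoG
import Pool.Agent.Helper26.DD.FoH

/-!
# DD module I-19: the fold extension of a system is good; its projection; the fold coordinates.
-/

set_option autoImplicit false

namespace Pool.Agent.H26DI

open Topology Pool.Agent.Helper85.DT

variable {X I : Type} [DecidableEq I] [TopologicalSpace X] {S : PS} {r : I → X → ℝ}

theorem fold_good [CompactSpace X] [ConnectedSpace X] (hr : Let r) {T : Pre X I S}
    (hT : IsSys r T) : Good r (T.fold r) where
  conn := fun F y hy => fold_conn hr hT.toGood F y hy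
  mono := fun F x y hy y' hy' h a ha => LM_mono hr hT F x y y' hy hy' h ha
  nat := fold_nat hr hT
  lim := fun F y hy => by
    obtain ⟨p, hp, h⟩ := LM_lim hr hT.toGood F y hy
    refine ⟨p, hp, fun w hw h1 h2 h3 => ?_⟩
    show {a : (T.fold r).V F | a.1 ∈ LM r T F w} = {a : (T.fold r).V F | a.1 ∈ LM r T F y}
    rw [h w hw h1 h2 h3]
  empt := fold_empt hT.toGood
  sec_ne := fun F i x hi => fold_sec_ne hr hT F i hi x
  sec_hom := fold_sec_hom hr hT
  sec_res := fold_sec_res hr hT
  sec_K := by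
    rintro F i x hi τ ⟨σ, hσ, j, h1, h2⟩ c hc a ha
    exact h2 c hc a ha
  sec_restr := fold_sec_restr hr hT
  dich := fold_dich hr hT
  bot_adj := fold_bot_adj hT.toGood
  bot_inj := fold_bot_inj hT.toGood
  two := fold_two hr hT.toGood

/-- the projection of the fold extension -/
def foldProj [CompactSpace X] [ConnectedSpace X] (hr : Let r) {T : Pre X I S}
    (hT : IsSys r T) : Proj r (T.fold r) T where
  p := fun F a => a.1.1
  p_adj := fun F v w h => h.1
  p_res := fun F G h v => rfl
  p_K := fun F y hy => fold_pK hr hT.toGood F y hy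
  p_sec := by
    rintro F i x hi τ ⟨σ, hσ, j, h1, h2⟩
    refine ⟨σ, hσ, fun a ha => ?_⟩
    rw [h1 a ha]
    rfl

/-- the fold coordinates -/
theorem fold_coord (T : Pre X I S) (E : Finset I) (φ : T.V E → Fin 5) (hL : Legal r T E φ) :
    ∃ u : (T.fold r).V E → Fin 9,
      (∀ a b, (T.fold r).adj E a b → nr (u a) (u b)) ∧
      ∀ a, nu (u a) = φ a.1.1 := by
  refine ⟨fun a => a.1.2 ⟨⟨E, φ⟩, Finset.Subset.refl E, hL⟩, fun a b h => h.2 _, fun a => ?_⟩
  rw [a.2 ⟨⟨E, φ⟩, Finset.Subset.refl E, hL⟩]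
  show φ (T.res E E _ a.1.1) = φ a.1.1
  rw [T.res_self]

end Pool.Agent.H26DI
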