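import Pool.Agent.Helper26.DD.SysA

/-!
# Project DD, part I: the fold extension (section 7), definitions.

`Legal r T E φ` : the test `φ : T.V E → Fin 5` is legal.
`TI r T F` : the legal tests on subsets of `F`.
`ph r T F e z` : value of the test `e` at `z : T.V F`.
`stat r T E φ y` : the status; `st r T F y e`.
`Pre.fold` : the fold extension with all legal tests at once.
-/

set_option autoImplicit false

namespace Pool.Agent.H26DI

open Pool.Agent.Helper85.DT

variable {X I : Type} [DecidableEq I] {S : PS} (r : I → X → ℝ) (T : Pre X I S)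

/-- `K E y` touches lo -/
def tlo (E : Finset I) (φ : T.V E → Fin 5) (y : I → S.P) : Prop :=
  ∃ v ∈ T.K E y, (φ v).val ≤ 1

/-- `K E y` touches hi -/
def thi (E : Finset I) (φ : T.V E → Fin 5) (y : I → S.P) : Prop :=
  ∃ v ∈ T.K E y, 3 ≤ (φ v).val

/-- legal tests -/
structure Legal (E : Finset I) (φ : T.V E → Fin 5) : Prop where
  hom : ∀ v w, T.adj E v w → nr (φ v) (φ w)
  top_lo : tlo T E φ (fun _ => S.top)
  top_hi : thi T E φ (fun _ => S.top)
  lb : ∀ x, tlo T E φ (up S r x) → thi T E φ (up S r x) →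
    tlo T E φ (low S r x) ∨ thi T E φ (low S r x)
  lc : ∀ x i, i ∈ E → ∀ σ ∈ T.Sec E i x,
    ¬ ((∃ v ∈ T.K (E.erase i) (up S r x), (φ (σ v)).val ≤ 1) ∧
       (∃ v ∈ T.K (E.erase i) (up S r x), 3 ≤ (φ (σ v)).val))

/-- the legal tests on subsets of `F` -/
def TI (F : Finset I) : Type :=
  {e : Σ E : Finset I, (T.V E → Fin 5) // e.1 ⊆ F ∧ Legal r T e.1 e.2}

instance instFiniteTI (F : Finset I) : Finite (TI r T F) := by
  have h : ∀ E : Finset I, Finite (T.V E) := T.fin
  have h2 : Finite (Σ E : {E : Finset I // E ∈ F.powerset}, (T.V E.1 → Fin 5)) := by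
    infer_instance
  refine Finite.of_injective
    (fun e : TI r T F => (⟨⟨e.1.1, Finset.mem_powerset.2 e.2.1⟩, e.1.2⟩ :
      Σ E : {E : Finset I // E ∈ F.powerset}, (T.V E.1 → Fin 5))) ?_
  rintro ⟨⟨E, φ⟩, h1⟩ ⟨⟨E', φ'⟩, h1'⟩ h
  simp only [Sigma.mk.injEq, Subtype.mk.injEq] at h
  obtain ⟨rfl, h⟩ := h
  have := eq_of_heq h
  subst this
  rfl

noncomputable instance (F : Finset I) : Fintype (TI r T F) := Fintype.ofFinite _

noncomputable instance (F : Finset I) : DecidableEq (TI r T F) := Classical.decEq _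

variable {r T}

/-- inclusion of tests -/
def TI.incl {F G : Finset I} (h : G ⊆ F) (e : TI r T G) : TI r T F :=
  ⟨e.1, e.2.1.trans h, e.2.2⟩

variable (r T)

/-- the value of a test -/
def ph (F : Finset I) (e : TI r T F) (z : T.V F) : Fin 5 := e.1.2 (T.res F e.1.1 e.2.1 z)

theorem ph_incl {F G : Finset I} (h : G ⊆ F) (e : TI r T G) (z : T.V F) :
    ph r T F (e.incl h) z = ph r T G e (T.res F G h z) := by
  show e.1.2 (T.res F e.1.1 (e.2.1.trans h) z) = e.1.2 (T.res G e.1.1 e.2.1 (T.res F G h z))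
  rw [T.res_res]

open Classical in
/-- the status of a test at the position `y` -/
noncomputable def stat (E : Finset I) (φ : T.V E → Fin 5) (y : I → S.P) : Stat :=
  if tlo T E φ y ∧ thi T E φ y then Stat.full
  else if ∃ y' ∈ BB S r E, (∀ i ∈ E, y i ≤ y' i) ∧ tlo T E φ y' ∧ ¬ thi T E φ y' then Stat.one
  else Stat.three

/-- the status as a function on the tests -/
noncomputable def st (F : Finset I) (y : I → S.P) (e : TI r T F) : Stat :=
  stat r T e.1.1 e.1.2 y

theorem stat_congr (E : Finset I) (φ : T.V E → Fin 5) (y y' : I → S.P)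
    (h : ∀ i ∈ E, y i = y' i) : stat r T E φ y = stat r T E φ y' := by
  have h1 : tlo T E φ y ↔ tlo T E φ y' := by unfold tlo; rw [T.K_congr E y y' h]
  have h2 : thi T E φ y ↔ thi T E φ y' := by unfold thi; rw [T.K_congr E y y' h]
  have h3 : (∃ z ∈ BB S r E, (∀ i ∈ E, y i ≤ z i) ∧ tlo T E φ z ∧ ¬ thi T E φ z) ↔
      (∃ z ∈ BB S r E, (∀ i ∈ E, y' i ≤ z i) ∧ tlo T E φ z ∧ ¬ thi T E φ z) := by
    constructor
    · rintro ⟨z, hz, h4, h5⟩
      exact ⟨z, hz, fun i hi => by rw [← h i hi]; exact h4 i hi, h5⟩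
    · rintro ⟨z, hz, h4, h5⟩
      exact ⟨z, hz, fun i hi => by rw [h i hi]; exact h4 i hi, h5⟩
  have e1 := propext h1
  have e2 := propext h2
  have e3 := propext h3
  unfold stat
  rw [e1, e2]
  by_cases h4 : tlo T E φ y' ∧ thi T E φ y'
  · rw [if_pos h4, if_pos h4]
  · rw [if_neg h4, if_neg h4]
    by_cases h5 : ∃ z ∈ BB S r E, (∀ i ∈ E, y' i ≤ z i) ∧ tlo T E φ z ∧ ¬ thi T E φ z
    · rw [if_pos h5, if_pos (h3.2 h5)]
    · rw [if_neg h5, if_neg (fun h => h5 (h3.1 h))]

theorem st_congr (F : Finset I) (y y' : I → S.P) (h : ∀ i ∈ F, y i = y' i) :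
    st r T F y = st r T F y' := by
  funext e
  exact stat_congr r T _ _ y y' fun i hi => h i (e.2.1 hi)

/-- the set LAM at the position `y` -/
noncomputable def LM (F : Finset I) (y : I → S.P) : Set (T.V F × (TI r T F → Fin 9)) :=
  LAM (T.adj F) (ph r T F) (T.K F y) (st r T F y)

open Classical in
/-- the lift of a section `σ` with the sheet choice `j` -/
noncomputable def lft (F : Finset I) (i : I) (σ : T.V (F.erase i) → T.V F)
    (j : TI r T F → Bool) (a : T.V (F.erase i) × (TI r T (F.erase i) → Fin 9)) :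
    T.V F × (TI r T F → Fin 9) :=
  (σ a.1, fun e => if he : e.1.1 ⊆ F.erase i then a.2 ⟨e.1, he, e.2.2⟩
    else if j e then l3 (ph r T F e (σ a.1)) else l1 (ph r T F e (σ a.1)))

/-- the fold extension -/
noncomputable def Pre.fold : Pre X I S where
  V := fun F => {a : T.V F × (TI r T F → Fin 9) // ∀ e, nu (a.2 e) = ph r T F e a.1}
  fin := fun F => by
    have := T.fin F
    infer_instance
  adj := fun F a b => adjP (T.adj F) a.1 b.1
  arefl := fun F a => ⟨T.arefl F _, fun e => ⟨Nat.le_succ _, Nat.le_succ _⟩⟩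
  asymm := fun F a b h => ⟨T.asymm F _ _ h.1, fun e => ⟨(h.2 e).2, (h.2 e).1⟩⟩
  res := fun F G h a => ⟨(T.res F G h a.1.1, fun e => a.1.2 (e.incl h)), fun e => by
    rw [a.2 (e.incl h)]
    exact ph_incl r T h e a.1.1⟩
  res_adj := fun F G h a b hab => ⟨T.res_adj F G h _ _ hab.1, fun e => hab.2 _⟩
  res_self := by
    rintro F h ⟨⟨a, b⟩, h1⟩
    apply Subtype.ext
    apply Prod.ext
    · exact T.res_self F h a
    · rfl
  res_res := by
    rintro F G H h h' ⟨⟨a, b⟩, h1⟩
    apply Subtype.ext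
    apply Prod.ext
    · exact T.res_res F G H h h' a
    · rfl
  K := fun F y => {a | a.1 ∈ LM r T F y}
  K_congr := by
    intro F y y' h
    unfold LM
    rw [T.K_congr F y y' h, st_congr r T F y y' h]
  Sec := fun F i x => {τ | ∃ σ ∈ T.Sec F i x, ∃ j : TI r T F → Bool,
    (∀ a, a.1 ∈ LM r T (F.erase i) (up S r x) → (τ a).1 = lft r T F i σ j a.1) ∧
    (∀ c ∈ cube S r F x, ∀ a, a.1 ∈ LM r T (F.erase i) c → (τ a).1 ∈ LM r T F c)}

end Pool.Agent.H26DI
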