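import Pool.Agent.Helper26.DD.TooA

/-!
# DD module II-15: (T2) and (T3).

`inside`: `A, B ⊆ S.set` are `F`-continua which intersect. `A' = sat F' A`, `B' = sat F' B`
(`F' = F.erase i`) are `F'`-continua (`FC.sat_sub`) and intersect, so by `HI F'` say `A' ⊆ B'`. If
`a ∈ A` then some `b ∈ B` has `R F' b a`, both in `S.set`, so `R F b a` (`Tooth.inj`), so `a ∈ B`.

`same_letter`: if for some `m` the sections of the two teeth are in the second case of `dich` then
`S.set` and `S'.set` are disjoint (points of the two hats are not adjacent at stage `m`; for the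
saturations: a common point `c` gives `z ∈ hat`, `z' ∈ hat'` with `R F z c`, `R F z' c`, so `R F z z'`).
So for every `m` (take `x, x'` from `real m`) the first case holds:
`a ∈ D m, b ∈ D' m`, `a ~ b` => `σ m a ~ σ' m b`. `sat F' S.hat`, `sat F' S'.hat` are `F'`-continua
(`Tooth.fc_sub`) which intersect, so by `HI F'` say the first is contained in the second. If
`z ∈ S.hat` there is `z' ∈ S'.hat` with `R F' z' z`, and then `R F z' z` by the first case. So
`S.set ⊆ S'.set`.
-/

set_option autoImplicit false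

namespace Pool.Agent.H26DD

variable {X : Type} [TopologicalSpace X] {ι : Type} [DecidableEq ι] {L : Letters X ι}

theorem inside {T : Tow L} {F : Finset ι} {i : ι} (hi : i ∈ F) (hHI : HI T (F.erase i))
    (S : Tooth T F i) (A B : Set (Thread T)) (hA : FC T F A) (hB : FC T F B)
    (hAS : A ⊆ S.set) (hBS : B ⊆ S.set) (hne : (A ∩ B).Nonempty) : A ⊆ B ∨ B ⊆ A := by
  have hF' : F.erase i ⊆ F := F.erase_subset i
  have hA' := FC.sat_sub hF' hA
  have hB' := FC.sat_sub hF' hB
  have key : ∀ A B : Set (Thread T), FC T F B → A ⊆ S.set → B ⊆ S.set →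
      sat T (F.erase i) A ⊆ sat T (F.erase i) B → A ⊆ B := by
    intro A B hB hAS hBS h a ha
    obtain ⟨b, hb, hR⟩ := h (subset_sat T _ A ha)
    exact hB.satd b a hb (Tooth.inj hi S (hBS hb) (hAS ha) hR)
  obtain ⟨c, hcA, hcB⟩ := hne
  rcases hHI _ _ hA' hB' ⟨c, subset_sat T _ A hcA, subset_sat T _ B hcB⟩ with h | h
  · exact Or.inl (key A B hB hAS hBS h)
  · exact Or.inr (key B A hA hBS hAS h)

/-- two teeth of the same letter which meet: adjacent base points have adjacent sections -/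
private theorem first_case {T : Tow L} {F : Finset ι} {i : ι} (hi : i ∈ F)
    (S S' : Tooth T F i) (hne : (S.set ∩ S'.set).Nonempty) (m : ℕ) :
    ∀ a ∈ S.D m, ∀ b ∈ S'.D m, T.adj m (F.erase i) a b →
      T.adj m F (S.σ m a) (S'.σ m b) := by
  obtain ⟨x, hx⟩ := S.real m
  obtain ⟨x', hx'⟩ := S'.real m
  obtain ⟨hD, hσ⟩ := hx m le_rfl
  obtain ⟨hD', hσ'⟩ := hx' m le_rfl
  rw [hD, hD']
  rcases T.dich m F i x x' hi _ hσ _ hσ' with h | h
  · exact h
  · exfalso
    obtain ⟨c, ⟨z, hz, hzc⟩, ⟨z', hz', hzc'⟩⟩ := hne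
    have hR : R T F z z' := R_trans hzc (R_symm hzc')
    have h1 := hR m
    rw [(hz m).2, (hz' m).2] at h1
    refine h _ ?_ _ ?_ h1
    · rw [← hD]; exact (hz m).1
    · rw [← hD']; exact (hz' m).1

private theorem sub_of_first {T : Tow L} {F : Finset ι} {i : ι}
    (S S' : Tooth T F i)
    (hfc : ∀ m, ∀ a ∈ S.D m, ∀ b ∈ S'.D m, T.adj m (F.erase i) a b →
      T.adj m F (S.σ m a) (S'.σ m b))
    (h : sat T (F.erase i) S.hat ⊆ sat T (F.erase i) S'.hat) : S.set ⊆ S'.set := by
  rintro c ⟨z, hz, hzc⟩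
  obtain ⟨z', hz', hR⟩ := h (subset_sat T _ _ hz)
  have hR' : R T F z z' := by
    intro m
    rw [(hz m).2, (hz' m).2]
    exact hfc m _ (hz m).1 _ (hz' m).1 (R_symm hR m)
  exact ⟨z', hz', R_trans (R_symm hR') hzc⟩

theorem same_letter {T : Tow L} {F : Finset ι} {i : ι} (hi : i ∈ F) (hHI : HI T (F.erase i))
    (S S' : Tooth T F i) (hne : (S.set ∩ S'.set).Nonempty) :
    S.set ⊆ S'.set ∨ S'.set ⊆ S.set := by
  have hF' : F.erase i ⊆ F := F.erase_subset i
  have h1 := first_case hi S S' hne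
  have h2 := first_case hi S' S (by rwa [Set.inter_comm] at hne)
  obtain ⟨c, ⟨z, hz, hzc⟩, ⟨z', hz', hzc'⟩⟩ := hne
  rcases hHI _ _ (Tooth.fc_sub hi S _ hF') (Tooth.fc_sub hi S' _ hF')
    ⟨c, ⟨z, hz, R_mono hF' hzc⟩, ⟨z', hz', R_mono hF' hzc'⟩⟩ with h | h
  · exact Or.inl (sub_of_first S S' h1 h)
  · exact Or.inr (sub_of_first S' S h2 h)

end Pool.Agent.H26DD
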