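import Pool.Agent.Helper26.DD.KxA

/-!
# DD module II-10: condition (Lb) for large stages (section 9, STAR).

By compactness of `X` it is enough to find for each `x0 : X` an `m0` and a neighbourhood of `x0`
in which the implication holds for all `m ≥ m0` (finitely many neighbourhoods cover `X`).
* `x0 ∉ Mc b`: `Mc_far` (no `u ∈ Up m F x` is near `b`): the hypothesis fails.
* `x0 ∉ Mc c` for all `c ∈ lo`: `Mc_far` for each of the finitely many `c ∈ lo`.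
* otherwise (T) gives a neighbourhood of points `x` with `x ∈ Mc b` or `x ∈ Mc c`, `c ∈ lo`; then
  `Mc_near` gives the wanted `v ∈ Lo m F x`.
(`Nr4_of_Nr2`, `Nr2_symm` where needed.)
-/

set_option autoImplicit false

namespace Pool.Agent.H26DD

open Topology

variable {X : Type} [TopologicalSpace X] {ι : Type} [DecidableEq ι] {L : Letters X ι}

theorem star_Lb_loc (T : Tow L) (F : Finset ι) (b : Thread T)
    (lo : Set (Thread T)) (hfin : lo.Finite)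
    (hT : ∀ x ∈ Mc T F b, (∃ c ∈ lo, x ∈ Mc T F c) →
        ∀ᶠ x' in 𝓝 x, x' ∈ Mc T F b ∨ ∃ c ∈ lo, x' ∈ Mc T F c) (x0 : X) :
    ∃ m0, ∀ᶠ x in 𝓝 x0, ∀ m ≥ m0,
      (∃ u ∈ T.Up m F x, ∃ c ∈ lo, Nr2 (T.adj m F) u (c.at m F)) →
      (∃ u ∈ T.Up m F x, Nr2 (T.adj m F) u (b.at m F)) →
      ∃ v ∈ T.Lo m F x, (∃ c ∈ lo, Nr2 (T.adj m F) v (c.at m F)) ∨
        Nr2 (T.adj m F) v (b.at m F) := by
  by_cases hb : x0 ∈ Mc T F b
  · by_cases hc : ∃ c ∈ lo, x0 ∈ Mc T F c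
    · refine ⟨0, ?_⟩
      filter_upwards [hT x0 hb hc] with x hx m _ _ _
      rcases hx with hx | ⟨c, hcl, hx⟩
      · obtain ⟨v, hv, hv2⟩ := Mc_near hx m
        exact ⟨v, hv, Or.inr hv2⟩
      · obtain ⟨v, hv, hv2⟩ := Mc_near hx m
        exact ⟨v, hv, Or.inl ⟨c, hcl, hv2⟩⟩
    · push Not at hc
      have h1 : ∀ c : Thread T, ∃ m0 : ℕ, c ∈ lo → ∀ᶠ x in 𝓝 x0, ∀ m ≥ m0,
          ∀ u ∈ T.Up m F x, ¬ Nr4 (T.adj m F) u (c.at m F) := by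
        intro c
        by_cases hcl : c ∈ lo
        · obtain ⟨m0, hm0⟩ := Mc_far (hc c hcl)
          exact ⟨m0, fun _ => hm0⟩
        · exact ⟨0, fun h => absurd h hcl⟩
      choose g hg using h1
      obtain ⟨M, hM⟩ := (hfin.image g).bddAbove
      have h2 : ∀ᶠ x in 𝓝 x0, ∀ c ∈ lo, ∀ m ≥ g c,
          ∀ u ∈ T.Up m F x, ¬ Nr4 (T.adj m F) u (c.at m F) := by
        rw [Filter.eventually_all_finite hfin]
        intro c hcl
        exact hg c hcl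
      refine ⟨M, ?_⟩
      filter_upwards [h2] with x hx m hm h _
      obtain ⟨u, hu, c, hcl, hn⟩ := h
      exact absurd (Nr4_of_Nr2 T m F _ _ hn)
        (hx c hcl m (le_trans (hM ⟨c, hcl, rfl⟩) hm) u hu)
  · obtain ⟨m0, hm0⟩ := Mc_far hb
    refine ⟨m0, ?_⟩
    filter_upwards [hm0] with x hx m hm _ h
    obtain ⟨u, hu, hn⟩ := h
    exact absurd (Nr4_of_Nr2 T m F _ _ hn) (hx m hm u hu)

theorem star_Lb [CompactSpace X] (T : Tow L) (F : Finset ι) (b : Thread T)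
    (lo : Set (Thread T)) (hfin : lo.Finite)
    (hT : ∀ x ∈ Mc T F b, (∃ c ∈ lo, x ∈ Mc T F c) →
        ∀ᶠ x' in 𝓝 x, x' ∈ Mc T F b ∨ ∃ c ∈ lo, x' ∈ Mc T F c) :
    ∃ m0, ∀ m ≥ m0, ∀ x,
      (∃ u ∈ T.Up m F x, ∃ c ∈ lo, Nr2 (T.adj m F) u (c.at m F)) →
      (∃ u ∈ T.Up m F x, Nr2 (T.adj m F) u (b.at m F)) →
      ∃ v ∈ T.Lo m F x, (∃ c ∈ lo, Nr2 (T.adj m F) v (c.at m F)) ∨
        Nr2 (T.adj m F) v (b.at m F) := by
  have h1 := star_Lb_loc T F b lo hfin hT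
  choose g hg using h1
  obtain ⟨t, ht⟩ := CompactSpace.elim_nhds_subcover (fun x0 : X => {x : X | ∀ m ≥ g x0,
      (∃ u ∈ T.Up m F x, ∃ c ∈ lo, Nr2 (T.adj m F) u (c.at m F)) →
      (∃ u ∈ T.Up m F x, Nr2 (T.adj m F) u (b.at m F)) →
      ∃ v ∈ T.Lo m F x, (∃ c ∈ lo, Nr2 (T.adj m F) v (c.at m F)) ∨
        Nr2 (T.adj m F) v (b.at m F)}) (fun x0 => hg x0)
  refine ⟨t.sup g, ?_⟩
  intro m hm x hx1 hx2
  have hx : x ∈ (⊤ : Set X) := Set.mem_univ x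
  rw [← ht] at hx
  obtain ⟨x0, hx0⟩ := Set.mem_iUnion.1 hx
  obtain ⟨hx0t, hx0'⟩ := Set.mem_iUnion.1 hx0
  exact hx0' m (le_trans (Finset.le_sup hx0t) hm) hx1 hx2

end Pool.Agent.H26DD
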