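import Pool.Agent.Helper26.DD.TlB

/-!
# DD module II-11: the test of STAR is legal at large stages (section 9).

`tst` : 0 on the vertices of `lo`, 1 at distance one or two from them, 4 at `b`, 3 at distance one
or two from `b`, 2 elsewhere.
`tst_hom`: by `far` (for each of the finitely many `c ∈ lo`, `¬ R F c b`) for all `m ≥ m0` no vertex
of `lo` is joined to `b` by a chain of length 6. Check `φ v ≤ φ w + 1` for adjacent `v,w`:
`φ w = 0` => `w = c_m`, `v` adjacent, `φ v ≤ 1`; `φ w = 1` => need `φ v ≤ 2`: `φ v ≥ 3` would give a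
chain `c, w, v, b` of length `2+1+2`; `φ w = 2` => need `φ v ≤ 3`: `φ v = 4` gives `v = b_m`, `w`
adjacent to `b_m`, so `φ w = 3` or `w` is near `lo` (then `φ w ≤ 1`).
`tst_le_one`: `tst v ≤ 1` iff some `c ∈ lo` has `Nr2 (c.at m F) v`; `tst_ge_three` (under the
no-chain hypothesis): `3 ≤ tst v` iff `Nr2 (b.at m F) v`.
`tst_legal`: apply `T.fold` (with `E = F`): `W` contains `c.at m F`, `b.at m F`; (Lb) is `hLb`
(rewrite with the two characterizations and `Nr2_symm`); (Lc) from `not_tl_far` for all `c ∈ lo`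
and all `i ∈ F` (finitely many).
-/

set_option autoImplicit false

namespace Pool.Agent.H26DD

variable {X : Type} [TopologicalSpace X] {ι : Type} [DecidableEq ι] {L : Letters X ι}

open Classical in
/-- the test at stage `m` -/
noncomputable def tst (T : Tow L) (F : Finset ι) (m : ℕ) (lo : Set (Thread T)) (b : Thread T)
    (v : T.V m F) : ℕ :=
  if ∃ c ∈ lo, c.at m F = v then 0
  else if ∃ c ∈ lo, Nr2 (T.adj m F) (c.at m F) v then 1
  else if b.at m F = v then 4
  else if Nr2 (T.adj m F) (b.at m F) v then 3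
  else 2

theorem tst_hom (T : Tow L) (F : Finset ι) (m : ℕ) (lo : Set (Thread T)) (b : Thread T)
    (h : ∀ c ∈ lo, ¬ Nr6 (T.adj m F) (c.at m F) (b.at m F)) (v w : T.V m F)
    (hvw : T.adj m F v w) : tst T F m lo b v ≤ tst T F m lo b w + 1 := by
  classical
  have hwv : T.adj m F w v := T.asymm m F v w hvw
  have hnvw : Nr2 (T.adj m F) v w := Nr2_of_adj T m F v w hvw
  have hnwv : Nr2 (T.adj m F) w v := Nr2_of_adj T m F w v hwv
  by_cases w0 : ∃ c ∈ lo, c.at m F = w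
  · -- then `v` is near `lo`
    obtain ⟨c, hc, hcw⟩ := w0
    have hv1 : ∃ c ∈ lo, Nr2 (T.adj m F) (c.at m F) v := ⟨c, hc, by rw [hcw]; exact hnwv⟩
    have : tst T F m lo b v ≤ 1 := by
      unfold tst
      by_cases v0 : ∃ c ∈ lo, c.at m F = v
      · rw [if_pos v0]; exact Nat.zero_le 1
      · rw [if_neg v0, if_pos hv1]
    omega
  · by_cases w1 : ∃ c ∈ lo, Nr2 (T.adj m F) (c.at m F) w
    · have hw : tst T F m lo b w = 1 := by
        unfold tst
        rw [if_neg w0, if_pos w1]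
      rw [hw]
      obtain ⟨c, hc, hcw⟩ := w1
      have hnb : ¬ Nr2 (T.adj m F) (b.at m F) v := by
        intro hb
        exact h c hc ⟨w, v, hcw, hnwv, Nr2_symm T m F _ _ hb⟩
      have hnb' : ¬ b.at m F = v := by
        intro hb
        apply hnb
        rw [hb]
        exact Nr2_of_adj T m F v v (T.arefl m F v)
      unfold tst
      split_ifs <;> omega
    · by_cases w4 : b.at m F = w
      · have hw : tst T F m lo b w = 4 := by
          unfold tst
          rw [if_neg w0, if_neg w1, if_pos w4]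
        rw [hw]
        unfold tst
        split_ifs <;> omega
      · by_cases w3 : Nr2 (T.adj m F) (b.at m F) w
        · have hw : tst T F m lo b w = 3 := by
            unfold tst
            rw [if_neg w0, if_neg w1, if_neg w4, if_pos w3]
          rw [hw]
          unfold tst
          split_ifs <;> omega
        · have hw : tst T F m lo b w = 2 := by
            unfold tst
            rw [if_neg w0, if_neg w1, if_neg w4, if_neg w3]
          rw [hw]
          have hnb' : ¬ b.at m F = v := by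
            intro hb
            apply w3
            rw [hb]
            exact hnvw
          unfold tst
          split_ifs <;> omega

theorem tst_le_one (T : Tow L) (F : Finset ι) (m : ℕ) (lo : Set (Thread T)) (b : Thread T)
    (v : T.V m F) :
    tst T F m lo b v ≤ 1 ↔ ∃ c ∈ lo, Nr2 (T.adj m F) (c.at m F) v := by
  classical
  constructor
  · intro h
    by_cases v0 : ∃ c ∈ lo, c.at m F = v
    · obtain ⟨c, hc, hcv⟩ := v0
      refine ⟨c, hc, ?_⟩
      rw [hcv]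
      exact Nr2_of_adj T m F v v (T.arefl m F v)
    · by_contra v1
      unfold tst at h
      rw [if_neg v0, if_neg v1] at h
      split_ifs at h <;> omega
  · intro v1
    unfold tst
    by_cases v0 : ∃ c ∈ lo, c.at m F = v
    · rw [if_pos v0]; exact Nat.zero_le 1
    · rw [if_neg v0, if_pos v1]

theorem tst_ge_three (T : Tow L) (F : Finset ι) (m : ℕ) (lo : Set (Thread T)) (b : Thread T)
    (h : ∀ c ∈ lo, ¬ Nr6 (T.adj m F) (c.at m F) (b.at m F)) (v : T.V m F) :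
    3 ≤ tst T F m lo b v ↔ Nr2 (T.adj m F) (b.at m F) v := by
  classical
  constructor
  · intro h3
    by_contra hn
    have hne : ¬ b.at m F = v := by
      intro hb
      apply hn
      rw [hb]
      exact Nr2_of_adj T m F v v (T.arefl m F v)
    unfold tst at h3
    rw [if_neg hne, if_neg hn] at h3
    split_ifs at h3 <;> omega
  · intro hb
    have v1 : ¬ ∃ c ∈ lo, Nr2 (T.adj m F) (c.at m F) v := by
      rintro ⟨c, hc, hcv⟩
      exact h c hc ⟨v, v, hcv, Nr2_of_adj T m F v v (T.arefl m F v), Nr2_symm T m F _ _ hb⟩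
    have v0 : ¬ ∃ c ∈ lo, c.at m F = v := by
      rintro ⟨c, hc, hcv⟩
      apply v1
      refine ⟨c, hc, ?_⟩
      rw [hcv]
      exact Nr2_of_adj T m F v v (T.arefl m F v)
    unfold tst
    rw [if_neg v0, if_neg v1]
    by_cases v4 : b.at m F = v
    · rw [if_pos v4]; omega
    · rw [if_neg v4, if_pos hb]

theorem tst_legal (T : Tow L) (F : Finset ι) (lo : Set (Thread T)) (hfin : lo.Finite)
    (b : Thread T) (hR : ∀ c ∈ lo, ¬ R T F c b) (hne : lo.Nonempty)
    (htl : ∀ c ∈ lo, ∀ i ∈ F, ¬ tl T F i c b)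
    (hLb : ∃ m0, ∀ m ≥ m0, ∀ x,
      (∃ u ∈ T.Up m F x, ∃ c ∈ lo, Nr2 (T.adj m F) u (c.at m F)) →
      (∃ u ∈ T.Up m F x, Nr2 (T.adj m F) u (b.at m F)) →
      ∃ v ∈ T.Lo m F x, (∃ c ∈ lo, Nr2 (T.adj m F) v (c.at m F)) ∨
        Nr2 (T.adj m F) v (b.at m F)) :
    ∃ m0, ∀ m ≥ m0, (∀ c ∈ lo, ¬ Nr6 (T.adj m F) (c.at m F) (b.at m F)) ∧
      ∃ u : T.V (m + 1) F → ℕ, (∀ a, u a ≤ 8) ∧
        (∀ a b, T.adj (m + 1) F a b → u a ≤ u b + 1) ∧
        ∀ a, nu (u a) = tst T F m lo b (T.dn m (m + 1) (Nat.le_succ m) F a) := by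
  classical
  obtain ⟨m1, hm1⟩ := hLb
  -- finitely many thresholds
  have hfar : ∃ m2, ∀ m ≥ m2, ∀ c ∈ lo, ¬ Nr6 (T.adj m F) (c.at m F) (b.at m F) := by
    have h1 : ∀ c : Thread T, ∃ m2, c ∈ lo → ∀ m ≥ m2,
        ¬ Nr6 (T.adj m F) (c.at m F) (b.at m F) := by
      intro c
      by_cases hc : c ∈ lo
      · obtain ⟨m2, h2⟩ := far (hR c hc)
        exact ⟨m2, fun _ => h2⟩
      · exact ⟨0, fun h => absurd h hc⟩
    choose g hg using h1
    obtain ⟨M, hM⟩ := (hfin.image g).bddAbove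
    refine ⟨M, fun m hm c hc => hg c hc m (le_trans (hM ⟨c, hc, rfl⟩) hm)⟩
  have htl2 : ∃ m3, ∀ m ≥ m3, ∀ c ∈ lo, ∀ i ∈ F, ∀ x, ∀ σ ∈ T.Sec m F i x,
      ¬ ((∃ p ∈ T.Up m (F.erase i) x, Nr4 (T.adj m F) (σ p) (c.at m F)) ∧
         (∃ q ∈ T.Up m (F.erase i) x, Nr4 (T.adj m F) (σ q) (b.at m F))) := by
    have h1 : ∀ c : Thread T, ∀ i : ι, ∃ m2, c ∈ lo → i ∈ F → ∀ m ≥ m2, ∀ x,
        ∀ σ ∈ T.Sec m F i x,
        ¬ ((∃ p ∈ T.Up m (F.erase i) x, Nr4 (T.adj m F) (σ p) (c.at m F)) ∧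
           (∃ q ∈ T.Up m (F.erase i) x, Nr4 (T.adj m F) (σ q) (b.at m F))) := by
      intro c i
      by_cases hc : c ∈ lo
      · by_cases hi : i ∈ F
        · obtain ⟨m2, h2⟩ := not_tl_far hi (htl c hc i hi)
          exact ⟨m2, fun _ _ => h2⟩
        · exact ⟨0, fun _ h => absurd h hi⟩
      · exact ⟨0, fun h => absurd h hc⟩
    choose g hg using h1
    have hfin2 : ((fun p : Thread T × ι => g p.1 p.2) '' (lo ×ˢ (F : Set ι))).Finite :=
      (hfin.prod F.finite_toSet).image _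
    obtain ⟨M, hM⟩ := hfin2.bddAbove
    refine ⟨M, fun m hm c hc i hi => hg c i hc hi m (le_trans ?_ hm)⟩
    exact hM ⟨(c, i), ⟨hc, Finset.mem_coe.2 hi⟩, rfl⟩
  obtain ⟨m2, hm2⟩ := hfar
  obtain ⟨m3, hm3⟩ := htl2
  refine ⟨max m1 (max m2 m3), fun m hm => ?_⟩
  have hml : m1 ≤ m := le_trans (le_max_left _ _) hm
  have hmf : m2 ≤ m := le_trans (le_trans (le_max_left _ _) (le_max_right _ _)) hm
  have hmt : m3 ≤ m := le_trans (le_trans (le_max_right _ _) (le_max_right _ _)) hm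
  have hN6 := hm2 m hmf
  refine ⟨hN6, ?_⟩
  apply T.fold m F (tst T F m lo b)
  · intro v
    unfold tst
    split_ifs <;> omega
  · intro v w hvw
    exact tst_hom T F m lo b hN6 v w hvw
  · obtain ⟨c, hc⟩ := hne
    refine ⟨c.at m F, c.mem_W m F, ?_⟩
    rw [tst_le_one]
    exact ⟨c, hc, Nr2_of_adj T m F _ _ (T.arefl m F _)⟩
  · refine ⟨b.at m F, b.mem_W m F, ?_⟩
    rw [tst_ge_three T F m lo b hN6]
    exact Nr2_of_adj T m F _ _ (T.arefl m F _)
  · rintro x ⟨v, hv, hv1⟩ ⟨w, hw, hw3⟩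
    rw [tst_le_one] at hv1
    rw [tst_ge_three T F m lo b hN6] at hw3
    obtain ⟨c, hc, hcv⟩ := hv1
    obtain ⟨u, hu, hu'⟩ := hm1 m hml x ⟨v, hv, c, hc, Nr2_symm T m F _ _ hcv⟩
      ⟨w, hw, Nr2_symm T m F _ _ hw3⟩
    refine ⟨u, hu, ?_⟩
    rcases hu' with ⟨c', hc', h'⟩ | h'
    · left
      rw [tst_le_one]
      exact ⟨c', hc', Nr2_symm T m F _ _ h'⟩
    · right
      rw [tst_ge_three T F m lo b hN6]
      exact Nr2_symm T m F _ _ h'
  · rintro x i hi σ hσ ⟨⟨p, hp, hp1⟩, ⟨q, hq, hq3⟩⟩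
    rw [tst_le_one] at hp1
    rw [tst_ge_three T F m lo b hN6] at hq3
    obtain ⟨c, hc, hcp⟩ := hp1
    exact hm3 m hmt c hc i hi x σ hσ
      ⟨⟨p, hp, Nr4_of_Nr2 T m F _ _ (Nr2_symm T m F _ _ hcp)⟩,
       ⟨q, hq, Nr4_of_Nr2 T m F _ _ (Nr2_symm T m F _ _ hq3)⟩⟩

end Pool.Agent.H26DD
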