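import Pool.Agent.Helper26.DD.StarT
import Pool.Agent.Helper26.DD.StarLb
import Pool.Agent.Helper26.DD.StarPhi

/-!
# DD module II-12: STAR (section 9).

Suppose `A, B` are `F`-continua, `c0 ∈ A ∩ B`, `a ∈ A \ B`, `b ∈ B \ A`, and `tl F i a b` fails for all
`i ∈ F`. If `F = ∅` then `R ∅ a c0` (`R_empty`), so `a ∈ B`, contradiction. Otherwise let
`O = {z | z ∉ B ∧ ∀ i ∈ F, ¬ tl F i z b}`: open (`tl_closed`, `F` finite), `R F`-saturated (`tl_sat`),
`a ∈ O`. `star_lo` gives `lo`; `star_Lb` gives (Lb); `¬ R F c b` for `c ∈ lo` as `c ∉ B`, `b ∈ B`.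
`tst_legal` gives `m1`. By `FC.far_of` for `A` and `b`, and for `B` and each `c ∈ lo` (finitely many),
there is `m ≥ m1` such that no vertex of `A_m` is near `b_m` and no vertex of `B_m` is near `lo_m`. So
`φ = tst m` satisfies `φ ≤ 2` on `A_m`, `2 ≤ φ` on `B_m`, `φ (a_m) = 0`, `φ (b_m) = 4`. Let `u` be the
fold coordinate at stage `m+1`, `nu (u z) = φ (dn z)`. `A_{m+1}` is connected, contains
`a.at (m+1) F` with `nu (u ·) = 0`, so `u = 0` there; along a walk inside `A_{m+1}` `u` changes by at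
most one and `nu u ≤ 2`, so `u` never reaches 3 and `u ≤ 2` on `A_{m+1}`. In the same way `u = 8` at
`b.at (m+1) F`, `nu u ≥ 2` on `B_{m+1}`, so `u ≥ 6` on `B_{m+1}` (it cannot pass `5` with `nu = 1`).
But `c0.at (m+1) F` lies in both: contradiction.
-/

set_option autoImplicit false

namespace Pool.Agent.H26DD

open Topology

variable {X : Type} [TopologicalSpace X] {ι : Type} [DecidableEq ι] {L : Letters X ι}

/-- the fold coordinate stays `≤ 2` on a connected set where `nu u ≤ 2` which contains a point with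
`u = 0` -/
theorem fold_low {V : Type} {adj : V → V → Prop} {A : Set V} (hA : Conn adj A) (u : V → ℕ)
    (hu : ∀ a b, adj a b → u a ≤ u b + 1) (hsym : ∀ a b, adj a b → adj b a)
    (h2 : ∀ a ∈ A, nu (u a) ≤ 2) (a0 : V) (ha0 : a0 ∈ A) (h0 : u a0 = 0) (a : V) (ha : a ∈ A) :
    u a ≤ 2 := by
  have h := hA.2 a0 ha0 a ha
  clear ha
  induction h with
  | refl => omega
  | tail _ hvw ih =>
      obtain ⟨hv, hw, hadj⟩ := hvw
      have h3 := hu _ _ (hsym _ _ hadj)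
      have h4 := h2 _ hw
      unfold nu at h4
      split_ifs at h4 <;> omega

theorem fold_high {V : Type} {adj : V → V → Prop} {A : Set V} (hA : Conn adj A) (u : V → ℕ)
    (hu : ∀ a b, adj a b → u a ≤ u b + 1) (hsym : ∀ a b, adj a b → adj b a)
    (h2 : ∀ a ∈ A, 2 ≤ nu (u a)) (a0 : V) (ha0 : a0 ∈ A) (h0 : u a0 = 8) (a : V) (ha : a ∈ A) :
    6 ≤ u a := by
  have h := hA.2 a0 ha0 a ha
  clear ha
  induction h with
  | refl => omega
  | tail _ hvw ih =>
      obtain ⟨hv, hw, hadj⟩ := hvw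
      have h3 := hu _ _ hadj
      have h4 := h2 _ hw
      unfold nu at h4
      split_ifs at h4 <;> omega

theorem star [CompactSpace X] (T : Tow L) (F : Finset ι) (A B : Set (Thread T))
    (hA : FC T F A) (hB : FC T F B) (hne : (A ∩ B).Nonempty) (a b : Thread T) (ha : a ∈ A)
    (ha' : a ∉ B) (hb : b ∈ B) (hb' : b ∉ A) : ∃ i ∈ F, tl T F i a b := by
  by_contra hcon
  push Not at hcon
  obtain ⟨c0, hc0A, hc0B⟩ := hne
  have hF : F.Nonempty := by
    rcases F.eq_empty_or_nonempty with h | h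
    · subst h
      exact absurd (hB.satd c0 a hc0B (R_empty T c0 a)) ha'
    · exact h
  have hOo : IsOpen ({z : Thread T | z ∉ B ∧ ∀ i ∈ F, ¬ tl T F i z b} : Set (Thread T)) := by
    have h1 : ({z : Thread T | z ∉ B ∧ ∀ i ∈ F, ¬ tl T F i z b} : Set (Thread T)) =
        Bᶜ ∩ ⋂ i ∈ F, {z : Thread T | tl T F i z b}ᶜ := by
      ext z
      simp only [Set.mem_ofPred_eq, Set.mem_inter_iff, Set.mem_compl_iff, Set.mem_iInter]
    rw [h1]
    refine hB.closed.isOpen_compl.inter ?_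
    exact isOpen_biInter_finset (fun i _ => (tl_closed T F i b).isOpen_compl)
  have hsat : ∀ z z' : Thread T, z ∈ ({z : Thread T | z ∉ B ∧ ∀ i ∈ F, ¬ tl T F i z b} :
      Set (Thread T)) → R T F z z' → z' ∈ ({z : Thread T | z ∉ B ∧ ∀ i ∈ F, ¬ tl T F i z b} :
      Set (Thread T)) := by
    intro z z' hz hR
    refine ⟨fun h => hz.1 (hB.satd z' z h (R_symm hR)), ?_⟩
    intro i hi h
    exact hz.2 i hi (tl_sat hi h (R_symm hR))
  obtain ⟨lo, hfin, halo, hloO, hT⟩ := star_lo T F hF _ hOo hsat b a ⟨ha', hcon⟩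
  have hLb := star_Lb T F b lo hfin hT
  have hR : ∀ c ∈ lo, ¬ R T F c b := by
    intro c hc h
    exact (hloO hc).1 (hB.satd b c hb (R_symm h))
  have htl : ∀ c ∈ lo, ∀ i ∈ F, ¬ tl T F i c b := fun c hc => (hloO hc).2
  obtain ⟨m1, hm1⟩ := tst_legal T F lo hfin b hR ⟨a, halo⟩ htl hLb
  obtain ⟨m2, hm2⟩ := hA.far_of hb'
  have hfar : ∀ᶠ m : ℕ in Filter.atTop, ∀ c ∈ lo, ∀ z ∈ B,
      ¬ Nr4 (T.adj m F) (z.at m F) (c.at m F) := by
    rw [Filter.eventually_all_finite hfin]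
    intro c hc
    obtain ⟨m3, hm3⟩ := hB.far_of (hloO hc).1
    exact Filter.eventually_atTop.2 ⟨m3, hm3⟩
  obtain ⟨m3, hm3⟩ := Filter.eventually_atTop.1 hfar
  obtain ⟨m, hmm1, hmm2, hmm3⟩ : ∃ m : ℕ, m1 ≤ m ∧ m2 ≤ m ∧ m3 ≤ m :=
    ⟨m1 + m2 + m3, by omega, by omega, by omega⟩
  obtain ⟨h6, u, hu8, hu1, hunu⟩ := hm1 m hmm1
  have hval : ∀ z : Thread T, nu (u (z.at (m + 1) F)) = tst T F m lo b (z.at m F) := by
    intro z
    rw [hunu, Thread.dn_at z m (m + 1) (Nat.le_succ m) F]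
  have hA2 : ∀ z ∈ A, tst T F m lo b (z.at m F) ≤ 2 := by
    intro z hz
    by_contra hlt
    have h3 : 3 ≤ tst T F m lo b (z.at m F) := by omega
    have h4 := (tst_ge_three T F m lo b h6 _).1 h3
    exact hm2 m hmm2 z hz (Nr4_of_Nr2 T m F _ _ (Nr2_symm T m F _ _ h4))
  have hB2 : ∀ z ∈ B, 2 ≤ tst T F m lo b (z.at m F) := by
    intro z hz
    by_contra hlt
    have h3 : tst T F m lo b (z.at m F) ≤ 1 := by omega
    obtain ⟨c, hc, h4⟩ := (tst_le_one T F m lo b _).1 h3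
    exact hm3 m hmm3 c hc z hz (Nr4_of_Nr2 T m F _ _ (Nr2_symm T m F _ _ h4))
  have ha0 : tst T F m lo b (a.at m F) = 0 := by
    unfold tst
    rw [if_pos ⟨a, halo, rfl⟩]
  have hb4 : tst T F m lo b (b.at m F) = 4 := by
    have hn2 : ¬ ∃ c ∈ lo, Nr2 (T.adj m F) (c.at m F) (b.at m F) := by
      rintro ⟨c, hc, h⟩
      exact h6 c hc ⟨b.at m F, b.at m F, h, Nr2_of_adj T m F _ _ (T.arefl m F _),
        Nr2_of_adj T m F _ _ (T.arefl m F _)⟩
    have hn1 : ¬ ∃ c ∈ lo, c.at m F = b.at m F := by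
      rintro ⟨c, hc, h⟩
      apply hn2
      refine ⟨c, hc, ?_⟩
      rw [h]
      exact Nr2_of_adj T m F _ _ (T.arefl m F _)
    unfold tst
    rw [if_neg hn1, if_neg hn2, if_pos rfl]
  have hua : u (a.at (m + 1) F) = 0 := by
    have h := hval a
    rw [ha0] at h
    have h8 := hu8 (a.at (m + 1) F)
    unfold nu at h
    split_ifs at h <;> omega
  have hub : u (b.at (m + 1) F) = 8 := by
    have h := hval b
    rw [hb4] at h
    have h8 := hu8 (b.at (m + 1) F)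
    unfold nu at h
    split_ifs at h <;> omega
  have hsym : ∀ v w : T.V (m + 1) F, T.adj (m + 1) F v w → T.adj (m + 1) F w v :=
    T.asymm (m + 1) F
  have hlow := fold_low (hA.conn (m + 1)) u hu1 hsym
    (by
      rintro v ⟨z, hz, rfl⟩
      show nu (u (z.at (m + 1) F)) ≤ 2
      rw [hval z]
      exact hA2 z hz)
    (a.at (m + 1) F) ⟨a, ha, rfl⟩ hua (c0.at (m + 1) F) ⟨c0, hc0A, rfl⟩
  have hhigh := fold_high (hB.conn (m + 1)) u hu1 hsym
    (by
      rintro v ⟨z, hz, rfl⟩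
      show 2 ≤ nu (u (z.at (m + 1) F))
      rw [hval z]
      exact hB2 z hz)
    (b.at (m + 1) F) ⟨b, hb, rfl⟩ hub (c0.at (m + 1) F) ⟨c0, hc0B, rfl⟩
  omega

end Pool.Agent.H26DD
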