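import Pool.Agent.Helper26.DD.TooA
import Pool.Agent.Helper26.DD.Star

/-!
# DD module II-16: (T4).

Suppose `a ∈ S.set`, `¬ R {j} a p` and `b ∈ S'.set`, `¬ R {i} b p`. Let `G = {i, j}`,
`A = sat G S.hat`, `B = sat G S'.hat`: `G`-continua by `Tooth.fc_sub`. `p ∈ A ∩ B` (`p ∈ S.set` is
`R F`-related, so `R G`-related, to a point of `S.hat`); `a ∈ A`, `b ∈ B`. `a ∉ B`: otherwise `a` is
`R G`-related, so `R {j}`-related, to a point of `S'.hat` which is `R {j}`-related to `p` by
`Tooth.const` for `S'`: contradiction. In the same way `b ∉ A`. By `star` (level `G`) `tl G i a b` or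
`tl G j a b`; by `tl_pair` `R {i} a b` or `R {j} a b`. In the first case `R {i} a p` (`Tooth.const` for
`S`) gives `R {i} b p`; in the second `R {j} b p` (`Tooth.const` for `S'`) gives `R {j} a p`:
contradictions.
-/

set_option autoImplicit false

namespace Pool.Agent.H26DD

variable {X : Type} [TopologicalSpace X] {ι : Type} [DecidableEq ι] {L : Letters X ι}

theorem cross [CompactSpace X] {T : Tow L} {F : Finset ι} {i j : ι} (hi : i ∈ F) (hj : j ∈ F)
    (hij : i ≠ j) (S : Tooth T F i) (S' : Tooth T F j) (p : Thread T) (hp : p ∈ S.set)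
    (hp' : p ∈ S'.set) : (∀ a ∈ S.set, R T {j} a p) ∨ (∀ b ∈ S'.set, R T {i} b p) := by
  by_contra hcon
  rw [not_or] at hcon
  obtain ⟨h1, h2⟩ := hcon
  rw [not_forall] at h1 h2
  obtain ⟨a, h1⟩ := h1
  obtain ⟨b, h2⟩ := h2
  rw [Classical.not_imp] at h1 h2
  obtain ⟨haS, hajp⟩ := h1
  obtain ⟨hbS, hbip⟩ := h2
  have hG : ({i, j} : Finset ι) ⊆ F := by
    intro k hk
    rw [Finset.mem_insert, Finset.mem_singleton] at hk
    rcases hk with rfl | rfl
    · exact hi
    · exact hj
  have hiG : ({i} : Finset ι) ⊆ ({i, j} : Finset ι) := by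
    intro k hk
    rw [Finset.mem_singleton] at hk
    rw [Finset.mem_insert]
    exact Or.inl hk
  have hjG : ({j} : Finset ι) ⊆ ({i, j} : Finset ι) := by
    intro k hk
    rw [Finset.mem_insert]
    exact Or.inr hk
  have key : ∀ (k : ι) (U : Tooth T F k) (z : Thread T), z ∈ U.set →
      z ∈ sat T ({i, j} : Finset ι) U.hat := by
    rintro k U z ⟨z0, hz0, hR⟩
    exact ⟨z0, hz0, R_mono hG hR⟩
  have hpA := key i S p hp
  have hpB := key j S' p hp'
  have haA := key i S a haS
  have hbB := key j S' b hbS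
  have haB : a ∉ sat T ({i, j} : Finset ι) S'.hat := by
    rintro ⟨b0, hb0, hR⟩
    have e1 : R T {j} b0 a := R_mono hjG hR
    have e2 : R T {j} b0 p := Tooth.const hj S' (subset_sat T F S'.hat hb0) hp'
    exact hajp (R_trans (R_symm e1) e2)
  have hbA : b ∉ sat T ({i, j} : Finset ι) S.hat := by
    rintro ⟨a0, ha0, hR⟩
    have e1 : R T {i} a0 b := R_mono hiG hR
    have e2 : R T {i} a0 p := Tooth.const hi S (subset_sat T F S.hat ha0) hp
    exact hbip (R_trans (R_symm e1) e2)
  obtain ⟨k, hk, htl⟩ := star T ({i, j} : Finset ι) _ _ (Tooth.fc_sub hi S _ hG)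
    (Tooth.fc_sub hj S' _ hG) ⟨p, hpA, hpB⟩ a b haA haB hbB hbA
  have hR : R T {k} a b := tl_pair hk htl
  rw [Finset.mem_insert, Finset.mem_singleton] at hk
  rcases hk with rfl | rfl
  · exact hbip (R_trans (R_symm hR) (Tooth.const hi S haS hp))
  · exact hajp (R_trans hR (Tooth.const hj S' hbS hp'))

end Pool.Agent.H26DD
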