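import Pool.Agent.Helper26.DD.TooA

/-!
# DD module II-17: (T5), first half.

`S : Tooth T F i`, `j ∈ F`, `j ≠ i`, all points of `S.set` are `R {j}`-related to `p`. Suppose that for
some `m` no `x` realizes `S` up to `m` with `bz m j x`. Every `x` which realizes `S` up to `M ≥ m`
satisfies `¬ bz m j x`. Let `F' = F.erase i ∋ j`. For `M ≥ m+1` take such an `x = x_M` (`S.real M`);
`nbz` gives `v_M ∈ Lo (m+1) {j} x_M` not adjacent to `o (m+1) j`. `v_M = dn (v')` with
`v' ∈ Lo M {j} x_M` (`Lo_dn`, iterated) `⊆ Up M {j} x_M = res '' Up M F' x_M = res '' D M` (`Up_res`). There is a `v`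
with `v_M = v` for infinitely many `M` (finitely many vertices), hence for every `M ≥ m+1` there is
`d ∈ D M` with `dn (res d) = v` (go down from a larger `M` by `Tooth.D_dn`). As
`res M F {j} (σ M d) = res M F' {j} d` (`Sec_res`, `res_res`), `Tooth.hat_through` (`k = m+1`, `G = {j}`)
gives `z ∈ hat` with `z.at (m+1) {j} = v`. In the same way for each `k` the vertex `o k j` is
`dn (res d)` for some `d ∈ D M` for all `M ≥ k` (`o M j ∈ Lo M {j} x_M`, `o_dn`), so there is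
`z_k ∈ hat` with `z_k.at k {j} = o k j`; take `k = m+1`: `z, z_{m+1} ∈ S.set` are both
`R {j}`-related to `p`, so to each other, so `v` is adjacent to `o (m+1) j`: contradiction.
-/

set_option autoImplicit false

namespace Pool.Agent.H26DD

variable {X : Type} [TopologicalSpace X] {ι : Type} [DecidableEq ι] {L : Letters X ι}

private theorem h85_o_dn (T : Tow L) (j : ι) (k m : ℕ) (h : k ≤ m) :
    T.dn k m h {j} (T.o m j) = T.o k j := by
  induction m, h using Nat.le_induction with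
  | base => rw [T.dn_self]
  | succ m hkm ih => rw [← T.dn_dn k m (m + 1) hkm (Nat.le_succ m), T.o_dn, ih]

private theorem h85_Lo_dn (T : Tow L) (F : Finset ι) (x : X) (k m : ℕ) (h : k ≤ m) :
    T.Lo k F x ⊆ T.dn k m h F '' T.Lo m F x := by
  induction m, h using Nat.le_induction with
  | base =>
    intro v hv
    exact ⟨v, hv, T.dn_self _ _ _ _⟩
  | succ m hkm ih =>
    intro v hv
    obtain ⟨w, hw, rfl⟩ := ih hv
    obtain ⟨u, hu, rfl⟩ := T.Lo_dn m F x hw
    exact ⟨u, hu, (T.dn_dn k m (m + 1) hkm (Nat.le_succ m) F u).symm⟩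

theorem deg_bz {T : Tow L} {F : Finset ι} {i j : ι} (hi : i ∈ F) (hj : j ∈ F) (hij : j ≠ i)
    (S : Tooth T F i) (p : Thread T) (h : ∀ a ∈ S.set, R T {j} a p) :
    ∀ m, ∃ x, (∀ k ≤ m, S.D k = T.Up k (F.erase i) x ∧ S.σ k ∈ T.Sec k F i x) ∧
      T.bz m j x := by
  classical
  intro m
  by_contra hcon
  push Not at hcon
  have hjF : ({j} : Finset ι) ⊆ F := Finset.singleton_subset_iff.2 hj
  have hjF' : ({j} : Finset ι) ⊆ F.erase i :=
    Finset.singleton_subset_iff.2 (Finset.mem_erase.2 ⟨hij, hj⟩)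
  -- vertices of Lo {j} come from D M
  have hLoD : ∀ M (hM : m + 1 ≤ M) x, (∀ k ≤ M, S.D k = T.Up k (F.erase i) x ∧
      S.σ k ∈ T.Sec k F i x) → ∀ v' ∈ T.Lo M {j} x,
      ∃ d ∈ S.D M, T.res M (F.erase i) {j} hjF' d = v' := by
    intro M hM x hx v' hv'
    have h1 := T.Lo_Up M {j} x hv'
    rw [← T.Up_res M (F.erase i) {j} hjF' x] at h1
    obtain ⟨d, hd, hd'⟩ := h1
    exact ⟨d, by rw [(hx M le_rfl).1]; exact hd, hd'⟩
  -- going from d in D M to the hypothesis of hat_through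
  have hthr : ∀ v : T.V (m + 1) {j}, (∀ M (hM : m + 1 ≤ M), ∃ d ∈ S.D M,
      T.dn (m + 1) M hM {j} (T.res M (F.erase i) {j} hjF' d) = v) →
      ∃ z ∈ S.hat, z.at (m + 1) {j} = v := by
    intro v hv
    apply S.hat_through hi (m + 1) {j} hjF v
    intro M hM
    obtain ⟨d, hd, hdv⟩ := hv M hM
    refine ⟨d, hd, ?_⟩
    obtain ⟨x, hx⟩ := S.real M
    obtain ⟨hD, hσ⟩ := hx M le_rfl
    have h1 : T.res M F (F.erase i) (F.erase_subset i) (S.σ M d) = d :=
      T.Sec_res M F i x hi _ hσ d (hD ▸ hd)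
    rw [← hdv, ← T.res_res M F (F.erase i) {j} (F.erase_subset i) hjF', h1]
  -- the vertex v
  obtain ⟨v, hv1, hv2⟩ : ∃ v : T.V (m + 1) {j}, ¬ T.adj (m + 1) {j} v (T.o (m + 1) j) ∧
      ∀ M (hM : m + 1 ≤ M), ∃ d ∈ S.D M,
        T.dn (m + 1) M hM {j} (T.res M (F.erase i) {j} hjF' d) = v := by
    by_contra hno
    push Not at hno
    have hno' : ∀ v : T.V (m + 1) {j}, ∃ M, ∃ hM : m + 1 ≤ M, ¬ T.adj (m + 1) {j} v (T.o (m + 1) j) →
        ∀ d ∈ S.D M, T.dn (m + 1) M hM {j} (T.res M (F.erase i) {j} hjF' d) ≠ v := by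
      intro v
      by_cases hv : T.adj (m + 1) {j} v (T.o (m + 1) j)
      · exact ⟨m + 1, le_rfl, fun h' => absurd hv h'⟩
      · obtain ⟨M, hM, h1⟩ := hno v hv
        exact ⟨M, hM, fun _ => h1⟩
    choose f hf hf' using hno'
    haveI : Fintype (T.V (m + 1) {j}) := Fintype.ofFinite _
    let M : ℕ := (Finset.univ.sup f) + (m + 1)
    have hM : m + 1 ≤ M := Nat.le_add_left _ _
    obtain ⟨x, hx⟩ := S.real M
    have hnb := hcon x (fun k hk => hx k (hk.trans ((Nat.le_succ m).trans hM)))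
    obtain ⟨v, hvLo, hvadj⟩ := T.nbz m j x hnb
    obtain ⟨v', hv', hvv'⟩ := h85_Lo_dn T {j} x (m + 1) M hM hvLo
    obtain ⟨d, hd, hdv'⟩ := hLoD M hM x hx v' hv'
    have hfM : f v ≤ M := (Finset.le_sup (f := f) (Finset.mem_univ v)).trans (Nat.le_add_right _ _)
    apply hf' v hvadj (T.dn (f v) M hfM (F.erase i) d) (S.D_dn (f v) M hfM d hd)
    rw [T.dn_res, T.dn_dn, ← T.dn_res, hdv', hvv']
  obtain ⟨z, hz, hzv⟩ := hthr v hv2
  obtain ⟨z', hz', hzo⟩ := hthr (T.o (m + 1) j) (by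
    intro M hM
    obtain ⟨x, hx⟩ := S.real M
    obtain ⟨d, hd, hd'⟩ := hLoD M hM x hx (T.o M j) (T.o_Lo M j x)
    exact ⟨d, hd, by rw [hd', h85_o_dn]⟩)
  have h1 : R T {j} z z' :=
    R_trans (h z (subset_sat T F _ hz)) (R_symm (h z' (subset_sat T F _ hz')))
  apply hv1
  have := h1 (m + 1)
  rwa [hzv, hzo] at this

end Pool.Agent.H26DD
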