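import Pool.Agent.Helper26.DD.TooA

/-!
# DD module II-18: (T5), second half.

`F' = F.erase i`, `F'' = F.erase j`. In the compact space
`P = ∀ m, Set (V m F'') × (V m F'' → V m F)` let `C m` be the set of the `(D', t)` such that there is
an `x` with `S.D k = Up k F' x`, `S.σ k ∈ Sec k F i x` (`k ≤ m`), `bz m j x`, `D' k = Up k F'' x`,
`t k ∈ Sec k F j x` (`k ≤ m`), and `dn (t (k+1) v) = t k (dn v)` for `k < m`, `v ∈ D' (k+1)`. `C m` is
closed, decreasing (`bz_succ`), nonempty (`hbz m`, `Sec_ne` at stage `m`, `Sec_lift` downwards). Let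
`(D', t)` be a common point; it is a tooth `T'` of letter `j`.
Let `z ∈ S.hat` and `m` be given, `x` as in `C m`. `z.at m F' ∈ Up m F' x`, so
`z.at m F = σ m (z.at m F') ∈ Up m F x` (`Sec_Up`), so there is `c ∈ Lo m F x` adjacent to `z.at m F`
(`Up_N1`), `c = t m (res c)` (`bz_Sec`; `bz m j x`). `res c ∈ Lo m F'' x ⊆ Up m F'' x` and
`z.at m F'' = res (z.at m F) ∈ Up m F'' x = D' m` (`Up_res`) are adjacent, so `c = t m (res c)` is adjacent
to `t m (z.at m F'')` (`Sec_hom`). So `Nr2 (z.at m F) (t m (z.at m F''))` for all `m`. The sequence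
`t m (z.at m F'')` is a thread sequence in `W` (`comp`, `Sec_Up`, `Up_W`), let `z'` be a thread with
`z'.at m F = t m (z.at m F'')` (`exists_seq`); `z'.at m F'' = z.at m F''` (`Sec_res`), so
`z' ∈ T'.hat`, and `R F z z'` (`R_of_nr2`). So `z ∈ T'.set`; `S.set ⊆ T'.set` by saturation.
-/

set_option autoImplicit false

namespace Pool.Agent.H26DD

variable {X : Type} [TopologicalSpace X] {ι : Type} [DecidableEq ι] {L : Letters X ι}

/-- Koenig's lemma for a sequence of finite types -/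
private theorem h99_koenig {Y : ℕ → Type} [hf : ∀ m, Finite (Y m)] (C : ℕ → Set (∀ m, Y m))
    (hdec : ∀ m, C (m + 1) ⊆ C m) (hne : ∀ m, (C m).Nonempty)
    (hloc : ∀ m, ∀ y y' : ∀ m, Y m, (∀ k ≤ m, y k = y' k) → y ∈ C m → y' ∈ C m) :
    (⋂ m, C m).Nonempty := by
  let top : ∀ m, TopologicalSpace (Y m) := fun _ => ⊥
  have dis : ∀ m, DiscreteTopology (Y m) := fun _ => ⟨rfl⟩
  have hopen : ∀ m (B : Set (∀ m, Y m)),
      (∀ y y' : ∀ m, Y m, (∀ k ≤ m, y k = y' k) → y ∈ B → y' ∈ B) → IsOpen B := by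
    intro m B hB
    rw [isOpen_iff_mem_nhds]
    intro y hy
    have h1 : (⋂ k ∈ Finset.range (m + 1), (fun z : ∀ m, Y m => z k) ⁻¹' {y k}) ∈ nhds y := by
      rw [Filter.biInter_finset_mem]
      intro k _
      apply (continuous_apply k).continuousAt.preimage_mem_nhds
      exact (isOpen_discrete _).mem_nhds rfl
    refine Filter.mem_of_superset h1 ?_
    intro z hz
    refine hB y z (fun k hk => ?_) hy
    simp only [Set.mem_iInter, Set.mem_preimage, Set.mem_singleton_iff, Finset.mem_range] at hz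
    exact (hz k (by omega)).symm
  have hclosed : ∀ m, IsClosed (C m) := by
    intro m
    rw [← isOpen_compl_iff]
    apply hopen m
    intro y y' h hy hy'
    exact hy (hloc m y' y (fun k hk => (h k hk).symm) hy')
  exact IsCompact.nonempty_iInter_of_sequence_nonempty_isCompact_isClosed C hdec hne
    (hclosed 0).isCompact hclosed

/-- compatible sections below a given one -/
private theorem h99_down (T : Tow L) (F : Finset ι) (j : ι) (hj : j ∈ F) (x : X) (m : ℕ) :
    ∀ σ ∈ T.Sec m F j x, ∃ t : ∀ k, T.V k (F.erase j) → T.V k F, t m = σ ∧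
      (∀ k ≤ m, t k ∈ T.Sec k F j x) ∧
      (∀ k < m, ∀ a ∈ T.Up (k + 1) (F.erase j) x,
        T.dn k (k + 1) (Nat.le_succ k) F (t (k + 1) a) =
          t k (T.dn k (k + 1) (Nat.le_succ k) (F.erase j) a)) := by
  induction m with
  | zero =>
    intro σ hσ
    refine ⟨Function.update (fun k => (T.Sec_ne k F j x hj).some) 0 σ, ?_, ?_, ?_⟩
    · simp
    · intro k hk
      obtain rfl : k = 0 := by omega
      simpa using hσ
    · intro k hk
      omega
  | succ m ih =>
    intro σ hσ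
    obtain ⟨τ, hτ, hτ'⟩ := T.Sec_lift m F j x hj σ hσ
    obtain ⟨t, ht1, ht2, ht3⟩ := ih τ hτ
    refine ⟨Function.update t (m + 1) σ, ?_, ?_, ?_⟩
    · simp
    · intro k hk
      by_cases hk' : k = m + 1
      · subst hk'
        simpa using hσ
      · rw [Function.update_of_ne hk']
        exact ht2 k (by omega)
    · intro k hk a ha
      by_cases hk' : k = m
      · subst hk'
        rw [Function.update_self, Function.update_of_ne (by omega), ht1]
        exact hτ' a ha
      · rw [Function.update_of_ne (by omega), Function.update_of_ne (by omega)]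
        exact ht3 k (by omega) a ha

theorem deg_tooth {T : Tow L} {F : Finset ι} {i j : ι} (hi : i ∈ F) (hj : j ∈ F)
    (S : Tooth T F i)
    (hbz : ∀ m, ∃ x, (∀ k ≤ m, S.D k = T.Up k (F.erase i) x ∧ S.σ k ∈ T.Sec k F i x) ∧
      T.bz m j x) :
    ∃ T' : Tooth T F j, S.set ⊆ T'.set := by
  classical
  let Y : ℕ → Type := fun m => Set (T.V m (F.erase j)) × (T.V m (F.erase j) → T.V m F)
  have hY : ∀ m, Finite (Y m) := fun m => by
    change Finite (Set (T.V m (F.erase j)) × (T.V m (F.erase j) → T.V m F))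
    infer_instance
  let C : ℕ → Set (∀ m, Y m) := fun m => {y | ∃ x,
    (∀ k ≤ m, S.D k = T.Up k (F.erase i) x ∧ S.σ k ∈ T.Sec k F i x) ∧ T.bz m j x ∧
    (∀ k ≤ m, (y k).1 = T.Up k (F.erase j) x ∧ (y k).2 ∈ T.Sec k F j x) ∧
    (∀ k < m, ∀ v ∈ (y (k + 1)).1, T.dn k (k + 1) (Nat.le_succ k) F ((y (k + 1)).2 v) =
      (y k).2 (T.dn k (k + 1) (Nat.le_succ k) (F.erase j) v))}
  have hC : (⋂ m, C m).Nonempty := by
    apply h99_koenig C
    · rintro m y ⟨x, h1, h2, h3, h4⟩
      exact ⟨x, fun k hk => h1 k (by omega), T.bz_succ m j x h2, fun k hk => h3 k (by omega),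
        fun k hk => h4 k (by omega)⟩
    · intro m
      obtain ⟨x, h1, h2⟩ := hbz m
      obtain ⟨σ, hσ⟩ := T.Sec_ne m F j x hj
      obtain ⟨t, -, ht2, ht3⟩ := h99_down T F j hj x m σ hσ
      exact ⟨fun k => (T.Up k (F.erase j) x, t k), x, h1, h2,
        fun k hk => ⟨rfl, ht2 k hk⟩, fun k hk v hv => ht3 k hk v hv⟩
    · rintro m y y' h ⟨x, h1, h2, h3, h4⟩
      refine ⟨x, h1, h2, fun k hk => ?_, fun k hk v hv => ?_⟩
      · rw [← h k hk]
        exact h3 k hk
      · rw [← h (k + 1) (by omega)] at hv ⊢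
        rw [← h k (by omega)]
        exact h4 k hk v hv
  obtain ⟨y, hy⟩ := hC
  rw [Set.mem_iInter] at hy
  let T' : Tooth T F j :=
    { D := fun m => (y m).1
      σ := fun m => (y m).2
      real := fun M => by
        obtain ⟨x, -, -, h3, -⟩ := hy M
        exact ⟨x, h3⟩
      comp := fun m v hv => by
        obtain ⟨x, -, -, -, h4⟩ := hy (m + 1)
        exact h4 m (Nat.lt_succ_self m) v hv }
  refine ⟨T', ?_⟩
  suffices hS : S.hat ⊆ T'.set by
    rintro z ⟨a, ha, haz⟩
    exact sat_sat (hS ha) haz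
  intro z hz
  -- the vertex of `z` at `F.erase j` is in `D'`
  have hD : ∀ m, z.at m (F.erase j) ∈ (y m).1 := by
    intro m
    obtain ⟨x, h1, -, h3, -⟩ := hy m
    obtain ⟨hz1, hz2⟩ := hz m
    rw [(h1 m le_rfl).1] at hz1
    have h5 : z.at m F ∈ T.Up m F x := by
      rw [hz2]
      exact T.Sec_Up m F i x hi _ (h1 m le_rfl).2 _ hz1
    rw [(h3 m le_rfl).1, ← T.Up_res m F (F.erase j) (F.erase_subset j) x]
    exact ⟨z.at m F, h5, z.res_at m F (F.erase j) (F.erase_subset j)⟩
  have hnear : ∀ m, Nr2 (T.adj m F) (z.at m F) ((y m).2 (z.at m (F.erase j))) := by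
    intro m
    obtain ⟨x, h1, h2, h3, -⟩ := hy m
    obtain ⟨hz1, hz2⟩ := hz m
    rw [(h1 m le_rfl).1] at hz1
    have h5 : z.at m F ∈ T.Up m F x := by
      rw [hz2]
      exact T.Sec_Up m F i x hi _ (h1 m le_rfl).2 _ hz1
    obtain ⟨c, hc, hcz⟩ := T.Up_N1 m F x h5
    have hc' := T.bz_Sec m F j x hj h2 _ (h3 m le_rfl).2 c hc
    have hD' := hD m
    rw [(h3 m le_rfl).1] at hD'
    have hcU : T.res m F (F.erase j) (F.erase_subset j) c ∈ T.Up m (F.erase j) x := by
      apply T.Lo_Up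
      rw [← T.Lo_res m F (F.erase j) (F.erase_subset j) x]
      exact ⟨c, hc, rfl⟩
    have hadj : T.adj m (F.erase j) (T.res m F (F.erase j) (F.erase_subset j) c)
        (z.at m (F.erase j)) := by
      rw [← z.res_at m F (F.erase j) (F.erase_subset j)]
      exact T.res_adj m F (F.erase j) (F.erase_subset j) _ _ hcz
    have h6 := T.Sec_hom m F j x hj _ (h3 m le_rfl).2 _ hcU _ hD' hadj
    rw [hc'] at h6
    exact ⟨c, T.asymm m F _ _ hcz, h6⟩
  obtain ⟨z', hz'⟩ := exists_seq T F (fun m => (y m).2 (z.at m (F.erase j)))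
    (by
      intro m
      obtain ⟨x, -, -, h3, -⟩ := hy m
      have hD' := hD m
      rw [(h3 m le_rfl).1] at hD'
      exact T.Up_W m F x (T.Sec_Up m F j x hj _ (h3 m le_rfl).2 _ hD'))
    (by
      intro m
      obtain ⟨x, -, -, -, h4⟩ := hy (m + 1)
      have h5 := h4 m (Nat.lt_succ_self m) _ (hD (m + 1))
      rw [z.dn_at m (m + 1) (Nat.le_succ m) (F.erase j)] at h5
      exact h5)
  have hz'' : ∀ m, z'.at m (F.erase j) = z.at m (F.erase j) := by
    intro m
    obtain ⟨x, -, -, h3, -⟩ := hy m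
    have hD' := hD m
    rw [(h3 m le_rfl).1] at hD'
    rw [← z'.res_at m F (F.erase j) (F.erase_subset j), hz' m]
    exact T.Sec_res m F j x hj _ (h3 m le_rfl).2 _ hD'
  refine ⟨z', fun m => ⟨?_, ?_⟩, ?_⟩
  · rw [hz'' m]
    exact hD m
  · rw [hz'' m, hz' m]
  · apply R_symm
    apply R_of_nr2
    intro m
    rw [hz' m]
    exact hnear m

end Pool.Agent.H26DD
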