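import Pool.Agent.Helper26.DD.TooB
import Pool.Agent.Helper26.DD.TooC
import Pool.Agent.Helper26.DD.TooD
import Pool.Agent.Helper26.DD.TooE
import Pool.Agent.Helper26.DD.TooF

/-!
# DD module II-19: (T6), (T7), (T8): hereditary indecomposability at every finite level.

`teeth` (T6): same letter: `same_letter`. `i ≠ j`, `p` in both: by `cross` (up to exchanging the
roles) all `a ∈ S.set` are `R {j}`-related to `p`; by `deg_bz`, `deg_tooth` there is a tooth `T'` of
letter `j` with `S.set ⊆ T'.set`. `T'.set` and `S'.set` intersect, so are comparable (`same_letter`).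
If `T'.set ⊆ S'.set` done; if `S'.set ⊆ T'.set` use `inside` for `S.set`, `S'.set ⊆ T'.set` (`Tooth.fc`).

`cont_tooth` (T7): suppose `C` and `S.set` intersect and are not comparable, `b ∈ S.set \ C`. For
every `a ∈ C \ S.set`: `star` (for `C`, `S.set`) and `tooth_of_tl` give a tooth `T_a` (of some letter)
with `a, b ∈ T_a.set`; it meets `S.set` in `b` and is not contained in it, so `S.set ⊆ T_a.set` by
`teeth`. By `teeth` (all these contain the nonempty set `S.set`) for every finite set of such `a` there is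
one tooth containing `S.set` and all the `a`. Let `Q = C ∪ S.set`. For each `m` choose for each vertex `v`
of the (finite) image of `C` at `(m,F)` a point `a_v ∈ C` with `a_v.at m F = v`; a tooth `T'` of some
letter `j` contains `S.set` and all `a_v`; so (with `x` from `T'.real m`) `σ = T'.σ m ∈ Sec m F j x` and every
`q ∈ Q` has `p ∈ Up m (F.erase j) x` with `σ p` adjacent to `q.at m F`. So for each `m` there is `j ∈ F`
with `Pm j m : ∃ x, ∃ σ ∈ Sec m F j x, ∀ q ∈ Q, ∃ p ∈ Up m (F.erase j) x, Nr4 (σ p) (q.at m F)`; as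
`Pm j (m+1) → Pm j m` (`Sec_lift`, `Up_dn`, `Nr4_dn`) and `F` is finite there is `j` with `Pm j m` for all
`m`. `exists_tooth`: `C ∪ S.set ⊆ T'.set`, so `C`, `S.set` are comparable by `inside`: contradiction.

`HI_step` (T8): `A, B` intersect, `a ∈ A \ B`, `b ∈ B \ A`: `star`, `tooth_of_tl`: a tooth `S` with
`a, b ∈ S.set`. By `cont_tooth` `A` and `S.set` are comparable; `S.set ⊆ A` is impossible (`b`), so
`A ⊆ S.set`; in the same way `B ⊆ S.set`. `inside`.

`HI_all`: strong induction on the cardinality of `F`.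
-/

set_option autoImplicit false

namespace Pool.Agent.H26DD

variable {X : Type} [TopologicalSpace X] {ι : Type} [DecidableEq ι] {L : Letters X ι}

theorem teeth_aux [CompactSpace X] {T : Tow L} {F : Finset ι} (hHI : ∀ i ∈ F, HI T (F.erase i))
    {i j : ι} (hi : i ∈ F) (hj : j ∈ F) (hij : i ≠ j) (S : Tooth T F i) (S' : Tooth T F j)
    (p : Thread T) (hp : p ∈ S.set) (hp' : p ∈ S'.set) (h : ∀ a ∈ S.set, R T {j} a p) :
    S.set ⊆ S'.set ∨ S'.set ⊆ S.set := by
  obtain ⟨T', hT'⟩ := deg_tooth hi hj S (deg_bz hi hj (Ne.symm hij) S p h)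
  rcases same_letter hj (hHI j hj) T' S' ⟨p, hT' hp, hp'⟩ with h1 | h1
  · exact Or.inl (hT'.trans h1)
  · exact inside hj (hHI j hj) T' S.set S'.set (S.fc hi) (S'.fc hj) hT' h1 ⟨p, hp, hp'⟩

theorem teeth [CompactSpace X] {T : Tow L} {F : Finset ι} (hHI : ∀ i ∈ F, HI T (F.erase i))
    {i j : ι} (hi : i ∈ F) (hj : j ∈ F) (S : Tooth T F i) (S' : Tooth T F j)
    (hne : (S.set ∩ S'.set).Nonempty) : S.set ⊆ S'.set ∨ S'.set ⊆ S.set := by
  by_cases hij : i = j
  · subst hij
    exact same_letter hi (hHI i hi) S S' hne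
  · obtain ⟨p, hp, hp'⟩ := hne
    rcases cross hi hj hij S S' p hp hp' with h | h
    · exact teeth_aux hHI hi hj hij S S' p hp hp' h
    · exact (teeth_aux hHI hj hi (Ne.symm hij) S' S p hp' hp h).symm

/-- one tooth containing `S.set` and finitely many points of `C ∪ S.set` -/
theorem teeth_fin [CompactSpace X] {T : Tow L} {F : Finset ι}
    (hHI : ∀ i ∈ F, HI T (F.erase i)) {i : ι} (hi : i ∈ F) (S : Tooth T F i)
    (C : Set (Thread T)) (hC : FC T F C) (hne : (C ∩ S.set).Nonempty) (b : Thread T)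
    (hb : b ∈ S.set) (hb' : b ∉ C) (E : Set (Thread T)) (hE : E.Finite) :
    E ⊆ C ∪ S.set → ∃ j, ∃ _ : j ∈ F, ∃ T' : Tooth T F j, S.set ⊆ T'.set ∧ E ⊆ T'.set := by
  induction E, hE using Set.Finite.induction_on with
  | empty => exact fun _ => ⟨i, hi, S, subset_rfl, Set.empty_subset _⟩
  | @insert a E _ _ ih =>
    intro hsub
    obtain ⟨j, hj, T', h1, h2⟩ := ih ((Set.subset_insert a E).trans hsub)
    by_cases haS : a ∈ S.set
    · exact ⟨j, hj, T', h1, Set.insert_subset (h1 haS) h2⟩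
    · have haC : a ∈ C := by
        rcases hsub (Set.mem_insert a E) with h | h
        · exact h
        · exact absurd h haS
      obtain ⟨l, hl, htl⟩ := star T F C S.set hC (S.fc hi) hne a b haC haS hb hb'
      obtain ⟨Ta, haT, hbT⟩ := tooth_of_tl hl htl
      have hSTa : S.set ⊆ Ta.set := by
        rcases teeth hHI hi hl S Ta ⟨b, hb, hbT⟩ with h | h
        · exact h
        · exact absurd (h haT) haS
      rcases teeth hHI hj hl T' Ta ⟨b, h1 hb, hbT⟩ with h | h
      · exact ⟨l, hl, Ta, hSTa, Set.insert_subset haT (h2.trans h)⟩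
      · exact ⟨j, hj, T', h1, Set.insert_subset (h haT) h2⟩

/-- the property `Pm j m` of the header -/
def PmT (T : Tow L) (F : Finset ι) (Q : Set (Thread T)) (j : ι) (m : ℕ) : Prop :=
  ∃ x, ∃ σ ∈ T.Sec m F j x, ∀ q ∈ Q, ∃ p ∈ T.Up m (F.erase j) x,
    Nr4 (T.adj m F) (σ p) (q.at m F)

theorem PmT_succ {T : Tow L} {F : Finset ι} {Q : Set (Thread T)} {j : ι} (hj : j ∈ F) {m : ℕ}
    (h : PmT T F Q j (m + 1)) : PmT T F Q j m := by
  obtain ⟨x, σ, hσ, hq⟩ := h
  obtain ⟨τ, hτ, hτσ⟩ := T.Sec_lift m F j x hj σ hσ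
  refine ⟨x, τ, hτ, ?_⟩
  intro q hqQ
  obtain ⟨p, hp, hpq⟩ := hq q hqQ
  refine ⟨T.dn m (m + 1) (Nat.le_succ m) (F.erase j) p,
    T.Up_dn m (F.erase j) x (Set.mem_image_of_mem _ hp), ?_⟩
  have h1 := Nr4_dn T m (m + 1) (Nat.le_succ m) F _ _ hpq
  rw [hτσ p hp, Thread.dn_at] at h1
  exact h1

theorem PmT_le {T : Tow L} {F : Finset ι} {Q : Set (Thread T)} {j : ι} (hj : j ∈ F) {k m : ℕ}
    (hkm : k ≤ m) (h : PmT T F Q j m) : PmT T F Q j k := by
  induction hkm with
  | refl => exact h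
  | step _ ih => exact ih (PmT_succ hj h)

theorem PmT_of_tooth {T : Tow L} {F : Finset ι} {Q : Set (Thread T)} {j : ι} {m : ℕ}
    (S : Tooth T F j) (h : ∀ q ∈ Q, ∃ a ∈ S.set, a.at m F = q.at m F) : PmT T F Q j m := by
  obtain ⟨x, hx⟩ := S.real m
  obtain ⟨hD, hσ⟩ := hx m le_rfl
  refine ⟨x, S.σ m, hσ, ?_⟩
  intro q hq
  obtain ⟨a, ha, haq⟩ := h q hq
  obtain ⟨z, hz, hza⟩ := ha
  obtain ⟨hz1, hz2⟩ := hz m
  refine ⟨z.at m (F.erase j), ?_, ?_⟩
  · rw [← hD]
    exact hz1
  · have h1 := hza m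
    rw [haq, hz2] at h1
    exact Nr4_of_Nr2 T m F _ _ (Nr2_of_adj T m F _ _ h1)

theorem cont_tooth [CompactSpace X] {T : Tow L} {F : Finset ι}
    (hHI : ∀ i ∈ F, HI T (F.erase i)) {i : ι} (hi : i ∈ F) (S : Tooth T F i)
    (C : Set (Thread T)) (hC : FC T F C) (hne : (C ∩ S.set).Nonempty) :
    C ⊆ S.set ∨ S.set ⊆ C := by
  classical
  by_contra hcon
  rw [not_or] at hcon
  obtain ⟨b, hb, hb'⟩ := Set.not_subset.1 hcon.2
  have key : ∀ m, ∃ j ∈ F, PmT T F (C ∪ S.set) j m := by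
    intro m
    let g : T.V m F → Thread T := fun v =>
      if h : ∃ q ∈ C ∪ S.set, q.at m F = v then h.choose else b
    have hg : ∀ q ∈ C ∪ S.set, (g (q.at m F)).at m F = q.at m F := by
      intro q hq
      have h : ∃ q' ∈ C ∪ S.set, q'.at m F = q.at m F := ⟨q, hq, rfl⟩
      have e : g (q.at m F) = h.choose := dif_pos h
      rw [e]
      exact h.choose_spec.2
    have hgQ : Set.range g ⊆ C ∪ S.set := by
      rintro _ ⟨v, rfl⟩
      by_cases h : ∃ q ∈ C ∪ S.set, q.at m F = v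
      · have e : g v = h.choose := dif_pos h
        rw [e]
        exact h.choose_spec.1
      · have e : g v = b := dif_neg h
        rw [e]
        exact Or.inr hb
    obtain ⟨j, hj, T', _, h2⟩ := teeth_fin hHI hi S C hC hne b hb hb' (Set.range g)
      (Set.finite_range g) hgQ
    exact ⟨j, hj, PmT_of_tooth T' (fun q hq => ⟨g (q.at m F), h2 ⟨_, rfl⟩, hg q hq⟩)⟩
  have key2 : ∃ j ∈ F, ∀ m, PmT T F (C ∪ S.set) j m := by
    by_contra hno
    push Not at hno
    choose! M hM using hno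
    obtain ⟨j, hj, hP⟩ := key (F.sup M)
    exact hM j hj (PmT_le hj (Finset.le_sup hj) hP)
  obtain ⟨j, hj, hP⟩ := key2
  obtain ⟨S', hS'⟩ := exists_tooth T F j hj (C ∪ S.set) hP
  have h3 := inside hj (hHI j hj) S' C S.set hC (S.fc hi)
    (Set.subset_union_left.trans hS') (Set.subset_union_right.trans hS') hne
  rcases h3 with h | h
  · exact hcon.1 h
  · exact hcon.2 h

theorem HI_step [CompactSpace X] {T : Tow L} {F : Finset ι}
    (hHI : ∀ i ∈ F, HI T (F.erase i)) : HI T F := by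
  intro A B hA hB hne
  by_contra hcon
  rw [not_or] at hcon
  obtain ⟨a, ha, ha'⟩ := Set.not_subset.1 hcon.1
  obtain ⟨b, hb, hb'⟩ := Set.not_subset.1 hcon.2
  obtain ⟨i, hi, htl⟩ := star T F A B hA hB hne a b ha ha' hb hb'
  obtain ⟨S, haS, hbS⟩ := tooth_of_tl hi htl
  have hAS : A ⊆ S.set := by
    rcases cont_tooth hHI hi S A hA ⟨a, ha, haS⟩ with h | h
    · exact h
    · exact absurd (h hbS) hb'
  have hBS : B ⊆ S.set := by
    rcases cont_tooth hHI hi S B hB ⟨b, hb, hbS⟩ with h | h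
    · exact h
    · exact absurd (h haS) ha'
  rcases inside hi (hHI i hi) S A B hA hB hAS hBS hne with h | h
  · exact hcon.1 h
  · exact hcon.2 h

theorem HI_all [CompactSpace X] (T : Tow L) (F : Finset ι) : HI T F := by
  induction F using Finset.strongInduction with
  | H F ih => exact HI_step (fun i hi => ih (F.erase i) (Finset.erase_ssubset hi))

end Pool.Agent.H26DD
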