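import Mathlib

/-!
# DD module I-20: iterated bonding maps.
-/

set_option autoImplicit false

namespace Pool.Agent.H26DI

/-- the iterated map `V m → V k` for `k ≤ m` -/
def itr {V : ℕ → Type} (f : ∀ m, V (m + 1) → V m) (k m : ℕ) (h : k ≤ m) : V m → V k :=
  Nat.leRec (motive := fun m _ => V m → V k) id (fun m _ g => g ∘ f m) h

theorem itr_self {V : ℕ → Type} (f : ∀ m, V (m + 1) → V m) (k : ℕ) (h : k ≤ k) (v : V k) :
    itr f k k h v = v := by
  unfold itr
  rw [Nat.leRec_self]
  rfl

theorem itr_succ {V : ℕ → Type} (f : ∀ m, V (m + 1) → V m) (k m : ℕ) (h : k ≤ m)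
    (v : V (m + 1)) : itr f k (m + 1) (Nat.le_succ_of_le h) v = itr f k m h (f m v) := by
  unfold itr
  rw [Nat.leRec_succ]
  rfl

theorem itr_one {V : ℕ → Type} (f : ∀ m, V (m + 1) → V m) (m : ℕ) (h : m ≤ m + 1)
    (v : V (m + 1)) : itr f m (m + 1) h v = f m v := by
  rw [itr_succ f m m le_rfl, itr_self]

theorem itr_itr {V : ℕ → Type} (f : ∀ m, V (m + 1) → V m) (j k m : ℕ) (h : j ≤ k)
    (h' : k ≤ m) (v : V m) : itr f j k h (itr f k m h' v) = itr f j m (h.trans h') v := by
  induction m, h' using Nat.le_induction with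
  | base => rw [itr_self]
  | succ m h' ih => rw [itr_succ f k m h', ih, ← itr_succ f j m (h.trans h')]

theorem itr_rel {V : ℕ → Type} (f : ∀ m, V (m + 1) → V m) (R : ∀ m, V m → V m → Prop)
    (hR : ∀ m v w, R (m + 1) v w → R m (f m v) (f m w)) (k m : ℕ) (h : k ≤ m) (v w : V m)
    (hvw : R m v w) : R k (itr f k m h v) (itr f k m h w) := by
  induction m, h using Nat.le_induction with
  | base => rw [itr_self, itr_self]; exact hvw
  | succ m h ih =>
    rw [itr_succ f k m h, itr_succ f k m h]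
    exact ih _ _ (hR m v w hvw)

theorem itr_comm {V W : ℕ → Type} (f : ∀ m, V (m + 1) → V m) (g : ∀ m, W (m + 1) → W m)
    (q : ∀ m, V m → W m) (hq : ∀ m v, q m (f m v) = g m (q (m + 1) v)) (k m : ℕ) (h : k ≤ m)
    (v : V m) : itr g k m h (q m v) = q k (itr f k m h v) := by
  induction m, h using Nat.le_induction with
  | base => rw [itr_self, itr_self]
  | succ m h ih =>
    rw [itr_succ g k m h, itr_succ f k m h, ← hq, ih]

end Pool.Agent.H26DI
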