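import Pool.Agent.Helper26.DD.Thr

/-!
# DD module II-2: threads through given vertices.

`W_eq`: with `w` from `L.top`: `W m F = Lo m F w = Up m F w` (`W_top`, `Lo_Up`, `Up_W`).
`dn_W`: `Lo_dn` and `Up_dn` for `w`, then induction on `m - k`.  `res_W`: `Up_res` for `w`.
`W_conn`: `Up_conn` for `w`.

`exists_at`: apply `exists_thread` to
`A m F = {u | ∃ c ∈ W (max m m0) (F ∪ F0), dn m0 _ _ F0 (res _ _ F0 _ c) = v ∧ dn m _ _ F (res _ _ F _ c) = u}`
(nonempty: `v` lifts to `W (max m m0) (F ∪ F0)` by `dn_W` and `res_W`).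

`exists_seq_set`: apply `exists_thread` to
`A' m F = {u | ∃ c ∈ W m (F ∪ F0), res m _ F0 _ c ∈ A m ∧ res m _ F _ c = u}`.
`exists_seq`: the special case of one point sets.
-/

set_option autoImplicit false

namespace Pool.Agent.H26DD

variable {X : Type} [TopologicalSpace X] {ι : Type} [DecidableEq ι] {L : Letters X ι}

theorem exists_top (T : Tow L) :
    ∃ w : X, (∀ i, L.r i w = 1) ∧ (∀ m F, T.Lo m F w = T.W m F) ∧
      (∀ m F, T.Up m F w = T.W m F) := by
  obtain ⟨w, hw⟩ := L.top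
  refine ⟨w, hw, fun m F => T.W_top m F w (fun i _ => hw i), fun m F => ?_⟩
  refine Set.Subset.antisymm (T.Up_W m F w) ?_
  rw [← T.W_top m F w (fun i _ => hw i)]
  exact T.Lo_Up m F w

theorem dn_W_one (T : Tow L) (m : ℕ) (F : Finset ι) :
    T.dn m (m + 1) (Nat.le_succ m) F '' T.W (m + 1) F = T.W m F := by
  obtain ⟨w, _, hlo, hup⟩ := exists_top T
  refine Set.Subset.antisymm ?_ ?_
  · have h := T.Up_dn m F w
    rw [hup, hup] at h
    exact h
  · have h := T.Lo_dn m F w
    rw [hlo, hlo] at h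
    exact h

theorem dn_W (T : Tow L) (k m : ℕ) (h : k ≤ m) (F : Finset ι) :
    T.dn k m h F '' T.W m F = T.W k F := by
  induction m, h using Nat.le_induction with
  | base =>
    ext v
    constructor
    · rintro ⟨u, hu, rfl⟩
      rw [T.dn_self]
      exact hu
    · intro hv
      exact ⟨v, hv, T.dn_self _ _ _ _⟩
  | succ m hm ih =>
    rw [← ih, ← dn_W_one T m F, Set.image_image]
    refine Set.image_congr ?_
    intro a _
    rw [T.dn_dn]

theorem res_W (T : Tow L) (m : ℕ) (F G : Finset ι) (h : G ⊆ F) :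
    T.res m F G h '' T.W m F = T.W m G := by
  obtain ⟨w, _, _, hup⟩ := exists_top T
  rw [← hup m F, ← hup m G]
  exact T.Up_res m F G h w

theorem W_conn (T : Tow L) (m : ℕ) (F : Finset ι) : Conn (T.adj m F) (T.W m F) := by
  obtain ⟨w, _, _, hup⟩ := exists_top T
  rw [← hup m F]
  exact T.Up_conn m F w

theorem exists_at (T : Tow L) (m : ℕ) (F : Finset ι) (v : T.V m F) (hv : v ∈ T.W m F) :
    ∃ z : Thread T, z.at m F = v := by
  refine Exists.elim (exists_thread T
    (fun k G => {u | ∃ c ∈ T.W (max k m) (G ∪ F),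
      T.dn m (max k m) (le_max_right k m) F (T.res (max k m) (G ∪ F) F
        Finset.subset_union_right c) = v ∧
      T.dn k (max k m) (le_max_left k m) G (T.res (max k m) (G ∪ F) G
        Finset.subset_union_left c) = u}) ?_ ?_ ?_ ?_) ?_
  · intro k G
    have h1 : v ∈ T.dn m (max k m) (le_max_right k m) F '' T.W (max k m) F := by
      rw [dn_W]
      exact hv
    obtain ⟨v1, hv1, hv1'⟩ := h1
    have h2 : v1 ∈ T.res (max k m) (G ∪ F) F Finset.subset_union_right ''
        T.W (max k m) (G ∪ F) := by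
      rw [res_W]
      exact hv1
    obtain ⟨c, hc, hc'⟩ := h2
    refine ⟨_, c, hc, ?_, rfl⟩
    rw [hc']
    exact hv1'
  · rintro k G u ⟨c, hc, _, rfl⟩
    rw [← dn_W T k (max k m) (le_max_left k m) G]
    refine Set.mem_image_of_mem _ ?_
    rw [← res_W T (max k m) (G ∪ F) G Finset.subset_union_left]
    exact Set.mem_image_of_mem _ hc
  · rintro k G u ⟨c, hc, h1, rfl⟩
    have hle : max k m ≤ max (k + 1) m := max_le_max (Nat.le_succ k) le_rfl
    refine ⟨T.dn (max k m) (max (k + 1) m) hle (G ∪ F) c, ?_, ?_, ?_⟩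
    · rw [← dn_W T (max k m) (max (k + 1) m) hle (G ∪ F)]
      exact Set.mem_image_of_mem _ hc
    · rw [← T.dn_res, T.dn_dn]
      exact h1
    · rw [← T.dn_res, T.dn_dn, T.dn_dn]
  · rintro k G H hH u ⟨c, hc, h1, rfl⟩
    have hsub : H ∪ F ⊆ G ∪ F := Finset.union_subset_union hH (Finset.Subset.refl F)
    refine ⟨T.res (max k m) (G ∪ F) (H ∪ F) hsub c, ?_, ?_, ?_⟩
    · rw [← res_W T (max k m) (G ∪ F) (H ∪ F) hsub]
      exact Set.mem_image_of_mem _ hc
    · rw [T.res_res]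
      exact h1
    · rw [T.res_res, ← T.dn_res, T.res_res]
  · intro z hz
    refine ⟨z, ?_⟩
    obtain ⟨c, _, h1, h2⟩ := hz m F
    rw [← h2]
    exact h1

theorem exists_seq_set (T : Tow L) (F : Finset ι) (A : ∀ m : ℕ, Set (T.V m F))
    (hne : ∀ m, (A m).Nonempty) (hW : ∀ m, A m ⊆ T.W m F)
    (hdn : ∀ m, ∀ v ∈ A (m + 1), T.dn m (m + 1) (Nat.le_succ m) F v ∈ A m) :
    ∃ z : Thread T, ∀ m, z.at m F ∈ A m := by
  refine Exists.elim (exists_thread T
    (fun k G => {u | ∃ c ∈ T.W k (G ∪ F),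
      T.res k (G ∪ F) F Finset.subset_union_right c ∈ A k ∧
      T.res k (G ∪ F) G Finset.subset_union_left c = u}) ?_ ?_ ?_ ?_) ?_
  · intro k G
    obtain ⟨v, hv⟩ := hne k
    have h2 : v ∈ T.res k (G ∪ F) F Finset.subset_union_right '' T.W k (G ∪ F) := by
      rw [res_W]
      exact hW k hv
    obtain ⟨c, hc, hc'⟩ := h2
    refine ⟨_, c, hc, ?_, rfl⟩
    rw [hc']
    exact hv
  · rintro k G u ⟨c, hc, _, rfl⟩
    rw [← res_W T k (G ∪ F) G Finset.subset_union_left]
    exact Set.mem_image_of_mem _ hc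
  · rintro k G u ⟨c, hc, h1, rfl⟩
    refine ⟨T.dn k (k + 1) (Nat.le_succ k) (G ∪ F) c, ?_, ?_, ?_⟩
    · rw [← dn_W_one T k (G ∪ F)]
      exact Set.mem_image_of_mem _ hc
    · rw [← T.dn_res]
      exact hdn k _ h1
    · rw [← T.dn_res]
  · rintro k G H hH u ⟨c, hc, h1, rfl⟩
    have hsub : H ∪ F ⊆ G ∪ F := Finset.union_subset_union hH (Finset.Subset.refl F)
    refine ⟨T.res k (G ∪ F) (H ∪ F) hsub c, ?_, ?_, ?_⟩
    · rw [← res_W T k (G ∪ F) (H ∪ F) hsub]
      exact Set.mem_image_of_mem _ hc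
    · rw [T.res_res]
      exact h1
    · rw [T.res_res, T.res_res]
  · intro z hz
    refine ⟨z, fun m => ?_⟩
    obtain ⟨c, _, h1, h2⟩ := hz m F
    rw [← h2]
    exact h1

theorem exists_seq (T : Tow L) (F : Finset ι) (a : ∀ m : ℕ, T.V m F)
    (hW : ∀ m, a m ∈ T.W m F)
    (hdn : ∀ m, T.dn m (m + 1) (Nat.le_succ m) F (a (m + 1)) = a m) :
    ∃ z : Thread T, ∀ m, z.at m F = a m := by
  obtain ⟨z, hz⟩ := exists_seq_set T F (fun m => {a m}) (fun m => Set.singleton_nonempty _)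
    (fun m v hv => by
      rw [Set.mem_singleton_iff] at hv
      rw [hv]
      exact hW m)
    (fun m v hv => by
      rw [Set.mem_singleton_iff] at hv
      rw [hv]
      exact hdn m)
  exact ⟨z, fun m => hz m⟩

/-- a thread is determined at lower levels by its vertex at a higher level -/
theorem at_eq_of_at_eq {T : Tow L} {z z' : Thread T} {m : ℕ} {F : Finset ι}
    (h : z.at m F = z'.at m F) (k : ℕ) (hk : k ≤ m) (G : Finset ι) (hG : G ⊆ F) :
    z.at k G = z'.at k G := by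
  rw [← z.res_at k F G hG, ← z'.res_at k F G hG, ← z.dn_at k m hk F, ← z'.dn_at k m hk F, h]

end Pool.Agent.H26DD
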