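import Pool.Agent.Helper26.DD.Sat
import Pool.Agent.Helper26.DD.Surj

/-!
# DD module II-5: the sets `Kx x` and `Mc F c`.

`Kx_closed`: intersection of clopen sets.
`Kx_through`: by induction on `m ≥ m0`, `P m : ∀ G ⊇ F, ∃ z : Thread, z.at m0 F = v ∧ z.at m G ∈ Lo m G x`
(`m = m0`: `Lo_res`; step: `Lo_dn` gives `c ∈ Lo (m+1) G x` over `z.at m G`, take a thread through
`c` by `exists_at`; by `at_eq_of_at_eq` it agrees with `z` at `(m0,F)`). So the closed sets
`{z | z.at m0 F = v ∧ z.at m G ∈ Up m G x}` are nonempty for `m ≥ m0`, `G ⊇ F`, and they are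
antitone in `(m,G)` (`Up_dn`, `Up_res`), so there is a common point.
`Mc_of_near`: `{z | z.at m G ∈ Up m G x ∧ Nr4 (z.at k F) (c.at k F)}` (`k ≤ m`, `F ⊆ G`) closed,
directed, nonempty (for the `u` given at stage `m` lift `u` by `Up_res` to `Up m G x ⊆ W` and take a
thread through it by `exists_at`, use `Nr4_dn`); a common point `z` lies in `Kx x` and `R_of_nr4`.
`Mc_up`: `Up_mono` and `Mc_of_near`.
`Mc_far`: by `Mc_of_near` there is `m0` with no `u ∈ Up m0 F x0` near `c.at m0 F`; near `x0`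
`Up m0 F x ⊆ Up m0 F x0` (`Up_usc`), and for `m ≥ m0` use `Up_dn` (iterated) and `Nr4_dn`.
`Mc_closed`: the complement is open by `Mc_far` (if `x ∈ Mc` then `z.at m F ∈ Up m F x` is adjacent
to `c.at m F` for all `m`).
`Mc_near`: `z.at m F ∈ Up m F x` and `Up_N1`.
-/

set_option autoImplicit false

namespace Pool.Agent.H26DD

open Topology

variable {X : Type} [TopologicalSpace X] {ι : Type} [DecidableEq ι] {L : Letters X ι}

theorem Up_dn_iter (T : Tow L) (k m : ℕ) (h : k ≤ m) (F : Finset ι) (x : X) :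
    T.dn k m h F '' T.Up m F x ⊆ T.Up k F x := by
  induction m, h using Nat.le_induction with
  | base =>
    rintro _ ⟨u, hu, rfl⟩
    rw [T.dn_self]
    exact hu
  | succ m hm ih =>
    rintro _ ⟨u, hu, rfl⟩
    rw [← T.dn_dn k m (m + 1) hm (Nat.le_succ m)]
    exact ih ⟨_, T.Up_dn m F x ⟨u, hu, rfl⟩, rfl⟩

theorem Lo_dn_iter (T : Tow L) (k m : ℕ) (h : k ≤ m) (F : Finset ι) (x : X) :
    T.Lo k F x ⊆ T.dn k m h F '' T.Lo m F x := by
  induction m, h using Nat.le_induction with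
  | base =>
    intro u hu
    exact ⟨u, hu, T.dn_self _ _ _ _⟩
  | succ m hm ih =>
    intro u hu
    obtain ⟨v, hv, rfl⟩ := ih hu
    obtain ⟨w, hw, rfl⟩ := T.Lo_dn m F x hv
    exact ⟨w, hw, (T.dn_dn k m (m + 1) hm (Nat.le_succ m) F w).symm⟩

/-- membership in `Up` passes to lower levels along a thread -/
theorem Up_low (T : Tow L) (x : X) {k m : ℕ} (h : k ≤ m) {G F : Finset ι} (hG : G ⊆ F)
    (z : Thread T) (hz : z.at m F ∈ T.Up m F x) : z.at k G ∈ T.Up k G x := by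
  rw [← z.dn_at k m h G, ← z.res_at m F G hG]
  refine Up_dn_iter T k m h G x ⟨_, ?_, rfl⟩
  rw [← T.Up_res m F G hG x]
  exact ⟨_, hz, rfl⟩

/-- a common point of an antitone family of closed sets -/
theorem exists_common {T : Tow L} (C : ℕ → Finset ι → Set (Thread T))
    (hcl : ∀ m F, IsClosed (C m F)) (hne : ∀ m F, (C m F).Nonempty)
    (hanti : ∀ k m, k ≤ m → ∀ G F, G ⊆ F → C m F ⊆ C k G) : ∃ z, ∀ m F, z ∈ C m F := by
  have key : (⋂ i : ℕ × Finset ι, C i.1 i.2).Nonempty := by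
    have : Nonempty (ℕ × Finset ι) := ⟨(0, ∅)⟩
    apply IsCompact.nonempty_iInter_of_directed_nonempty_isCompact_isClosed
    · rintro ⟨m, F⟩ ⟨m', F'⟩
      exact ⟨(max m m', F ∪ F'), hanti _ _ (le_max_left _ _) _ _ Finset.subset_union_left,
        hanti _ _ (le_max_right _ _) _ _ Finset.subset_union_right⟩
    · exact fun i => hne i.1 i.2
    · exact fun i => (hcl i.1 i.2).isCompact
    · exact fun i => hcl i.1 i.2
  obtain ⟨z, hz⟩ := key
  rw [Set.mem_iInter] at hz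
  exact ⟨z, fun m F => hz (m, F)⟩

theorem Kx_closed (T : Tow L) (x : X) : IsClosed (Kx T x) := by
  have e : Kx T x = ⋂ (m : ℕ) (F : Finset ι), {z : Thread T | z.at m F ∈ T.Up m F x} := by
    ext z
    simp only [Set.mem_iInter]
    exact Iff.rfl
  rw [e]
  exact isClosed_iInter fun m => isClosed_iInter fun F => (isClopen_at T m F _).isClosed

theorem Kx_through (T : Tow L) (x : X) (m : ℕ) (F : Finset ι) (v : T.V m F)
    (hv : v ∈ T.Lo m F x) : ∃ z ∈ Kx T x, z.at m F = v := by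
  have hP : ∀ m', m ≤ m' → ∀ G, F ⊆ G → ∃ z : Thread T, z.at m F = v ∧
      z.at m' G ∈ T.Lo m' G x := by
    intro m' hm'
    induction m', hm' using Nat.le_induction with
    | base =>
      intro G hG
      rw [← T.Lo_res m G F hG x] at hv
      obtain ⟨c, hc, hcv⟩ := hv
      obtain ⟨z, hz⟩ := exists_at T m G c (T.Up_W m G x (T.Lo_Up m G x hc))
      refine ⟨z, ?_, ?_⟩
      · rw [← z.res_at m G F hG, hz, hcv]
      · rw [hz]
        exact hc
    | succ m' hm' ih =>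
      intro G hG
      obtain ⟨z, hz, hz'⟩ := ih G hG
      obtain ⟨c, hc, hcv⟩ := T.Lo_dn m' G x hz'
      obtain ⟨z', hz1⟩ := exists_at T (m' + 1) G c (T.Up_W _ G x (T.Lo_Up _ G x hc))
      refine ⟨z', ?_, ?_⟩
      · rw [← hz]
        refine at_eq_of_at_eq (m := m') (F := G) ?_ m hm' F hG
        rw [← z'.dn_at m' (m' + 1) (Nat.le_succ m') G, hz1, hcv]
      · rw [hz1]
        exact hc
  obtain ⟨z, hz⟩ := exists_common (T := T)
    (fun k G => {z | z.at m F = v ∧ z.at (max m k) (F ∪ G) ∈ T.Up (max m k) (F ∪ G) x})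
    (fun k G => (isClopen_at T m F {u | u = v}).isClosed.inter
      (isClopen_at T (max m k) (F ∪ G) _).isClosed)
    (fun k G => by
      obtain ⟨z, hz, hz'⟩ := hP (max m k) (le_max_left _ _) (F ∪ G) Finset.subset_union_left
      exact ⟨z, hz, T.Lo_Up _ _ _ hz'⟩)
    (fun k k' hk G G' hG z hz => ⟨hz.1, Up_low T x (max_le_max le_rfl hk)
      (Finset.union_subset_union_right hG) z hz.2⟩)
  exact ⟨z, fun k G => Up_low T x (le_max_right m k) Finset.subset_union_right z (hz k G).2,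
    (hz 0 ∅).1⟩

theorem Kx_ne (T : Tow L) (x : X) : (Kx T x).Nonempty := by
  obtain ⟨u, hu⟩ := (T.Up_conn 0 ∅ x).1
  obtain ⟨v, hv, -⟩ := T.Up_N1 0 ∅ x hu
  obtain ⟨z, hz, -⟩ := Kx_through T x 0 ∅ v hv
  exact ⟨z, hz⟩

theorem Mc_of_near {T : Tow L} {x : X} {F : Finset ι} {c : Thread T}
    (h : ∀ m, ∃ u ∈ T.Up m F x, Nr4 (T.adj m F) u (c.at m F)) : x ∈ Mc T F c := by
  obtain ⟨z, hz⟩ := exists_common (T := T)
    (fun m G => {z | z.at m (F ∪ G) ∈ T.Up m (F ∪ G) x ∧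
      Nr4 (T.adj m F) (z.at m F) (c.at m F)})
    (fun m G => (isClopen_at T m (F ∪ G) _).isClosed.inter
      (isClopen_at T m F {v | Nr4 (T.adj m F) v (c.at m F)}).isClosed)
    (fun m G => by
      obtain ⟨u, hu, hu'⟩ := h m
      rw [← T.Up_res m (F ∪ G) F Finset.subset_union_left x] at hu
      obtain ⟨d, hd, rfl⟩ := hu
      obtain ⟨z, hz⟩ := exists_at T m (F ∪ G) d (T.Up_W m _ x hd)
      refine ⟨z, ?_, ?_⟩
      · rw [hz]
        exact hd
      · rw [← z.res_at m (F ∪ G) F Finset.subset_union_left, hz]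
        exact hu')
    (fun k m hk G G' hG z hz => by
      refine ⟨Up_low T x hk (Finset.union_subset_union_right hG) z hz.1, ?_⟩
      have h1 := Nr4_dn T k m hk F _ _ hz.2
      rw [Thread.dn_at, Thread.dn_at] at h1
      exact h1)
  exact ⟨z, fun m G => Up_low T x le_rfl Finset.subset_union_right z (hz m G).1,
    R_of_nr4 fun m => (hz m ∅).2⟩

theorem Mc_up {T : Tow L} {x x' : X} {F : Finset ι} {c : Thread T} (h : leF L F x x')
    (hx : x ∈ Mc T F c) : x' ∈ Mc T F c := by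
  obtain ⟨z, hz, hzc⟩ := hx
  exact Mc_of_near fun m => ⟨z.at m F, T.Up_mono m F x x' h (hz m F),
    Nr4_of_Nr2 T m F _ _ (Nr2_of_adj T m F _ _ (hzc m))⟩

theorem Mc_far {T : Tow L} {x0 : X} {F : Finset ι} {c : Thread T} (h : x0 ∉ Mc T F c) :
    ∃ m0, ∀ᶠ x in 𝓝 x0, ∀ m ≥ m0, ∀ u ∈ T.Up m F x, ¬ Nr4 (T.adj m F) u (c.at m F) := by
  have h1 : ∃ m0, ∀ u ∈ T.Up m0 F x0, ¬ Nr4 (T.adj m0 F) u (c.at m0 F) := by
    by_contra hcon
    push Not at hcon
    exact h (Mc_of_near hcon)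
  obtain ⟨m0, hm0⟩ := h1
  refine ⟨m0, (T.Up_usc m0 F x0).mono fun x hx m hm u hu hn => ?_⟩
  have h2 := Nr4_dn T m0 m hm F _ _ hn
  rw [Thread.dn_at] at h2
  exact hm0 _ (hx (Up_dn_iter T m0 m hm F x ⟨u, hu, rfl⟩)) h2

theorem Mc_closed (T : Tow L) (F : Finset ι) (c : Thread T) : IsClosed (Mc T F c) := by
  rw [← isOpen_compl_iff, isOpen_iff_mem_nhds]
  intro x0 hx0
  obtain ⟨m0, hm0⟩ := Mc_far hx0
  filter_upwards [hm0] with x hx hxM
  obtain ⟨z, hz, hzc⟩ := hxM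
  exact hx m0 le_rfl _ (hz m0 F) (Nr4_of_Nr2 T m0 F _ _ (Nr2_of_adj T m0 F _ _ (hzc m0)))

theorem Mc_near {T : Tow L} {x : X} {F : Finset ι} {c : Thread T} (h : x ∈ Mc T F c) (m : ℕ) :
    ∃ v ∈ T.Lo m F x, Nr2 (T.adj m F) v (c.at m F) := by
  obtain ⟨z, hz, hzc⟩ := h
  obtain ⟨a, ha, hadj⟩ := T.Up_N1 m F x (hz m F)
  exact ⟨a, ha, z.at m F, hadj, hzc m⟩

/-- for a letter with value `0` the set `Kx x` is one point modulo `R {j}` -/
theorem Kx_zero (T : Tow L) (j : ι) (x : X) (h : L.r j x = 0) (z : Thread T) (hz : z ∈ Kx T x)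
    (m : ℕ) : T.adj m {j} (z.at m {j}) (T.o m j) := by
  obtain ⟨a, ha, hadj⟩ := T.Up_N1 m {j} x (hz m {j})
  have h1 : a = T.o m j := T.bz_Lo m j x (T.bz_zero m j x h) ha
  rw [h1] at hadj
  exact T.asymm m {j} _ _ hadj

end Pool.Agent.H26DD
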