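import Pool.Agent.Helper26.DD.KxA

/-!
# DD module II-6: `Kx x` has connected images at all finite levels.

For `m ≤ m'` let `I m' = dn m m' '' Up m' F x`, a decreasing sequence (in `m'`) of subsets of the
finite set `V m F` (`Up_dn`), so `I m' = I m1` for some `m1` and all `m' ≥ m1`. `I m1` is connected
(image of `Up m1 F x`, `Up_conn`, `dn_adj`). The image of `Kx x` at `(m,F)` is `I m1`: `⊆` clear.
`⊇`: if `v ∈ I m'` for all `m' ≥ m`, the closed sets `{z | z.at m F = v ∧ z.at m' G ∈ Up m' G x}`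
(`m' ≥ m`, `G ⊇ F`) are nonempty (lift `v` to `Up m' F x`, then to `Up m' G x` by `Up_res`, then
`exists_at`) and directed.
-/

set_option autoImplicit false

namespace Pool.Agent.H26DD

open Topology

variable {X : Type} [TopologicalSpace X] {ι : Type} [DecidableEq ι] {L : Letters X ι}

private theorem KxB_low {T : Tow L} {x : X} {z : Thread T} {k k' : ℕ} {G G' : Finset ι}
    (hk : k ≤ k') (hG : G ⊆ G') (h : z.at k' G' ∈ T.Up k' G' x) : z.at k G ∈ T.Up k G x := by
  have h1 : z.at k' G ∈ T.Up k' G x := by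
    rw [← T.Up_res k' G' G hG x]
    exact ⟨_, h, Thread.res_at z k' G' G hG⟩
  exact Up_dn_iter T k k' hk G x ⟨_, h1, Thread.dn_at z k k' hk G⟩

theorem Kx_image (T : Tow L) (x : X) (m : ℕ) (F : Finset ι) (v : T.V m F)
    (h : ∀ m' (hm : m ≤ m'), ∃ u ∈ T.Up m' F x, T.dn m m' hm F u = v) :
    ∃ z ∈ Kx T x, z.at m F = v := by
  let C : ℕ × Finset ι → Set (Thread T) := fun p =>
    {z | z.at m F = v} ∩ {z | z.at (max m p.1) (F ∪ p.2) ∈ T.Up (max m p.1) (F ∪ p.2) x}
  have hcl : ∀ p, IsClosed (C p) := by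
    intro p
    refine IsClosed.inter ?_ ?_
    · exact (isClopen_at T m F {v}).1
    · exact (isClopen_at T _ _ _).1
  have hne : ∀ p, (C p).Nonempty := by
    intro p
    obtain ⟨u, hu, hv⟩ := h (max m p.1) (le_max_left _ _)
    rw [← T.Up_res (max m p.1) (F ∪ p.2) F Finset.subset_union_left x] at hu
    obtain ⟨w, hw, hwu⟩ := hu
    obtain ⟨z, hz⟩ := exists_at T _ _ w (T.Up_W _ _ _ hw)
    refine ⟨z, ?_, ?_⟩
    · change z.at m F = v
      rw [← Thread.dn_at z m (max m p.1) (le_max_left _ _) F,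
        ← Thread.res_at z (max m p.1) (F ∪ p.2) F Finset.subset_union_left, hz, hwu, hv]
    · change z.at (max m p.1) (F ∪ p.2) ∈ T.Up (max m p.1) (F ∪ p.2) x
      rw [hz]
      exact hw
  have hdir : Directed (· ⊇ ·) C := by
    intro p q
    refine ⟨(max p.1 q.1, p.2 ∪ q.2), ?_, ?_⟩
    · rintro z ⟨h1, h2⟩
      refine ⟨h1, ?_⟩
      exact KxB_low (max_le_max_left m (le_max_left _ _))
        (Finset.union_subset_union_right Finset.subset_union_left) h2
    · rintro z ⟨h1, h2⟩
      refine ⟨h1, ?_⟩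
      exact KxB_low (max_le_max_left m (le_max_right _ _))
        (Finset.union_subset_union_right Finset.subset_union_right) h2
  obtain ⟨z, hz⟩ := IsCompact.nonempty_iInter_of_directed_nonempty_isCompact_isClosed C hdir hne
    (fun p => (hcl p).isCompact) hcl
  rw [Set.mem_iInter] at hz
  refine ⟨z, ?_, (hz (0, ∅)).1⟩
  intro k G
  exact KxB_low (le_max_right m k) Finset.subset_union_right (hz (k, G)).2

theorem Kx_conn (T : Tow L) (x : X) (m : ℕ) (F : Finset ι) :
    Conn (T.adj m F) ((fun z : Thread T => z.at m F) '' Kx T x) := by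
  have anti : ∀ a b : ℕ, a ≤ b →
      T.dn m (m + b) (Nat.le_add_right m b) F '' T.Up (m + b) F x ⊆
        T.dn m (m + a) (Nat.le_add_right m a) F '' T.Up (m + a) F x := by
    rintro a b hab _ ⟨u, hu, rfl⟩
    refine ⟨T.dn (m + a) (m + b) (Nat.add_le_add_left hab m) F u,
      Up_dn_iter T _ _ _ F x ⟨u, hu, rfl⟩, ?_⟩
    rw [T.dn_dn]
  let f : ℕ →o (Set (T.V m F))ᵒᵈ :=
    ⟨fun k => OrderDual.toDual (T.dn m (m + k) (Nat.le_add_right m k) F '' T.Up (m + k) F x),
      fun a b hab => anti a b hab⟩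
  obtain ⟨n, hn⟩ := WellFoundedGT.monotone_chain_condition f
  have hn' : ∀ k, n ≤ k → T.dn m (m + n) (Nat.le_add_right m n) F '' T.Up (m + n) F x =
      T.dn m (m + k) (Nat.le_add_right m k) F '' T.Up (m + k) F x := fun k hk => hn k hk
  have heq : (fun z : Thread T => z.at m F) '' Kx T x =
      T.dn m (m + n) (Nat.le_add_right m n) F '' T.Up (m + n) F x := by
    apply Set.Subset.antisymm
    · rintro _ ⟨z, hz, rfl⟩
      exact ⟨z.at (m + n) F, hz _ _, Thread.dn_at z m (m + n) _ F⟩
    · intro v hv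
      obtain ⟨z, hz, hzv⟩ := Kx_image T x m F v (by
        intro m' hm
        obtain ⟨k, rfl⟩ := Nat.exists_eq_add_of_le hm
        have hvk : v ∈ T.dn m (m + k) (Nat.le_add_right m k) F '' T.Up (m + k) F x := by
          rcases le_total n k with hk | hk
          · rw [← hn' k hk]
            exact hv
          · exact anti k n hk hv
        obtain ⟨u, hu, huv⟩ := hvk
        exact ⟨u, hu, huv⟩)
      exact ⟨z, hz, hzv⟩
  rw [heq]
  exact Conn.image _ (fun a _ b _ hab => T.dn_adj _ _ _ F a b hab) (T.Up_conn _ F x)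

end Pool.Agent.H26DD
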