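import Pool.Agent.Helper26.DD.Thr

/-!
# DD module II-3: the relations `R F` (equivalence relations by the subdivision property `sd`).

`nr2_dn`: `sd`.  `R_trans`: `sd` at stage `m+1` and `Thread.dn_at`.
`R_of_nr4`: at stage `m+2` the points are joined by `a - a1 - c - c1 - b`; `sd` twice.
`far`: if `R` fails there is `m0` with `¬ adj m0 ..`; for `m ≥ m0 + 3` a chain of length at most
six at stage `m` would be mapped by `dn` to a chain of length at most six at stage `m0+3`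
(`dn_adj`), then by `sd` (three times, halving) to adjacency at stage `m0`.
(length 6 at m0+3 -> length 3 at m0+2 -> length 2 at m0+1 -> length 1 at m0.)
-/

set_option autoImplicit false

namespace Pool.Agent.H26DD

variable {X : Type} [TopologicalSpace X] {ι : Type} [DecidableEq ι] {L : Letters X ι}

/-- distance at most four -/
def Nr4 {V : Type} (adj : V → V → Prop) (a b : V) : Prop := ∃ c, Nr2 adj a c ∧ Nr2 adj c b

/-- distance at most six -/
def Nr6 {V : Type} (adj : V → V → Prop) (a b : V) : Prop :=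
  ∃ c d, Nr2 adj a c ∧ Nr2 adj c d ∧ Nr2 adj d b

theorem Nr2_of_adj (T : Tow L) (m : ℕ) (F : Finset ι) (a b : T.V m F) (h : T.adj m F a b) :
    Nr2 (T.adj m F) a b := ⟨a, T.arefl m F a, h⟩

theorem Nr2_symm (T : Tow L) (m : ℕ) (F : Finset ι) (a b : T.V m F)
    (h : Nr2 (T.adj m F) a b) : Nr2 (T.adj m F) b a := by
  obtain ⟨c, h1, h2⟩ := h
  exact ⟨c, T.asymm m F _ _ h2, T.asymm m F _ _ h1⟩

theorem Nr4_of_Nr2 (T : Tow L) (m : ℕ) (F : Finset ι) (a b : T.V m F)
    (h : Nr2 (T.adj m F) a b) : Nr4 (T.adj m F) a b :=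
  ⟨b, h, b, T.arefl m F b, T.arefl m F b⟩

theorem Nr4_symm (T : Tow L) (m : ℕ) (F : Finset ι) (a b : T.V m F)
    (h : Nr4 (T.adj m F) a b) : Nr4 (T.adj m F) b a := by
  obtain ⟨c, h1, h2⟩ := h
  exact ⟨c, Nr2_symm T m F _ _ h2, Nr2_symm T m F _ _ h1⟩

/-- iterated bonding maps and restrictions preserve the near relations -/
theorem Nr2_dn (T : Tow L) (k m : ℕ) (h : k ≤ m) (F : Finset ι) (a b : T.V m F)
    (hab : Nr2 (T.adj m F) a b) : Nr2 (T.adj k F) (T.dn k m h F a) (T.dn k m h F b) := by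
  obtain ⟨c, h1, h2⟩ := hab
  exact ⟨T.dn k m h F c, T.dn_adj k m h F _ _ h1, T.dn_adj k m h F _ _ h2⟩

theorem Nr4_dn (T : Tow L) (k m : ℕ) (h : k ≤ m) (F : Finset ι) (a b : T.V m F)
    (hab : Nr4 (T.adj m F) a b) : Nr4 (T.adj k F) (T.dn k m h F a) (T.dn k m h F b) := by
  obtain ⟨c, h1, h2⟩ := hab
  exact ⟨T.dn k m h F c, Nr2_dn T k m h F _ _ h1, Nr2_dn T k m h F _ _ h2⟩

theorem Nr2_res (T : Tow L) (m : ℕ) (F G : Finset ι) (h : G ⊆ F) (a b : T.V m F)
    (hab : Nr2 (T.adj m F) a b) : Nr2 (T.adj m G) (T.res m F G h a) (T.res m F G h b) := by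
  obtain ⟨c, h1, h2⟩ := hab
  exact ⟨T.res m F G h c, T.res_adj m F G h _ _ h1, T.res_adj m F G h _ _ h2⟩

theorem nr2_down (T : Tow L) (m : ℕ) (F : Finset ι) (a b : T.V (m + 1) F)
    (hab : Nr2 (T.adj (m + 1) F) a b) :
    T.adj m F (T.dn m (m + 1) (Nat.le_succ m) F a) (T.dn m (m + 1) (Nat.le_succ m) F b) := by
  obtain ⟨c, h1, h2⟩ := hab
  exact T.sd m F a c b h1 h2

theorem nr4_down (T : Tow L) (m : ℕ) (F : Finset ι) (a b : T.V (m + 1) F)
    (hab : Nr4 (T.adj (m + 1) F) a b) :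
    Nr2 (T.adj m F) (T.dn m (m + 1) (Nat.le_succ m) F a)
      (T.dn m (m + 1) (Nat.le_succ m) F b) := by
  obtain ⟨c, h1, h2⟩ := hab
  exact ⟨_, nr2_down T m F _ _ h1, nr2_down T m F _ _ h2⟩

theorem R_refl (T : Tow L) (F : Finset ι) (z : Thread T) : R T F z z :=
  fun m => T.arefl m F _

theorem R_symm {T : Tow L} {F : Finset ι} {z z' : Thread T} (h : R T F z z') :
    R T F z' z :=
  fun m => T.asymm m F _ _ (h m)

theorem R_trans {T : Tow L} {F : Finset ι} {z z' z'' : Thread T} (h : R T F z z')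
    (h' : R T F z' z'') : R T F z z'' := by
  intro m
  have := T.sd m F _ _ _ (h (m + 1)) (h' (m + 1))
  rwa [Thread.dn_at, Thread.dn_at] at this

theorem R_mono {T : Tow L} {F G : Finset ι} (hG : G ⊆ F) {z z' : Thread T}
    (h : R T F z z') : R T G z z' := by
  intro m
  have := T.res_adj m F G hG _ _ (h m)
  rwa [Thread.res_at, Thread.res_at] at this

theorem R_of_nr4 {T : Tow L} {F : Finset ι} {z z' : Thread T}
    (h : ∀ m, Nr4 (T.adj m F) (z.at m F) (z'.at m F)) : R T F z z' := by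
  have h2 : ∀ m, Nr2 (T.adj m F) (z.at m F) (z'.at m F) := by
    intro m
    have := nr4_down T m F _ _ (h (m + 1))
    rwa [Thread.dn_at, Thread.dn_at] at this
  intro m
  have := nr2_down T m F _ _ (h2 (m + 1))
  rwa [Thread.dn_at, Thread.dn_at] at this

theorem R_of_nr2 {T : Tow L} {F : Finset ι} {z z' : Thread T}
    (h : ∀ m, Nr2 (T.adj m F) (z.at m F) (z'.at m F)) : R T F z z' :=
  R_of_nr4 fun m => Nr4_of_Nr2 T m F _ _ (h m)

theorem far {T : Tow L} {F : Finset ι} {z z' : Thread T} (h : ¬ R T F z z') :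
    ∃ m0, ∀ m ≥ m0, ¬ Nr6 (T.adj m F) (z.at m F) (z'.at m F) := by
  have h' : ∃ m0, ¬ T.adj m0 F (z.at m0 F) (z'.at m0 F) := by
    by_contra hc
    push Not at hc
    exact h hc
  obtain ⟨m0, hm0⟩ := h'
  refine ⟨m0 + 3, fun m hm hN => hm0 ?_⟩
  obtain ⟨c, d, h1, h2, h3⟩ := hN
  -- push down to stage `m0 + 3`
  have h1 := Nr2_dn T (m0 + 3) m hm F _ _ h1
  have h2 := Nr2_dn T (m0 + 3) m hm F _ _ h2
  have h3 := Nr2_dn T (m0 + 3) m hm F _ _ h3
  rw [Thread.dn_at] at h1 h3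
  -- stage `m0 + 2`: distance at most three
  have g1 := nr2_down T (m0 + 2) F _ _ h1
  have g2 := nr2_down T (m0 + 2) F _ _ h2
  have g3 := nr2_down T (m0 + 2) F _ _ h3
  rw [Thread.dn_at] at g1 g3
  -- stage `m0 + 1`: distance at most two
  have f1 := T.sd (m0 + 1) F _ _ _ g1 g2
  have f2 := T.dn_adj (m0 + 1) (m0 + 2) (Nat.le_succ _) F _ _ g3
  rw [Thread.dn_at] at f1 f2
  -- stage `m0`
  have e := T.sd m0 F _ _ _ f1 f2
  rwa [Thread.dn_at, Thread.dn_at] at e

theorem isClosed_R (T : Tow L) (F : Finset ι) :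
    IsClosed {p : Thread T × Thread T | R T F p.1 p.2} := by
  have : {p : Thread T × Thread T | R T F p.1 p.2} =
      ⋂ m : ℕ, (fun p : Thread T × Thread T => (p.1.at m F, p.2.at m F)) ⁻¹'
        {q : T.V m F × T.V m F | T.adj m F q.1 q.2} := by
    ext p
    simp [R]
  rw [this]
  refine isClosed_iInter fun m => IsClosed.preimage ?_ (isClosed_discrete _)
  exact ((continuous_at T m F).comp continuous_fst).prodMk
    ((continuous_at T m F).comp continuous_snd)

/-- the graph of `RR` is closed -/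
theorem isClosed_RR (T : Tow L) : IsClosed {p : Thread T × Thread T | RR T p.1 p.2} := by
  have : {p : Thread T × Thread T | RR T p.1 p.2} =
      ⋂ F : Finset ι, {p : Thread T × Thread T | R T F p.1 p.2} := by
    ext p
    simp [RR]
  rw [this]
  exact isClosed_iInter fun F => isClosed_R T F


theorem R_empty (T : Tow L) (z z' : Thread T) : R T ∅ z z' := by
  intro m
  rw [T.empt m (z.at m ∅) (z'.at m ∅)]
  exact T.arefl m ∅ _

end Pool.Agent.H26DD
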