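import Pool.Agent.Helper26.DD.Sat
import Pool.Agent.Helper26.DD.Surj
import Pool.Agent.Helper26.DD.KxB

/-!
# DD module II-22: the quotient `YY T` = threads modulo `RR`.

Compact: quotient of a compact space. Hausdorff: if `¬ RR z z'` there are `F` and (by `far`) `m` with
`¬ Nr6 (z.at m F) (z'.at m F)`. Let `C = {w | ¬ adj (w.at m F) (z.at m F)}` (closed). Its `RR`-saturation
`{w | ∃ c ∈ C, RR c w}` is closed (image of a compact set: projection of the closed set
`{(c,w) | c ∈ C, RR c w}`, `isClosed_RR`) and does not contain `z` (`RR c z` gives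
`adj (c.at m F) (z.at m F)`), its complement `O` is open, `RR`-saturated, contained in `{w | adj ..z}`; its
image in the quotient is open. The same for `z'`: `O'`. `O, O'` are disjoint.

`conn_preimage`: let `A ⊆ YY T` be connected (closed not needed) and `Â` its preimage. If the image of
`Â` at `(m,F)` is not connected it is a disjoint union of nonempty `P, Q` without adjacencies between
them; `{z ∈ Â | z.at m F ∈ P}` and `{.. ∈ Q}` are relatively clopen in `Â` and `RR`-saturated in `Â`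
(`RR z z'` gives adjacency at `(m,F)`); the corresponding subsets of `A` separate `A`. (Use that the quotient
map restricted ... : for closed `A` the two parts of `Â` are compact, so their images are closed
disjoint sets covering `A`.)

`conn_of_levels`: `Â` closed, `RR`-saturated with all images at `(m,F)` connected; then its image in
the quotient is connected: otherwise `Â = P ∪ Q`, closed, nonempty, disjoint, `RR`-saturated; the closed
sets `{(p,q) ∈ P × Q | adj (p.at m F) (q.at m F)}` are antitone in `(m,F)` and have empty intersection, so for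
some `(m,F)` there is no adjacency between the images `P_m`, `Q_m`; but their union is connected (and
a walk from `P_m` to `Q_m` inside must contain an adjacency, `P_m ∩ Q_m = ∅` by reflexivity).
-/

set_option autoImplicit false

namespace Pool.Agent.H26DD

open Topology

variable {X : Type} [TopologicalSpace X] {ι : Type} [DecidableEq ι] {L : Letters X ι}

/-- the setoid of `RR` -/
def RRs (T : Tow L) : Setoid (Thread T) where
  r := RR T
  iseqv := ⟨fun z F => R_refl T F z, fun h F => R_symm (h F),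
    fun h h' F => R_trans (h F) (h' F)⟩

/-- the quotient space -/
def YY (T : Tow L) : Type := Quotient (RRs T)

instance (T : Tow L) : TopologicalSpace (YY T) :=
  inferInstanceAs (TopologicalSpace (Quotient (RRs T)))

/-- the quotient map -/
def YY.mk {T : Tow L} (z : Thread T) : YY T := Quotient.mk (RRs T) z

theorem YY.continuous_mk (T : Tow L) : Continuous (YY.mk (T := T)) :=
  continuous_coinduced_rng

theorem YY.mk_eq {T : Tow L} {z z' : Thread T} : YY.mk z = YY.mk z' ↔ RR T z z' := by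
  unfold YY.mk
  exact ⟨fun h => Quotient.exact h, fun h => Quotient.sound h⟩

theorem YY.surj (T : Tow L) : Function.Surjective (YY.mk (T := T)) := by
  intro y
  obtain ⟨z, hz⟩ := Quotient.exists_rep y
  exact ⟨z, hz⟩

/-- a set in the quotient is open iff its preimage is -/
theorem YY.isOpen_iff {T : Tow L} (O : Set (YY T)) : IsOpen O ↔ IsOpen (YY.mk ⁻¹' O) :=
  isOpen_coinduced

/-- a set in the quotient is closed iff its preimage is -/
theorem YY.isClosed_iff {T : Tow L} (O : Set (YY T)) : IsClosed O ↔ IsClosed (YY.mk ⁻¹' O) := by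
  rw [← isOpen_compl_iff, ← isOpen_compl_iff, YY.isOpen_iff, Set.preimage_compl]

/-- the quotient map is closed -/
theorem YY.closed_mk {T : Tow L} {B : Set (Thread T)} (hB : IsClosed B) :
    IsClosed (YY.mk '' B) := by
  rw [YY.isClosed_iff]
  have e : YY.mk ⁻¹' (YY.mk '' B) =
      Prod.snd '' ({p : Thread T × Thread T | p.1 ∈ B} ∩
        {p : Thread T × Thread T | RR T p.1 p.2}) := by
    ext w
    constructor
    · rintro ⟨c, hc, h⟩
      exact ⟨(c, w), ⟨hc, YY.mk_eq.1 h⟩, rfl⟩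
    · rintro ⟨⟨c, w'⟩, ⟨hc, h⟩, rfl⟩
      exact ⟨c, hc, YY.mk_eq.2 h⟩
  rw [e]
  have hcl : IsClosed ({p : Thread T × Thread T | p.1 ∈ B} ∩
        {p : Thread T × Thread T | RR T p.1 p.2}) :=
    (hB.preimage continuous_fst).inter (isClosed_RR T)
  exact (hcl.isCompact.image continuous_snd).isClosed

instance instCompactYY (T : Tow L) : CompactSpace (YY T) := by
  have h := isCompact_univ.image (YY.continuous_mk T)
  rw [Set.image_univ, (YY.surj T).range_eq] at h
  exact ⟨h⟩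

instance instT2YY (T : Tow L) : T2Space (YY T) := by
  refine ⟨?_⟩
  intro y y' hne
  obtain ⟨z, rfl⟩ := YY.surj T y
  obtain ⟨z', rfl⟩ := YY.surj T y'
  have hR : ¬ RR T z z' := fun h => hne (YY.mk_eq.2 h)
  have hF : ∃ F, ¬ R T F z z' := by
    by_contra hc
    exact hR (fun F => by_contra fun h => hc ⟨F, h⟩)
  obtain ⟨F, hF⟩ := hF
  obtain ⟨m, hm⟩ := far hF
  have hm6 := hm m (le_refl m)
  have key : ∀ y : Thread T, IsClosed {w : Thread T | ¬ T.adj m F (w.at m F) (y.at m F)} :=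
    fun y => (isClopen_at T m F {v | ¬ T.adj m F v (y.at m F)}).1
  refine ⟨(YY.mk '' {w : Thread T | ¬ T.adj m F (w.at m F) (z.at m F)})ᶜ,
    (YY.mk '' {w : Thread T | ¬ T.adj m F (w.at m F) (z'.at m F)})ᶜ,
    (YY.closed_mk (key z)).isOpen_compl, (YY.closed_mk (key z')).isOpen_compl, ?_, ?_, ?_⟩
  · rintro ⟨c, hc, h⟩
    exact hc (YY.mk_eq.1 h F m)
  · rintro ⟨c, hc, h⟩
    exact hc (YY.mk_eq.1 h F m)
  · rw [Set.disjoint_left]
    intro y hy hy'
    obtain ⟨w, rfl⟩ := YY.surj T y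
    have h1 : T.adj m F (w.at m F) (z.at m F) := by
      by_contra hc
      exact hy ⟨w, hc, rfl⟩
    have h2 : T.adj m F (w.at m F) (z'.at m F) := by
      by_contra hc
      exact hy' ⟨w, hc, rfl⟩
    exact hm6 ⟨z'.at m F, z'.at m F, ⟨w.at m F, T.asymm m F _ _ h1, h2⟩,
      ⟨z'.at m F, T.arefl m F _, T.arefl m F _⟩, ⟨z'.at m F, T.arefl m F _, T.arefl m F _⟩⟩

theorem conn_preimage {T : Tow L} (A : Set (YY T)) (hA : IsClosed A) (hc : IsConnected A)
    (m : ℕ) (F : Finset ι) :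
    Conn (T.adj m F) ((fun z : Thread T => z.at m F) '' (YY.mk ⁻¹' A)) := by
  have hcl : IsClosed (YY.mk ⁻¹' A : Set (Thread T)) := (YY.isClosed_iff A).1 hA
  refine ⟨?_, ?_⟩
  · obtain ⟨y, hy⟩ := hc.1
    obtain ⟨z, rfl⟩ := YY.surj T y
    exact ⟨z.at m F, z, hy, rfl⟩
  · intro a ha b hb
    set I := (fun z : Thread T => z.at m F) '' (YY.mk ⁻¹' A) with hI
    by_contra hab
    set P : Set (T.V m F) := {v | Relation.ReflTransGen
      (fun u v => u ∈ I ∧ v ∈ I ∧ T.adj m F u v) a v} with hP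
    have h1 : IsClosed (YY.mk '' ((YY.mk ⁻¹' A) ∩ {z : Thread T | z.at m F ∈ P})) :=
      YY.closed_mk (hcl.inter (isClopen_at T m F P).1)
    have h2 : IsClosed (YY.mk '' ((YY.mk ⁻¹' A) ∩ {z : Thread T | z.at m F ∈ Pᶜ})) :=
      YY.closed_mk (hcl.inter (isClopen_at T m F Pᶜ).1)
    have h3 := (isPreconnected_closed_iff.1 hc.2) _ _ h1 h2 ?_ ?_ ?_
    · obtain ⟨y, _, ⟨z1, ⟨hz1, hz1'⟩, e1⟩, ⟨z2, ⟨hz2, hz2'⟩, e2⟩⟩ := h3
      have hadj : T.adj m F (z1.at m F) (z2.at m F) := YY.mk_eq.1 (e1.trans e2.symm) F m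
      exact hz2' (Relation.ReflTransGen.tail hz1' ⟨⟨z1, hz1, rfl⟩, ⟨z2, hz2, rfl⟩, hadj⟩)
    · intro y hy
      obtain ⟨z, rfl⟩ := YY.surj T y
      by_cases hz : z.at m F ∈ P
      · exact Or.inl ⟨z, ⟨hy, hz⟩, rfl⟩
      · exact Or.inr ⟨z, ⟨hy, hz⟩, rfl⟩
    · obtain ⟨z, hz, rfl⟩ := ha
      exact ⟨YY.mk z, hz, z, ⟨hz, Relation.ReflTransGen.refl⟩, rfl⟩
    · obtain ⟨z, hz, rfl⟩ := hb
      exact ⟨YY.mk z, hz, z, ⟨hz, hab⟩, rfl⟩

/-- two nonempty sets covering a connected set of vertices touch -/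
theorem Conn.touch {V : Type} {adj : V → V → Prop} (hr : ∀ v, adj v v) {I P Q : Set V}
    (hc : Conn adj I) (hI : ∀ v ∈ I, v ∈ P ∨ v ∈ Q) (hP : ∃ p ∈ P, p ∈ I)
    (hQ : ∃ q ∈ Q, q ∈ I) : ∃ p ∈ P, ∃ q ∈ Q, adj p q := by
  obtain ⟨p, hp, hpI⟩ := hP
  obtain ⟨q, hq, hqI⟩ := hQ
  have key : ∀ v, Relation.ReflTransGen (fun u v => u ∈ I ∧ v ∈ I ∧ adj u v) p v →
      v ∈ P ∨ ∃ p ∈ P, ∃ q ∈ Q, adj p q := by
    intro v hv
    induction hv with
    | refl => exact Or.inl hp
    | tail _ hs ih =>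
      rcases ih with ih | ih
      · rcases hI _ hs.2.1 with h | h
        · exact Or.inl h
        · exact Or.inr ⟨_, ih, _, h, hs.2.2⟩
      · exact Or.inr ih
  rcases key q (hc.2 p hpI q hqI) with h | h
  · exact ⟨q, h, q, hq, hr q⟩
  · exact h

/-- adjacency passes to lower levels -/
theorem adj_mono {T : Tow L} {z z' : Thread T} {m m' : ℕ} {F F' : Finset ι} (hm : m ≤ m')
    (hF : F ⊆ F') (h : T.adj m' F' (z.at m' F') (z'.at m' F')) :
    T.adj m F (z.at m F) (z'.at m F) := by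
  have h1 := T.res_adj m' F' F hF _ _ h
  rw [Thread.res_at, Thread.res_at] at h1
  have h2 := T.dn_adj m m' hm F _ _ h1
  rwa [Thread.dn_at, Thread.dn_at] at h2

theorem conn_of_levels {T : Tow L} (B : Set (Thread T)) (hB : IsClosed B) (hne : B.Nonempty)
    (hc : ∀ m F, Conn (T.adj m F) ((fun z : Thread T => z.at m F) '' B)) :
    IsConnected (YY.mk '' B) := by
  refine ⟨hne.image _, ?_⟩
  rw [isPreconnected_closed_iff]
  intro t t' ht ht' hcov hnt hnt'
  have hP : IsClosed (B ∩ YY.mk ⁻¹' t) := hB.inter ((YY.isClosed_iff t).1 ht)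
  have hQ : IsClosed (B ∩ YY.mk ⁻¹' t') := hB.inter ((YY.isClosed_iff t').1 ht')
  let S : ℕ × Finset ι → Set (Thread T × Thread T) := fun i =>
    ((B ∩ YY.mk ⁻¹' t) ×ˢ (B ∩ YY.mk ⁻¹' t')) ∩
      {p | T.adj i.1 i.2 (p.1.at i.1 i.2) (p.2.at i.1 i.2)}
  have hScl : ∀ i, IsClosed (S i) := by
    intro i
    refine (hP.prod hQ).inter ?_
    have hcont : Continuous (fun p : Thread T × Thread T =>
        (p.1.at i.1 i.2, p.2.at i.1 i.2)) :=
      ((continuous_at T i.1 i.2).comp continuous_fst).prodMk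
        ((continuous_at T i.1 i.2).comp continuous_snd)
    exact (isClosed_discrete {q : T.V i.1 i.2 × T.V i.1 i.2 | T.adj i.1 i.2 q.1 q.2}).preimage
      hcont
  have hSne : ∀ i, (S i).Nonempty := by
    intro i
    obtain ⟨_, ⟨b, hb, rfl⟩, hbt⟩ := hnt
    obtain ⟨_, ⟨b', hb', rfl⟩, hbt'⟩ := hnt'
    have h := Conn.touch (T.arefl i.1 i.2) (hc i.1 i.2)
      (P := (fun z : Thread T => z.at i.1 i.2) '' (B ∩ YY.mk ⁻¹' t))
      (Q := (fun z : Thread T => z.at i.1 i.2) '' (B ∩ YY.mk ⁻¹' t')) ?_ ?_ ?_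
    · obtain ⟨_, ⟨p, hp, rfl⟩, _, ⟨q, hq, rfl⟩, hpq⟩ := h
      exact ⟨(p, q), ⟨hp, hq⟩, hpq⟩
    · rintro v ⟨z, hz, rfl⟩
      rcases hcov ⟨z, hz, rfl⟩ with h | h
      · exact Or.inl ⟨z, ⟨hz, h⟩, rfl⟩
      · exact Or.inr ⟨z, ⟨hz, h⟩, rfl⟩
    · exact ⟨_, ⟨b, ⟨hb, hbt⟩, rfl⟩, ⟨b, hb, rfl⟩⟩
    · exact ⟨_, ⟨b', ⟨hb', hbt'⟩, rfl⟩, ⟨b', hb', rfl⟩⟩
  have hdir : Directed (fun a b => a ⊇ b) S := by
    intro i j
    refine ⟨(max i.1 j.1, i.2 ∪ j.2), ?_, ?_⟩
    · rintro p ⟨hp, ha⟩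
      exact ⟨hp, adj_mono (le_max_left _ _) Finset.subset_union_left ha⟩
    · rintro p ⟨hp, ha⟩
      exact ⟨hp, adj_mono (le_max_right _ _) Finset.subset_union_right ha⟩
  obtain ⟨p, hp⟩ := IsCompact.nonempty_iInter_of_directed_nonempty_isCompact_isClosed S hdir
    hSne (fun i => (hScl i).isCompact) hScl
  rw [Set.mem_iInter] at hp
  have h0 := (hp (0, ∅)).1
  have hRR : RR T p.1 p.2 := fun F m => (hp (m, F)).2
  refine ⟨YY.mk p.1, ⟨p.1, h0.1.1, rfl⟩, h0.1.2, ?_⟩
  rw [YY.mk_eq.2 hRR]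
  exact h0.2.2

instance instConnYY (T : Tow L) : ConnectedSpace (YY T) := by
  have himg : ∀ m F, (fun z : Thread T => z.at m F) '' Set.univ = T.W m F := by
    intro m F
    ext v
    constructor
    · rintro ⟨z, _, rfl⟩
      exact z.mem_W m F
    · intro hv
      obtain ⟨z, hz⟩ := exists_at T m F v hv
      exact ⟨z, Set.mem_univ _, hz⟩
  have hne : (Set.univ : Set (Thread T)).Nonempty := by
    obtain ⟨v, hv⟩ := (W_conn T 0 ∅).1
    obtain ⟨z, _⟩ := exists_at T 0 ∅ v hv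
    exact ⟨z, Set.mem_univ _⟩
  have h := conn_of_levels (T := T) Set.univ isClosed_univ hne (fun m F => by
    rw [himg]
    exact W_conn T m F)
  rw [Set.image_univ, (YY.surj T).range_eq] at h
  exact connectedSpace_iff_univ.2 h

end Pool.Agent.H26DD
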