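import Pool.Agent.Helper26.DD.QuoA
import Pool.Agent.Helper26.DD.HIa

/-!
# DD module II-23: `YY T` is hereditarily indecomposable.

`A, B` closed connected, `c ∈ A ∩ B`. Suppose `a ∈ A \ B`, `b ∈ B \ A`. `Â, B̂` the preimages (closed,
`RR`-saturated), `â, b̂` representatives. There is `F1` with `â ∉ sat F1 B̂`: otherwise for all `(m,F)` the
closed set `{z ∈ B̂ | Nr4 (z.at m F) (â.at m F)}` is nonempty, they are antitone in `(m,F)`, a common
point `z` has `RR z â` (`R_of_nr4`), so `â ∈ B̂`. The same for all `F ⊇ F1` (`R_mono`). In the same way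
`F2` for `b̂` and `Â`. `F = F1 ∪ F2`. `sat F Â`, `sat F B̂` are `F`-continua (`FC_sat_of`,
`conn_preimage`), intersect, and are not comparable as `â ∈ sat F Â \ sat F B̂` etc. Contradiction
to `HI_all`.
-/

set_option autoImplicit false

namespace Pool.Agent.H26DD

open Topology

variable {X : Type} [TopologicalSpace X] {ι : Type} [DecidableEq ι] {L : Letters X ι}

private theorem QuoB_sep {T : Tow L} {S : Set (Thread T)} (hS : IsClosed S) {z : Thread T}
    (h : ¬ ∃ s ∈ S, RR T s z) : ∃ F, z ∉ sat T F S := by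
  by_contra hcon
  have hcon' : ∀ F, ∃ s ∈ S, R T F s z := by
    intro F
    by_contra hF
    exact hcon ⟨F, hF⟩
  let D : Finset ι → Set (Thread T) := fun F => S ∩ {s | R T F s z}
  have hcl : ∀ F, IsClosed (D F) := by
    intro F
    refine hS.inter ?_
    have hc : Continuous (fun s : Thread T => ((s, z) : Thread T × Thread T)) := by fun_prop
    exact (isClosed_R T F).preimage hc
  have hne : ∀ F, (D F).Nonempty := by
    intro F
    obtain ⟨s, hs, hR⟩ := hcon' F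
    exact ⟨s, hs, hR⟩
  have hdir : Directed (· ⊇ ·) D := by
    intro F G
    refine ⟨F ∪ G, ?_, ?_⟩
    · rintro s ⟨h1, h2⟩
      exact ⟨h1, R_mono Finset.subset_union_left h2⟩
    · rintro s ⟨h1, h2⟩
      exact ⟨h1, R_mono Finset.subset_union_right h2⟩
  obtain ⟨s, hs⟩ := IsCompact.nonempty_iInter_of_directed_nonempty_isCompact_isClosed D hdir hne
    (fun p => (hcl p).isCompact) hcl
  rw [Set.mem_iInter] at hs
  exact h ⟨s, (hs ∅).1, fun F => (hs F).2⟩

private theorem QuoB_sep' {T : Tow L} {B : Set (YY T)} (hB : IsClosed B) {z : Thread T}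
    (h : YY.mk z ∉ B) : ∃ F, z ∉ sat T F (YY.mk ⁻¹' B) := by
  apply QuoB_sep (hB.preimage (YY.continuous_mk T))
  rintro ⟨s, hs, hR⟩
  apply h
  rw [← YY.mk_eq.2 hR]
  exact hs

private theorem QuoB_mono {T : Tow L} {F G : Finset ι} (hG : G ⊆ F) {S : Set (Thread T)}
    {z : Thread T} (h : z ∉ sat T G S) : z ∉ sat T F S := by
  rintro ⟨s, hs, hR⟩
  exact h ⟨s, hs, R_mono hG hR⟩

theorem YY_HI [CompactSpace X] (T : Tow L) (A B : Set (YY T)) (hA : IsClosed A)
    (hAc : IsConnected A) (hB : IsClosed B) (hBc : IsConnected B) (hne : (A ∩ B).Nonempty) :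
    A ⊆ B ∨ B ⊆ A := by
  by_contra hcon
  rw [not_or, Set.not_subset, Set.not_subset] at hcon
  obtain ⟨⟨a, haA, haB⟩, ⟨b, hbB, hbA⟩⟩ := hcon
  obtain ⟨c, hcA, hcB⟩ := hne
  obtain ⟨a, rfl⟩ := YY.surj T a
  obtain ⟨b, rfl⟩ := YY.surj T b
  obtain ⟨c, rfl⟩ := YY.surj T c
  obtain ⟨F1, h1⟩ := QuoB_sep' hB haB
  obtain ⟨F2, h2⟩ := QuoB_sep' hA hbA
  have h1' := QuoB_mono (Finset.subset_union_left (s₁ := F1) (s₂ := F2)) h1
  have h2' := QuoB_mono (Finset.subset_union_right (s₁ := F1) (s₂ := F2)) h2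
  have fA : FC T (F1 ∪ F2) (sat T (F1 ∪ F2) (YY.mk ⁻¹' A)) :=
    FC_sat_of (hA.preimage (YY.continuous_mk T)) ⟨c, hcA⟩
      (fun m => conn_preimage A hA hAc m (F1 ∪ F2))
  have fB : FC T (F1 ∪ F2) (sat T (F1 ∪ F2) (YY.mk ⁻¹' B)) :=
    FC_sat_of (hB.preimage (YY.continuous_mk T)) ⟨c, hcB⟩
      (fun m => conn_preimage B hB hBc m (F1 ∪ F2))
  rcases HI_all T (F1 ∪ F2) _ _ fA fB
    ⟨c, subset_sat T _ _ hcA, subset_sat T _ _ hcB⟩ with h | h
  · exact h1' (h (subset_sat T _ _ haA))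
  · exact h2' (h (subset_sat T _ _ hbB))

end Pool.Agent.H26DD
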