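import Pool.Agent.Helper26.DD.SysA

/-!
# DD module I-4: refinement, (A1), (A2), (A4), (A9), and the comparison with the old sets.

Write `L F y = T.K F y` for the old sets and `c j = fun i => cc (sub (y i) j)`. For
`y ∈ cube S.refine r F x` all `c j` are in the old cube of `x` (`cc_cube`), antitone in `j`
(`cc_mono`, `sub_le_sub`), and `c j = b ∘ y` on `F` for large `j` (`cc_sub_of_le`; `F` finite).
`b_sub_refine`: constant walks; `b ∘ y ≤ c j` on `F` (`b_le_cc`), `Good.mono`.
`refine_sub_cc`: `w 0 ∈ L F (c 0)`, `sub_zero'`.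
`walk_mem`: if `w` is an adapted walk for `y` then `k ↦ w (j + k)` is one for `y`, as
`L (c (j+k)) ⊆ L (c k)`: so `w j ∈ K' F y`.
`refine_conn`: `w N ∈ L F (b ∘ y)` for large `N`, `L F (b ∘ y) ⊆ K' F y` is connected (`bb_cube`),
and `w 0` is joined to `w N` inside `K' F y`.
`refine_mono`: same walk (`cc_mono`, `sub_mono`).
`refine_step`: shift the walk by one, `sub_s`.
`refine_two`: let `o` be the point of `L {j} bot` (`bot_unique`), `v ∈ L {j} (s bot)`, `v ≠ o` (`two`).
`L {j} (s bot)` is connected (`pos_mem_one`) and contains `o`, so it contains a neighbour `u ≠ o` of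
`o` (the first vertex different from `o` on a walk from `o` to `v`). The walk `u, o, o, o, ...` is
adapted for the position `S.refine.s S.refine.bot` (base `bot`, digit 1) so `u ∈ K' {j} (s bot)`; and
`K' {j} bot ⊆ L {j} bot = {o}`.
-/

set_option autoImplicit false

namespace Pool.Agent.H26DI

open Topology Pool.Agent.Helper85.DT

variable {X I : Type} [DecidableEq I] [TopologicalSpace X] {S : PS} {r : I → X → ℝ}

theorem b_sub_refine {T : Pre X I S} (hT : Good r T) (F : Finset I) (y : I → S.refine.P)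
    (hy : y ∈ BB S.refine r F) : T.K F (fun i => PS.b (y i)) ⊆ T.refine.K F y := by
  obtain ⟨x, hx⟩ := hy
  intro v hv
  refine ⟨fun _ => v, rfl, fun j => ⟨T.arefl F v, ?_⟩⟩
  refine hT.mono F x _ (bb_cube hx) _ (cc_cube hx j) (fun i _ => ?_) hv
  exact PS.b_le_cc (PS.sub (y i) j)

theorem refine_sub_cc {T : Pre X I S} (F : Finset I) (y : I → S.refine.P) :
    T.refine.K F y ⊆ T.K F (fun i => PS.cc (y i)) := by
  rintro v ⟨w, hw0, hw⟩
  have h := (hw 0).2
  rw [hw0] at h
  have h2 : T.K F (fun i => PS.cc (PS.sub (y i) 0)) = T.K F (fun i => PS.cc (y i)) := by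
    apply T.K_congr
    intro i _
    rw [PS.sub_zero']
  rw [h2] at h
  exact h

theorem walk_mem {T : Pre X I S} (hT : Good r T) (F : Finset I) (y : I → S.refine.P)
    (hy : y ∈ BB S.refine r F) (w : ℕ → T.V F)
    (hw : ∀ j, T.adj F (w j) (w (j + 1)) ∧ w j ∈ T.K F (fun i => PS.cc (PS.sub (y i) j)))
    (j : ℕ) : w j ∈ T.refine.K F y := by
  obtain ⟨x, hx⟩ := hy
  refine ⟨fun k => w (j + k), rfl, fun k => ⟨(hw (j + k)).1, ?_⟩⟩
  refine hT.mono F x _ (cc_cube hx (j + k)) _ (cc_cube hx k) (fun i _ => ?_) (hw (j + k)).2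
  exact PS.cc_mono (PS.sub_le_sub (y i) (Nat.le_add_left k j))

theorem refA_join {T : Pre X I S} (hT : Good r T) (F : Finset I) (y : I → S.refine.P)
    (hy : y ∈ BB S.refine r F) (v : T.V F) (hv : v ∈ T.refine.K F y) :
    ∃ z ∈ T.K F (fun i => PS.b (y i)),
      Relation.ReflTransGen (fun a b => T.adj F a b ∧ b ∈ T.refine.K F y) v z ∧
      Relation.ReflTransGen (fun a b => T.adj F a b ∧ b ∈ T.refine.K F y) z v := by
  obtain ⟨w, hw0, hw⟩ := hv
  have hmem := walk_mem hT F y hy w hw
  have hup : ∀ n, Relation.ReflTransGen (fun a b => T.adj F a b ∧ b ∈ T.refine.K F y) (w 0) (w n) := by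
    intro n
    induction n with
    | zero => exact Relation.ReflTransGen.refl
    | succ n ih => exact ih.tail ⟨(hw n).1, hmem (n + 1)⟩
  have hdown : ∀ n, Relation.ReflTransGen (fun a b => T.adj F a b ∧ b ∈ T.refine.K F y) (w n) (w 0) := by
    intro n
    induction n with
    | zero => exact Relation.ReflTransGen.refl
    | succ n ih => exact ih.head ⟨T.asymm F _ _ (hw n).1, hmem n⟩
  refine ⟨w (F.sup fun i => PS.d (y i)), ?_, ?_, ?_⟩
  · have h1 := (hw (F.sup fun i => PS.d (y i))).2
    have h2 : T.K F (fun i => PS.cc (PS.sub (y i) (F.sup fun i => PS.d (y i)))) =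
        T.K F (fun i => PS.b (y i)) := by
      apply T.K_congr
      intro i hi
      exact PS.cc_sub_of_le (y i) (Finset.le_sup (f := fun i => PS.d (y i)) hi)
    rw [h2] at h1
    exact h1
  · rw [← hw0]; exact hup _
  · rw [← hw0]; exact hdown _

theorem refine_conn {T : Pre X I S} (hT : Good r T) (F : Finset I) (y : I → S.refine.P)
    (hy : y ∈ BB S.refine r F) : Cn (T.adj F) (T.refine.K F y) := by
  have hsub := b_sub_refine hT F y hy
  obtain ⟨x, hx⟩ := id hy
  have hc := hT.conn F _ ⟨x, bb_cube hx⟩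
  refine ⟨hc.1.mono hsub, fun u hu v hv => ?_⟩
  obtain ⟨a, ha, hua, -⟩ := refA_join hT F y hy u hu
  obtain ⟨c, hc', -, hcv⟩ := refA_join hT F y hy v hv
  refine (hua.trans ?_).trans hcv
  have h1 := hc.2 a ha c hc'
  clear hcv hua hc'
  induction h1 with
  | refl => exact Relation.ReflTransGen.refl
  | tail _ hbc ih => exact ih.tail ⟨hbc.1, hsub hbc.2⟩

theorem refine_mono {T : Pre X I S} (hT : Good r T) (F : Finset I) (x : X)
    (y y' : I → S.refine.P) (hy : y ∈ cube S.refine r F x) (hy' : y' ∈ cube S.refine r F x)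
    (h : ∀ i ∈ F, y i ≤ y' i) : T.refine.K F y ⊆ T.refine.K F y' := by
  rintro v ⟨w, hw0, hw⟩
  refine ⟨w, hw0, fun j => ⟨(hw j).1, ?_⟩⟩
  refine hT.mono F x _ (cc_cube hy j) _ (cc_cube hy' j) (fun i hi => ?_) (hw j).2
  exact PS.cc_mono (PS.sub_mono (h i hi) j)

theorem refine_step {T : Pre X I S} (hT : Good r T) (F : Finset I) (x : X) (v : T.V F)
    (hv : v ∈ T.refine.K F (up S.refine r x)) :
    ∃ u ∈ T.refine.K F (low S.refine r x), T.adj F u v := by
  obtain ⟨w, hw0, hw⟩ := hv
  refine ⟨w 1, ⟨fun k => w (k + 1), rfl, fun k => ⟨(hw (k + 1)).1, ?_⟩⟩, ?_⟩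
  · have h1 := (hw (k + 1)).2
    have h2 : T.K F (fun i => PS.cc (PS.sub (up S.refine r x i) (k + 1))) =
        T.K F (fun i => PS.cc (PS.sub (low S.refine r x i) k)) := by
      apply T.K_congr
      intro i _
      show PS.cc (PS.sub (S.refine.s (ps S.refine r i x)) (k + 1)) =
        PS.cc (PS.sub (ps S.refine r i x) k)
      rw [PS.sub_s]
    rw [h2] at h1
    exact h1
  · rw [← hw0]
    exact T.asymm F _ _ (hw 0).1

theorem refA_first {V : Type} (adj : V → V → Prop) (A : Set V) (o v : V) (hov : v ≠ o)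
    (h : Relation.ReflTransGen (fun a b => adj a b ∧ b ∈ A) o v) :
    ∃ u, u ≠ o ∧ adj o u ∧ u ∈ A := by
  induction h with
  | refl => exact absurd rfl hov
  | tail hab hbc ih =>
    rename_i b c
    by_cases hb : b = o
    · subst hb
      exact ⟨c, hov, hbc.1, hbc.2⟩
    · exact ih hb

theorem refine_two [ConnectedSpace X] (hr : Let r) {T : Pre X I S} (hT : Good r T) (j : I) :
    ∃ v ∈ T.refine.K {j} (fun _ => S.refine.s S.refine.bot),
      v ∉ T.refine.K {j} (fun _ => S.refine.bot) := by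
  obtain ⟨o, ho⟩ := hT.bot_unique hr j
  obtain ⟨v, hv1, hv2⟩ := hT.two j
  have hvo : v ≠ o := by
    intro h
    apply hv2
    rw [ho, h]
    exact rfl
  obtain ⟨x0, hx0⟩ := hr.bot j
  have hps : ps S r j x0 = S.bot := ps_zero hx0
  have hoK : o ∈ T.K {j} (fun _ => S.s S.bot) := by
    have hc1 : (fun _ => S.bot : I → S.P) ∈ cube S r {j} x0 := by
      intro i hi
      rw [Finset.mem_singleton] at hi
      subst hi
      left
      exact hps.symm
    have hc2 : (fun _ => S.s S.bot : I → S.P) ∈ cube S r {j} x0 := by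
      intro i hi
      rw [Finset.mem_singleton] at hi
      subst hi
      right
      rw [hps]
    refine hT.mono {j} x0 _ hc1 _ hc2 (fun i _ => S.le_s _) ?_
    rw [ho]
    exact rfl
  have hconn := hT.conn {j} _ (pos_mem_one hr j (S.s S.bot))
  obtain ⟨u, huo, hadj, huK⟩ := refA_first (T.adj {j}) _ o v hvo (hconn.2 o hoK v hv1)
  have hbt : PS.b (S.refine.bot) ≠ S.top := by
    rw [PS.b_bot]
    exact S.bot_lt_top.ne
  refine ⟨u, ⟨fun k => if k = 0 then u else o, rfl, fun k => ?_⟩, fun hmem => ?_⟩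
  · rcases Nat.eq_zero_or_pos k with hk | hk
    · subst hk
      refine ⟨T.asymm _ _ _ hadj, ?_⟩
      have h2 : T.K {j} (fun _ => PS.cc (PS.sub (S.refine.s S.refine.bot) 0)) =
          T.K {j} (fun _ => S.s S.bot) := by
        apply T.K_congr
        intro i _
        rw [PS.sub_zero']
        unfold PS.cc
        rw [if_neg (by rw [PS.d_s _ hbt]; omega), PS.b_s, PS.b_bot]
      show u ∈ T.K {j} (fun _ => PS.cc (PS.sub (S.refine.s S.refine.bot) 0))
      rw [h2]
      exact huK
    · have hk' : k ≠ 0 := by omega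
      have hk'' : k + 1 ≠ 0 := by omega
      refine ⟨?_, ?_⟩
      · show T.adj {j} (if k = 0 then u else o) (if k + 1 = 0 then u else o)
        rw [if_neg hk', if_neg hk'']
        exact T.arefl _ _
      · show (if k = 0 then u else o) ∈ T.K {j} (fun _ => PS.cc (PS.sub (S.refine.s S.refine.bot) k))
        rw [if_neg hk']
        obtain ⟨m, rfl⟩ : ∃ m, k = m + 1 := ⟨k - 1, by omega⟩
        have h2 : T.K {j} (fun _ => PS.cc (PS.sub (S.refine.s S.refine.bot) (m + 1))) =
            T.K {j} (fun _ => S.bot) := by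
          apply T.K_congr
          intro i _
          rw [PS.sub_s]
          exact PS.cc_sub_of_le (S := S) S.refine.bot (Nat.zero_le m)
        rw [h2, ho]
        exact rfl
  · have h1 := refine_sub_cc {j} (fun _ => S.refine.bot) hmem
    have h2 : T.K {j} (fun _ => PS.cc S.refine.bot) = T.K {j} (fun _ => S.bot) := by
      apply T.K_congr
      intro i _
      have h3 := PS.cc_sub_of_le (S := S) S.refine.bot (Nat.zero_le 0)
      rw [PS.sub_zero'] at h3
      exact h3
    rw [h2, ho] at h1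
    exact huo h1

end Pool.Agent.H26DI
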