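import Pool.Agent.Helper26.DD.RefA

/-!
# DD module I-5: refinement, (A5) left limits.

`y ∈ BB S.refine r F`, `c j = fun i => cc (sub (y i) j)`. Limit positions of `S.refine`:
digit 0 and base `≠ bot` (`isLim_refine`). Let `N0` be at least all digits `d (y i)`, `i ∈ F`, and
`M = card (V F)`. For each `j ≤ N0` let `p_j` be given by `hT.lim F (c j)` (`cc_cube`), and `q_i` the
maximum over `j ≤ N0` of those `p_j i` (for `i ∈ F` with `b (y i)` a limit position of `S` and
digit 0, where `c j i = b (y i)` for all `j`, so `q_i < b (y i)`).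
Define `p' i` for `i ∈ F` with `y i` limit: if `b (y i)` is a limit of `S`: the point of
`S.refine` with base `s (q i)` and digit 0 (`s (q i) < b (y i)`); otherwise `b (y i) = s u'` with
`u' < b (y i)` (`eq_s_of_not_lim`): the point with base `u'` and digit `N0 + M`. Then
`p' i < y i`.
Let `w ∈ BB S.refine r F` be as in `lim` for `p'`, `c' j = fun i => cc (sub (w i) j)`.
* `c' j i ≤ c j i`: so `K' w ⊆ K' y`? Not needed separately, see below.
* For `j < N0 + M`, `i ∈ F`: if `w i = y i` then `c' j i = c j i`; otherwise `y i` is a limit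
  (digit 0) and `w i < y i`, `b (w i) < b (y i)`. If `b (y i)` is a limit of `S` then
  `b (w i) ≥ s (q i) > q i` and `q i < c' j i ≤ s (b (w i)) < b (y i) = c j i` ; if `b (y i) = s u'`
  then `b (w i) = u'`, `d (w i) > N0 + M` so `c' j i = s u' = b (y i) = c j i`.
  So `c' j` is as in `hT.lim F (c j)` for `p_j` (for `j ≤ N0`; for `N0 ≤ j < N0 + M`
  `c j = c N0 = b ∘ y` on `F`), hence `T.K F (c' j) = T.K F (c j)` for all `j < N0 + M`.
* Let `A j = {v | ∃ walk w j, w (j+1), ... adapted from index j for the position w, w j = v}`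
  (`= K'` of the position `sub (w i) j`). `A j` is a nonempty subset of `T.K F (c' j)`,
  `A j = {v ∈ T.K F (c' j) | v has a neighbour in A (j+1)}`, `A (j+1) ⊆ A j` when
  `T.K F (c' (j+1)) ⊆ T.K F (c' j)`. For `N0 ≤ j < N0 + M` all `T.K F (c' j)` are the connected
  set `T.K F (b ∘ y)`, and `A j` grows (strictly until it is everything) as `j` decreases: so
  `A N0 = T.K F (b ∘ y)`. The same holds for `y`: `B N0 = T.K F (b ∘ y)`. For `j < N0` the recursions
  for `A j` and `B j` agree. So `K' w = A 0 = B 0 = K' y`.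
-/

set_option autoImplicit false

namespace Pool.Agent.H26DI

open Topology Pool.Agent.Helper85.DT

/-- the vertices with an infinite walk adapted to `L` -/
private def Wk {V : Type} (adj : V → V → Prop) (L : ℕ → Set V) : Set V :=
  {v | ∃ w : ℕ → V, w 0 = v ∧ ∀ j, adj (w j) (w (j + 1)) ∧ w j ∈ L j}

private theorem wk_sub {V : Type} {adj : V → V → Prop} {L : ℕ → Set V} : Wk adj L ⊆ L 0 := by
  rintro v ⟨w, rfl, hw⟩
  exact (hw 0).2

private theorem wk_cons {V : Type} {adj : V → V → Prop} {L : ℕ → Set V} {v u : V} (hv : v ∈ L 0)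
    (ha : adj v u) (hu : u ∈ Wk adj (fun j => L (j + 1))) : v ∈ Wk adj L := by
  obtain ⟨w, rfl, hw⟩ := hu
  refine ⟨fun n => Nat.casesOn n v w, rfl, ?_⟩
  intro j
  cases j with
  | zero => exact ⟨ha, hv⟩
  | succ j => exact hw j

private theorem wk_tail {V : Type} {adj : V → V → Prop} {L : ℕ → Set V} {v : V}
    (hv : v ∈ Wk adj L) : v ∈ L 0 ∧ ∃ u ∈ Wk adj (fun j => L (j + 1)), adj v u := by
  obtain ⟨w, rfl, hw⟩ := hv
  exact ⟨(hw 0).2, w 1, ⟨fun j => w (j + 1), rfl, fun j => hw (j + 1)⟩, (hw 0).1⟩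

private theorem wk_mono {V : Type} {adj : V → V → Prop} {L L' : ℕ → Set V}
    (h : ∀ j, L j ⊆ L' j) : Wk adj L ⊆ Wk adj L' := by
  rintro v ⟨w, rfl, hw⟩
  exact ⟨w, rfl, fun j => ⟨(hw j).1, h j (hw j).2⟩⟩

private theorem wk_congr {V : Type} {adj : V → V → Prop} (n : ℕ) :
    ∀ {L L' : ℕ → Set V}, (∀ j, j < n → L j = L' j) →
      Wk adj (fun j => L (n + j)) = Wk adj (fun j => L' (n + j)) → Wk adj L = Wk adj L' := by
  induction n with
  | zero =>
    intro L L' _ h
    simpa using h
  | succ n ih =>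
    intro L L' h1 h2
    have h3 : Wk adj (fun j => L (j + 1)) = Wk adj (fun j => L' (j + 1)) := by
      apply ih
      · intro j hj
        exact h1 (j + 1) (by omega)
      · have e : ∀ j, n + j + 1 = n + 1 + j := fun j => by omega
        simp only [e]
        exact h2
    have h0 : L 0 = L' 0 := h1 0 (Nat.succ_pos n)
    ext v
    constructor
    · intro hv
      obtain ⟨a, u, hu, ha⟩ := wk_tail hv
      exact wk_cons (h0 ▸ a) ha (h3 ▸ hu)
    · intro hv
      obtain ⟨a, u, hu, ha⟩ := wk_tail hv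
      exact wk_cons (h0 ▸ a) ha (h3 ▸ hu)

private theorem cn_edge {V : Type} {adj : V → V → Prop} {D A : Set V} (hD : Cn adj D)
    (hA : A.Nonempty) (hAD : A ⊆ D) (hne : A ≠ D) : ∃ u ∈ A, ∃ v ∈ D, v ∉ A ∧ adj u v := by
  obtain ⟨a, ha⟩ := hA
  obtain ⟨b, hb, hbA⟩ := Set.exists_of_ssubset (lt_of_le_of_ne hAD hne)
  have hw := hD.2 a (hAD ha) b hb
  by_contra hcon
  push Not at hcon
  have : ∀ c, Relation.ReflTransGen (fun a b => adj a b ∧ b ∈ D) a c → c ∈ A := by
    intro c hc
    induction hc with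
    | refl => exact ha
    | tail _ h2 ih =>
      by_contra h3
      exact hcon _ ih _ h2.2 h3 h2.1
  exact hbA (this b hw)

private theorem wk_fill {V : Type} [Finite V] {adj : V → V → Prop} (hr : ∀ v, adj v v)
    (hs : ∀ v w, adj v w → adj w v) {D : Set V} (hD : Cn adj D) (e : V) (m : ℕ) :
    ∀ (L : ℕ → Set V), (∀ j, L (j + 1) ⊆ L j) → (∀ j, e ∈ L j) → (∀ j, j < m → L j = D) →
      L 0 ⊆ D → Wk adj L = D ∨ m + 1 ≤ (Wk adj L).ncard := by
  induction m with
  | zero =>
    intro L _ he _ _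
    right
    have : (Wk adj L).Nonempty := ⟨e, fun _ => e, rfl, fun j => ⟨hr e, he j⟩⟩
    have := (Set.ncard_pos (Set.toFinite _)).2 this
    omega
  | succ m ih =>
    intro L hanti he hL h0
    have h1 : Wk adj (fun j => L (j + 1)) ⊆ Wk adj L := wk_mono hanti
    have h2 : Wk adj L ⊆ D := wk_sub.trans h0
    rcases ih (fun j => L (j + 1)) (fun j => hanti (j + 1)) (fun j => he (j + 1))
      (fun j hj => hL (j + 1) (by omega)) ((hanti 0).trans h0) with h3 | h3
    · left
      exact le_antisymm h2 (h3 ▸ h1)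
    · by_cases h4 : Wk adj (fun j => L (j + 1)) = D
      · left
        exact le_antisymm h2 (h4 ▸ h1)
      · right
        have hne : (Wk adj (fun j => L (j + 1))).Nonempty :=
          ⟨e, fun _ => e, rfl, fun j => ⟨hr e, he (j + 1)⟩⟩
        obtain ⟨u, hu, v, hv, hvn, huv⟩ := cn_edge hD hne (h1.trans h2) h4
        have hv' : v ∈ Wk adj L := wk_cons (by rw [hL 0 (by omega)]; exact hv) (hs _ _ huv) hu
        have hlt := Set.ncard_lt_ncard (Set.ssubset_iff_of_subset h1 |>.2 ⟨v, hv', hvn⟩)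
          (Set.toFinite _)
        omega

variable {X I : Type} [DecidableEq I] [TopologicalSpace X] {S : PS} {r : I → X → ℝ}

private theorem refine_eq_wk (T : Pre X I S) (F : Finset I) (y : I → S.refine.P) :
    T.refine.K F y = Wk (T.adj F) (fun j => T.K F (fun i => PS.cc (PS.sub (y i) j))) := rfl

/-- one letter: the left neighbour -/
private theorem letter (N M : ℕ) (q : S.P) (y : S.refine.P)
    (hq : S.IsLim (PS.b y) → q < PS.b y) :
    ∃ p : S.refine.P, S.refine.IsLim y → p < y ∧ ∀ w : S.refine.P, w ≤ y → p < w →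
      ∀ j, j < N + M → PS.cc (PS.sub w j) = PS.cc (PS.sub y j) ∨
        (S.IsLim (PS.b y) ∧ q < PS.cc (PS.sub w j)) := by
  classical
  by_cases hl : S.IsLim (PS.b y)
  · refine ⟨(PS.mkp (S.s q) 0 (fun _ => rfl) : S.RP), fun _ => ⟨?_, ?_⟩⟩
    · exact (PS.lt_iffR _ _).2 (Or.inl (hl.2 q (hq hl)))
    · intro w _ hw j _
      right
      refine ⟨hl, ?_⟩
      have h1 : q < S.s q := S.lt_s q ((hq hl).trans_le (S.le_top _))
      have h2 : S.s q ≤ PS.b w := PS.b_mono (S := S) hw.le
      exact (h1.trans_le h2).trans_le (PS.b_le_cc (PS.sub w j))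
  · rcases S.eq_s_of_not_lim hl with h1 | ⟨u, hu, hsu⟩
    · refine ⟨y, fun h => ?_⟩
      exact absurd h1 ((PS.isLim_refine y).1 h).2
    · have hut : u ≠ S.top := fun h => by
        rw [h] at hu
        exact absurd hu (not_lt.2 (S.le_top _))
      refine ⟨(PS.mkp u (N + M) (fun h => absurd h hut) : S.RP), fun hy => ⟨?_, ?_⟩⟩
      · exact (PS.lt_iffR _ _).2 (Or.inl hu)
      · intro w hwy hw j hj
        left
        have hd := ((PS.isLim_refine y).1 hy).1
        rcases (PS.le_iffR w y).1 hwy with h2 | h2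
        · have h3 := (PS.lt_iffR _ _).1 hw
          rw [PS.b_mkp, PS.d_mkp] at h3
          rcases h3 with h3 | h3
          · exfalso
            have h4 := S.s_le _ _ h3
            rw [hsu] at h4
            exact absurd h2 (not_lt.2 h4)
          · have e1 : PS.cc (PS.sub y j) = PS.b y := PS.cc_sub_of_le (S := S) y (by omega)
            rw [e1]
            unfold PS.cc
            rw [if_neg, PS.b_sub, ← h3.1, hsu]
            rw [PS.d_sub]
            omega
        · have : w = y := PS.ext' (S := S) h2.1 (by omega)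
          rw [this]

theorem refine_lim {T : Pre X I S} (hT : Good r T) (F : Finset I) (y : I → S.refine.P)
    (hy : y ∈ BB S.refine r F) :
    ∃ p : I → S.refine.P, (∀ i ∈ F, S.refine.IsLim (y i) → p i < y i) ∧
    ∀ w ∈ BB S.refine r F, (∀ i ∈ F, w i ≤ y i) → (∀ i ∈ F, ¬ S.refine.IsLim (y i) → w i = y i) →
      (∀ i ∈ F, S.refine.IsLim (y i) → p i < w i) → T.refine.K F w = T.refine.K F y := by
  classical
  haveI := T.fin F
  obtain ⟨N, hN⟩ : ∃ N : ℕ, ∀ i ∈ F, PS.d (S := S) (y i) ≤ N :=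
    ⟨F.sup (fun i => PS.d (S := S) (y i)), fun i hi =>
      Finset.le_sup (f := fun i => PS.d (S := S) (y i)) hi⟩
  obtain ⟨x, hx⟩ := hy
  have hlim : ∀ j : ℕ, ∃ p : I → S.P,
      (∀ i ∈ F, S.IsLim (PS.cc (PS.sub (y i) j)) → p i < PS.cc (PS.sub (y i) j)) ∧
      ∀ w ∈ BB S r F, (∀ i ∈ F, w i ≤ PS.cc (PS.sub (y i) j)) →
        (∀ i ∈ F, ¬ S.IsLim (PS.cc (PS.sub (y i) j)) → w i = PS.cc (PS.sub (y i) j)) →
        (∀ i ∈ F, S.IsLim (PS.cc (PS.sub (y i) j)) → p i < w i) →
        T.K F w = T.K F (fun i => PS.cc (PS.sub (y i) j)) := fun j =>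
    hT.lim F (fun i => PS.cc (PS.sub (y i) j)) ⟨x, cc_cube hx j⟩
  choose P hP1 hP2 using hlim
  -- the maximum
  let q : I → S.P := fun i =>
    if PS.d (S := S) (y i) = 0 then
      (Finset.range (N + 1)).sup' ⟨0, Finset.mem_range.2 (Nat.succ_pos N)⟩ (fun j => P j i)
    else S.bot
  have hq : ∀ i ∈ F, S.IsLim (PS.b (y i)) → q i < PS.b (y i) := by
    intro i hi hl
    show (if PS.d (S := S) (y i) = 0 then
      (Finset.range (N + 1)).sup' ⟨0, Finset.mem_range.2 (Nat.succ_pos N)⟩ (fun j => P j i)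
      else S.bot) < PS.b (y i)
    split_ifs with hd
    · rw [Finset.sup'_lt_iff]
      intro j _
      have e1 : PS.cc (PS.sub (y i) j) = PS.b (y i) := PS.cc_sub_of_le (S := S) (y i) (by omega)
      have := hP1 j i hi
      rw [e1] at this
      exact this hl
    · exact lt_of_le_of_ne (S.bot_le _) (Ne.symm hl.1)
  have hpl : ∀ i : I, ∃ p : S.refine.P, i ∈ F → S.refine.IsLim (y i) → p < y i ∧
      ∀ w : S.refine.P, w ≤ y i → p < w → ∀ j, j < N + Nat.card (T.V F) →
        PS.cc (PS.sub w j) = PS.cc (PS.sub (y i) j) ∨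
        (S.IsLim (PS.b (y i)) ∧ q i < PS.cc (PS.sub w j)) := by
    intro i
    by_cases hi : i ∈ F
    · obtain ⟨p, hp⟩ := letter N (Nat.card (T.V F)) (q i) (y i) (hq i hi)
      exact ⟨p, fun _ => hp⟩
    · exact ⟨y i, fun h => absurd h hi⟩
  choose p hp using hpl
  refine ⟨p, fun i hi hl => (hp i hi hl).1, ?_⟩
  intro w hw hwy hwn hwl
  obtain ⟨x', hx'⟩ := hw
  -- `c w j = c y j` on the level of sets
  have hcy : ∀ j, T.K F (fun i => PS.cc (PS.sub (y i) (min j N))) =
      T.K F (fun i => PS.cc (PS.sub (y i) j)) := by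
    intro j
    apply T.K_congr
    intro i hi
    rcases le_total j N with h | h
    · rw [min_eq_left h]
    · rw [min_eq_right h, PS.cc_sub_of_le (S := S) (y i) (hN i hi),
        PS.cc_sub_of_le (S := S) (y i) ((hN i hi).trans h)]
  have hcyi : ∀ j, ∀ i ∈ F, PS.cc (PS.sub (y i) (min j N)) = PS.cc (PS.sub (y i) j) := by
    intro j i hi
    rcases le_total j N with h | h
    · rw [min_eq_left h]
    · rw [min_eq_right h, PS.cc_sub_of_le (S := S) (y i) (hN i hi),
        PS.cc_sub_of_le (S := S) (y i) ((hN i hi).trans h)]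
  have heq : ∀ j, j < N + Nat.card (T.V F) →
      T.K F (fun i => PS.cc (PS.sub (w i) j)) = T.K F (fun i => PS.cc (PS.sub (y i) j)) := by
    intro j hj
    rw [← hcy j]
    have key : ∀ i ∈ F, PS.cc (PS.sub (w i) j) = PS.cc (PS.sub (y i) (min j N)) ∨
        (S.IsLim (PS.cc (PS.sub (y i) (min j N))) ∧ P (min j N) i < PS.cc (PS.sub (w i) j)) := by
      intro i hi
      rw [hcyi j i hi]
      by_cases hl : S.refine.IsLim (y i)
      · rcases (hp i hi hl).2 (w i) (hwy i hi) (hwl i hi hl) j hj with h | ⟨h1, h2⟩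
        · exact Or.inl h
        · right
          have hd := ((PS.isLim_refine (y i)).1 hl).1
          have e1 : PS.cc (PS.sub (y i) j) = PS.b (y i) :=
            PS.cc_sub_of_le (S := S) (y i) (by omega)
          refine ⟨by rw [e1]; exact h1, lt_of_le_of_lt ?_ h2⟩
          show _ ≤ (if PS.d (S := S) (y i) = 0 then
            (Finset.range (N + 1)).sup' ⟨0, Finset.mem_range.2 (Nat.succ_pos N)⟩
              (fun j => P j i) else S.bot)
          rw [if_pos hd]
          exact Finset.le_sup' (fun j => P j i)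
            (Finset.mem_range.2 (Nat.lt_succ_of_le (min_le_right j N)))
      · left
        rw [hwn i hi hl]
    apply hP2 (min j N) (fun i => PS.cc (PS.sub (w i) j)) ⟨x', cc_cube hx' j⟩
    · intro i hi
      rw [hcyi j i hi]
      exact PS.cc_mono (S := S) (PS.sub_mono (S := S) (hwy i hi) j)
    · intro i hi hl
      rcases key i hi with h | h
      · exact h
      · exact absurd h.1 hl
    · intro i hi hl
      rcases key i hi with h | h
      · show P (min j N) i < PS.cc (PS.sub (w i) j)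
        rw [h]
        exact hP1 _ i hi hl
      · exact h.2
  -- the stationary set
  have hD : Cn (T.adj F) (T.K F (fun i => PS.b (y i))) :=
    hT.conn F _ ⟨x, bb_cube hx⟩
  have hyD : ∀ j, N ≤ j → T.K F (fun i => PS.cc (PS.sub (y i) j)) =
      T.K F (fun i => PS.b (y i)) := by
    intro j hj
    apply T.K_congr
    intro i hi
    exact PS.cc_sub_of_le (S := S) (y i) ((hN i hi).trans hj)
  have hfull : ∀ (z : I → S.refine.P) (x0 : X), z ∈ cube S.refine r F x0 →
      (∀ j, j < N + Nat.card (T.V F) → T.K F (fun i => PS.cc (PS.sub (z i) j)) =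
        T.K F (fun i => PS.cc (PS.sub (y i) j))) →
      Wk (T.adj F) (fun j => T.K F (fun i => PS.cc (PS.sub (z i) (N + j)))) =
        T.K F (fun i => PS.b (y i)) := by
    intro z x0 hz hzy
    obtain ⟨e, he⟩ := (hT.conn F _ ⟨x0, bb_cube hz⟩).1
    have hpos : 0 < Nat.card (T.V F) := Nat.card_pos_iff.2 ⟨⟨e⟩, inferInstance⟩
    have hle : ∀ j, j < Nat.card (T.V F) → T.K F (fun i => PS.cc (PS.sub (z i) (N + j))) =
        T.K F (fun i => PS.b (y i)) := by
      intro j hj
      rw [hzy (N + j) (by omega), hyD (N + j) (by omega)]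
    have hanti : ∀ j, T.K F (fun i => PS.cc (PS.sub (z i) (N + (j + 1)))) ⊆
        T.K F (fun i => PS.cc (PS.sub (z i) (N + j))) := by
      intro j
      exact hT.mono F x0 _ (cc_cube hz _) _ (cc_cube hz _) fun i _ =>
        PS.cc_mono (S := S) (PS.sub_le_sub (S := S) (z i) (by omega))
    have hmem : ∀ j, e ∈ T.K F (fun i => PS.cc (PS.sub (z i) (N + j))) := by
      intro j
      exact hT.mono F x0 _ (bb_cube hz) _ (cc_cube hz _) (fun i _ =>
        (PS.b_le_cc (S := S) (PS.sub (z i) (N + j)))) he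
    rcases wk_fill (T.arefl F) (T.asymm F) hD e (Nat.card (T.V F))
      (fun j => T.K F (fun i => PS.cc (PS.sub (z i) (N + j)))) hanti hmem hle
      (hle 0 hpos).subset with h | h
    · exact h
    · exfalso
      have h1 : (Wk (T.adj F) (fun j => T.K F (fun i => PS.cc (PS.sub (z i) (N + j))))).ncard ≤
          Nat.card (T.V F) := by
        rw [← Set.ncard_univ]
        exact Set.ncard_le_ncard (Set.subset_univ _) (Set.toFinite _)
      omega
  rw [refine_eq_wk, refine_eq_wk]
  apply wk_congr N (fun j hj => heq j (by omega))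
  exact (hfull w x' hx' heq).trans (hfull y x hx (fun _ _ => rfl)).symm

end Pool.Agent.H26DI
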