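import Pool.Agent.Helper26.DD.RefA

/-!
# DD module I-6: refinement, (A3), (A6), (A7), (A8).

`refine_sec_K`: `σ` maps adapted walks to adapted walks: for `c ∈ cube S.refine r F x` all
`cc (sub (c ·) j)` are in the old cube (`cc_cube`), so `sec_K` applies; adjacency: all points of the
walk lie in `T.K (F.erase i) (up S r x)` (`Good.mono`; `cc (sub c j) ≤ s (ps x)` by `cc_le`, `b_cube`), use
`sec_hom`.
`dom_sub`: `T.refine.K (F.erase i) (up S.refine r x) ⊆ T.K (F.erase i) (up S r x)`
(`refine_sub_cc`, `cc_le`, `b_cube`, `Good.mono`).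
`refine_nat`: into: restrict the walk. Onto: it is enough to treat `G = F.erase i` (induction on
`F \ G`, `res_res`); there it follows from `sec_ne`, `refine_sec_K`, `sec_res`.
`refine_bot_*`: `y i = bot` implies `cc (y i) = bot`; `T.refine.K F y ⊆ T.K F (cc ∘ y)`
(`refine_sub_cc`), and `cc ∘ y ∈ BB S r F` (`cc_cube` with `j = 0`, `sub_zero'`).
The remaining ones follow from those of `T` with `dom_sub`.
-/

set_option autoImplicit false

namespace Pool.Agent.H26DI

open Topology Pool.Agent.Helper85.DT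

variable {X I : Type} [DecidableEq I] [TopologicalSpace X] {S : PS} {r : I → X → ℝ}

private theorem up_cubeC (F : Finset I) (x : X) (y : I → S.refine.P)
    (hy : y ∈ cube S.refine r F x) (j : ℕ) (i : I) (hi : i ∈ F) :
    PS.cc (PS.sub (y i) j) ≤ up S r x i := by
  show PS.cc (PS.sub (y i) j) ≤ S.s (ps S r i x)
  rw [← b_cube hy hi]
  exact PS.cc_le (PS.sub (y i) j)

private theorem walk_up {T : Pre X I S} (hT : Good r T) (F : Finset I) (x : X)
    (y : I → S.refine.P) (hy : y ∈ cube S.refine r F x) (j : ℕ) :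
    T.K F (fun i => PS.cc (PS.sub (y i) j)) ⊆ T.K F (up S r x) :=
  hT.mono F x _ (cc_cube hy j) _ (up_mem S r F x) (fun i hi => up_cubeC F x y hy j i hi)

private theorem sub_up {T : Pre X I S} (hT : Good r T) (F : Finset I) (x : X)
    (y : I → S.refine.P) (hy : y ∈ cube S.refine r F x) :
    T.refine.K F y ⊆ T.K F (up S r x) := by
  rintro v ⟨w, rfl, hw⟩
  exact walk_up hT F x y hy 0 (hw 0).2

theorem dom_sub {T : Pre X I S} (hT : Good r T) (F : Finset I) (x : X) :
    T.refine.K F (up S.refine r x) ⊆ T.K F (up S r x) :=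
  sub_up hT F x _ (up_mem S.refine r F x)

theorem refine_sec_K {T : Pre X I S} (hT : Good r T) (F : Finset I) (i : I) (x : X)
    (hi : i ∈ F) (σ : T.V (F.erase i) → T.V F) (hσ : σ ∈ T.Sec F i x) (c : I → S.refine.P)
    (hc : c ∈ cube S.refine r F x) (a : T.V (F.erase i))
    (ha : a ∈ T.refine.K (F.erase i) c) : σ a ∈ T.refine.K F c := by
  obtain ⟨w, rfl, hw⟩ := ha
  have hce : c ∈ cube S.refine r (F.erase i) x := fun j hj => hc j (Finset.mem_of_mem_erase hj)
  refine ⟨fun j => σ (w j), rfl, fun j => ⟨?_, ?_⟩⟩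
  · exact hT.sec_hom F i x hi σ hσ (w j) (walk_up hT (F.erase i) x c hce j (hw j).2)
      (w (j + 1)) (walk_up hT (F.erase i) x c hce (j + 1) (hw (j + 1)).2) (hw j).1
  · exact hT.sec_K F i x hi σ hσ _ (cc_cube hc j) (w j) (hw j).2

private theorem refine_nat_into {T : Pre X I S} (hT : Good r T) (F G : Finset I) (h : G ⊆ F)
    (y : I → S.refine.P) (hy : y ∈ BB S.refine r F) (v : T.V F) (hv : v ∈ T.refine.K F y) :
    T.res F G h v ∈ T.refine.K G y := by
  obtain ⟨x, hx⟩ := hy
  obtain ⟨w, rfl, hw⟩ := hv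
  refine ⟨fun j => T.res F G h (w j), rfl, fun j => ⟨T.res_adj F G h _ _ (hw j).1, ?_⟩⟩
  rw [← hT.nat F G h _ ⟨x, cc_cube hx j⟩]
  exact ⟨w j, (hw j).2, rfl⟩

private theorem refine_nat_onto {T : Pre X I S} (hT : Good r T) (n : ℕ) :
    ∀ (F G : Finset I) (h : G ⊆ F) (y : I → S.refine.P), y ∈ BB S.refine r F →
      (F \ G).card = n → ∀ a ∈ T.refine.K G y, ∃ v ∈ T.refine.K F y, T.res F G h v = a := by
  induction n with
  | zero =>
    intro F G h y hy hn a ha
    have hFG : F = G := by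
      apply Finset.Subset.antisymm _ h
      rw [Finset.card_eq_zero, Finset.sdiff_eq_empty_iff_subset] at hn
      exact hn
    subst hFG
    exact ⟨a, ha, T.res_self F h a⟩
  | succ n ih =>
    intro F G h y hy hn a ha
    have hne : (F \ G).Nonempty := by
      rw [← Finset.card_pos, hn]
      exact Nat.succ_pos n
    obtain ⟨i, hi⟩ := hne
    obtain ⟨hiF, hiG⟩ := Finset.mem_sdiff.1 hi
    have hGe : G ⊆ F.erase i := fun j hj =>
      Finset.mem_erase.2 ⟨fun hji => hiG (hji ▸ hj), h hj⟩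
    obtain ⟨x, hx⟩ := hy
    have hxe : y ∈ cube S.refine r (F.erase i) x := fun j hj => hx j (Finset.mem_of_mem_erase hj)
    have hcard : (F.erase i \ G).card = n := by
      have h1 : F.erase i \ G = (F \ G).erase i := by
        ext j
        simp only [Finset.mem_sdiff, Finset.mem_erase]
        tauto
      rw [h1, Finset.card_erase_of_mem hi, hn]
      rfl
    obtain ⟨v, hv, hva⟩ := ih (F.erase i) G hGe y ⟨x, hxe⟩ hcard a ha
    obtain ⟨σ, hσ⟩ := hT.sec_ne F i x hiF
    refine ⟨σ v, refine_sec_K hT F i x hiF σ hσ y hx v hv, ?_⟩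
    rw [← hva, ← T.res_res F (F.erase i) G (F.erase_subset i) hGe (σ v),
      hT.sec_res F i x hiF σ hσ v (sub_up hT (F.erase i) x y hxe hv)]

theorem refine_nat {T : Pre X I S} (hT : Good r T) (F G : Finset I) (h : G ⊆ F)
    (y : I → S.refine.P) (hy : y ∈ BB S.refine r F) :
    T.res F G h '' T.refine.K F y = T.refine.K G y := by
  apply Set.Subset.antisymm
  · rintro _ ⟨v, hv, rfl⟩
    exact refine_nat_into hT F G h y hy v hv
  · intro a ha
    obtain ⟨v, hv, hva⟩ := refine_nat_onto hT _ F G h y hy rfl a ha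
    exact ⟨v, hv, hva⟩

private theorem cc_botC (i : I) (y : I → S.refine.P) (hyi : y i = S.refine.bot) :
    PS.cc (PS.sub (y i) 0) = S.bot := by
  rw [hyi]
  rfl

private theorem sub_cc0 {T : Pre X I S} (F : Finset I) (y : I → S.refine.P) (v : T.V F)
    (hv : v ∈ T.refine.K F y) : v ∈ T.K F (fun i => PS.cc (PS.sub (y i) 0)) := by
  obtain ⟨w, rfl, hw⟩ := hv
  exact (hw 0).2

theorem refine_bot_adj {T : Pre X I S} (hT : Good r T) (F : Finset I) (i : I) (hi : i ∈ F)
    (y : I → S.refine.P) (hy : y ∈ BB S.refine r F) (hyi : y i = S.refine.bot) (v w : T.V F)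
    (hv : v ∈ T.refine.K F y) (hw : w ∈ T.refine.K F y)
    (h : T.adj (F.erase i) (T.res F (F.erase i) (F.erase_subset i) v)
      (T.res F (F.erase i) (F.erase_subset i) w)) : T.adj F v w := by
  obtain ⟨x, hx⟩ := hy
  exact hT.bot_adj F i hi _ ⟨x, cc_cube hx 0⟩ (cc_botC i y hyi) v (sub_cc0 F y v hv) w
    (sub_cc0 F y w hw) h

theorem refine_bot_inj {T : Pre X I S} (hT : Good r T) (F : Finset I) (i : I) (hi : i ∈ F)
    (y : I → S.refine.P) (hy : y ∈ BB S.refine r F) (hyi : y i = S.refine.bot) (v w : T.V F)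
    (hv : v ∈ T.refine.K F y) (hw : w ∈ T.refine.K F y)
    (h : T.res F (F.erase i) (F.erase_subset i) v =
      T.res F (F.erase i) (F.erase_subset i) w) : v = w := by
  obtain ⟨x, hx⟩ := hy
  exact hT.bot_inj F i hi _ ⟨x, cc_cube hx 0⟩ (cc_botC i y hyi) v (sub_cc0 F y v hv) w
    (sub_cc0 F y w hw) h

end Pool.Agent.H26DI
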