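import Pool.Agent.Helper26.DD.RefB
import Pool.Agent.Helper26.DD.RefC

/-!
# DD module I-7: the refinement of a good system is a system; comparison of refinements.
-/

set_option autoImplicit false

namespace Pool.Agent.H26DI

open Topology Pool.Agent.Helper85.DT

variable {X I : Type} [DecidableEq I] [TopologicalSpace X] {S : PS} {r : I → X → ℝ}

theorem refine_isSys [ConnectedSpace X] (hr : Let r) {T : Pre X I S} (hT : Good r T) :
    IsSys r T.refine where
  conn := fun F y hy => refine_conn hT F y hy
  mono := fun F x y hy y' hy' h => refine_mono hT F x y y' hy hy' h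
  nat := fun F G h y hy => refine_nat hT F G h y hy
  lim := fun F y hy => refine_lim hT F y hy
  empt := hT.empt
  sec_ne := hT.sec_ne
  sec_hom := fun F i x hi σ hσ a ha b hb h =>
    hT.sec_hom F i x hi σ hσ a (dom_sub hT _ x ha) b (dom_sub hT _ x hb) h
  sec_res := fun F i x hi σ hσ a ha => hT.sec_res F i x hi σ hσ a (dom_sub hT _ x ha)
  sec_K := fun F i x hi σ hσ c hc a ha => refine_sec_K hT F i x hi σ hσ c hc a ha
  sec_restr := fun F G i x h hi σ hσ => by
    obtain ⟨τ, hτ, h1⟩ := hT.sec_restr F G i x h hi σ hσ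
    exact ⟨τ, hτ, fun a ha => h1 a (dom_sub hT _ x ha)⟩
  dich := fun F i x x' hi σ hσ τ hτ => by
    rcases hT.dich F i x x' hi σ hσ τ hτ with h | h
    · exact Or.inl fun a ha b hb => h a (dom_sub hT _ x ha) b (dom_sub hT _ x' hb)
    · exact Or.inr fun a ha b hb => h a (dom_sub hT _ x ha) b (dom_sub hT _ x' hb)
  bot_adj := fun F i hi y hy hyi v hv w hw h => refine_bot_adj hT F i hi y hy hyi v w hv hw h
  bot_inj := fun F i hi y hy hyi v hv w hw h => refine_bot_inj hT F i hi y hy hyi v w hv hw h
  two := fun j => refine_two hr hT j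
  step := fun F x v hv => refine_step hT F x v hv

end Pool.Agent.H26DI
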