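import Pool.Agent.Helper26.DD.Near

/-!
# DD module II-4: saturations.

`mem_sat_of_near`: the sets `{a ∈ A | Nr4 (a.at m G) (z.at m G)}` are closed, nonempty and
decreasing in `m` (by `Nr4_dn`), so some `a ∈ A` is in all of them (compactness); `R_of_nr4`.
`sat_closed`: by `mem_sat_of_near` the set is `⋂ m, {z | ∃ a ∈ A, adj (a.at m G) (z.at m G)}`,
and each of these sets is clopen (it depends on `z.at m G` only).
`FC_sat_of`: the image of `sat G A` at `(m,G)` contains the (connected) image `A_m` of `A` and is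
contained in `N1 A_m`; each of its points `z.at m G` is adjacent to `a.at m G ∈ A_m`.
`FC.sat_sub`: the image of `A` at `(m,G)` is the image under `res` of the image at `(m,F)`, hence
connected.
-/

set_option autoImplicit false

namespace Pool.Agent.H26DD

variable {X : Type} [TopologicalSpace X] {ι : Type} [DecidableEq ι] {L : Letters X ι}

theorem mem_sat_of_near {T : Tow L} {G : Finset ι} {A : Set (Thread T)} (hA : IsClosed A)
    {z : Thread T} (h : ∀ m, ∃ a ∈ A, Nr4 (T.adj m G) (a.at m G) (z.at m G)) :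
    z ∈ sat T G A := by
  have key : (⋂ m : ℕ, {a : Thread T | a ∈ A ∧ Nr4 (T.adj m G) (a.at m G) (z.at m G)}).Nonempty := by
    have hcl : ∀ m : ℕ,
        IsClosed {a : Thread T | a ∈ A ∧ Nr4 (T.adj m G) (a.at m G) (z.at m G)} := by
      intro m
      exact hA.inter (isClopen_at T m G {v | Nr4 (T.adj m G) v (z.at m G)}).isClosed
    apply IsCompact.nonempty_iInter_of_sequence_nonempty_isCompact_isClosed
    · intro m a ha
      refine ⟨ha.1, ?_⟩
      have h1 := Nr4_dn T m (m + 1) (Nat.le_succ m) G _ _ ha.2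
      rw [Thread.dn_at, Thread.dn_at] at h1
      exact h1
    · intro m
      obtain ⟨a, ha, h1⟩ := h m
      exact ⟨a, ha, h1⟩
    · exact (hcl 0).isCompact
    · exact hcl
  obtain ⟨a, ha⟩ := key
  rw [Set.mem_iInter] at ha
  exact ⟨a, (ha 0).1, R_of_nr4 (fun m => (ha m).2)⟩

theorem sat_closed {T : Tow L} (G : Finset ι) {A : Set (Thread T)} (hA : IsClosed A) :
    IsClosed (sat T G A) := by
  have e : sat T G A =
      ⋂ m : ℕ, {z : Thread T | z.at m G ∈ {v | ∃ a ∈ A, T.adj m G (a.at m G) v}} := by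
    ext z
    constructor
    · rintro ⟨a, ha, h⟩
      rw [Set.mem_iInter]
      intro m
      exact ⟨a, ha, h m⟩
    · intro hz
      rw [Set.mem_iInter] at hz
      apply mem_sat_of_near hA
      intro m
      obtain ⟨a, ha, h⟩ := hz m
      exact ⟨a, ha, Nr4_of_Nr2 T m G _ _ (Nr2_of_adj T m G _ _ h)⟩
  rw [e]
  exact isClosed_iInter (fun m => (isClopen_at T m G _).isClosed)

theorem subset_sat (T : Tow L) (G : Finset ι) (A : Set (Thread T)) : A ⊆ sat T G A := by
  intro a ha
  exact ⟨a, ha, R_refl T G a⟩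

theorem sat_sat {T : Tow L} {G : Finset ι} {A : Set (Thread T)} {z z' : Thread T}
    (hz : z ∈ sat T G A) (h : R T G z z') : z' ∈ sat T G A := by
  obtain ⟨a, ha, h1⟩ := hz
  exact ⟨a, ha, R_trans h1 h⟩

theorem FC_sat_of {T : Tow L} {G : Finset ι} {A : Set (Thread T)} (hA : IsClosed A)
    (hne : A.Nonempty)
    (hc : ∀ m, Conn (T.adj m G) ((fun z : Thread T => z.at m G) '' A)) :
    FC T G (sat T G A) := by
  refine ⟨sat_closed G hA, hne.mono (subset_sat T G A), fun z z' hz h => sat_sat hz h, ?_⟩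
  intro m
  have hsub : (fun z : Thread T => z.at m G) '' A ⊆ (fun z : Thread T => z.at m G) '' sat T G A :=
    Set.image_mono (subset_sat T G A)
  have hnear : ∀ v ∈ (fun z : Thread T => z.at m G) '' sat T G A,
      ∃ u ∈ (fun z : Thread T => z.at m G) '' A, T.adj m G u v := by
    rintro _ ⟨z, ⟨a, ha, h1⟩, rfl⟩
    exact ⟨a.at m G, ⟨a, ha, rfl⟩, h1 m⟩
  refine ⟨(hc m).1.mono hsub, ?_⟩
  intro a ha b hb
  obtain ⟨a', ha', h1⟩ := hnear a ha
  obtain ⟨b', hb', h2⟩ := hnear b hb
  have h3 := (hc m).2 a' ha' b' hb'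
  have h4 : Relation.ReflTransGen
      (fun u v => u ∈ (fun z : Thread T => z.at m G) '' sat T G A ∧
        v ∈ (fun z : Thread T => z.at m G) '' sat T G A ∧ T.adj m G u v) a' b' :=
    Relation.ReflTransGen.mono (fun u v h => ⟨hsub h.1, hsub h.2.1, h.2.2⟩) _ _ h3
  exact Relation.ReflTransGen.head ⟨ha, hsub ha', T.asymm m G _ _ h1⟩
    (h4.tail ⟨hsub hb', hb, h2⟩)

theorem FC.sat_sub {T : Tow L} {F G : Finset ι} (h : G ⊆ F) {A : Set (Thread T)}
    (hA : FC T F A) : FC T G (sat T G A) := by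
  apply FC_sat_of hA.closed hA.ne
  intro m
  have e : (fun z : Thread T => z.at m G) '' A =
      T.res m F G h '' ((fun z : Thread T => z.at m F) '' A) := by
    rw [Set.image_image]
    apply Set.image_congr
    intro z _
    exact (Thread.res_at z m F G h).symm
  rw [e]
  have hm := hA.conn m
  refine ⟨hm.1.image _, ?_⟩
  rintro _ ⟨a, ha, rfl⟩ _ ⟨b, hb, rfl⟩
  refine Relation.ReflTransGen.lift (T.res m F G h) ?_ _ _ (hm.2 a ha b hb)
  intro u v huv
  exact ⟨⟨u, huv.1, rfl⟩, ⟨v, huv.2.1, rfl⟩, T.res_adj m F G h _ _ huv.2.2⟩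

/-- a closed `R F`-saturated set which does not contain `b` stays away from `b` at all large
stages -/
theorem FC.far_of {T : Tow L} {F : Finset ι} {A : Set (Thread T)} (hA : FC T F A)
    {b : Thread T} (hb : b ∉ A) :
    ∃ m0, ∀ m ≥ m0, ∀ a ∈ A, ¬ Nr4 (T.adj m F) (a.at m F) (b.at m F) := by
  by_contra hcon
  push Not at hcon
  apply hb
  have hmem : b ∈ sat T F A := by
    apply mem_sat_of_near hA.closed
    intro m
    obtain ⟨m', hm', a, ha, h1⟩ := hcon m
    refine ⟨a, ha, ?_⟩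
    have h2 := Nr4_dn T m m' hm' F _ _ h1
    rw [Thread.dn_at, Thread.dn_at] at h2
    exact h2
  obtain ⟨a, ha, h1⟩ := hmem
  exact hA.satd a b ha h1

/-- image of a connected set of vertices under a hom -/
theorem Conn.image {V W : Type} {adj : V → V → Prop} {adj' : W → W → Prop} (f : V → W)
    {A : Set V} (hf : ∀ a ∈ A, ∀ b ∈ A, adj a b → adj' (f a) (f b)) (hA : Conn adj A) :
    Conn adj' (f '' A) := by
  refine ⟨hA.1.image _, ?_⟩
  rintro _ ⟨a, ha, rfl⟩ _ ⟨b, hb, rfl⟩
  refine Relation.ReflTransGen.lift f ?_ _ _ (hA.2 a ha b hb)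
  intro u v huv
  exact ⟨⟨u, huv.1, rfl⟩, ⟨v, huv.2.1, rfl⟩, hf u huv.1 v huv.2.1 huv.2.2⟩

end Pool.Agent.H26DD
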