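import Pool.Agent.Helper26.DD.SysA

/-!
# DD module I-8: the subdivision `T.sd` of a good system (section 5).

`T.sd.V F` = pairs `(u,w)` with `u ~ w`; `(u,w) ~ (u',w')` iff (`u = u'` and (`w = u` or `w' = u` or
`w = w'`)) or (`u' = w` and `w' = u`).
* conn: `(u,w)` is adjacent to `(u,u)`; if `u ~ u'` in `K` then `(u,u) ~ (u,u') ~ (u',u) ~ (u',u')`.
* mono, lim, K: immediate (`K` of `sd` is defined from `K F y` only; for `lim` take the same `p`).
* `sd_map`: for `σ ∈ T.Sec F i x` there is `τ ∈ T.sd.Sec F i x` (take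
  `τ a = (σ a.1, σ a.2)` if these are adjacent and `(σ a.1, σ a.1)` otherwise). For every
  `τ ∈ T.sd.Sec F i x` with its `σ` and `a ∈ T.sd.K (F.erase i) (up x)`: `τ a = (σ a.1, σ a.2)` by
  `sec_hom`.
* sec_hom: equalities are preserved by `σ`.  sec_restr: `sec_restr` of `T`; the needed element of
  `T.sd.Sec G i x` is obtained from `τ` in the same way.
* nat: into clear. Onto: enough for `G = F.erase i` (induction on `F \ G`), there by `sd_map`, `sec_K`,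
  `sec_res` (`y ∈ cube x`).
* dich: in the first case use `z ~ z' → σ z ~ τ z'` and `z = z' → σ z = τ z'` for the components
  (all four points are in the domains); in the second case `p` of adjacent pairs are adjacent.
* bot: `bot_inj` gives the equalities.
* two: `(v,v)` for the `v` of `two`.
`sd_prop`: `(u,w) ~ (u',w') ~ (u'',w'')` implies `u ~ u''`.
-/

set_option autoImplicit false

namespace Pool.Agent.H26DI

open Topology Pool.Agent.Helper85.DT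

variable {X I : Type} [DecidableEq I] [TopologicalSpace X] {S : PS} {r : I → X → ℝ}

omit [TopologicalSpace X] in
theorem sd_adj_iff {T : Pre X I S} (F : Finset I) (p q : T.sd.V F) : T.sd.adj F p q ↔
    (p.1.1 = q.1.1 ∧ (p.1.2 = p.1.1 ∨ q.1.2 = p.1.1 ∨ p.1.2 = q.1.2)) ∨
      (q.1.1 = p.1.2 ∧ q.1.2 = p.1.1) := Iff.rfl

omit [TopologicalSpace X] in
theorem sd_adj_fst {T : Pre X I S} (F : Finset I) (p q : T.sd.V F) (h : T.sd.adj F p q) :
    T.adj F p.1.1 q.1.1 := by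
  rcases (sd_adj_iff F p q).1 h with ⟨h, -⟩ | ⟨h, -⟩
  · rw [h]; exact T.arefl F _
  · rw [h]; exact p.2

omit [TopologicalSpace X] in
theorem sd_le_up {F : Finset I} {x : X} {c : I → S.P} (hc : c ∈ cube S r F x) :
    ∀ i ∈ F, c i ≤ up S r x i := by
  intro i hi
  rcases hc i hi with h | h
  · rw [h]; exact S.le_s _
  · rw [h]; exact le_refl _

omit [TopologicalSpace X] in
theorem sd_cube_erase {F : Finset I} {x : X} {c : I → S.P} (hc : c ∈ cube S r F x) (i : I) :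
    c ∈ cube S r (F.erase i) x := fun j hj => hc j (Finset.mem_of_mem_erase hj)

omit [TopologicalSpace X] in
theorem sd_K_up {T : Pre X I S} (hT : Good r T) {F : Finset I} {x : X} {c : I → S.P}
    (hc : c ∈ cube S r F x) : T.K F c ⊆ T.K F (up S r x) :=
  hT.mono F x c hc (up S r x) (up_mem S r F x) (sd_le_up hc)

omit [TopologicalSpace X] in
theorem sd_sec_val {T : Pre X I S} (hT : Good r T) {F : Finset I} {i : I} {x : X} (hi : i ∈ F)
    {τ : T.sd.V (F.erase i) → T.sd.V F} {σ : T.V (F.erase i) → T.V F} (hσ : σ ∈ T.Sec F i x)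
    (h : ∀ a : {p : T.V (F.erase i) × T.V (F.erase i) //
      T.adj (F.erase i) p.1 p.2}, T.adj F (σ a.1.1) (σ a.1.2) →
      ((τ a).1 : T.V F × T.V F) = (σ a.1.1, σ a.1.2))
    (a : T.sd.V (F.erase i)) (ha : a ∈ T.sd.K (F.erase i) (up S r x)) :
    ((τ a).1 : T.V F × T.V F) = (σ a.1.1, σ a.1.2) :=
  h a (hT.sec_hom F i x hi σ hσ a.1.1 ha.1 a.1.2 ha.2 a.2)

open Classical in
/-- the lift of a section -/
noncomputable def sdLift {T : Pre X I S} {F : Finset I} {i : I}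
    (σ : T.V (F.erase i) → T.V F) : T.sd.V (F.erase i) → T.sd.V F :=
  fun a => if h : T.adj F (σ a.1.1) (σ a.1.2) then ⟨(σ a.1.1, σ a.1.2), h⟩
    else ⟨(σ a.1.1, σ a.1.1), T.arefl _ _⟩

omit [TopologicalSpace X] in
theorem sdLift_val {T : Pre X I S} {F : Finset I} {i : I} (σ : T.V (F.erase i) → T.V F)
    (a : T.sd.V (F.erase i)) (h : T.adj F (σ a.1.1) (σ a.1.2)) :
    ((sdLift σ a).1 : T.V F × T.V F) = (σ a.1.1, σ a.1.2) := by
  unfold sdLift
  rw [dif_pos h]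

omit [TopologicalSpace X] in
theorem sdLift_mem {T : Pre X I S} {F : Finset I} {i : I} {x : X} {σ : T.V (F.erase i) → T.V F}
    (hσ : σ ∈ T.Sec F i x) : sdLift σ ∈ T.sd.Sec F i x :=
  ⟨σ, hσ, fun a h => sdLift_val σ a h⟩

omit [TopologicalSpace X] in
theorem sd_onto_erase {T : Pre X I S} (hT : Good r T) {F : Finset I} {i : I} (hi : i ∈ F)
    {y : I → S.P} (hy : y ∈ BB S r F) (q : T.sd.V (F.erase i)) (hq : q ∈ T.sd.K (F.erase i) y) :
    ∃ p ∈ T.sd.K F y, T.sd.res F (F.erase i) (F.erase_subset i) p = q := by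
  obtain ⟨x, hx⟩ := hy
  obtain ⟨σ, hσ⟩ := hT.sec_ne F i x hi
  have h1 : q.1.1 ∈ T.K (F.erase i) (up S r x) := sd_K_up hT (sd_cube_erase hx i) hq.1
  have h2 : q.1.2 ∈ T.K (F.erase i) (up S r x) := sd_K_up hT (sd_cube_erase hx i) hq.2
  have h3 : T.adj F (σ q.1.1) (σ q.1.2) := hT.sec_hom F i x hi σ hσ _ h1 _ h2 q.2
  refine ⟨⟨(σ q.1.1, σ q.1.2), h3⟩, ⟨hT.sec_K F i x hi σ hσ y hx _ hq.1,
    hT.sec_K F i x hi σ hσ y hx _ hq.2⟩, ?_⟩
  apply Subtype.ext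
  apply Prod.ext
  · exact hT.sec_res F i x hi σ hσ _ h1
  · exact hT.sec_res F i x hi σ hσ _ h2

omit [TopologicalSpace X] in
theorem sd_onto {T : Pre X I S} (hT : Good r T) : ∀ (n : ℕ) (F G : Finset I) (h : G ⊆ F),
    F.card = n → ∀ y ∈ BB S r F, ∀ q ∈ T.sd.K G y, ∃ p ∈ T.sd.K F y,
      T.sd.res F G h p = q := by
  intro n
  induction n with
  | zero =>
      intro F G h hn y hy q hq
      have hF : F = ∅ := Finset.card_eq_zero.1 hn
      have hG : G = F := by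
        rw [hF] at h ⊢
        exact Finset.subset_empty.1 h
      subst hG
      exact ⟨q, hq, T.sd.res_self _ _ _⟩
  | succ n ih =>
      intro F G h hn y hy q hq
      by_cases hG : G = F
      · subst hG
        exact ⟨q, hq, T.sd.res_self _ _ _⟩
      · obtain ⟨i, hiF, hiG⟩ := Finset.exists_of_ssubset (h.ssubset_of_ne hG)
        have hG' : G ⊆ F.erase i := Finset.subset_erase.2 ⟨h, hiG⟩
        have hcard : (F.erase i).card = n := by
          rw [Finset.card_erase_of_mem hiF, hn]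
          rfl
        have hy' : y ∈ BB S r (F.erase i) := by
          obtain ⟨x, hx⟩ := hy
          exact ⟨x, sd_cube_erase hx i⟩
        obtain ⟨p', hp', hpq⟩ := ih (F.erase i) G hG' hcard y hy' q hq
        obtain ⟨p, hp, hpp⟩ := sd_onto_erase hT hiF hy p' hp'
        refine ⟨p, hp, ?_⟩
        rw [← hpq, ← hpp, T.sd.res_res]

omit [TopologicalSpace X] in
theorem sd_conn {T : Pre X I S} (F : Finset I) (K : Set (T.V F)) (hK : Cn (T.adj F) K) :
    Cn (T.sd.adj F) ({p | p.1.1 ∈ K ∧ p.1.2 ∈ K} : Set (T.sd.V F)) := by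
  obtain ⟨⟨u0, hu0⟩, hc⟩ := hK
  refine ⟨⟨(⟨(u0, u0), T.arefl F u0⟩ : T.sd.V F), hu0, hu0⟩, ?_⟩
  have hdd : ∀ u v : T.V F, Relation.ReflTransGen (fun a b => T.adj F a b ∧ b ∈ K) u v → u ∈ K →
      Relation.ReflTransGen (fun a b : T.sd.V F => T.sd.adj F a b ∧
        b ∈ ({p | p.1.1 ∈ K ∧ p.1.2 ∈ K} : Set (T.sd.V F)))
        (⟨(u, u), T.arefl F u⟩ : T.sd.V F) (⟨(v, v), T.arefl F v⟩ : T.sd.V F) ∧ v ∈ K := by
    intro u v huv hu
    induction huv with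
    | refl => exact ⟨Relation.ReflTransGen.refl, hu⟩
    | @tail b c _ hbc ih =>
        obtain ⟨ih1, ih2⟩ := ih
        refine ⟨?_, hbc.2⟩
        refine ((ih1.tail (b := (⟨(b, b), T.arefl F b⟩ : T.sd.V F))
          (c := (⟨(b, c), hbc.1⟩ : T.sd.V F)) ?_).tail
          (c := (⟨(c, b), T.asymm F b c hbc.1⟩ : T.sd.V F)) ?_).tail ?_
        · exact ⟨Or.inl ⟨rfl, Or.inl rfl⟩, ih2, hbc.2⟩
        · exact ⟨Or.inr ⟨rfl, rfl⟩, hbc.2, ih2⟩
        · exact ⟨Or.inl ⟨rfl, Or.inr (Or.inl rfl)⟩, hbc.2, hbc.2⟩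
  intro p hp q hq
  have h1 : T.sd.adj F p (⟨(p.1.1, p.1.1), T.arefl F _⟩ : T.sd.V F) :=
    Or.inl ⟨rfl, Or.inr (Or.inl rfl)⟩
  have h2 : T.sd.adj F (⟨(q.1.1, q.1.1), T.arefl F _⟩ : T.sd.V F) q :=
    Or.inl ⟨rfl, Or.inl rfl⟩
  have h3 := (hdd p.1.1 q.1.1 (hc _ hp.1 _ hq.1) hp.1).1
  refine Relation.ReflTransGen.tail (Relation.ReflTransGen.head ?_ h3) ⟨h2, hq⟩
  exact ⟨h1, hp.1, hp.1⟩

theorem sd_good {T : Pre X I S} (hT : Good r T) : Good r T.sd where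
  conn := fun F y hy => sd_conn F (T.K F y) (hT.conn F y hy)
  mono := by
    intro F x y hy y' hy' h p hp
    exact ⟨hT.mono F x y hy y' hy' h hp.1, hT.mono F x y hy y' hy' h hp.2⟩
  nat := by
    intro F G h y hy
    apply Set.Subset.antisymm
    · rintro q ⟨p, hp, rfl⟩
      have h1 := hT.nat F G h y hy
      exact ⟨h1 ▸ ⟨p.1.1, hp.1, rfl⟩, h1 ▸ ⟨p.1.2, hp.2, rfl⟩⟩
    · intro q hq
      obtain ⟨p, hp, hpq⟩ := sd_onto hT F.card F G h rfl y hy q hq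
      exact ⟨p, hp, hpq⟩
  lim := by
    intro F y hy
    obtain ⟨p, hp, hw⟩ := hT.lim F y hy
    refine ⟨p, hp, ?_⟩
    intro w hwB h1 h2 h3
    have h4 := hw w hwB h1 h2 h3
    show ({p | p.1.1 ∈ T.K F w ∧ p.1.2 ∈ T.K F w} : Set (T.sd.V F)) =
      {p | p.1.1 ∈ T.K F y ∧ p.1.2 ∈ T.K F y}
    rw [h4]
  empt := fun v w => Subtype.ext (Prod.ext (hT.empt _ _) (hT.empt _ _))
  sec_ne := by
    intro F i x hi
    obtain ⟨σ, hσ⟩ := hT.sec_ne F i x hi
    exact ⟨sdLift σ, sdLift_mem hσ⟩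
  sec_hom := by
    rintro F i x hi τ ⟨σ, hσ, hτ⟩ a ha b hb hab
    have h1 := sd_sec_val hT hi hσ hτ a ha
    have h2 := sd_sec_val hT hi hσ hτ b hb
    rw [sd_adj_iff, h1, h2]
    rcases (sd_adj_iff _ a b).1 hab with ⟨h, h' | h' | h'⟩ | ⟨h, h'⟩
    · exact Or.inl ⟨by rw [h], Or.inl (by rw [h'])⟩
    · exact Or.inl ⟨by rw [h], Or.inr (Or.inl (by rw [h']))⟩
    · exact Or.inl ⟨by rw [h], Or.inr (Or.inr (by rw [h']))⟩
    · exact Or.inr ⟨by rw [h], by rw [h']⟩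
  sec_res := by
    rintro F i x hi τ ⟨σ, hσ, hτ⟩ a ha
    have h1 := sd_sec_val hT hi hσ hτ a ha
    apply Subtype.ext
    show (T.res F (F.erase i) (F.erase_subset i) (τ a).1.1,
      T.res F (F.erase i) (F.erase_subset i) (τ a).1.2) = a.1
    rw [h1]
    exact Prod.ext (hT.sec_res F i x hi σ hσ _ ha.1) (hT.sec_res F i x hi σ hσ _ ha.2)
  sec_K := by
    rintro F i x hi τ ⟨σ, hσ, hτ⟩ c hc a ha
    have ha' : a ∈ T.sd.K (F.erase i) (up S r x) :=
      ⟨sd_K_up hT (sd_cube_erase hc i) ha.1, sd_K_up hT (sd_cube_erase hc i) ha.2⟩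
    have h1 := sd_sec_val hT hi hσ hτ a ha'
    show (τ a).1.1 ∈ T.K F c ∧ (τ a).1.2 ∈ T.K F c
    rw [h1]
    exact ⟨hT.sec_K F i x hi σ hσ c hc _ ha.1, hT.sec_K F i x hi σ hσ c hc _ ha.2⟩
  sec_restr := by
    rintro F G i x h hiG τ ⟨σ, hσ, hτ⟩
    have hi : i ∈ F := h hiG
    obtain ⟨σ', hσ', hr'⟩ := hT.sec_restr F G i x h hiG σ hσ
    refine ⟨sdLift σ', sdLift_mem hσ', ?_⟩
    intro a ha
    have h1 := sd_sec_val hT hi hσ hτ a ha
    have h2 := hr' _ ha.1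
    have h3 := hr' _ ha.2
    have h4 : T.adj G (T.res F G h (σ a.1.1)) (T.res F G h (σ a.1.2)) :=
      T.res_adj F G h _ _ (hT.sec_hom F i x hi σ hσ _ ha.1 _ ha.2 a.2)
    rw [h2, h3] at h4
    apply Subtype.ext
    rw [sdLift_val σ' (T.sd.res (F.erase i) (G.erase i) (Finset.erase_subset_erase i h) a) h4]
    show (T.res F G h (τ a).1.1, T.res F G h (τ a).1.2) = _
    rw [h1]
    exact Prod.ext h2 h3
  dich := by
    rintro F i x x' hi τ ⟨σ, hσ, hτ⟩ τ' ⟨σ', hσ', hτ'⟩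
    rcases hT.dich F i x x' hi σ hσ σ' hσ' with hd | hd
    · left
      intro a ha b hb
      have h1 := sd_sec_val hT hi hσ hτ a ha
      have h2 := sd_sec_val hT hi hσ' hτ' b hb
      refine ⟨?_, ?_⟩
      · intro hab
        rw [sd_adj_iff, h1, h2]
        rcases (sd_adj_iff _ a b).1 hab with ⟨h, h' | h' | h'⟩ | ⟨h, h'⟩
        · exact Or.inl ⟨(hd _ ha.1 _ hb.1).2 h, Or.inl (by rw [h'])⟩
        · exact Or.inl ⟨(hd _ ha.1 _ hb.1).2 h, Or.inr (Or.inl ((hd _ ha.1 _ hb.2).2 h'.symm).symm)⟩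
        · exact Or.inl ⟨(hd _ ha.1 _ hb.1).2 h, Or.inr (Or.inr ((hd _ ha.2 _ hb.2).2 h'))⟩
        · exact Or.inr ⟨((hd _ ha.2 _ hb.1).2 h.symm).symm, ((hd _ ha.1 _ hb.2).2 h'.symm).symm⟩
      · intro hab
        apply Subtype.ext
        rw [h1, h2]
        subst hab
        exact Prod.ext ((hd _ ha.1 _ hb.1).2 rfl) ((hd _ ha.2 _ hb.2).2 rfl)
    · right
      intro a ha b hb hab
      have h1 := sd_sec_val hT hi hσ hτ a ha
      have h2 := sd_sec_val hT hi hσ' hτ' b hb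
      have h3 := sd_adj_fst F _ _ hab
      rw [h1, h2] at h3
      exact hd _ ha.1 _ hb.1 h3
  bot_adj := by
    intro F i hi y hy hyi v hv w hw hvw
    have hinj := hT.bot_inj F i hi y hy hyi
    rw [sd_adj_iff]
    rcases (sd_adj_iff _ _ _).1 hvw with ⟨h, h' | h' | h'⟩ | ⟨h, h'⟩
    · exact Or.inl ⟨hinj _ hv.1 _ hw.1 h, Or.inl (hinj _ hv.2 _ hv.1 h')⟩
    · exact Or.inl ⟨hinj _ hv.1 _ hw.1 h, Or.inr (Or.inl (hinj _ hw.2 _ hv.1 h'))⟩
    · exact Or.inl ⟨hinj _ hv.1 _ hw.1 h, Or.inr (Or.inr (hinj _ hv.2 _ hw.2 h'))⟩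
    · exact Or.inr ⟨hinj _ hw.1 _ hv.2 h, hinj _ hw.2 _ hv.1 h'⟩
  bot_inj := by
    intro F i hi y hy hyi v hv w hw hvw
    have hinj := hT.bot_inj F i hi y hy hyi
    have h1 := congrArg Subtype.val hvw
    have h2 := congrArg Prod.fst h1
    have h3 := congrArg Prod.snd h1
    apply Subtype.ext
    exact Prod.ext (hinj _ hv.1 _ hw.1 h2) (hinj _ hv.2 _ hw.2 h3)
  two := by
    intro j
    obtain ⟨v, hv, hv'⟩ := hT.two j
    exact ⟨⟨(v, v), T.arefl _ v⟩, ⟨hv, hv⟩, fun h => hv' h.1⟩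

/-- the projection of the subdivision -/
def sdProj {T : Pre X I S} (hT : Good r T) : Proj r T.sd T where
  p := fun F a => a.1.1
  p_adj := by
    rintro F ⟨⟨a, b⟩, h1⟩ ⟨⟨c, d⟩, h2⟩ hh
    rcases hh with ⟨h, -⟩ | ⟨h, -⟩
    · dsimp at h ⊢; rw [h]; exact T.arefl F c
    · dsimp at h h1 ⊢; rw [h]; exact h1
  p_res := fun F G h v => rfl
  p_K := by
    intro F y hy
    apply Set.Subset.antisymm
    · rintro _ ⟨a, ha, rfl⟩
      exact ha.1
    · intro u hu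
      exact ⟨⟨(u, u), T.arefl F u⟩, ⟨hu, hu⟩, rfl⟩
  p_sec := by
    rintro F i x hi τ ⟨σ, hσ, hτ⟩
    refine ⟨σ, hσ, ?_⟩
    intro a ha
    have h1 := sd_sec_val hT hi hσ hτ a ha
    show (τ a).1.1 = σ a.1.1
    rw [h1]

theorem sd_prop {T : Pre X I S} (F : Finset I) (a b c : T.sd.V F) (h : T.sd.adj F a b)
    (h' : T.sd.adj F b c) : T.adj F a.1.1 c.1.1 := by
  rcases (sd_adj_iff F a b).1 h with ⟨h1, -⟩ | ⟨h1, h2⟩
  · rw [h1]
    exact sd_adj_fst F b c h'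
  · rcases (sd_adj_iff F b c).1 h' with ⟨h3, -⟩ | ⟨h3, h4⟩
    · rw [← h3, h1]
      exact a.2
    · rw [h3, h2]
      exact T.arefl F _

/-- two different vertices have non adjacent diagonal lifts -/
theorem sd_diag {T : Pre X I S} (F : Finset I) (u v : T.V F) (huv : u ≠ v)
    (a b : T.sd.V F) (ha : a.1 = (u, u)) (hb : b.1 = (v, v)) : ¬ T.sd.adj F a b := by
  intro h
  rcases (sd_adj_iff F a b).1 h with ⟨h1, -⟩ | ⟨h1, -⟩
  · rw [ha, hb] at h1
    exact huv h1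
  · rw [ha, hb] at h1
    exact huv h1.symm

end Pool.Agent.H26DI
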