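import Pool.Agent.Helper26.DD.KxA
import Pool.Agent.Helper26.DD.KxC
import Pool.Agent.Helper26.DD.Ch

/-!
# DD module II-9: the finite set `lo` (property (T) in section 9, STAR).

For `j ∈ F` say that `x` is a `j`-point if `x ∉ Mc F b` and `∀ z, r j z ≤ r j x → leF F z x`, and
`(Kx T x ∩ O).Nonempty`. If there is a `j`-point choose one, `xj j`, and `aj j ∈ Kx (xj j) ∩ O`.
`lo = {a} ∪ {aj j | j ∈ F, a j-point exists}`.
Let `x* ∈ Mc b ∩ Mc c`, `c ∈ lo`. As `c ∈ O` and `O` is `R F`-saturated, `Kx x* ∩ O` is nonempty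
(the thread `z ∈ Kx x*` with `R F z c` is in `O`), so by `Kx_lsc` `(Kx x ∩ O).Nonempty` for `x` near `x*`
(`RR`-saturation follows from `R F`-saturation). Take moreover `x` so close to `x*` that
`r j x > r j (xj j)` for all `j` with `r j x* > r j (xj j)`. Suppose `x ∉ Mc b` and `x ∉ Mc c'` for all
`c' ∈ lo`. By `exists_low` there is `j ∈ F` with `∀ z, r j z ≤ r j x → leF z x`; so `x` is a `j`-point and
`xj j`, `aj j` are defined. If `r j (xj j) ≤ r j x` then `leF (xj j) x`, and `xj j ∈ Mc (aj j)`, so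
`x ∈ Mc (aj j)` (`Mc_up`), contradiction. So `r j x < r j (xj j)`, hence `r j x* ≤ r j (xj j)`, hence
`leF x* (xj j)`, so `xj j ∈ Mc b` by `Mc_up`, contradiction.
-/

set_option autoImplicit false

namespace Pool.Agent.H26DD

open Topology

variable {X : Type} [TopologicalSpace X] {ι : Type} [DecidableEq ι] {L : Letters X ι}

theorem star_lo (T : Tow L) (F : Finset ι) (hF : F.Nonempty) (O : Set (Thread T))
    (hO : IsOpen O) (hsat : ∀ z z', z ∈ O → R T F z z' → z' ∈ O) (b a : Thread T) (ha : a ∈ O) :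
    ∃ lo : Set (Thread T), lo.Finite ∧ a ∈ lo ∧ lo ⊆ O ∧
      ∀ x ∈ Mc T F b, (∃ c ∈ lo, x ∈ Mc T F c) →
        ∀ᶠ x' in 𝓝 x, x' ∈ Mc T F b ∨ ∃ c ∈ lo, x' ∈ Mc T F c := by
  classical
  have hch : ∀ j : ι, ∃ (y : X) (c : Thread T),
      (∃ x, x ∉ Mc T F b ∧ (∀ z, L.r j z ≤ L.r j x → leF L F z x) ∧ (Kx T x ∩ O).Nonempty) →
      (y ∉ Mc T F b ∧ (∀ z, L.r j z ≤ L.r j y → leF L F z y)) ∧ c ∈ Kx T y ∧ c ∈ O := by
    intro j
    by_cases h : ∃ x, x ∉ Mc T F b ∧ (∀ z, L.r j z ≤ L.r j x → leF L F z x) ∧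
        (Kx T x ∩ O).Nonempty
    · obtain ⟨y, h1, h2, c, h3, h4⟩ := h
      exact ⟨y, c, fun _ => ⟨⟨h1, h2⟩, h3, h4⟩⟩
    · obtain ⟨w, -⟩ := L.top
      exact ⟨w, a, fun h' => absurd h' h⟩
  choose xj aj hxa using hch
  refine ⟨insert a (aj '' {j | j ∈ F ∧ ∃ x, x ∉ Mc T F b ∧
    (∀ z, L.r j z ≤ L.r j x → leF L F z x) ∧ (Kx T x ∩ O).Nonempty}), ?_, ?_, ?_, ?_⟩
  · refine Set.Finite.insert _ (Set.Finite.image _ ?_)
    exact F.finite_toSet.subset fun j hj => hj.1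
  · exact Set.mem_insert _ _
  · intro c hc
    rcases Set.mem_insert_iff.1 hc with rfl | ⟨j, hj, rfl⟩
    · exact ha
    · exact (hxa j hj.2).2.2
  · rintro x hxb ⟨c, hc, hxc⟩
    have hcO : c ∈ O := by
      rcases Set.mem_insert_iff.1 hc with rfl | ⟨j, hj, rfl⟩
      · exact ha
      · exact (hxa j hj.2).2.2
    have hne : (Kx T x ∩ O).Nonempty := by
      obtain ⟨z, hz, hzc⟩ := hxc
      exact ⟨z, hz, hsat c z hcO (R_symm hzc)⟩
    have h1 : ∀ᶠ x' in 𝓝 x, (Kx T x' ∩ O).Nonempty :=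
      Kx_lsc hO (fun z z' hz h => hsat z z' hz (h F)) x hne
    have h2 : ∀ᶠ x' in 𝓝 x, ∀ j ∈ F, L.r j (xj j) < L.r j x → L.r j (xj j) < L.r j x' := by
      refine (Filter.eventually_all_finset F).2 fun j _ => ?_
      by_cases hj : L.r j (xj j) < L.r j x
      · filter_upwards [(L.cont j).continuousAt.eventually (lt_mem_nhds hj)] with x' hx' _
        exact hx'
      · exact Filter.Eventually.of_forall fun x' h => absurd h hj
    filter_upwards [h1, h2] with x' hx1 hx2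
    by_contra hcon
    push Not at hcon
    obtain ⟨hnb, hnlo⟩ := hcon
    obtain ⟨j, hjF, hj⟩ := exists_low L F hF x'
    have hex : ∃ x, x ∉ Mc T F b ∧ (∀ z, L.r j z ≤ L.r j x → leF L F z x) ∧
        (Kx T x ∩ O).Nonempty := ⟨x', hnb, hj, hx1⟩
    obtain ⟨⟨hyb, hylow⟩, hcK, hcO'⟩ := hxa j hex
    by_cases hle : L.r j (xj j) ≤ L.r j x'
    · have h3 : x' ∈ Mc T F (aj j) := Mc_up (hj _ hle) ⟨aj j, hcK, R_refl T F _⟩
      exact hnlo (aj j) (Set.mem_insert_of_mem _ ⟨j, ⟨hjF, hex⟩, rfl⟩) h3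
    · have h3 : ¬ L.r j (xj j) < L.r j x := fun h => hle (hx2 j hjF h).le
      exact hyb (Mc_up (hylow x (not_lt.1 h3)) hxb)

end Pool.Agent.H26DD
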