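import Pool.Agent.Helper26.DD.RefD
import Pool.Agent.Helper26.DD.Sd
import Pool.Agent.Helper26.DD.Base
import Pool.Agent.Helper26.DD.FoI

/-!
# DD module I-21: one stage of the tower (section 8): fold, refine, subdivide, refine.
-/

set_option autoImplicit false

namespace Pool.Agent.H26DI

open Topology Pool.Agent.Helper85.DT

/-- a stage of the tower -/
structure Stage (X I : Type) [DecidableEq I] (r : I → X → ℝ) where
  S : PS
  T : Pre X I S
  h : IsSys r T

variable {X I : Type} [DecidableEq I] [TopologicalSpace X] {r : I → X → ℝ}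

/-- the folded and refined system -/
noncomputable def Stage.fr (A : Stage X I r) : Pre X I A.S.refine := (A.T.fold r).refine

theorem Stage.fr_sys [CompactSpace X] [ConnectedSpace X] (hr : Let r) (A : Stage X I r) :
    IsSys r A.fr := refine_isSys hr (fold_good hr A.h)

/-- the next stage -/
noncomputable def Stage.next [CompactSpace X] [ConnectedSpace X] (hr : Let r)
    (A : Stage X I r) : Stage X I r where
  S := A.S.refine.refine
  T := A.fr.sd.refine
  h := refine_isSys hr (sd_good (A.fr_sys hr).toGood)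

/-- the bonding map -/
def Stage.bond [CompactSpace X] [ConnectedSpace X] (hr : Let r) (A : Stage X I r)
    (F : Finset I) (a : (A.next hr).T.V F) : A.T.V F :=
  ((a.1.1 : (A.T.fold r).V F)).1.1

theorem bond_adj [CompactSpace X] [ConnectedSpace X] (hr : Let r) (A : Stage X I r)
    (F : Finset I) (a b : (A.next hr).T.V F) (h : (A.next hr).T.adj F a b) :
    A.T.adj F (A.bond hr F a) (A.bond hr F b) :=
  ((foldProj hr A.h).p_adj F _ _ ((sdProj (A.fr_sys hr).toGood).p_adj F a b h))

theorem bond_res [CompactSpace X] [ConnectedSpace X] (hr : Let r) (A : Stage X I r)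
    (F G : Finset I) (h : G ⊆ F) (a : (A.next hr).T.V F) :
    A.bond hr G ((A.next hr).T.res F G h a) = A.T.res F G h (A.bond hr F a) := rfl

theorem bond_sd [CompactSpace X] [ConnectedSpace X] (hr : Let r) (A : Stage X I r)
    (F : Finset I) (a b c : (A.next hr).T.V F) (h : (A.next hr).T.adj F a b)
    (h' : (A.next hr).T.adj F b c) : A.T.adj F (A.bond hr F a) (A.bond hr F c) :=
  (foldProj hr A.h).p_adj F _ _ (sd_prop F a b c h h')

/-- the low sets lift -/
theorem bond_low [CompactSpace X] [ConnectedSpace X] (hr : Let r) (A : Stage X I r)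
    (F : Finset I) (x : X) (v : A.T.V F) (hv : v ∈ A.T.K F (low A.S r x)) :
    ∃ a ∈ (A.next hr).T.K F (low (A.next hr).S r x), A.bond hr F a = v := by
  have h1 := (foldProj hr A.h).p_K F (low A.S r x) ⟨x, low_mem A.S r F x⟩
  rw [← h1] at hv
  obtain ⟨b, hb, rfl⟩ := hv
  have hb1 : b ∈ A.fr.K F (low A.S.refine r x) := by
    apply b_sub_refine (fold_good hr A.h) F (low A.S.refine r x) ⟨x, low_mem _ r F x⟩
    have : (fun i => PS.b (low A.S.refine r x i)) = low A.S r x := by
      funext i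
      exact b_ps i x
    rw [this]
    exact hb
  let c : A.fr.sd.V F := ⟨(b, b), A.fr.arefl F b⟩
  have hc : c ∈ A.fr.sd.K F (low A.S.refine r x) := ⟨hb1, hb1⟩
  refine ⟨c, ?_, rfl⟩
  apply b_sub_refine (sd_good (A.fr_sys hr).toGood) F (low A.S.refine.refine r x)
    ⟨x, low_mem _ r F x⟩
  have : (fun i => PS.b (low A.S.refine.refine r x i)) = low A.S.refine r x := by
    funext i
    exact b_ps i x
  rw [this]
  exact hc

/-- the up sets project -/
theorem bond_up [CompactSpace X] [ConnectedSpace X] (hr : Let r) (A : Stage X I r)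
    (F : Finset I) (x : X) (a : (A.next hr).T.V F)
    (ha : a ∈ (A.next hr).T.K F (up (A.next hr).S r x)) :
    A.bond hr F a ∈ A.T.K F (up A.S r x) := by
  have h1 : a ∈ A.fr.sd.K F (up A.S.refine r x) :=
    dom_sub (sd_good (A.fr_sys hr).toGood) F x ha
  have h2 : a.1.1 ∈ A.fr.K F (up A.S.refine r x) := h1.1
  have h3 : a.1.1 ∈ (A.T.fold r).K F (up A.S r x) := dom_sub (fold_good hr A.h) F x h2
  rw [← (foldProj hr A.h).p_K F (up A.S r x) ⟨x, up_mem A.S r F x⟩]
  exact ⟨_, h3, rfl⟩

/-- the top sets project -/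
theorem bond_sec [CompactSpace X] [ConnectedSpace X] (hr : Let r) (A : Stage X I r)
    (F : Finset I) (i : I) (hi : i ∈ F) (x : X)
    (τ : (A.next hr).T.V (F.erase i) → (A.next hr).T.V F) (hτ : τ ∈ (A.next hr).T.Sec F i x) :
    ∃ σ ∈ A.T.Sec F i x, ∀ a ∈ (A.next hr).T.K (F.erase i) (up (A.next hr).S r x),
      A.bond hr F (τ a) = σ (A.bond hr (F.erase i) a) := by
  obtain ⟨σ1, hσ1, h1⟩ := (sdProj (A.fr_sys hr).toGood).p_sec F i x hi τ hτ
  obtain ⟨σ2, hσ2, h2⟩ := (foldProj hr A.h).p_sec F i x hi σ1 hσ1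
  refine ⟨σ2, hσ2, fun a ha => ?_⟩
  have h3 : a ∈ A.fr.sd.K (F.erase i) (up A.S.refine r x) :=
    dom_sub (sd_good (A.fr_sys hr).toGood) _ x ha
  have h4 : a.1.1 ∈ A.fr.K (F.erase i) (up A.S.refine r x) := h3.1
  have h5 : a.1.1 ∈ (A.T.fold r).K (F.erase i) (up A.S r x) :=
    dom_sub (fold_good hr A.h) _ x h4
  have e1 : (τ a).1.1 = σ1 a.1.1 := h1 a h3
  have e2 := h2 a.1.1 h5
  show ((τ a).1.1 : (A.T.fold r).V F).1.1 = _
  rw [e1]
  exact e2

/-- fold coordinates -/
theorem bond_coord [CompactSpace X] [ConnectedSpace X] (hr : Let r) (A : Stage X I r)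
    (E : Finset I) (φ : A.T.V E → Fin 5) (hL : Legal r A.T E φ) :
    ∃ u : (A.next hr).T.V E → Fin 9,
      (∀ a b, (A.next hr).T.adj E a b → nr (u a) (u b)) ∧
      ∀ a, nu (u a) = φ (A.bond hr E a) := by
  obtain ⟨u, h1, h2⟩ := fold_coord A.T E φ hL
  refine ⟨fun a => u a.1.1, fun a b h => ?_, fun a => h2 a.1.1⟩
  exact h1 _ _ ((sdProj (A.fr_sys hr).toGood).p_adj E a b h)

/-- bottom positions -/
theorem next_bot [CompactSpace X] [ConnectedSpace X] (hr : Let r) (A : Stage X I r)
    (i : I) (x : X) (h : ps (A.next hr).S r i x = (A.next hr).S.bot) :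
    ps A.S r i x = A.S.bot := by
  have h1 : PS.b (ps A.S.refine.refine r i x) = ps A.S.refine r i x := b_ps i x
  have h2 : PS.b (ps A.S.refine r i x) = ps A.S r i x := b_ps i x
  have h3 : ps A.S.refine r i x = A.S.refine.bot := by
    rw [← h1]
    have : ps A.S.refine.refine r i x = A.S.refine.refine.bot := h
    rw [this]
    rfl
  rw [← h2, h3]
  rfl

/-- the base vertex projects to the base vertex -/
theorem bond_bot [CompactSpace X] [ConnectedSpace X] (hr : Let r) (A : Stage X I r)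
    (j : I) (a : (A.next hr).T.V {j}) (ha : a ∈ (A.next hr).T.K {j} (fun _ => (A.next hr).S.bot)) :
    A.bond hr {j} a ∈ A.T.K {j} (fun _ => A.S.bot) := by
  have h1 : a ∈ A.fr.sd.K {j} (fun _ => A.S.refine.bot) :=
    refine_sub_cc {j} (fun _ => A.S.refine.refine.bot) ha
  have h2 : a.1.1 ∈ (A.T.fold r).K {j} (fun _ => A.S.bot) :=
    refine_sub_cc {j} (fun _ => A.S.refine.bot) h1.1
  rw [← (foldProj hr A.h).p_K {j} (fun _ => A.S.bot) (pos_mem_one hr j A.S.bot)]
  exact ⟨_, h2, rfl⟩

/-- (N5) -/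
theorem bond_nbz [CompactSpace X] [ConnectedSpace X] (hr : Let r) (A : Stage X I r)
    (j : I) (x : X) (h : ps A.S r j x ≠ A.S.bot) (o : (A.next hr).T.V {j})
    (ho : o ∈ (A.next hr).T.K {j} (fun _ => (A.next hr).S.bot)) :
    ∃ a ∈ (A.next hr).T.K {j} (low (A.next hr).S r x), ¬ (A.next hr).T.adj {j} a o := by
  obtain ⟨v, hv, hvo⟩ := A.h.two j
  -- v is in the low set of x
  have hv1 : v ∈ A.T.K {j} (low A.S r x) := by
    refine A.h.toGood.mono_BB hr {j} _ _ (pos_mem_one hr j _) ⟨x, low_mem A.S r _ x⟩ ?_ hv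
    intro i hi
    rw [Finset.mem_singleton] at hi
    subst hi
    exact A.S.s_le _ _ (lt_of_le_of_ne (A.S.bot_le _) (Ne.symm h))
  have h1 := (foldProj hr A.h).p_K {j} (low A.S r x) ⟨x, low_mem A.S r _ x⟩
  rw [← h1] at hv1
  obtain ⟨b, hb, hbv⟩ := hv1
  have hb1 : b ∈ A.fr.K {j} (low A.S.refine r x) := by
    apply b_sub_refine (fold_good hr A.h) {j} (low A.S.refine r x) ⟨x, low_mem _ r _ x⟩
    have : (fun i => PS.b (low A.S.refine r x i)) = low A.S r x := by
      funext i
      exact b_ps i x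
    rw [this]
    exact hb
  let c : A.fr.sd.V {j} := ⟨(b, b), A.fr.arefl {j} b⟩
  have hc : c ∈ A.fr.sd.K {j} (low A.S.refine r x) := ⟨hb1, hb1⟩
  refine ⟨c, ?_, ?_⟩
  · apply b_sub_refine (sd_good (A.fr_sys hr).toGood) {j} (low A.S.refine.refine r x)
      ⟨x, low_mem _ r _ x⟩
    have : (fun i => PS.b (low A.S.refine.refine r x i)) = low A.S.refine r x := by
      funext i
      exact b_ps i x
    rw [this]
    exact hc
  · -- o is the diagonal vertex of the base vertex of the folded system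
    have h2 : o ∈ A.fr.sd.K {j} (fun _ => A.S.refine.bot) :=
      refine_sub_cc {j} (fun _ => A.S.refine.refine.bot) ho
    obtain ⟨q, hq⟩ := (A.fr_sys hr).toGood.bot_unique hr j
    have e1 : o.1.1 = q := by
      have : o.1.1 ∈ A.fr.K {j} (fun _ => A.S.refine.bot) := h2.1
      rw [hq] at this
      exact this
    have e2 : o.1.2 = q := by
      have : o.1.2 ∈ A.fr.K {j} (fun _ => A.S.refine.bot) := h2.2
      rw [hq] at this
      exact this
    have hqb : q ∈ (A.T.fold r).K {j} (fun _ => A.S.bot) := by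
      have : q ∈ A.fr.K {j} (fun _ => A.S.refine.bot) := by rw [hq]; rfl
      exact refine_sub_cc {j} (fun _ => A.S.refine.bot) this
    have hne : b ≠ q := by
      intro hbq
      apply hvo
      rw [← (foldProj hr A.h).p_K {j} (fun _ => A.S.bot) (pos_mem_one hr j A.S.bot)]
      exact ⟨q, hqb, by rw [← hbq]; exact hbv⟩
    apply sd_diag {j} b q hne c o rfl
    exact Prod.ext e1 e2

/-- the tower of stages -/
noncomputable def stg [CompactSpace X] [ConnectedSpace X] (hr : Let r) : ℕ → Stage X I r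
  | 0 => ⟨basePS, basePre X I, base_isSys hr⟩
  | n + 1 => (stg hr n).next hr

end Pool.Agent.H26DI
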