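import Pool.Agent.Helper85.DT.Chain
import Pool.Agent.Helper85.DT.Parity
import Pool.Agent.Helper85.DT.Pos
import Pool.Agent.Helper85.DT.PosRef

/-!
# Project DD, part I: systems (sections 3, 4).

`Pre X S` : data of a system over the position set `S` (graphs `V F`, restrictions, sets
`K F y`, sections `Sec F i x`).
`Good r T` : axioms (A1)(A2)(A3)(A5)(A6)(A7)(A8)(A9).   `IsSys r T` : in addition (A4).
`Proj r T' T` : projection of an extension `T'` onto `T`.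
`Pre.refine` : the refinement (infinite backward adapted walks).
`Pre.sd` : the subdivision.
-/

set_option autoImplicit false

namespace Pool.Agent.H26DI

open Pool.Agent.Helper85.DT

/-- data of a system -/
structure Pre (X : Type) (I : Type) [DecidableEq I] (S : PS) where
  V : Finset I → Type
  fin : ∀ F, Finite (V F)
  adj : ∀ F, V F → V F → Prop
  arefl : ∀ F v, adj F v v
  asymm : ∀ F v w, adj F v w → adj F w v
  res : ∀ (F G : Finset I), G ⊆ F → V F → V G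
  res_adj : ∀ F G h v w, adj F v w → adj G (res F G h v) (res F G h w)
  res_self : ∀ F h v, res F F h v = v
  res_res : ∀ F G H (h : G ⊆ F) (h' : H ⊆ G) v,
    res G H h' (res F G h v) = res F H (h'.trans h) v
  K : ∀ F : Finset I, (I → S.P) → Set (V F)
  K_congr : ∀ (F : Finset I) (y y' : I → S.P), (∀ i ∈ F, y i = y' i) → K F y = K F y'
  Sec : ∀ (F : Finset I) (i : I), X → Set (V (F.erase i) → V F)

section

variable {X I : Type} [DecidableEq I] {S : PS}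

/-- the positions of `x` -/
def low (S : PS) (r : I → X → ℝ) (x : X) : I → S.P := fun i => ps S r i x

/-- the successors of the positions of `x` -/
def up (S : PS) (r : I → X → ℝ) (x : X) : I → S.P := fun i => S.s (ps S r i x)

theorem low_mem (S : PS) (r : I → X → ℝ) (F : Finset I) (x : X) : low S r x ∈ cube S r F x :=
  fun _ _ => Or.inl rfl

theorem up_mem (S : PS) (r : I → X → ℝ) (F : Finset I) (x : X) : up S r x ∈ cube S r F x :=
  fun _ _ => Or.inr rfl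

/-- hypotheses on the letters -/
structure Let [TopologicalSpace X] (r : I → X → ℝ) : Prop where
  cont : ∀ i, Continuous (r i)
  bd : ∀ i x, 0 ≤ r i x ∧ r i x ≤ 1
  lam : Lami r
  top : ∃ w, ∀ i, r i w = 1
  bot : ∀ i, ∃ x, r i x = 0

/-- axioms (A1) (A2) (A3) (A5) (A6) (A7) (A8) (A9) -/
structure Good (r : I → X → ℝ) (T : Pre X I S) : Prop where
  conn : ∀ F, ∀ y ∈ BB S r F, Cn (T.adj F) (T.K F y)
  mono : ∀ F x, ∀ y ∈ cube S r F x, ∀ y' ∈ cube S r F x, (∀ i ∈ F, y i ≤ y' i) →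
    T.K F y ⊆ T.K F y'
  nat : ∀ F G (h : G ⊆ F), ∀ y ∈ BB S r F, T.res F G h '' T.K F y = T.K G y
  lim : ∀ F, ∀ y ∈ BB S r F, ∃ p : I → S.P, (∀ i ∈ F, S.IsLim (y i) → p i < y i) ∧
    ∀ w ∈ BB S r F, (∀ i ∈ F, w i ≤ y i) → (∀ i ∈ F, ¬ S.IsLim (y i) → w i = y i) →
      (∀ i ∈ F, S.IsLim (y i) → p i < w i) → T.K F w = T.K F y
  empt : ∀ v w : T.V ∅, v = w
  sec_ne : ∀ F i x, i ∈ F → (T.Sec F i x).Nonempty
  sec_hom : ∀ F i x, i ∈ F → ∀ σ ∈ T.Sec F i x, ∀ a ∈ T.K (F.erase i) (up S r x),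
    ∀ b ∈ T.K (F.erase i) (up S r x), T.adj (F.erase i) a b → T.adj F (σ a) (σ b)
  sec_res : ∀ F i x, i ∈ F → ∀ σ ∈ T.Sec F i x, ∀ a ∈ T.K (F.erase i) (up S r x),
    T.res F (F.erase i) (F.erase_subset i) (σ a) = a
  sec_K : ∀ F i x, i ∈ F → ∀ σ ∈ T.Sec F i x, ∀ c ∈ cube S r F x,
    ∀ a ∈ T.K (F.erase i) c, σ a ∈ T.K F c
  sec_restr : ∀ F G i x (h : G ⊆ F), i ∈ G → ∀ σ ∈ T.Sec F i x, ∃ τ ∈ T.Sec G i x,
    ∀ a ∈ T.K (F.erase i) (up S r x), T.res F G h (σ a) =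
      τ (T.res (F.erase i) (G.erase i) (Finset.erase_subset_erase i h) a)
  dich : ∀ F i x x', i ∈ F → ∀ σ ∈ T.Sec F i x, ∀ τ ∈ T.Sec F i x',
    (∀ a ∈ T.K (F.erase i) (up S r x), ∀ b ∈ T.K (F.erase i) (up S r x'),
      (T.adj (F.erase i) a b → T.adj F (σ a) (τ b)) ∧ (a = b → σ a = τ b)) ∨
    (∀ a ∈ T.K (F.erase i) (up S r x), ∀ b ∈ T.K (F.erase i) (up S r x'),
      ¬ T.adj F (σ a) (τ b))
  bot_adj : ∀ F i, i ∈ F → ∀ y ∈ BB S r F, y i = S.bot → ∀ v ∈ T.K F y, ∀ w ∈ T.K F y,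
    T.adj (F.erase i) (T.res F (F.erase i) (F.erase_subset i) v)
      (T.res F (F.erase i) (F.erase_subset i) w) → T.adj F v w
  bot_inj : ∀ F i, i ∈ F → ∀ y ∈ BB S r F, y i = S.bot → ∀ v ∈ T.K F y, ∀ w ∈ T.K F y,
    T.res F (F.erase i) (F.erase_subset i) v = T.res F (F.erase i) (F.erase_subset i) w →
      v = w
  two : ∀ j : I, ∃ v ∈ T.K {j} (fun _ => S.s S.bot), v ∉ T.K {j} (fun _ => S.bot)

/-- a system: `Good` and (A4) -/
structure IsSys (r : I → X → ℝ) (T : Pre X I S) : Prop extends Good r T where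
  step : ∀ F x, ∀ v ∈ T.K F (up S r x), ∃ u ∈ T.K F (low S r x), T.adj F u v

/-- a projection of `T'` onto `T` (same position set) -/
structure Proj (r : I → X → ℝ) (T' T : Pre X I S) where
  p : ∀ F, T'.V F → T.V F
  p_adj : ∀ F v w, T'.adj F v w → T.adj F (p F v) (p F w)
  p_res : ∀ F G (h : G ⊆ F) v, p G (T'.res F G h v) = T.res F G h (p F v)
  p_K : ∀ F, ∀ y ∈ BB S r F, p F '' T'.K F y = T.K F y
  p_sec : ∀ F i x, i ∈ F → ∀ σ ∈ T'.Sec F i x, ∃ τ ∈ T.Sec F i x,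
    ∀ a ∈ T'.K (F.erase i) (up S r x), p F (σ a) = τ (p (F.erase i) a)

/-- the refinement of a system: `v ∈ K F y` iff there is an infinite backward adapted walk from
`v` -/
noncomputable def Pre.refine (T : Pre X I S) : Pre X I S.refine where
  V := T.V
  fin := T.fin
  adj := T.adj
  arefl := T.arefl
  asymm := T.asymm
  res := T.res
  res_adj := T.res_adj
  res_self := T.res_self
  res_res := T.res_res
  K := fun F y => {v | ∃ w : ℕ → T.V F, w 0 = v ∧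
    ∀ j, T.adj F (w j) (w (j + 1)) ∧ w j ∈ T.K F (fun i => PS.cc (PS.sub (y i) j))}
  K_congr := by
    intro F y y' h
    have : ∀ j, T.K F (fun i => PS.cc (PS.sub (y i) j)) =
        T.K F (fun i => PS.cc (PS.sub (y' i) j)) := by
      intro j
      apply T.K_congr
      intro i hi
      rw [h i hi]
    ext v
    simp only [this]
  Sec := T.Sec

/-- the subdivision -/
def Pre.sd (T : Pre X I S) : Pre X I S where
  V := fun F => {p : T.V F × T.V F // T.adj F p.1 p.2}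
  fin := fun F => by
    haveI := T.fin F
    infer_instance
  adj := fun F p q => (p.1.1 = q.1.1 ∧ (p.1.2 = p.1.1 ∨ q.1.2 = p.1.1 ∨ p.1.2 = q.1.2)) ∨
    (q.1.1 = p.1.2 ∧ q.1.2 = p.1.1)
  arefl := fun F v => Or.inl ⟨rfl, Or.inr (Or.inr rfl)⟩
  asymm := by
    rintro F ⟨⟨a, b⟩, h⟩ ⟨⟨c, d⟩, h'⟩ hh
    dsimp at hh ⊢
    rcases hh with ⟨rfl, h1 | h1 | h1⟩ | ⟨h1, h2⟩
    · exact Or.inl ⟨rfl, Or.inr (Or.inl h1)⟩
    · exact Or.inl ⟨rfl, Or.inl h1⟩
    · exact Or.inl ⟨rfl, Or.inr (Or.inr h1.symm)⟩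
    · exact Or.inr ⟨h2.symm, h1.symm⟩
  res := fun F G h p => ⟨(T.res F G h p.1.1, T.res F G h p.1.2), T.res_adj F G h _ _ p.2⟩
  res_adj := by
    rintro F G h ⟨⟨a, b⟩, h1⟩ ⟨⟨c, d⟩, h2⟩ hh
    dsimp at hh ⊢
    rcases hh with ⟨rfl, h1 | h1 | h1⟩ | ⟨h1, h2⟩
    · exact Or.inl ⟨rfl, Or.inl (by rw [h1])⟩
    · exact Or.inl ⟨rfl, Or.inr (Or.inl (by rw [h1]))⟩
    · exact Or.inl ⟨rfl, Or.inr (Or.inr (by rw [h1]))⟩
    · exact Or.inr ⟨by rw [h1], by rw [h2]⟩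
  res_self := by
    rintro F h ⟨⟨a, b⟩, h1⟩
    apply Subtype.ext
    simp only [T.res_self]
  res_res := by
    rintro F G H h h' ⟨⟨a, b⟩, h1⟩
    apply Subtype.ext
    simp only [T.res_res]
  K := fun F y => {p | p.1.1 ∈ T.K F y ∧ p.1.2 ∈ T.K F y}
  K_congr := by
    intro F y y' h
    simp only [T.K_congr F y y' h]
  Sec := fun F i x => {τ | ∃ σ ∈ T.Sec F i x, ∀ a : {p : T.V (F.erase i) × T.V (F.erase i) //
      T.adj (F.erase i) p.1 p.2}, T.adj F (σ a.1.1) (σ a.1.2) →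
      ((τ a).1 : T.V F × T.V F) = (σ a.1.1, σ a.1.2)}

end

end Pool.Agent.H26DI
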