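import Pool.Agent.Helper26.DD.Sys

/-!
# DD module I-3: general facts on good systems (monotonicity on all of `BB`, points near `x0`).

`mono_BB`: `cubes_monotone` (Helper85/DT/Pos, for `α = Set (T.V F)`) with `Good.mono`, `Good.lim`.
`bot_mem`, `top_mem`: `Let.bot` (for one letter `j`), `Let.top` with `ps_zero`, `ps_one`.
`pos_mem_one`: for one letter `j` every constant position is in `BB S r {j}`: `r j` takes all values
in `[0,1]` (connectedness), `PS.fl_val`.
`up_le_top` etc.
`low_near`: for `x` near `x0` `low x ≤ low x0` on `F` (`ps_near_leF`, continuity), hence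
`K F (up x) ⊆ K F (up x0)` by `mono_BB`.
`low_lsc`: near `x0`: let `w i = min (ps x0) (s (ps x))`; `w ∈ cube x` (if `ps x < ps x0` then
`s (ps x) ≤ ps x0`; use `ps_near_leF`), `w ≤ low x0`, equal to `low x0` at non-limit positions (if
`ps x0 = s q` then `q ≤ ps x` near `x0` by `ps_near_geF`), and above `p` at the limit positions
(`ps_near_geF`); so `K F (low x0) = K F w ⊆ K F (up x)` by `lim` and `mono`.
-/

set_option autoImplicit false

namespace Pool.Agent.H26DI

open Topology Pool.Agent.Helper85.DT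

variable {X I : Type} [DecidableEq I] [TopologicalSpace X] {S : PS} {r : I → X → ℝ}

theorem Good.mono_BB [CompactSpace X] [ConnectedSpace X] (hr : Let r) {T : Pre X I S}
    (hT : Good r T) (F : Finset I) (y y' : I → S.P) (hy : y ∈ BB S r F) (hy' : y' ∈ BB S r F)
    (h : ∀ i ∈ F, y i ≤ y' i) : T.K F y ⊆ T.K F y' := by
  exact cubes_monotone (F := F) hr.bd hr.cont hr.lam (fun y => T.K F y)
    (fun y y' h => T.K_congr F y y' h) (fun x y hy y' hy' h => hT.mono F x y hy y' hy' h)
    (fun y hy => hT.lim F y hy) y hy y' hy' h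

theorem top_mem (hr : Let r) (F : Finset I) : (fun _ => S.top) ∈ BB S r F := by
  obtain ⟨w, hw⟩ := hr.top
  exact ⟨w, fun i _ => Or.inl (ps_one (hw i)).symm⟩

theorem pos_mem_one [ConnectedSpace X] (hr : Let r) (j : I) (p : S.P) :
    (fun _ => p) ∈ BB S r {j} := by
  obtain ⟨w, hw⟩ := hr.top
  obtain ⟨x0, hx0⟩ := hr.bot j
  obtain ⟨x, hx⟩ := mem_range_of_exists_le_of_exists_ge (hr.cont j)
    (⟨x0, by rw [hx0]; exact S.val_nonneg p⟩ : ∃ a, r j a ≤ S.val p)
    (⟨w, by rw [hw j]; exact S.val_le_one p⟩ : ∃ a, S.val p ≤ r j a)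
  refine ⟨x, fun i hi => Or.inl ?_⟩
  rw [Finset.mem_singleton] at hi
  subst hi
  show p = ps S r i x
  unfold ps
  rw [hx, S.fl_val]

private theorem near_le (hr : Let r) (F : Finset I) (x0 : X) :
    ∀ᶠ x in 𝓝 x0, ∀ i ∈ F, ps S r i x ≤ ps S r i x0 := by
  obtain ⟨e, he, h⟩ := ps_near_leF (S := S) hr.bd F x0
  have h1 : ∀ᶠ x in 𝓝 x0, ∀ i ∈ F, r i x < r i x0 + e := by
    rw [Filter.eventually_all_finset]
    intro i _
    exact ((hr.cont i).tendsto x0).eventually (gt_mem_nhds (by linarith))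
  filter_upwards [h1] with x hx i hi
  exact h x i hi (hx i hi)

private theorem near_ge (hr : Let r) (F : Finset I) (x0 : X) (p : I → S.P) :
    ∀ᶠ x in 𝓝 x0, ∀ i ∈ F, p i < ps S r i x0 → p i ≤ ps S r i x := by
  obtain ⟨e, he, h⟩ := ps_near_geF (S := S) hr.bd F x0 p
  have h1 : ∀ᶠ x in 𝓝 x0, ∀ i ∈ F, r i x0 < r i x + e := by
    rw [Filter.eventually_all_finset]
    intro i _
    have h2 : ∀ᶠ x in 𝓝 x0, r i x0 - e < r i x :=
      ((hr.cont i).tendsto x0).eventually (lt_mem_nhds (by linarith))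
    filter_upwards [h2] with x hx
    linarith
  filter_upwards [h1] with x hx i hi hp
  exact h x i hi hp (hx i hi)

theorem up_usc [CompactSpace X] [ConnectedSpace X] (hr : Let r) {T : Pre X I S}
    (hT : Good r T) (F : Finset I) (x0 : X) :
    ∀ᶠ x in 𝓝 x0, T.K F (up S r x) ⊆ T.K F (up S r x0) := by
  filter_upwards [near_le (S := S) hr F x0] with x hx
  exact hT.mono_BB hr F _ _ ⟨x, up_mem S r F x⟩ ⟨x0, up_mem S r F x0⟩
    (fun i hi => S.s_mono (hx i hi))

theorem low_lsc (hr : Let r) {T : Pre X I S}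
    (hT : Good r T) (F : Finset I) (x0 : X) :
    ∀ᶠ x in 𝓝 x0, T.K F (low S r x0) ⊆ T.K F (up S r x) := by
  classical
  obtain ⟨p, hp, hlim⟩ := hT.lim F (low S r x0) ⟨x0, low_mem S r F x0⟩
  have hch : ∀ i, ∃ q : S.P, (¬ S.IsLim (ps S r i x0) → ps S r i x0 ≠ S.bot →
      q < ps S r i x0 ∧ S.s q = ps S r i x0) ∧ (S.IsLim (ps S r i x0) → q = p i) := by
    intro i
    by_cases h : S.IsLim (ps S r i x0)
    · exact ⟨p i, fun h' => absurd h h', fun _ => rfl⟩
    · rcases S.eq_s_of_not_lim h with h1 | ⟨q, h1, h2⟩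
      · exact ⟨p i, fun _ h' => absurd h1 h', fun h' => absurd h' h⟩
      · exact ⟨q, fun _ _ => ⟨h1, h2⟩, fun h' => absurd h' h⟩
  choose q hq using hch
  filter_upwards [near_le (S := S) hr F x0, near_ge (S := S) hr F x0 q] with x hle hge
  have hw : (fun i => min (ps S r i x0) (S.s (ps S r i x))) ∈ cube S r F x := by
    intro i hi
    show min (ps S r i x0) (S.s (ps S r i x)) = ps S r i x ∨
      min (ps S r i x0) (S.s (ps S r i x)) = S.s (ps S r i x)
    rcases (hle i hi).eq_or_lt with h | h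
    · left
      rw [← h]
      exact min_eq_left (S.le_s _)
    · right
      exact min_eq_right (S.s_le _ _ h)
  have hK : T.K F (fun i => min (ps S r i x0) (S.s (ps S r i x))) = T.K F (low S r x0) := by
    apply hlim _ ⟨x, hw⟩
    · intro i _
      exact min_le_left _ _
    · intro i hi hnl
      show min (ps S r i x0) (S.s (ps S r i x)) = ps S r i x0
      by_cases hb : ps S r i x0 = S.bot
      · rw [hb]
        exact min_eq_left (S.bot_le _)
      · obtain ⟨h1, h2⟩ := (hq i).1 hnl hb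
        apply min_eq_left
        calc ps S r i x0 = S.s (q i) := h2.symm
          _ ≤ S.s (ps S r i x) := S.s_mono (hge i hi h1)
    · intro i hi hl
      have hqi : q i = p i := (hq i).2 hl
      have h1 : p i < ps S r i x0 := hp i hi hl
      show p i < min (ps S r i x0) (S.s (ps S r i x))
      apply lt_min h1
      have h2 : p i ≤ ps S r i x := by
        have := hge i hi (by rw [hqi]; exact h1)
        rwa [hqi] at this
      by_cases ht : ps S r i x = S.top
      · rw [ht, S.s_top]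
        exact h1.trans_le (S.le_top _)
      · exact h2.trans_lt (S.lt_s _ (lt_of_le_of_ne (S.le_top _) ht))
  rw [← hK]
  exact hT.mono F x _ hw _ (up_mem S r F x) (fun i _ => min_le_right _ _)

/-- at a position with `y i = bot` every section is onto -/
theorem Good.bot_sec {T : Pre X I S} (hT : Good r T) (F : Finset I) (i : I) (hi : i ∈ F) (x : X)
    (c : I → S.P) (hc : c ∈ cube S r F x) (hci : c i = S.bot) (σ : T.V (F.erase i) → T.V F)
    (hσ : σ ∈ T.Sec F i x) (v : T.V F) (hv : v ∈ T.K F c) :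
    σ (T.res F (F.erase i) (F.erase_subset i) v) = v := by
  have hce : c ∈ cube S r (F.erase i) x := fun j hj => hc j (Finset.mem_of_mem_erase hj)
  have h1 : T.res F (F.erase i) (F.erase_subset i) v ∈ T.K (F.erase i) c := by
    rw [← hT.nat F (F.erase i) (F.erase_subset i) c ⟨x, hc⟩]
    exact ⟨v, hv, rfl⟩
  have h2 : T.res F (F.erase i) (F.erase_subset i) v ∈ T.K (F.erase i) (up S r x) :=
    hT.mono (F.erase i) x c hce _ (up_mem S r _ x)
      (fun j hj => (ps_le_cube hce hj).2) h1
  exact hT.bot_inj F i hi c ⟨x, hc⟩ hci _ (hT.sec_K F i x hi σ hσ c hc _ h1) v hv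
    (hT.sec_res F i x hi σ hσ _ h2)

/-- the base vertex of letter `j` -/
theorem Good.bot_unique [ConnectedSpace X] (hr : Let r) {T : Pre X I S} (hT : Good r T) (j : I) :
    ∃ v, T.K {j} (fun _ => S.bot) = {v} := by
  have hB : (fun _ => S.bot) ∈ BB S r {j} := pos_mem_one hr j S.bot
  obtain ⟨v, hv⟩ := (hT.conn {j} _ hB).1
  refine ⟨v, Set.eq_singleton_iff_unique_mem.2 ⟨hv, fun w hw => ?_⟩⟩
  have hE : ∀ (G : Finset I), G = ∅ → ∀ a b : T.V G, a = b := by
    intro G hG
    subst hG
    exact hT.empt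
  exact hT.bot_inj {j} j (Finset.mem_singleton_self j) _ hB rfl w hw v hv
    (hE _ (by simp) _ _)

end Pool.Agent.H26DI
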