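import Pool.Agent.Helper26.DD.Defs

/-!
# DD module II-1: threads form a compact Hausdorff space; existence of threads (Koenig).

`CompactSpace`, `T2Space`: `Thread T` is a closed subset of a product of finite discrete spaces
(each of the three conditions is closed because it concerns finitely many coordinates of
discrete spaces).

`Thread.dn`: from the one-step condition by induction on `m` (use `dn_dn`, `dn_self`).

`exists_thread`: in the compact space `∀ m F, T.V m F` let
`C M F' = {z | ∃ v ∈ A M F', ∀ m (h : m ≤ M) F (hF : F ⊆ F'), z m F = dn m M h F (res M F' F hF v)}`.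
It is closed (finite union, over `v`, of closed sets), nonempty (all `V m F` are nonempty as
`A m F` is), and antitone in `(M, F')` (if `v' ∈ A M' F''` then `dn (res v') ∈ A M F'`; the
iterated map maps `A` into `A` by induction), and the index set is directed. A point of the
intersection is the wanted thread.
-/

set_option autoImplicit false

namespace Pool.Agent.H26DD

variable {X : Type} [TopologicalSpace X] {ι : Type} [DecidableEq ι] {L : Letters X ι}

theorem isClosed_all {P : Type} [TopologicalSpace P] {A : Sort*} {p : A → P → Prop}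
    (h : ∀ a, IsClosed {z | p a z}) : IsClosed {z | ∀ a, p a z} := by
  have h1 : {z | ∀ a, p a z} = ⋂ a, {z | p a z} := by
    ext z
    simp
  rw [h1]
  exact isClosed_iInter h

theorem continuous_coord (T : Tow L) (m : ℕ) (F : Finset ι) :
    Continuous (fun z : ∀ (m : ℕ) (F : Finset ι), T.V m F => z m F) :=
  (continuous_apply F).comp (continuous_apply m)

theorem isClosed_coord (T : Tow L) (m : ℕ) (F : Finset ι) (A : Set (T.V m F)) :
    IsClosed {z : ∀ (m : ℕ) (F : Finset ι), T.V m F | z m F ∈ A} :=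
  (isClosed_discrete A).preimage (continuous_coord T m F)

theorem isClosed_thread (T : Tow L) : IsClosed {z : ∀ (m : ℕ) (F : Finset ι), T.V m F |
    (∀ m F, z m F ∈ T.W m F) ∧
    (∀ m F, T.dn m (m + 1) (Nat.le_succ m) F (z (m + 1) F) = z m F) ∧
    (∀ m F G (h : G ⊆ F), T.res m F G h (z m F) = z m G)} := by
  refine IsClosed.inter ?_ (IsClosed.inter ?_ ?_)
  · exact isClosed_all fun m => isClosed_all fun F => isClosed_coord T m F _
  · exact isClosed_all fun m => isClosed_all fun F => isClosed_eq
      (continuous_of_discreteTopology.comp (continuous_coord T (m + 1) F))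
      (continuous_coord T m F)
  · exact isClosed_all fun m => isClosed_all fun F => isClosed_all fun G => isClosed_all fun h =>
      isClosed_eq (continuous_of_discreteTopology.comp (continuous_coord T m F))
        (continuous_coord T m G)

instance instCompactThread (T : Tow L) : CompactSpace (Thread T) :=
  isCompact_iff_compactSpace.1 (isClosed_thread T).isCompact

instance instT2Thread (T : Tow L) : T2Space (Thread T) :=
  inferInstanceAs (T2Space {z : ∀ (m : ℕ) (F : Finset ι), T.V m F //
    (∀ m F, z m F ∈ T.W m F) ∧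
    (∀ m F, T.dn m (m + 1) (Nat.le_succ m) F (z (m + 1) F) = z m F) ∧
    (∀ m F G (h : G ⊆ F), T.res m F G h (z m F) = z m G)})

theorem Thread.mem_W {T : Tow L} (z : Thread T) (m : ℕ) (F : Finset ι) : z.at m F ∈ T.W m F :=
  z.2.1 m F

theorem Thread.res_at {T : Tow L} (z : Thread T) (m : ℕ) (F G : Finset ι) (h : G ⊆ F) :
    T.res m F G h (z.at m F) = z.at m G := z.2.2.2 m F G h

theorem Thread.dn_at {T : Tow L} (z : Thread T) (k m : ℕ) (h : k ≤ m) (F : Finset ι) :
    T.dn k m h F (z.at m F) = z.at k F := by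
  induction m, h using Nat.le_induction with
  | base => exact T.dn_self k _ F _
  | succ n hn ih =>
    have h1 : T.dn n (n + 1) (Nat.le_succ n) F (z.at (n + 1) F) = z.at n F := z.2.2.1 n F
    rw [← T.dn_dn k n (n + 1) hn (Nat.le_succ n) F, h1]
    exact ih

theorem isClopen_at (T : Tow L) (m : ℕ) (F : Finset ι) (A : Set (T.V m F)) :
    IsClopen {z : Thread T | z.at m F ∈ A} := by
  have h : Continuous (fun z : Thread T => z.at m F) :=
    (continuous_coord T m F).comp continuous_subtype_val
  exact (isClopen_discrete A).preimage h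

theorem continuous_at (T : Tow L) (m : ℕ) (F : Finset ι) :
    Continuous (fun z : Thread T => z.at m F) :=
  (continuous_coord T m F).comp continuous_subtype_val

theorem exists_thread (T : Tow L) (A : ∀ (m : ℕ) (F : Finset ι), Set (T.V m F))
    (hne : ∀ m F, (A m F).Nonempty) (hW : ∀ m F, A m F ⊆ T.W m F)
    (hdn : ∀ m F, ∀ v ∈ A (m + 1) F, T.dn m (m + 1) (Nat.le_succ m) F v ∈ A m F)
    (hres : ∀ m F G (h : G ⊆ F), ∀ v ∈ A m F, T.res m F G h v ∈ A m G) :
    ∃ z : Thread T, ∀ m F, z.at m F ∈ A m F := by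
  classical
  have hdnA : ∀ k m (h : k ≤ m) F, ∀ v ∈ A m F, T.dn k m h F v ∈ A k F := by
    intro k m h F
    induction m, h using Nat.le_induction with
    | base =>
      intro v hv
      rw [T.dn_self]
      exact hv
    | succ n hn ih =>
      intro v hv
      rw [← T.dn_dn k n (n + 1) hn (Nat.le_succ n) F]
      exact ih _ (hdn n F v hv)
  let C : ℕ × Finset ι → Set (∀ (m : ℕ) (F : Finset ι), T.V m F) := fun q =>
    ⋃ v ∈ A q.1 q.2, {z | ∀ (m : ℕ) (h : m ≤ q.1) (F : Finset ι) (hF : F ⊆ q.2),
      z m F = T.dn m q.1 h F (T.res q.1 q.2 F hF v)}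
  have hmem : ∀ q z, z ∈ C q ↔ ∃ v ∈ A q.1 q.2, ∀ (m : ℕ) (h : m ≤ q.1) (F : Finset ι)
      (hF : F ⊆ q.2), z m F = T.dn m q.1 h F (T.res q.1 q.2 F hF v) := by
    intro q z
    simp only [C, Set.mem_iUnion, exists_prop]
    rfl
  have hcl : ∀ q, IsClosed (C q) := by
    intro q
    refine Set.Finite.isClosed_biUnion (Set.toFinite _) fun v _ => ?_
    exact isClosed_all fun m => isClosed_all fun h => isClosed_all fun F =>
      isClosed_all fun hF => isClosed_eq (continuous_coord T m F) continuous_const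
  have hnon : ∀ q, (C q).Nonempty := by
    intro q
    obtain ⟨v, hv⟩ := hne q.1 q.2
    refine ⟨fun m F => if h : m ≤ q.1 ∧ F ⊆ q.2 then T.dn m q.1 h.1 F (T.res q.1 q.2 F h.2 v)
      else (hne m F).some, (hmem q _).2 ⟨v, hv, fun m h F hF => ?_⟩⟩
    exact dif_pos ⟨h, hF⟩
  have hanti : ∀ q q', q.1 ≤ q'.1 → q.2 ⊆ q'.2 → C q' ⊆ C q := by
    intro q q' h1 h2 z hz
    obtain ⟨v, hv, hz⟩ := (hmem q' z).1 hz
    refine (hmem q z).2 ⟨T.dn q.1 q'.1 h1 q.2 (T.res q'.1 q'.2 q.2 h2 v),
      hdnA _ _ h1 _ _ (hres _ _ _ h2 v hv), fun m h F hF => ?_⟩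
    rw [hz m (h.trans h1) F (hF.trans h2), ← T.dn_res, T.dn_dn, T.res_res]
  have hdir : Directed (· ⊇ ·) C := by
    intro q q'
    exact ⟨(max q.1 q'.1, q.2 ∪ q'.2),
      hanti q _ (le_max_left _ _) Finset.subset_union_left,
      hanti q' _ (le_max_right _ _) Finset.subset_union_right⟩
  obtain ⟨z, hz⟩ := IsCompact.nonempty_iInter_of_directed_nonempty_isCompact_isClosed
    C hdir hnon (fun q => (hcl q).isCompact) hcl
  rw [Set.mem_iInter] at hz
  have key : ∀ m F, ∃ v ∈ A m F, z m F = v ∧ (∀ k (h : k ≤ m), z k F = T.dn k m h F v) ∧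
      ∀ G (h : G ⊆ F), z m G = T.res m F G h v := by
    intro m F
    obtain ⟨v, hv, h1⟩ := (hmem (m, F) z).1 (hz (m, F))
    refine ⟨v, hv, ?_, ?_, ?_⟩
    · rw [h1 m (le_refl m) F (Finset.Subset.refl F), T.dn_self, T.res_self]
    · intro k h
      rw [h1 k h F (Finset.Subset.refl F), T.res_self]
    · intro G h
      rw [h1 m (le_refl m) G h, T.dn_self]
  refine ⟨⟨z, ?_, ?_, ?_⟩, ?_⟩
  · intro m F
    obtain ⟨v, hv, h1, -, -⟩ := key m F
    rw [h1]
    exact hW m F hv
  · intro m F
    obtain ⟨v, hv, h1, h2, -⟩ := key (m + 1) F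
    rw [h1, h2 m (Nat.le_succ m)]
  · intro m F G h
    obtain ⟨v, hv, h1, -, h3⟩ := key m F
    rw [h1, h3 G h]
  · intro m F
    obtain ⟨v, hv, h1, -, -⟩ := key m F
    show z m F ∈ A m F
    rw [h1]
    exact hv

end Pool.Agent.H26DD
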