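import Pool.Agent.Helper26.DD.Near

/-!
# DD module II-8: the relation `tl F i` (common tooth of letter `i`).

`tl_down`: if at stage `m+1` there are `x, σ, p, q` with `Nr4 (σ p) (a.at (m+1) F)` and
`Nr4 (σ q) (b.at (m+1) F)` then at stage `m` there are `x, τ, p', q'` with `Nr2`: `τ` from
`Sec_lift`, `p' = dn p` (`Up_dn`), `nr4_down`.
`tl_closed`: `{a | ...}` is an intersection over `m` of sets which depend on `a.at m F` only.
`tl_sat`: for given `m` use the data of `tl` at stage `m+1` and `tl_down`.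
`not_tl_far`: if `tl` fails, it fails at some stage `m0`; then no `x, σ, p, q` with `Nr4` at stage
`m0+1` and (going down with `Sec_lift`, `Up_dn`, `Nr4_dn`) at any stage `m ≥ m0+1`.
`tl_pair`: restriction to a smaller set of letters `{i}`: if `tl F i a b` then `R {i} a b`: at stage `m`
restrict `σ` to `G = {i}` (`Sec_restr`): `res (σ p) = τ (res p)`, `res p : V m (({i}).erase i)` and
`({i}).erase i = ∅` has only one vertex (`empt`), so `res (σ p) = res (σ q)`; so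
`Nr4 (a.at m {i}) (b.at m {i})` for all `m`; `R_of_nr4`.
-/

set_option autoImplicit false

namespace Pool.Agent.H26DD

variable {X : Type} [TopologicalSpace X] {ι : Type} [DecidableEq ι] {L : Letters X ι}

theorem tl_down (T : Tow L) (F : Finset ι) (i : ι) (hi : i ∈ F) (a b : Thread T) (m : ℕ)
    (h : ∃ x, ∃ σ ∈ T.Sec (m + 1) F i x,
      (∃ p ∈ T.Up (m + 1) (F.erase i) x, Nr4 (T.adj (m + 1) F) (σ p) (a.at (m + 1) F)) ∧
      (∃ q ∈ T.Up (m + 1) (F.erase i) x, Nr4 (T.adj (m + 1) F) (σ q) (b.at (m + 1) F))) :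
    ∃ x, ∃ σ ∈ T.Sec m F i x,
      (∃ p ∈ T.Up m (F.erase i) x, Nr2 (T.adj m F) (σ p) (a.at m F)) ∧
      (∃ q ∈ T.Up m (F.erase i) x, Nr2 (T.adj m F) (σ q) (b.at m F)) := by
  obtain ⟨x, σ, hσ, ⟨p, hp, hpa⟩, ⟨q, hq, hqb⟩⟩ := h
  obtain ⟨τ, hτ, hlift⟩ := T.Sec_lift m F i x hi σ hσ
  refine ⟨x, τ, hτ, ⟨T.dn m (m + 1) (Nat.le_succ m) (F.erase i) p,
    T.Up_dn m (F.erase i) x ⟨p, hp, rfl⟩, ?_⟩, ⟨T.dn m (m + 1) (Nat.le_succ m) (F.erase i) q,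
    T.Up_dn m (F.erase i) x ⟨q, hq, rfl⟩, ?_⟩⟩
  · have h1 := nr4_down T m F _ _ hpa
    rw [hlift p hp, Thread.dn_at] at h1
    exact h1
  · have h1 := nr4_down T m F _ _ hqb
    rw [hlift q hq, Thread.dn_at] at h1
    exact h1

private theorem tl_down4 (T : Tow L) (F : Finset ι) (i : ι) (hi : i ∈ F) (a b : Thread T) (m : ℕ)
    (h : ∃ x, ∃ σ ∈ T.Sec (m + 1) F i x,
      (∃ p ∈ T.Up (m + 1) (F.erase i) x, Nr4 (T.adj (m + 1) F) (σ p) (a.at (m + 1) F)) ∧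
      (∃ q ∈ T.Up (m + 1) (F.erase i) x, Nr4 (T.adj (m + 1) F) (σ q) (b.at (m + 1) F))) :
    ∃ x, ∃ σ ∈ T.Sec m F i x,
      (∃ p ∈ T.Up m (F.erase i) x, Nr4 (T.adj m F) (σ p) (a.at m F)) ∧
      (∃ q ∈ T.Up m (F.erase i) x, Nr4 (T.adj m F) (σ q) (b.at m F)) := by
  obtain ⟨x, σ, hσ, ⟨p, hp, hpa⟩, ⟨q, hq, hqb⟩⟩ := h
  obtain ⟨τ, hτ, hlift⟩ := T.Sec_lift m F i x hi σ hσ
  refine ⟨x, τ, hτ, ⟨T.dn m (m + 1) (Nat.le_succ m) (F.erase i) p,
    T.Up_dn m (F.erase i) x ⟨p, hp, rfl⟩, ?_⟩, ⟨T.dn m (m + 1) (Nat.le_succ m) (F.erase i) q,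
    T.Up_dn m (F.erase i) x ⟨q, hq, rfl⟩, ?_⟩⟩
  · have h1 := Nr4_dn T m (m + 1) (Nat.le_succ m) F _ _ hpa
    rw [hlift p hp, Thread.dn_at] at h1
    exact h1
  · have h1 := Nr4_dn T m (m + 1) (Nat.le_succ m) F _ _ hqb
    rw [hlift q hq, Thread.dn_at] at h1
    exact h1

theorem tl_closed (T : Tow L) (F : Finset ι) (i : ι) (b : Thread T) :
    IsClosed {a | tl T F i a b} := by
  have h : {a | tl T F i a b} = ⋂ m, {a : Thread T | a.at m F ∈ {v : T.V m F |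
      ∃ x, ∃ σ ∈ T.Sec m F i x,
        (∃ p ∈ T.Up m (F.erase i) x, Nr2 (T.adj m F) (σ p) v) ∧
        (∃ q ∈ T.Up m (F.erase i) x, Nr2 (T.adj m F) (σ q) (b.at m F))}} := by
    ext a
    simp only [Set.mem_setOf_eq, Set.mem_iInter]
    rfl
  rw [h]
  exact isClosed_iInter fun m => (isClopen_at T m F _).1

theorem tl_sat {T : Tow L} {F : Finset ι} {i : ι} (hi : i ∈ F) {a a' b : Thread T}
    (h : tl T F i a b) (h' : R T F a a') : tl T F i a' b := by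
  intro m
  apply tl_down T F i hi a' b m
  obtain ⟨x, σ, hσ, ⟨p, hp, hpa⟩, ⟨q, hq, hqb⟩⟩ := h (m + 1)
  exact ⟨x, σ, hσ, ⟨p, hp, ⟨a.at (m + 1) F, hpa, Nr2_of_adj T (m + 1) F _ _ (h' (m + 1))⟩⟩,
    ⟨q, hq, Nr4_of_Nr2 T (m + 1) F _ _ hqb⟩⟩

theorem not_tl_far {T : Tow L} {F : Finset ι} {i : ι} (hi : i ∈ F) {a b : Thread T}
    (h : ¬ tl T F i a b) :
    ∃ m0, ∀ m ≥ m0, ∀ x, ∀ σ ∈ T.Sec m F i x,
      ¬ ((∃ p ∈ T.Up m (F.erase i) x, Nr4 (T.adj m F) (σ p) (a.at m F)) ∧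
         (∃ q ∈ T.Up m (F.erase i) x, Nr4 (T.adj m F) (σ q) (b.at m F))) := by
  unfold tl at h
  rw [not_forall] at h
  obtain ⟨m0, hm0⟩ := h
  refine ⟨m0 + 1, fun m hm => ?_⟩
  suffices hs : ¬ ∃ x, ∃ σ ∈ T.Sec m F i x,
      (∃ p ∈ T.Up m (F.erase i) x, Nr4 (T.adj m F) (σ p) (a.at m F)) ∧
      (∃ q ∈ T.Up m (F.erase i) x, Nr4 (T.adj m F) (σ q) (b.at m F)) by
    intro x σ hσ hh
    exact hs ⟨x, σ, hσ, hh⟩
  induction m, hm using Nat.le_induction with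
  | base =>
    intro hh
    exact hm0 (tl_down T F i hi a b m0 hh)
  | succ k hk ih =>
    intro hh
    exact ih (tl_down4 T F i hi a b k hh)

theorem tl_pair {T : Tow L} {F : Finset ι} {i : ι} (hi : i ∈ F) {a b : Thread T}
    (h : tl T F i a b) : R T {i} a b := by
  have hsub : ({i} : Finset ι) ⊆ F := Finset.singleton_subset_iff.2 hi
  have key : ∀ (m : ℕ) (E : Finset ι), E = ∅ → ∀ v w : T.V m E, v = w := by
    rintro m _ rfl
    exact T.empt m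
  apply R_of_nr4
  intro m
  obtain ⟨x, σ, hσ, ⟨p, hp, hpa⟩, ⟨q, hq, hqb⟩⟩ := h m
  obtain ⟨τ, hτ, hres⟩ := T.Sec_restr m F {i} i x hsub (Finset.mem_singleton_self i) σ hσ
  have h1 := Nr2_res T m F {i} hsub _ _ hpa
  have h2 := Nr2_res T m F {i} hsub _ _ hqb
  rw [hres p hp, Thread.res_at] at h1
  rw [hres q hq, Thread.res_at] at h2
  rw [key m _ (Finset.erase_singleton i) (T.res m (F.erase i) (({i} : Finset ι).erase i)
    (Finset.erase_subset_erase i hsub) q) (T.res m (F.erase i) (({i} : Finset ι).erase i)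
    (Finset.erase_subset_erase i hsub) p)] at h2
  exact ⟨_, Nr2_symm T m {i} _ _ h1, h2⟩

end Pool.Agent.H26DD
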