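import Pool.Agent.Helper26.DD.Sat
import Pool.Agent.Helper26.DD.Surj

/-!
# DD module II-13: teeth (section 9).

Write `F' = F.erase i`, `S : Tooth T F i`, `D m = Up m F' x` and `σ m ∈ Sec m F i x` for a
common `x` for all `m ≤ M`.
`D_dn`: `dn '' D (m+1) ⊆ D m` (`Up_dn` for the `x` of `real (m+1)`).
`hat_closed`: intersection over `m` of clopen sets.
`hat_through`: let `v : V k G`, `G ⊆ F`, be such that for every `M ≥ k` some `d ∈ D M` has
`dn k M (res M F G (σ M d)) = v`. Then some `z ∈ hat` has `z.at k G = v`. Proof: the closed sets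
`{z | z.at k G = v ∧ z.at M F' ∈ D M ∧ z.at M F = σ M (z.at M F')}` (`M ≥ k`) are decreasing in `M` (by
`comp`) and nonempty: take `d` and a thread through `σ M d` at `(M,F)` (`exists_at`, `Sec_Up`, `Up_W`);
by `Sec_res` its vertex at `(M,F')` is `d`. A common point is in `hat` (for `m < k` use
`D_dn`, `comp`).
`hat_ne`: `hat_through` with `k = 0`, `G = F`: the sets `dn 0 M '' (σ M '' D M)` are nonempty,
decreasing in `M` subsets of a finite set.
`hat_conn`: (for `G ⊆ F`) the sets `I M = dn k M '' (res '' (σ M '' D M))` are decreasing, hence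
constant for large `M`; by `hat_through` the image of `hat` at `(k,G)` is that constant value; it is
connected as `D M = Up M F' x` is (`Up_conn`, `Sec_hom`, `dn_adj`, `res_adj`, `Conn.image`).
`inj_hat`: `z, z' ∈ hat`, `R F' z z'`: `σ m` preserves adjacency on `D m = Up m F' x` (`Sec_hom`).
`inj`: `z, z' ∈ S.set`, reduce to `hat` with `R_trans`, `R_mono`.
`fc`: `FC_sat_of` and `hat_conn` (`G = F`). `fc_sub`: for `G ⊆ F`.
-/

set_option autoImplicit false

namespace Pool.Agent.H26DD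

variable {X : Type} [TopologicalSpace X] {ι : Type} [DecidableEq ι] {L : Letters X ι}

theorem Tooth.D_step {T : Tow L} {F : Finset ι} {i : ι} (S : Tooth T F i) (m : ℕ)
    (v : T.V (m + 1) (F.erase i)) (hv : v ∈ S.D (m + 1)) :
    T.dn m (m + 1) (Nat.le_succ m) (F.erase i) v ∈ S.D m := by
  obtain ⟨x, hx⟩ := S.real (m + 1)
  have h1 := (hx (m + 1) le_rfl).1
  have h2 := (hx m (Nat.le_succ m)).1
  rw [h1] at hv
  rw [h2]
  exact T.Up_dn m _ x ⟨v, hv, rfl⟩

theorem Tooth.D_dn {T : Tow L} {F : Finset ι} {i : ι} (S : Tooth T F i) (k m : ℕ) (h : k ≤ m)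
    (v : T.V m (F.erase i)) (hv : v ∈ S.D m) : T.dn k m h (F.erase i) v ∈ S.D k := by
  induction m, h using Nat.le_induction with
  | base => rwa [T.dn_self]
  | succ m hkm ih =>
    rw [← T.dn_dn k m (m + 1) hkm (Nat.le_succ m)]
    exact ih _ (S.D_step m v hv)

theorem Tooth.comp_iter {T : Tow L} {F : Finset ι} {i : ι} (S : Tooth T F i) (k m : ℕ)
    (h : k ≤ m) (v : T.V m (F.erase i)) (hv : v ∈ S.D m) :
    T.dn k m h F (S.σ m v) = S.σ k (T.dn k m h (F.erase i) v) := by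
  induction m, h using Nat.le_induction with
  | base => rw [T.dn_self, T.dn_self]
  | succ m hkm ih =>
    rw [← T.dn_dn k m (m + 1) hkm (Nat.le_succ m), ← T.dn_dn k m (m + 1) hkm (Nat.le_succ m),
      S.comp m v hv]
    exact ih _ (S.D_step m v hv)

theorem Tooth.hat_closed_aux {T : Tow L} {F : Finset ι} {i : ι} (S : Tooth T F i) (m : ℕ) :
    IsClosed {z : Thread T | z.at m (F.erase i) ∈ S.D m ∧
      z.at m F = S.σ m (z.at m (F.erase i))} := by
  have h1 : {z : Thread T | z.at m (F.erase i) ∈ S.D m ∧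
      z.at m F = S.σ m (z.at m (F.erase i))} =
      {z : Thread T | z.at m (F.erase i) ∈ S.D m} ∩
      {z : Thread T | z.at m F ∈ {v : T.V m F |
        v = S.σ m (T.res m F (F.erase i) (F.erase_subset i) v)}} := by
    ext z
    simp only [Set.mem_setOf_eq, Set.mem_inter_iff, Thread.res_at]
  rw [h1]
  exact (isClopen_at T m _ _).isClosed.inter (isClopen_at T m _ _).isClosed

theorem Tooth.hat_closed {T : Tow L} {F : Finset ι} {i : ι} (S : Tooth T F i) :
    IsClosed S.hat := by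
  have h1 : S.hat = ⋂ m, {z : Thread T | z.at m (F.erase i) ∈ S.D m ∧
      z.at m F = S.σ m (z.at m (F.erase i))} := by
    ext z
    simp only [Tooth.hat, Set.mem_setOf_eq, Set.mem_iInter]
  rw [h1]
  exact isClosed_iInter fun m => S.hat_closed_aux m

/-- going down in the conditions of `hat` -/
theorem Tooth.hat_down {T : Tow L} {F : Finset ι} {i : ι} (S : Tooth T F i) {z : Thread T}
    {k m : ℕ} (h : k ≤ m) (h1 : z.at m (F.erase i) ∈ S.D m)
    (h2 : z.at m F = S.σ m (z.at m (F.erase i))) :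
    z.at k (F.erase i) ∈ S.D k ∧ z.at k F = S.σ k (z.at k (F.erase i)) := by
  constructor
  · rw [← z.dn_at k m h]
    exact S.D_dn k m h _ h1
  · rw [← z.dn_at k m h F, h2, S.comp_iter k m h _ h1, z.dn_at k m h]

theorem Tooth.hat_through {T : Tow L} {F : Finset ι} {i : ι} (hi : i ∈ F) (S : Tooth T F i)
    (k : ℕ) (G : Finset ι) (hG : G ⊆ F) (v : T.V k G)
    (h : ∀ M (hM : k ≤ M), ∃ d ∈ S.D M, T.dn k M hM G (T.res M F G hG (S.σ M d)) = v) :
    ∃ z ∈ S.hat, z.at k G = v := by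
  let C : ℕ → Set (Thread T) := fun n => {z : Thread T | z.at k G ∈ ({v} : Set (T.V k G))} ∩
    {z : Thread T | z.at (k + n) (F.erase i) ∈ S.D (k + n) ∧
      z.at (k + n) F = S.σ (k + n) (z.at (k + n) (F.erase i))}
  have hC : (⋂ n, C n).Nonempty := by
    apply IsCompact.nonempty_iInter_of_sequence_nonempty_isCompact_isClosed
    · intro n z hz
      exact ⟨hz.1, S.hat_down (by omega) hz.2.1 hz.2.2⟩
    · intro n
      obtain ⟨d, hd, hv⟩ := h (k + n) (Nat.le_add_right k n)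
      obtain ⟨x, hx⟩ := S.real (k + n)
      obtain ⟨hD, hσ⟩ := hx (k + n) le_rfl
      have hd' : d ∈ T.Up (k + n) (F.erase i) x := by rwa [hD] at hd
      have hW : S.σ (k + n) d ∈ T.W (k + n) F :=
        T.Up_W _ _ x (T.Sec_Up _ F i x hi _ hσ d hd')
      obtain ⟨z, hz⟩ := exists_at T (k + n) F _ hW
      have hz' : z.at (k + n) (F.erase i) = d := by
        rw [← z.res_at (k + n) F (F.erase i) (F.erase_subset i), hz]
        exact T.Sec_res _ F i x hi _ hσ d hd'
      refine ⟨z, ?_, ?_, ?_⟩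
      · rw [Set.mem_setOf_eq, Set.mem_singleton_iff, ← hv,
          ← z.dn_at k (k + n) (Nat.le_add_right k n) G, ← z.res_at (k + n) F G hG, hz]
      · rw [hz']
        exact hd
      · rw [hz', hz]
    · exact ((isClopen_at T k G _).isClosed.inter (S.hat_closed_aux _)).isCompact
    · intro n
      exact (isClopen_at T k G _).isClosed.inter (S.hat_closed_aux _)
  obtain ⟨z, hz⟩ := hC
  rw [Set.mem_iInter] at hz
  refine ⟨z, fun m => ?_, (hz 0).1⟩
  exact S.hat_down (Nat.le_add_left m k) (hz m).2.1 (hz m).2.2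

/-- an antitone sequence of subsets of a finite type is eventually constant -/
theorem tooA_stab {V : Type} [Finite V] (I : ℕ → Set V) (h : ∀ n, I (n + 1) ⊆ I n) :
    ∃ N, ∀ n ≥ N, I n = I N := by
  have h1 : ∀ m n, m ≤ n → I n ⊆ I m := by
    intro m n hmn
    induction n, hmn using Nat.le_induction with
    | base => exact subset_rfl
    | succ n _ ih => exact (h n).trans ih
  obtain ⟨N, hN⟩ := WellFounded.has_min (wellFounded_lt (α := Set V)) (Set.range I)
    ⟨I 0, 0, rfl⟩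
  obtain ⟨⟨N', rfl⟩, hmin⟩ := hN
  refine ⟨N', fun n hn => ?_⟩
  by_contra hne
  exact hmin (I n) ⟨n, rfl⟩ ((h1 N' n hn).ssubset_of_ne hne)

/-- the image at `(k, G)` of the stage `k + n` of a tooth -/
def Tooth.im {T : Tow L} {F : Finset ι} {i : ι} (S : Tooth T F i) (k : ℕ) (G : Finset ι)
    (hG : G ⊆ F) (n : ℕ) : Set (T.V k G) :=
  (fun d => T.dn k (k + n) (Nat.le_add_right k n) G (T.res (k + n) F G hG (S.σ (k + n) d))) ''
    S.D (k + n)

theorem Tooth.im_anti {T : Tow L} {F : Finset ι} {i : ι} (S : Tooth T F i) (k : ℕ)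
    (G : Finset ι) (hG : G ⊆ F) (n : ℕ) : S.im k G hG (n + 1) ⊆ S.im k G hG n := by
  rintro v ⟨d, hd, rfl⟩
  refine ⟨T.dn (k + n) (k + n + 1) (Nat.le_succ _) (F.erase i) d, S.D_step (k + n) d hd, ?_⟩
  change T.dn k (k + n) (Nat.le_add_right k n) G (T.res (k + n) F G hG (S.σ (k + n)
    (T.dn (k + n) (k + n + 1) (Nat.le_succ _) (F.erase i) d))) =
    T.dn k (k + n + 1) _ G (T.res (k + n + 1) F G hG (S.σ (k + n + 1) d))
  rw [← S.comp (k + n) d hd, ← T.dn_res, T.dn_dn]

theorem Tooth.im_conn {T : Tow L} {F : Finset ι} {i : ι} (hi : i ∈ F) (S : Tooth T F i) (k : ℕ)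
    (G : Finset ι) (hG : G ⊆ F) (n : ℕ) : Conn (T.adj k G) (S.im k G hG n) := by
  obtain ⟨x, hx⟩ := S.real (k + n)
  obtain ⟨hD, hσ⟩ := hx (k + n) le_rfl
  unfold Tooth.im
  rw [hD]
  refine Conn.image (adj := T.adj (k + n) (F.erase i)) _ ?_ (T.Up_conn _ _ _)
  intro a ha b hb hab
  exact T.dn_adj _ _ _ _ _ _ (T.res_adj _ _ _ _ _ _ (T.Sec_hom _ F i x hi _ hσ a ha b hb hab))

theorem Tooth.hat_im {T : Tow L} {F : Finset ι} {i : ι} (hi : i ∈ F) (S : Tooth T F i) (k : ℕ)
    (G : Finset ι) (hG : G ⊆ F) :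
    ∃ N, (fun z : Thread T => z.at k G) '' S.hat = S.im k G hG N := by
  obtain ⟨N, hN⟩ := tooA_stab (S.im k G hG) (S.im_anti k G hG)
  refine ⟨N, Set.Subset.antisymm ?_ ?_⟩
  · rintro _ ⟨z, hz, rfl⟩
    refine ⟨z.at (k + N) (F.erase i), (hz (k + N)).1, ?_⟩
    change T.dn k (k + N) _ G (T.res (k + N) F G hG (S.σ (k + N) (z.at (k + N) (F.erase i)))) =
      z.at k G
    rw [← (hz (k + N)).2, z.res_at, z.dn_at]
  · intro v hv
    have h1 : ∀ n, v ∈ S.im k G hG n := by
      intro n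
      by_cases hn : N ≤ n
      · rw [hN n hn]
        exact hv
      · have h2 : ∀ m, n ≤ m → S.im k G hG m ⊆ S.im k G hG n := by
          intro m hm
          induction m, hm using Nat.le_induction with
          | base => exact subset_rfl
          | succ m _ ih => exact (S.im_anti k G hG m).trans ih
        exact h2 N (by omega) hv
    obtain ⟨z, hz, hz'⟩ := S.hat_through hi k G hG v (by
      intro M hM
      obtain ⟨n, rfl⟩ := Nat.exists_eq_add_of_le hM
      obtain ⟨d, hd, hd'⟩ := h1 n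
      exact ⟨d, hd, hd'⟩)
    exact ⟨z, hz, hz'⟩

theorem Tooth.hat_conn {T : Tow L} {F : Finset ι} {i : ι} (hi : i ∈ F) (S : Tooth T F i)
    (k : ℕ) (G : Finset ι) (hG : G ⊆ F) :
    Conn (T.adj k G) ((fun z : Thread T => z.at k G) '' S.hat) := by
  obtain ⟨N, hN⟩ := S.hat_im hi k G hG
  rw [hN]
  exact S.im_conn hi k G hG N

theorem Tooth.hat_ne {T : Tow L} {F : Finset ι} {i : ι} (hi : i ∈ F) (S : Tooth T F i) :
    S.hat.Nonempty := by
  have h1 := (S.hat_conn hi 0 F subset_rfl).1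
  exact h1.of_image

theorem Tooth.inj_hat {T : Tow L} {F : Finset ι} {i : ι} (hi : i ∈ F) (S : Tooth T F i)
    {z z' : Thread T} (hz : z ∈ S.hat) (hz' : z' ∈ S.hat) (h : R T (F.erase i) z z') :
    R T F z z' := by
  intro m
  obtain ⟨x, hx⟩ := S.real m
  obtain ⟨hD, hσ⟩ := hx m le_rfl
  obtain ⟨h1, h2⟩ := hz m
  obtain ⟨h1', h2'⟩ := hz' m
  rw [hD] at h1 h1'
  rw [h2, h2']
  exact T.Sec_hom m F i x hi _ hσ _ h1 _ h1' (h m)

theorem Tooth.inj {T : Tow L} {F : Finset ι} {i : ι} (hi : i ∈ F) (S : Tooth T F i)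
    {z z' : Thread T} (hz : z ∈ S.set) (hz' : z' ∈ S.set) (h : R T (F.erase i) z z') :
    R T F z z' := by
  obtain ⟨a, ha, haz⟩ := hz
  obtain ⟨a', ha', haz'⟩ := hz'
  have h1 : R T (F.erase i) a a' :=
    R_trans (R_mono (F.erase_subset i) haz) (R_trans h (R_symm (R_mono (F.erase_subset i) haz')))
  exact R_trans (R_symm haz) (R_trans (S.inj_hat hi ha ha' h1) haz')

theorem Tooth.fc_sub {T : Tow L} {F : Finset ι} {i : ι} (hi : i ∈ F) (S : Tooth T F i)
    (G : Finset ι) (hG : G ⊆ F) : FC T G (sat T G S.hat) :=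
  FC_sat_of S.hat_closed (S.hat_ne hi) fun m => S.hat_conn hi m G hG

theorem Tooth.fc {T : Tow L} {F : Finset ι} {i : ι} (hi : i ∈ F) (S : Tooth T F i) :
    FC T F S.set := S.fc_sub hi F subset_rfl

theorem tooA_empt (T : Tow L) (m : ℕ) (G : Finset ι) (hG : G = ∅) (v w : T.V m G) : v = w := by
  subst hG
  exact T.empt m v w

theorem Tooth.const_hat {T : Tow L} {F : Finset ι} {i : ι} (hi : i ∈ F) (S : Tooth T F i)
    {z z' : Thread T} (hz : z ∈ S.hat) (hz' : z' ∈ S.hat) : R T {i} z z' := by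
  intro m
  have hiF : ({i} : Finset ι) ⊆ F := Finset.singleton_subset_iff.2 hi
  obtain ⟨x, hx⟩ := S.real m
  obtain ⟨hD, hσ⟩ := hx m le_rfl
  obtain ⟨τ, -, hτ⟩ := T.Sec_restr m F {i} i x hiF (Finset.mem_singleton_self i) _ hσ
  obtain ⟨h1, h2⟩ := hz m
  obtain ⟨h1', h2'⟩ := hz' m
  rw [hD] at h1 h1'
  have e : z.at m {i} = z'.at m {i} := by
    rw [← z.res_at m F {i} hiF, ← z'.res_at m F {i} hiF, h2, h2', hτ _ h1, hτ _ h1']
    congr 1
    exact tooA_empt T m _ (by simp) _ _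
  rw [e]
  exact T.arefl m _ _

/-- on the letter `i` itself a tooth of letter `i` is one point -/
theorem Tooth.const {T : Tow L} {F : Finset ι} {i : ι} (hi : i ∈ F) (S : Tooth T F i)
    {z z' : Thread T} (hz : z ∈ S.set) (hz' : z' ∈ S.set) : R T {i} z z' := by
  have hiF : ({i} : Finset ι) ⊆ F := Finset.singleton_subset_iff.2 hi
  obtain ⟨a, ha, haz⟩ := hz
  obtain ⟨a', ha', haz'⟩ := hz'
  exact R_trans (R_symm (R_mono hiF haz)) (R_trans (S.const_hat hi ha ha') (R_mono hiF haz'))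

end Pool.Agent.H26DD
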