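import Pool.Agent.Helper26.DD.TooA
import Pool.Agent.Helper26.DD.TlB

/-!
# DD module II-14: existence of teeth (Koenig), (T1), (T1').

`exists_tooth`: in the compact space `P = ∀ m, Set (V m F') × (V m F' → V m F)` (finite discrete
factors, `F' = F.erase i`) let `C m` be the set of the `(D, σ)` such that there is `x` with
`D k = Up k F' x`, `σ k ∈ Sec k F i x`, and `∀ q ∈ Q, ∃ p ∈ D k, Nr4 (σ k p) (q.at k F)` for all `k ≤ m`,
and `dn (σ (k+1) v) = σ k (dn v)` for `k < m`, `v ∈ D (k+1)`. `C m` is closed (depends on the first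
`m+1` coordinates), decreasing, nonempty (start with the given `σ m` and go down with `Sec_lift`;
`p` goes to `dn p ∈ Up k F' x` by `Up_dn` and `Nr4_dn`). A common point `(D, σ)` is a tooth `S`. For
`q ∈ Q`: the sets `{d ∈ D m | Nr4 (σ m d) (q.at m F)}` are nonempty and mapped into each other by `dn`,
so by `exists_seq_set` (for the sets `σ m '' ...` in `V m F`, with `Sec_res`) there is a thread `z`
with `z.at m F = σ m (d m)`, `d m ∈ D m`, `Nr4 (z.at m F) (q.at m F)` for all `m`; `z.at m F' = d m` by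
`Sec_res`, so `z ∈ hat` and `R F z q`.
`tooth_of_tl`: `Q = {a, b}`.
`tl_of_tooth`: `z ∈ hat`, `R F z a` etc.
-/

set_option autoImplicit false

namespace Pool.Agent.H26DD

/-- a set in a product of discrete spaces which depends on finitely many coordinates is closed -/
theorem isClosed_of_dep {A : ℕ → Type} [∀ m, TopologicalSpace (A m)]
    [∀ m, DiscreteTopology (A m)] (S : Set (∀ m, A m)) (M : ℕ)
    (h : ∀ f g : ∀ m, A m, (∀ k, k ≤ M → f k = g k) → f ∈ S → g ∈ S) : IsClosed S := by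
  rw [← isOpen_compl_iff, isOpen_iff_forall_mem_open]
  intro f hf
  refine ⟨Set.pi (Set.Iic M) (fun k => {f k}), ?_, ?_, ?_⟩
  · intro g hg hgS
    apply hf
    apply h g f _ hgS
    intro k hk
    have := hg k (Set.mem_Iic.2 hk)
    exact Set.mem_singleton_iff.1 this
  · exact isOpen_set_pi (Set.finite_Iic M) (fun k _ => isOpen_discrete _)
  · intro k _
    exact Set.mem_singleton _

variable {X : Type} [TopologicalSpace X] {ι : Type} [DecidableEq ι] {L : Letters X ι}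

/-- going down from stage `m` -/
theorem tower_down (T : Tow L) (F : Finset ι) (i : ι) (hi : i ∈ F) (Q : Set (Thread T)) (x : X) :
    ∀ (m : ℕ) (σ : T.V m (F.erase i) → T.V m F), σ ∈ T.Sec m F i x →
      (∀ q ∈ Q, ∃ p ∈ T.Up m (F.erase i) x, Nr4 (T.adj m F) (σ p) (q.at m F)) →
      ∃ τ : ∀ k, T.V k (F.erase i) → T.V k F, τ m = σ ∧
        (∀ k ≤ m, τ k ∈ T.Sec k F i x) ∧
        (∀ k ≤ m, ∀ q ∈ Q, ∃ p ∈ T.Up k (F.erase i) x, Nr4 (T.adj k F) (τ k p) (q.at k F)) ∧
        (∀ k < m, ∀ v ∈ T.Up (k + 1) (F.erase i) x,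
          T.dn k (k + 1) (Nat.le_succ k) F (τ (k + 1) v) =
            τ k (T.dn k (k + 1) (Nat.le_succ k) (F.erase i) v)) := by
  intro m
  induction m with
  | zero =>
    intro σ hσ hQ
    choose τ0 hτ0 using fun k => T.Sec_ne k F i x hi
    refine ⟨Function.update τ0 0 σ, by simp, ?_, ?_, ?_⟩
    · intro k hk
      obtain rfl : k = 0 := Nat.le_zero.1 hk
      simpa using hσ
    · intro k hk q hq
      obtain rfl : k = 0 := Nat.le_zero.1 hk
      simpa using hQ q hq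
    · intro k hk
      omega
  | succ m ih =>
    intro σ hσ hQ
    obtain ⟨τ', hτ', hl⟩ := T.Sec_lift m F i x hi σ hσ
    have hQ' : ∀ q ∈ Q, ∃ p ∈ T.Up m (F.erase i) x, Nr4 (T.adj m F) (τ' p) (q.at m F) := by
      intro q hq
      obtain ⟨p, hp, hn⟩ := hQ q hq
      refine ⟨T.dn m (m + 1) (Nat.le_succ m) (F.erase i) p,
        T.Up_dn m (F.erase i) x ⟨p, hp, rfl⟩, ?_⟩
      have := Nr4_dn T m (m + 1) (Nat.le_succ m) F _ _ hn
      rw [hl p hp, q.dn_at] at this
      exact this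
    obtain ⟨τ, h1, h2, h3, h4⟩ := ih τ' hτ' hQ'
    refine ⟨Function.update τ (m + 1) σ, by simp, ?_, ?_, ?_⟩
    · intro k hk
      rcases Nat.lt_or_eq_of_le hk with hk' | rfl
      · rw [Function.update_of_ne (by omega)]
        exact h2 k (by omega)
      · simpa using hσ
    · intro k hk
      rcases Nat.lt_or_eq_of_le hk with hk' | rfl
      · rw [Function.update_of_ne (by omega)]
        exact h3 k (by omega)
      · simpa using hQ
    · intro k hk v hv
      rcases Nat.lt_or_eq_of_le (Nat.lt_succ_iff.1 hk) with hk' | rfl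
      · rw [Function.update_of_ne (by omega), Function.update_of_ne (by omega)]
        exact h4 k hk' v hv
      · rw [Function.update_self, Function.update_of_ne (by omega), h1]
        exact hl v hv

theorem exists_tooth (T : Tow L) (F : Finset ι) (i : ι) (hi : i ∈ F) (Q : Set (Thread T))
    (h : ∀ m, ∃ x, ∃ σ ∈ T.Sec m F i x, ∀ q ∈ Q, ∃ p ∈ T.Up m (F.erase i) x,
      Nr4 (T.adj m F) (σ p) (q.at m F)) :
    ∃ S : Tooth T F i, Q ⊆ S.set := by
  classical
  let A : ℕ → Type := fun m => Set (T.V m (F.erase i)) × (T.V m (F.erase i) → T.V m F)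
  let _ : ∀ m, TopologicalSpace (A m) := fun m => ⊥
  have _ : ∀ m, DiscreteTopology (A m) := fun m => ⟨rfl⟩
  have _ : ∀ m, Finite (A m) := fun m => by
    change Finite (Set (T.V m (F.erase i)) × (T.V m (F.erase i) → T.V m F))
    infer_instance
  have _ : ∀ m, CompactSpace (A m) := fun m => Finite.compactSpace
  let C : ℕ → Set (∀ m, A m) := fun m => {f | ∃ x,
    (∀ k ≤ m, (f k).1 = T.Up k (F.erase i) x ∧ (f k).2 ∈ T.Sec k F i x) ∧
    (∀ k ≤ m, ∀ q ∈ Q, ∃ p ∈ T.Up k (F.erase i) x, Nr4 (T.adj k F) ((f k).2 p) (q.at k F)) ∧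
    (∀ k < m, ∀ v ∈ T.Up (k + 1) (F.erase i) x,
      T.dn k (k + 1) (Nat.le_succ k) F ((f (k + 1)).2 v) =
        (f k).2 (T.dn k (k + 1) (Nat.le_succ k) (F.erase i) v))}
  have hcl : ∀ m, IsClosed (C m) := by
    intro m
    apply isClosed_of_dep (C m) m
    rintro f g hfg ⟨x, h1, h2, h3⟩
    refine ⟨x, ?_, ?_, ?_⟩
    · intro k hk
      rw [← hfg k hk]
      exact h1 k hk
    · intro k hk
      rw [← hfg k hk]
      exact h2 k hk
    · intro k hk
      rw [← hfg k hk.le, ← hfg (k + 1) hk]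
      exact h3 k hk
  have hne : ∀ m, (C m).Nonempty := by
    intro m
    obtain ⟨x, σ, hσ, hQ⟩ := h m
    obtain ⟨τ, h1, h2, h3, h4⟩ := tower_down T F i hi Q x m σ hσ hQ
    exact ⟨fun k => (T.Up k (F.erase i) x, τ k), x, fun k hk => ⟨rfl, h2 k hk⟩, h3, h4⟩
  have hanti : ∀ m, C (m + 1) ⊆ C m := by
    rintro m f ⟨x, h1, h2, h3⟩
    exact ⟨x, fun k hk => h1 k (by omega), fun k hk => h2 k (by omega),
      fun k hk => h3 k (by omega)⟩
  have hanti' : Antitone C := antitone_nat_of_succ_le hanti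
  obtain ⟨f, hf⟩ := IsCompact.nonempty_iInter_of_sequence_nonempty_isCompact_isClosed C hanti
    hne (hcl 0).isCompact hcl
  rw [Set.mem_iInter] at hf
  let S : Tooth T F i :=
    { D := fun m => (f m).1
      σ := fun m => (f m).2
      real := by
        intro M
        obtain ⟨x, h1, -, -⟩ := hf M
        exact ⟨x, h1⟩
      comp := by
        intro m v hv
        obtain ⟨x, h1, h2, h3⟩ := hf (m + 1)
        apply h3 m (Nat.lt_succ_self m) v
        rw [← (h1 (m + 1) le_rfl).1]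
        exact hv }
  refine ⟨S, ?_⟩
  intro q hq
  let B : ∀ m, Set (T.V m F) := fun m =>
    {u | ∃ d ∈ S.D m, u = S.σ m d ∧ Nr4 (T.adj m F) (S.σ m d) (q.at m F)}
  have hB1 : ∀ m, (B m).Nonempty := by
    intro m
    obtain ⟨x, h1, h2, -⟩ := hf m
    obtain ⟨p, hp, hn⟩ := h2 m le_rfl q hq
    refine ⟨(f m).2 p, p, ?_, rfl, hn⟩
    change p ∈ (f m).1
    rw [(h1 m le_rfl).1]
    exact hp
  have hB2 : ∀ m, B m ⊆ T.W m F := by
    rintro m u ⟨d, hd, rfl, -⟩
    obtain ⟨x, h1⟩ := S.real m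
    obtain ⟨hD, hS⟩ := h1 m le_rfl
    rw [hD] at hd
    exact T.Up_W m F x (T.Sec_Up m F i x hi _ hS d hd)
  have hB3 : ∀ m, ∀ v ∈ B (m + 1), T.dn m (m + 1) (Nat.le_succ m) F v ∈ B m := by
    rintro m v ⟨d, hd, rfl, hn⟩
    refine ⟨T.dn m (m + 1) (Nat.le_succ m) (F.erase i) d,
      S.D_dn m (m + 1) (Nat.le_succ m) d hd, S.comp m d hd, ?_⟩
    have := Nr4_dn T m (m + 1) (Nat.le_succ m) F _ _ hn
    rw [S.comp m d hd, q.dn_at] at this
    exact this
  obtain ⟨z, hz⟩ := exists_seq_set T F B hB1 hB2 hB3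
  refine ⟨z, ?_, ?_⟩
  · intro m
    obtain ⟨d, hd, hzd, -⟩ := hz m
    have hres : z.at m (F.erase i) = d := by
      rw [← z.res_at m F (F.erase i) (F.erase_subset i), hzd]
      obtain ⟨x, h1⟩ := S.real m
      obtain ⟨hD, hS⟩ := h1 m le_rfl
      rw [hD] at hd
      exact T.Sec_res m F i x hi _ hS d hd
    rw [hres]
    exact ⟨hd, hzd⟩
  · apply R_of_nr4
    intro m
    obtain ⟨d, hd, hzd, hn⟩ := hz m
    rw [hzd]
    exact hn

theorem tooth_of_tl {T : Tow L} {F : Finset ι} {i : ι} (hi : i ∈ F) {a b : Thread T}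
    (h : tl T F i a b) : ∃ S : Tooth T F i, a ∈ S.set ∧ b ∈ S.set := by
  obtain ⟨S, hS⟩ := exists_tooth T F i hi {a, b} (by
    intro m
    obtain ⟨x, σ, hσ, ⟨p, hp, hpa⟩, ⟨q, hq, hqb⟩⟩ := h m
    refine ⟨x, σ, hσ, ?_⟩
    intro c hc
    rcases hc with rfl | hc
    · exact ⟨p, hp, Nr4_of_Nr2 T m F _ _ hpa⟩
    · rw [Set.mem_singleton_iff] at hc
      subst hc
      exact ⟨q, hq, Nr4_of_Nr2 T m F _ _ hqb⟩)
  exact ⟨S, hS (Set.mem_insert _ _), hS (Set.mem_insert_of_mem _ (Set.mem_singleton _))⟩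

theorem tl_of_tooth {T : Tow L} {F : Finset ι} {i : ι} (hi : i ∈ F) {a b : Thread T}
    (S : Tooth T F i) (ha : a ∈ S.set) (hb : b ∈ S.set) : tl T F i a b := by
  obtain ⟨z, hz, hza⟩ := ha
  obtain ⟨w, hw, hwb⟩ := hb
  intro m
  obtain ⟨x, h1⟩ := S.real m
  obtain ⟨hD, hS⟩ := h1 m le_rfl
  refine ⟨x, S.σ m, hS, ⟨z.at m (F.erase i), ?_, ?_⟩, ⟨w.at m (F.erase i), ?_, ?_⟩⟩
  · rw [← hD]
    exact (hz m).1
  · rw [← (hz m).2]
    exact Nr2_of_adj T m F _ _ (hza m)
  · rw [← hD]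
    exact (hw m).1
  · rw [← (hw m).2]
    exact Nr2_of_adj T m F _ _ (hwb m)

end Pool.Agent.H26DD
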