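import Pool.Agent.Helper26.DD.StepA
import Pool.Agent.Helper26.DD.Iter
import Pool.Agent.Helper26.DD.Defs

/-!
# DD module I-22: the tower of a letter system.
-/

set_option autoImplicit false

namespace Pool.Agent.H26DI

open Topology Pool.Agent.Helper85.DT

variable {X I : Type} [DecidableEq I] [TopologicalSpace X]

theorem letOf (L : Pool.Agent.H26DD.Letters X I) : Let L.r where
  cont := L.cont
  bd := fun i x => ⟨L.nonneg i x, L.le_one i x⟩
  lam := L.lam
  top := L.top
  bot := L.bot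

theorem conn_of_cn {V : Type} {adj : V → V → Prop} {A : Set V} (h : Cn adj A) :
    Pool.Agent.H26DD.Conn adj A := by
  refine ⟨h.1, fun a ha b hb => ?_⟩
  have h1 := h.2 a ha b hb
  have : ∀ c, Relation.ReflTransGen (fun a b => adj a b ∧ b ∈ A) a c →
      c ∈ A ∧ Relation.ReflTransGen (fun u v => u ∈ A ∧ v ∈ A ∧ adj u v) a c := by
    intro c hc
    induction hc with
    | refl => exact ⟨ha, Relation.ReflTransGen.refl⟩
    | tail _ hbc ih => exact ⟨hbc.2, ih.2.tail ⟨ih.1, hbc.2, hbc.1⟩⟩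
  exact (this b h1).2

theorem nu_eq (a : Fin 9) : Pool.Agent.H26DD.nu a.val = (nu a).val := by
  revert a; decide

variable [CompactSpace X] [ConnectedSpace X]

/-- the base vertex at stage `m` -/
noncomputable def oo {r : I → X → ℝ} (hr : Let r) (m : ℕ) (j : I) : (stg hr m).T.V {j} :=
  Classical.choose ((stg hr m).h.toGood.bot_unique hr j)

theorem oo_spec {r : I → X → ℝ} (hr : Let r) (m : ℕ) (j : I) :
    (stg hr m).T.K {j} (fun _ => (stg hr m).S.bot) = {oo hr m j} :=
  Classical.choose_spec ((stg hr m).h.toGood.bot_unique hr j)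

/-- the bonding maps -/
noncomputable def bd {r : I → X → ℝ} (hr : Let r) (F : Finset I) (m : ℕ)
    (v : (stg hr (m + 1)).T.V F) : (stg hr m).T.V F := (stg hr m).bond hr F v

theorem bot_le_low {r : I → X → ℝ} (hr : Let r) (m : ℕ) (j : I) (x : X) :
    (stg hr m).T.K {j} (fun _ => (stg hr m).S.bot) ⊆
      (stg hr m).T.K {j} (low (stg hr m).S r x) :=
  (stg hr m).h.toGood.mono_BB hr {j} _ _ (pos_mem_one hr j _) ⟨x, low_mem _ r _ x⟩
    fun i _ => (stg hr m).S.bot_le _

theorem low_bot {r : I → X → ℝ} (hr : Let r) (m : ℕ) (j : I) (x : X)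
    (h : ps (stg hr m).S r j x = (stg hr m).S.bot) :
    (stg hr m).T.K {j} (low (stg hr m).S r x) =
      (stg hr m).T.K {j} (fun _ => (stg hr m).S.bot) := by
  apply (stg hr m).T.K_congr
  intro i hi
  rw [Finset.mem_singleton] at hi
  subst hi
  exact h

theorem up_mono_leF {r : I → X → ℝ} (hr : Let r) (m : ℕ) (F : Finset I) (x x' : X)
    (h : ∀ i ∈ F, r i x ≤ r i x') :
    (stg hr m).T.K F (up (stg hr m).S r x) ⊆ (stg hr m).T.K F (up (stg hr m).S r x') :=
  (stg hr m).h.toGood.mono_BB hr F _ _ ⟨x, up_mem _ r _ x⟩ ⟨x', up_mem _ r _ x'⟩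
    fun i hi => (stg hr m).S.s_mono (ps_mono hr.bd (h i hi))

/-- the fold property of the tower -/
theorem tow_fold {r : I → X → ℝ} (hr : Let r) (m : ℕ) (E : Finset I)
    (φ : (stg hr m).T.V E → ℕ) (h4 : ∀ v, φ v ≤ 4)
    (hh : ∀ v w, (stg hr m).T.adj E v w → φ v ≤ φ w + 1)
    (hlo : ∃ v ∈ (stg hr m).T.K E (fun _ => (stg hr m).S.top), φ v ≤ 1)
    (hhi : ∃ v ∈ (stg hr m).T.K E (fun _ => (stg hr m).S.top), 3 ≤ φ v)
    (hlb : ∀ x, (∃ v ∈ (stg hr m).T.K E (up (stg hr m).S r x), φ v ≤ 1) →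
      (∃ v ∈ (stg hr m).T.K E (up (stg hr m).S r x), 3 ≤ φ v) →
      ∃ v ∈ (stg hr m).T.K E (low (stg hr m).S r x), φ v ≤ 1 ∨ 3 ≤ φ v)
    (hlc : ∀ x i, i ∈ E → ∀ σ ∈ (stg hr m).T.Sec E i x,
      ¬ ((∃ v ∈ (stg hr m).T.K (E.erase i) (up (stg hr m).S r x), φ (σ v) ≤ 1) ∧
         (∃ v ∈ (stg hr m).T.K (E.erase i) (up (stg hr m).S r x), 3 ≤ φ (σ v)))) :
    ∃ u : (stg hr (m + 1)).T.V E → ℕ, (∀ a, u a ≤ 8) ∧
      (∀ a b, (stg hr (m + 1)).T.adj E a b → u a ≤ u b + 1) ∧
      ∀ a, Pool.Agent.H26DD.nu (u a) = φ (bd hr E m a) := by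
  let φ' : (stg hr m).T.V E → Fin 5 := fun v => ⟨φ v, Nat.lt_succ_of_le (h4 v)⟩
  have hL : Legal r (stg hr m).T E φ' := by
    refine ⟨fun v w h => ⟨hh v w h, hh w v ((stg hr m).T.asymm E _ _ h)⟩, hlo, hhi, ?_, hlc⟩
    intro x h1 h2
    obtain ⟨v, hv, h3⟩ := hlb x h1 h2
    rcases h3 with h3 | h3
    · exact Or.inl ⟨v, hv, h3⟩
    · exact Or.inr ⟨v, hv, h3⟩
  obtain ⟨u, h1, h2⟩ := bond_coord hr (stg hr m) E φ' hL
  refine ⟨fun a => (u a).val, fun a => Nat.le_of_lt_succ (u a).isLt, fun a b h => (h1 a b h).1,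
    fun a => ?_⟩
  rw [nu_eq, h2 a]
  rfl

/-- the tower of a letter system -/
noncomputable def towOf (L : Pool.Agent.H26DD.Letters X I) : Pool.Agent.H26DD.Tow L where
  V := fun m F => (stg (letOf L) m).T.V F
  fin := fun m F => (stg (letOf L) m).T.fin F
  adj := fun m F => (stg (letOf L) m).T.adj F
  arefl := fun m F => (stg (letOf L) m).T.arefl F
  asymm := fun m F => (stg (letOf L) m).T.asymm F
  res := fun m F G h => (stg (letOf L) m).T.res F G h
  res_adj := fun m F G h => (stg (letOf L) m).T.res_adj F G h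
  res_self := fun m F h => (stg (letOf L) m).T.res_self F h
  res_res := fun m F G H h h' => (stg (letOf L) m).T.res_res F G H h h'
  dn := fun k m h F => itr (V := fun m => (stg (letOf L) m).T.V F) (bd (letOf L) F) k m h
  dn_adj := fun k m h F v w hvw =>
    itr_rel (V := fun m => (stg (letOf L) m).T.V F) (bd (letOf L) F)
      (fun m => (stg (letOf L) m).T.adj F)
      (fun m a b hab => bond_adj (letOf L) (stg (letOf L) m) F a b hab) k m h v w hvw
  dn_self := fun m h F v =>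
    itr_self (V := fun m => (stg (letOf L) m).T.V F) (bd (letOf L) F) m h v
  dn_dn := fun j k m h h' F v =>
    itr_itr (V := fun m => (stg (letOf L) m).T.V F) (bd (letOf L) F) j k m h h' v
  dn_res := fun k m h F G hG v =>
    itr_comm (V := fun m => (stg (letOf L) m).T.V F) (W := fun m => (stg (letOf L) m).T.V G)
      (bd (letOf L) F) (bd (letOf L) G) (fun m => (stg (letOf L) m).T.res F G hG)
      (fun m v => bond_res (letOf L) (stg (letOf L) m) F G hG v) k m h v
  sd := fun m F a b c h h' => by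
    rw [itr_one, itr_one]
    exact bond_sd (letOf L) (stg (letOf L) m) F a b c h h'
  empt := fun m => (stg (letOf L) m).h.empt
  Lo := fun m F x => (stg (letOf L) m).T.K F (low (stg (letOf L) m).S L.r x)
  Up := fun m F x => (stg (letOf L) m).T.K F (up (stg (letOf L) m).S L.r x)
  W := fun m F => (stg (letOf L) m).T.K F (fun _ => (stg (letOf L) m).S.top)
  Lo_Up := fun m F x => (stg (letOf L) m).h.mono F x _ (low_mem _ L.r F x) _ (up_mem _ L.r F x)
    fun i _ => (stg (letOf L) m).S.le_s _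
  Up_W := fun m F x => (stg (letOf L) m).h.toGood.mono_BB (letOf L) F _ _
    ⟨x, up_mem _ L.r F x⟩ (top_mem (letOf L) F) fun i _ => (stg (letOf L) m).S.le_top _
  W_top := fun m F w hw => (stg (letOf L) m).T.K_congr F _ _ fun i hi => ps_one (hw i hi)
  Lo_res := fun m F G h x => (stg (letOf L) m).h.nat F G h _ ⟨x, low_mem _ L.r F x⟩
  Up_res := fun m F G h x => (stg (letOf L) m).h.nat F G h _ ⟨x, up_mem _ L.r F x⟩
  Up_conn := fun m F x => conn_of_cn ((stg (letOf L) m).h.conn F _ ⟨x, up_mem _ L.r F x⟩)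
  Lo_dn := fun m F x v hv => by
    obtain ⟨a, ha, h⟩ := bond_low (letOf L) (stg (letOf L) m) F x v hv
    refine ⟨a, ha, ?_⟩
    rw [itr_one]
    exact h
  Up_dn := fun m F x => by
    rintro _ ⟨a, ha, rfl⟩
    rw [itr_one]
    exact bond_up (letOf L) (stg (letOf L) m) F x a ha
  Up_N1 := fun m F x v hv => (stg (letOf L) m).h.step F x v hv
  Up_mono := fun m F x x' h => up_mono_leF (letOf L) m F x x' h
  Up_usc := fun m F x0 => up_usc (letOf L) (stg (letOf L) m).h.toGood F x0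
  Lo_lsc := fun m F x0 => low_lsc (letOf L) (stg (letOf L) m).h.toGood F x0
  Sec := fun m F i x => (stg (letOf L) m).T.Sec F i x
  Sec_ne := fun m F i x hi => (stg (letOf L) m).h.sec_ne F i x hi
  Sec_hom := fun m F i x hi σ hσ a ha b hb h =>
    (stg (letOf L) m).h.sec_hom F i x hi σ hσ a ha b hb h
  Sec_res := fun m F i x hi σ hσ a ha => (stg (letOf L) m).h.sec_res F i x hi σ hσ a ha
  Sec_Up := fun m F i x hi σ hσ a ha =>
    (stg (letOf L) m).h.sec_K F i x hi σ hσ _ (up_mem _ L.r F x) a ha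
  Sec_restr := fun m F G i x h hi σ hσ => (stg (letOf L) m).h.sec_restr F G i x h hi σ hσ
  Sec_lift := fun m F i x hi σ hσ => by
    obtain ⟨τ, hτ, h⟩ := bond_sec (letOf L) (stg (letOf L) m) F i hi x σ hσ
    refine ⟨τ, hτ, fun a ha => ?_⟩
    rw [itr_one, itr_one]
    exact h a ha
  dich := fun m F i x x' hi σ hσ τ hτ => by
    rcases (stg (letOf L) m).h.dich F i x x' hi σ hσ τ hτ with h | h
    · exact Or.inl fun a ha b hb => (h a ha b hb).1
    · exact Or.inr h
  bz := fun m i x => ps (stg (letOf L) m).S L.r i x = (stg (letOf L) m).S.bot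
  bz_zero := fun m i x h => ps_zero h
  bz_one := fun m i x h h' => by
    rw [ps_one h] at h'
    exact absurd h' (ne_of_gt (stg (letOf L) m).S.bot_lt_top)
  bz_succ := fun m i x h => next_bot (letOf L) (stg (letOf L) m) i x h
  o := fun m j => oo (letOf L) m j
  o_dn := fun m j => by
    rw [itr_one]
    have h1 : oo (letOf L) (m + 1) j ∈
        (stg (letOf L) (m + 1)).T.K {j} (fun _ => (stg (letOf L) (m + 1)).S.bot) := by
      rw [oo_spec]; rfl
    have h2 := bond_bot (letOf L) (stg (letOf L) m) j _ h1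
    rw [oo_spec] at h2
    exact h2
  o_Lo := fun m j x => by
    apply bot_le_low (letOf L) m j x
    rw [oo_spec]; rfl
  bz_Lo := fun m j x h => by
    rw [low_bot (letOf L) m j x h, oo_spec]
  bz_Sec := fun m F i x hi h σ hσ v hv =>
    (stg (letOf L) m).h.toGood.bot_sec F i hi x _ (low_mem _ L.r F x) h σ hσ v hv
  nbz := fun m j x h => by
    apply bond_nbz (letOf L) (stg (letOf L) m) j x h
    have : oo (letOf L) (m + 1) j ∈
        (stg (letOf L) (m + 1)).T.K {j} (fun _ => (stg (letOf L) (m + 1)).S.bot) := by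
      rw [oo_spec]; rfl
    exact this
  fold := fun m E φ h4 hh hlo hhi hlb hlc => by
    obtain ⟨u, h1, h2, h3⟩ := tow_fold (letOf L) m E φ h4 hh hlo hhi hlb hlc
    refine ⟨u, h1, h2, fun a => ?_⟩
    rw [itr_one]
    exact h3 a

end Pool.Agent.H26DI
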